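import Pool.Agent.Y760.PZ.Vec

/-!
# The estimate `Pool.Agent.Y760.PZ.core` with coefficients in the span of numbers with a measure of linear
independence (helper217, after helper760)
-/

set_option autoImplicit false

namespace Pool.Agent.Q217.MZ

open Finset Filter Topology Pool.Agent.TH507.ZS Pool.Agent.TH883.Zg Pool.Agent.Y760.PZ

theorem core_w {J ι : Type} [Fintype J] [Fintype ι] (θ : ι → ℝ) (hθ : LM θ) (G : J → ArithmeticFunction ℚ)
    (hG : ∀ j, PB (G j))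
    (hind : ∀ c : J → ℚ, (∀ k, 1 ≤ k → ∑ j, c j * G j k = 0) → c = 0) :
    ∃ B C : ℝ, 1 < B ∧ 1 < C ∧ ∃ n0 : ℕ, ∀ n : ℕ, n0 ≤ n → ∀ a : J → ι → ℤ, a ≠ 0 →
      (∀ j i, |(a j i : ℝ)| ≤ C ^ n) →
      (B ^ n)⁻¹ < |∑ j, (∑ i, (a j i : ℝ) * θ i) * dser (G j) n| := by
  classical
  obtain ⟨A, hA⟩ := common G hG
  obtain ⟨K, hK1, hK⟩ := rank G hind
  obtain ⟨Δ, hΔ0, hΔ⟩ := exists_denom G K
  obtain ⟨κ, c0, hκ, hc0, hmeas⟩ := hθ
  have hKR : (1 : ℝ) ≤ K := by exact_mod_cast hK1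
  have hΔR : (0 : ℝ) < Δ := by exact_mod_cast Nat.pos_of_ne_zero hΔ0
  have hσ : (1 : ℝ) < √(((K : ℝ) + 1) / K) := by
    rw [Real.lt_sqrt (by norm_num), one_pow, one_lt_div (by linarith only [hKR])]
    linarith only
  obtain ⟨C, W, hC, hW, hCW, hpow⟩ := exists_CW hσ hκ
  have hC0 : (0 : ℝ) < C := by linarith only [hC]
  set E : ℝ := 1 + Fintype.card J * (Δ * (A * (K : ℝ) ^ A)) with hE
  have hE1 : 1 ≤ E := by
    rw [hE]
    have : (0 : ℝ) ≤ Fintype.card J * (Δ * (A * (K : ℝ) ^ A)) := by positivity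
    linarith only [this]
  have hE0 : (0 : ℝ) < E := by linarith only [hE1]
  set S : ℝ := ∑ i : ι, |θ i| with hS
  have hS0 : 0 ≤ S := sum_nonneg fun i _ => abs_nonneg _
  set R0 : ℝ := Fintype.card J * (S * (A * ((K : ℝ) + 1) ^ (A + 2) * Z2)) with hR0
  have hZ2 := Z2_nonneg
  obtain ⟨B, hB, n1, hfin⟩ := final (κ0 := c0 / (Δ * E ^ κ)) (R0 := R0)
    (div_pos hc0 (mul_pos hΔR (Real.rpow_pos_of_pos hE0 κ))) hσ hW K hK1
  refine ⟨B, C, hB, hC, n1 + (A + 2), fun n hn a ha haC => ?_⟩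
  obtain ⟨i0, hi0⟩ : ∃ i, (fun j => (a j i : ℚ)) ≠ 0 := by
    by_contra hcon
    push Not at hcon
    apply ha
    funext j i
    have := congrFun (hcon i) j
    simpa using this
  have hex : ∃ m, 1 ≤ m ∧ m ≤ K ∧ ∃ i, ∑ j, (a j i : ℚ) * G j m ≠ 0 := by
    by_contra hcon
    push Not at hcon
    exact hi0 (hK _ fun k hk => by
      rw [mem_Icc] at hk
      exact hcon k hk.1 hk.2 i0)
  set m0 := Nat.find hex with hm0
  obtain ⟨h01, h0K, i1, hi1⟩ : 1 ≤ m0 ∧ m0 ≤ K ∧ ∃ i, ∑ j, (a j i : ℚ) * G j m0 ≠ 0 :=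
    Nat.find_spec hex
  have hmin : ∀ m, 1 ≤ m → m < m0 → ∀ i, ∑ j, (a j i : ℚ) * G j m = 0 := by
    intro m hm1 hm i
    by_contra h
    exact Nat.find_min hex hm ⟨hm1, by omega, i, h⟩
  have hm0R : (1 : ℝ) ≤ m0 := by exact_mod_cast h01
  have hm0K : (m0 : ℝ) ≤ K := by exact_mod_cast h0K
  set x : J → ℝ := fun j => ∑ i, (a j i : ℝ) * θ i with hx
  have hsw : ∀ k : ℕ, ∑ j, x j * (G j k : ℝ) =
      ∑ i : ι, ((∑ j, (a j i : ℚ) * G j k : ℚ) : ℝ) * θ i := by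
    intro k
    simp only [hx, sum_mul]
    rw [sum_comm]
    refine sum_congr rfl fun i _ => ?_
    push_cast
    rw [sum_mul]
    refine sum_congr rfl fun j _ => ?_
    ring
  have hzero : ∀ k, 1 ≤ k → k < m0 → ∑ j, x j * (G j k : ℝ) = 0 := by
    intro k hk hk0
    rw [hsw]
    refine sum_eq_zero fun i _ => ?_
    rw [hmin k hk hk0 i]
    simp
  set q : ι → ℤ := fun i => ∑ j, a j i * ((Δ : ℚ) * G j m0).num with hq
  have hqQ : ∀ i, (q i : ℚ) = Δ * ∑ j, (a j i : ℚ) * G j m0 := by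
    intro i
    rw [hq, mul_sum]
    push_cast
    refine sum_congr rfl fun j _ => ?_
    rw [hΔ j m0 (mem_Icc.2 ⟨h01, h0K⟩)]
    ring
  have hQ0 : q ≠ 0 := by
    intro h
    have h2 := hqQ i1
    rw [h] at h2
    have h3 : (Δ : ℚ) * ∑ j, (a j i1 : ℚ) * G j m0 = 0 := by
      rw [← h2]
      simp
    rcases mul_eq_zero.1 h3 with h4 | h4
    · exact hΔ0 (by exact_mod_cast h4)
    · exact hi1 h4
  have hCn : (1 : ℝ) ≤ C ^ n := one_le_pow₀ hC.le
  have hqb : ∀ i, |(q i : ℝ)| ≤ E * C ^ n := by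
    intro i
    have h1 : (q i : ℝ) = Δ * ∑ j, (a j i : ℝ) * (G j m0 : ℝ) := by exact_mod_cast hqQ i
    rw [h1, abs_mul, abs_of_pos hΔR]
    have h2 : |∑ j, (a j i : ℝ) * (G j m0 : ℝ)| ≤ Fintype.card J * (C ^ n * (A * (K : ℝ) ^ A)) := by
      refine (abs_sum_le_sum_abs _ _).trans ?_
      rw [← nsmul_eq_mul, ← card_univ, ← sum_const]
      refine sum_le_sum fun j _ => ?_
      rw [abs_mul]
      refine mul_le_mul (haC j i) ((hA j m0 h01).trans ?_) (abs_nonneg _) (by positivity)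
      gcongr
    calc (Δ : ℝ) * |∑ j, (a j i : ℝ) * (G j m0 : ℝ)| ≤
        Δ * (Fintype.card J * (C ^ n * (A * (K : ℝ) ^ A))) :=
          mul_le_mul_of_nonneg_left h2 hΔR.le
      _ = (Fintype.card J * (Δ * (A * (K : ℝ) ^ A))) * C ^ n := by ring
      _ ≤ E * C ^ n := by
        refine mul_le_mul_of_nonneg_right ?_ (by positivity)
        rw [hE]
        linarith only
  have hmeasQ := hmeas q hQ0 (E * C ^ n) (one_le_mul_of_one_le_of_one_le hE1 hCn) hqb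
  have hQθ : |∑ i, (q i : ℝ) * θ i| = Δ * |∑ j, x j * (G j m0 : ℝ)| := by
    have h1 : ∑ i, (q i : ℝ) * θ i = Δ * ∑ j, x j * (G j m0 : ℝ) := by
      rw [hsw, mul_sum]
      refine sum_congr rfl fun i _ => ?_
      have h2 : ((q i : ℤ) : ℝ) = Δ * ∑ j, (a j i : ℝ) * (G j m0 : ℝ) := by
        exact_mod_cast hqQ i
      rw [h2]
      push_cast
      ring
    rw [h1, abs_mul, abs_of_pos hΔR]
  rw [hQθ, hpow E n hE0.le] at hmeasQ
  have htail : |∑ j, x j * dser (G j) n - (∑ j, x j * (G j m0 : ℝ)) / (m0 : ℝ) ^ n| ≤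
      R0 * C ^ n / ((m0 : ℝ) + 1) ^ n := by
    have h1 : ∑ j, x j * dser (G j) n - (∑ j, x j * (G j m0 : ℝ)) / (m0 : ℝ) ^ n =
        ∑ j, x j * (dser (G j) n - ∑ m ∈ Ico 1 (m0 + 1), (G j m : ℝ) / (m : ℝ) ^ n) := by
      simp only [mul_sub, sum_sub_distrib]
      congr 1
      have h2 : ∑ j, x j * ∑ m ∈ Ico 1 (m0 + 1), (G j m : ℝ) / (m : ℝ) ^ n =
          ∑ m ∈ Ico 1 (m0 + 1), (∑ j, x j * (G j m : ℝ)) / (m : ℝ) ^ n := by
        simp only [mul_sum, sum_div]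
        rw [sum_comm]
        refine sum_congr rfl fun m _ => sum_congr rfl fun j _ => ?_
        ring
      rw [h2, sum_eq_single m0]
      · intro m hm hne
        rw [mem_Ico] at hm
        rw [hzero m hm.1 (by omega), zero_div]
      · intro h
        exact absurd (mem_Ico.2 ⟨h01, by omega⟩) h
    rw [h1]
    refine (abs_sum_le_sum_abs _ _).trans ?_
    have h3 : ∀ j ∈ (univ : Finset J), |x j * (dser (G j) n -
        ∑ m ∈ Ico 1 (m0 + 1), (G j m : ℝ) / (m : ℝ) ^ n)| ≤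
        C ^ n * S * (A * (((K : ℝ) + 1) ^ (A + 2) / ((m0 : ℝ) + 1) ^ n) * Z2) := by
      intro j _
      rw [abs_mul]
      have h4 := tail (hA j) (show 1 ≤ m0 + 1 by omega) (show A + 2 ≤ n by omega)
      have h5 : ((m0 + 1 : ℕ) : ℝ) = (m0 : ℝ) + 1 := by push_cast; rfl
      rw [h5] at h4
      have h6 : |x j| ≤ C ^ n * S := by
        rw [hx, hS, mul_sum]
        refine (abs_sum_le_sum_abs _ _).trans (sum_le_sum fun i _ => ?_)
        rw [abs_mul]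
        exact mul_le_mul_of_nonneg_right (haC j i) (abs_nonneg _)
      refine mul_le_mul h6 (h4.trans ?_) (abs_nonneg _) (by positivity)
      gcongr
    refine (sum_le_sum h3).trans (le_of_eq ?_)
    rw [sum_const, card_univ, nsmul_eq_mul, hR0]
    ring
  refine hfin n (by omega) m0 h01 h0K _ ?_
  set u : ℝ := ∑ j, x j * (G j m0 : ℝ) with hu
  set T : ℝ := ∑ j, x j * dser (G j) n with hT
  have hmn : (0 : ℝ) < (m0 : ℝ) ^ n := by positivity
  have hWn : (0 : ℝ) < W ^ n := by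
    have : (0 : ℝ) < W := by linarith only [hW]
    positivity
  have hEκ : (0 : ℝ) < E ^ κ := Real.rpow_pos_of_pos hE0 κ
  have h1 : |u| / (m0 : ℝ) ^ n - R0 * C ^ n / ((m0 : ℝ) + 1) ^ n ≤ |T| := by
    have h2 : |u / (m0 : ℝ) ^ n| - |T - u / (m0 : ℝ) ^ n| ≤ |T| := by
      have h3 := abs_sub_abs_le_abs_sub (u / (m0 : ℝ) ^ n) T
      rw [abs_sub_comm] at h3
      linarith only [h3]
    rw [abs_div, abs_of_pos hmn] at h2
    linarith only [h2, htail]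
  have h2 : c0 / (Δ * E ^ κ) ≤ |u| * W ^ n := by
    rw [div_le_iff₀ (mul_pos hΔR hEκ)]
    calc c0 ≤ E ^ κ * W ^ n * (Δ * |u|) := hmeasQ
      _ = |u| * W ^ n * (Δ * E ^ κ) := by ring
  have hR00 : 0 ≤ R0 := by
    rw [hR0]
    positivity
  have h3 : R0 * C ^ n / ((m0 : ℝ) + 1) ^ n * ((m0 : ℝ) ^ n * W ^ n) ≤
      R0 / √(((K : ℝ) + 1) / K) ^ n := by
    set s : ℝ := √(((K : ℝ) + 1) / K) with hs
    have hs0 : 0 < s := by linarith only [hσ]
    have hs2 : s * s = ((K : ℝ) + 1) / K := Real.mul_self_sqrt (by positivity)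
    have h4 : s * s ≤ ((m0 : ℝ) + 1) / m0 := by
      rw [hs2, div_le_div_iff₀ (by linarith only [hKR]) (by linarith only [hm0R])]
      nlinarith only [hm0K]
    have h5 : R0 * C ^ n / ((m0 : ℝ) + 1) ^ n * ((m0 : ℝ) ^ n * W ^ n) =
        R0 * (s ^ n * ((m0 : ℝ) / ((m0 : ℝ) + 1)) ^ n) := by
      rw [← hCW, mul_pow C W, div_pow (m0 : ℝ)]
      ring
    rw [h5, div_eq_mul_inv]
    refine mul_le_mul_of_nonneg_left ?_ hR00
    rw [← mul_pow, ← inv_pow]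
    refine pow_le_pow_left₀ (by positivity) ?_ n
    rw [show s⁻¹ = 1 / s from (one_div s).symm, le_div_iff₀ hs0]
    have hm1 : (0 : ℝ) < (m0 : ℝ) + 1 := by linarith only [hm0R]
    have hm2 : (0 : ℝ) < (m0 : ℝ) := by linarith only [hm0R]
    calc s * ((m0 : ℝ) / ((m0 : ℝ) + 1)) * s = s * s * ((m0 : ℝ) / ((m0 : ℝ) + 1)) := by ring
      _ ≤ ((m0 : ℝ) + 1) / m0 * ((m0 : ℝ) / ((m0 : ℝ) + 1)) :=
        mul_le_mul_of_nonneg_right h4 (by positivity)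
      _ = 1 := by field_simp
  calc c0 / (Δ * E ^ κ) - R0 / √(((K : ℝ) + 1) / K) ^ n ≤
      |u| * W ^ n - R0 * C ^ n / ((m0 : ℝ) + 1) ^ n * ((m0 : ℝ) ^ n * W ^ n) := sub_le_sub h2 h3
    _ = (|u| / (m0 : ℝ) ^ n - R0 * C ^ n / ((m0 : ℝ) + 1) ^ n) * ((m0 : ℝ) ^ n * W ^ n) := by
      field_simp
    _ ≤ |T| * ((m0 : ℝ) ^ n * W ^ n) :=
      mul_le_mul_of_nonneg_right h1 (mul_pos hmn hWn).le

end Pool.Agent.Q217.MZ
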