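import Pool.Agent.TH507.DS.D
import Pool.Agent.Q217.MZ.Vec
import Pool.Agent.TH456.TM.Inst
import Pool.Agent.TH456.TM.Close

/-!
# Multiple zeta values with affine arguments, coefficients in the span of numbers with a measure of linear
independence (helper217)

The word functions of `Pool.Agent.TH507.WG` (helper507) in the estimate of `Pool.Agent.Q217.MZ.Vec`.
-/

set_option autoImplicit false

namespace Pool.Agent.Q217.MZ

open Finset Filter Topology
open Pool.Agent.TH507.WD (mz)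
open Pool.Agent.TH507.WG (HP OK ar cf cf_zero cf_bd cf1_ind dser_eq_mz stl stl_ok T_nil)
open Pool.Agent.TH507.DS (coM expandM wtM stl_wt)
open Pool.Agent.TH507.ZS (dser PB)
open Pool.Agent.Y760.PZ (LM LM_pow)

/-- the arithmetic function of a word -/
def cfb (w : List (ℕ × ℕ)) : ArithmeticFunction ℚ := ⟨cf 1 w, cf_zero w⟩

lemma ind_words (Λ : Finset (List (ℕ × ℕ))) (hHP : ∀ w ∈ Λ, HP w) (hOK : ∀ w ∈ Λ, OK w) :
    ∀ c : Λ → ℚ, (∀ k, 1 ≤ k → ∑ j, c j * cfb j.1 k = 0) → c = 0 := by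
  classical
  intro y hy
  have h1 := cf1_ind (Λ.erase []) (by simp) (fun w hw => hHP w (mem_erase.1 hw).2)
    (fun w hw => hOK w (mem_erase.1 hw).2) (fun w => if hw : w ∈ Λ then y ⟨w, hw⟩ else 0) 1 2 le_rfl (by
      intro K hK _
      have h2 := hy K (by omega)
      refine Eq.trans ?_ h2
      have h3 : ∑ j : Λ, y j * cfb j.1 K = ∑ w ∈ Λ, (if hw : w ∈ Λ then y ⟨w, hw⟩ else 0) * cf 1 w K := by
        rw [← sum_coe_sort Λ]
        refine sum_congr rfl fun w _ => ?_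
        rw [dif_pos w.2]
        rfl
      rw [h3]
      have h4 : cf 1 ([] : List (ℕ × ℕ)) K = 0 := by
        rw [cf, T_nil, if_neg (by omega)]
      by_cases hn : [] ∈ Λ
      · rw [← add_sum_erase Λ _ hn, h4, mul_zero, zero_add]
      · rw [erase_eq_of_notMem hn])
  have h5 : ∀ w : Λ, w.1 ≠ [] → y w = 0 := by
    intro w hw
    have h6 := h1 w.1 (mem_erase.2 ⟨hw, w.2⟩)
    rw [dif_pos w.2] at h6
    exact h6
  funext w
  by_cases hw : w.1 = []
  · have h6 := hy 1 le_rfl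
    rw [sum_eq_single w] at h6
    · have h7 : cfb w.1 1 = 1 := by
        show cf 1 w.1 1 = 1
        rw [hw, cf, T_nil, if_pos rfl]
      rw [h7, mul_one] at h6
      exact h6
    · intro v _ hv
      rw [h5 v (fun h => hv (Subtype.ext (h.trans hw.symm))), zero_mul]
    · intro h
      exact absurd (mem_univ _) h
  · exact h5 w hw

/-- **the main estimate** -/
theorem affine {ι : Type} [Fintype ι] (θ : ι → ℝ) (hθ : LM θ) (𝓜 : Finset (List (List (ℕ × ℕ))))
    (hM : ∀ M ∈ 𝓜, ∀ u ∈ M, HP u ∧ OK u) :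
    ∃ B C : ℝ, 1 < B ∧ 1 < C ∧ ∃ n0 : ℕ, (∀ n, n0 ≤ n → ∀ M ∈ 𝓜, (M.map List.length).sum + 1 ≤ n) ∧
      ∀ n : ℕ, n0 ≤ n → ∀ c : List (List (ℕ × ℕ)) → ι → ℤ,
      (∀ M ∈ 𝓜, ∀ i, |(c M i : ℝ)| ≤ C ^ n) → (∃ w i, coM 𝓜 (fun M => c M i) w ≠ 0) →
      (B ^ n)⁻¹ < |∑ M ∈ 𝓜, (∑ i, (c M i : ℝ) * θ i) * (M.map fun u => mz (ar n u)).prod| := by
  classical
  set Λ : Finset (List (ℕ × ℕ)) := 𝓜.biUnion fun M => (stl M).toFinset with hΛ
  have hmem : ∀ M ∈ 𝓜, ∀ w ∈ stl M, w ∈ Λ := fun M hM w hw =>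
    mem_biUnion.2 ⟨M, hM, List.mem_toFinset.2 hw⟩
  have hLa : ∀ w ∈ Λ, HP w ∧ OK w := by
    intro w hw
    obtain ⟨M, hM', hw⟩ := mem_biUnion.1 hw
    have h1 := stl_ok M (hM M hM') w (List.mem_toFinset.1 hw)
    exact ⟨h1.1, h1.2.1⟩
  set A : ℕ := ∑ w ∈ Λ, (2 ^ w.length + w.length) with hA
  have hAw : ∀ w ∈ Λ, 2 ^ w.length + w.length ≤ A := fun w hw =>
    single_le_sum (f := fun w : List (ℕ × ℕ) => 2 ^ w.length + w.length)
      (fun _ _ => Nat.zero_le _) hw
  obtain ⟨B, C1, hB, hC1, n1, hmain⟩ := core_w (J := Λ) θ hθ (fun w => cfb w.1)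
    (fun w => ⟨A, fun k hk => cf_bd w.1 ((Nat.le_add_right _ _).trans (hAw w.1 w.2))
      ((Nat.le_add_left _ _).trans (hAw w.1 w.2)) k hk⟩)
    (ind_words Λ (fun w hw => (hLa w hw).1) (fun w hw => (hLa w hw).2))
  -- the growth of the coefficients
  set D : ℝ := 1 + ∑ M ∈ 𝓜, ((stl M).length : ℝ) with hD
  have hD0 : 1 ≤ D := by
    rw [hD]
    have : 0 ≤ ∑ M ∈ 𝓜, ((stl M).length : ℝ) := sum_nonneg fun _ _ => Nat.cast_nonneg _
    linarith
  obtain ⟨C, hC, hCC⟩ : ∃ C : ℝ, 1 < C ∧ C < C1 := exists_between hC1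
  have hgrow : ∀ᶠ n : ℕ in atTop, D * C ^ n ≤ C1 ^ n := by
    have hC0 : 0 < C := by linarith
    have h1 : Tendsto (fun n : ℕ => (C1 / C) ^ n) atTop atTop :=
      tendsto_pow_atTop_atTop_of_one_lt ((one_lt_div hC0).2 hCC)
    filter_upwards [h1.eventually (eventually_ge_atTop D)] with n hn
    rw [div_pow, le_div_iff₀ (pow_pos hC0 n)] at hn
    exact hn
  obtain ⟨n2, hn2⟩ := eventually_atTop.1 hgrow
  refine ⟨B, C, hB, hC, n1 + n2 + A + 2 + ∑ M ∈ 𝓜, ((M.map List.length).sum + 1), fun n hn M hM' => ?_,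
    fun n hn c hc hw => ?_⟩
  · have := single_le_sum (f := fun M : List (List (ℕ × ℕ)) => (M.map List.length).sum + 1)
      (fun _ _ => Nat.zero_le _) hM'
    omega
  have hlen : ∀ M ∈ 𝓜, (M.map List.length).sum + 1 ≤ n := fun M hM' => by
    have := single_le_sum (f := fun M : List (List (ℕ × ℕ)) => (M.map List.length).sum + 1)
      (fun _ _ => Nat.zero_le _) hM'
    omega
  have hg1 := hn2 n (by omega)
  have hbound : ∀ w i, |(coM 𝓜 (fun M => c M i) w : ℝ)| ≤ C1 ^ n := by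
    intro w i
    rw [coM]
    push_cast
    calc |∑ M ∈ 𝓜, (c M i : ℝ) * ((stl M).countP (· = w) : ℝ)| ≤
        ∑ M ∈ 𝓜, |(c M i : ℝ) * ((stl M).countP (· = w) : ℝ)| := abs_sum_le_sum_abs _ _
      _ ≤ ∑ M ∈ 𝓜, C ^ n * ((stl M).length : ℝ) := by
        refine sum_le_sum fun M hM => ?_
        rw [abs_mul, Nat.abs_cast]
        refine mul_le_mul (hc M hM i) ?_ (Nat.cast_nonneg _) (by positivity)
        exact_mod_cast List.countP_le_length
      _ ≤ D * C ^ n := by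
        rw [← mul_sum, hD, mul_comm]
        refine mul_le_mul_of_nonneg_right (by linarith) (by positivity)
      _ ≤ C1 ^ n := hg1
  have h1 := hmain n (by omega) (fun w i => coM 𝓜 (fun M => c M i) w.1) (by
      obtain ⟨w, i, hwi⟩ := hw
      intro h0
      apply hwi
      by_cases hwΛ : w ∈ Λ
      · exact congrFun (congrFun h0 ⟨w, hwΛ⟩) i
      · rw [coM]
        refine sum_eq_zero fun M hM => ?_
        have h2 : (stl M).countP (· = w) = 0 := by
          rw [List.countP_eq_zero]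
          intro v hv hvw
          rw [decide_eq_true_eq] at hvw
          subst hvw
          exact hwΛ (hmem M hM v hv)
        rw [h2, Nat.cast_zero, mul_zero]) (fun w i => hbound w.1 i)
  have h3 : ∀ w : Λ, dser (cfb w.1) n = mz (ar n w.1) := fun w =>
    dser_eq_mz w.1 (hLa w.1 w.2).1 (A := A) ((Nat.le_add_right _ _).trans (hAw w.1 w.2))
      ((Nat.le_add_left _ _).trans (hAw w.1 w.2)) (by omega)
  simp only [h3] at h1
  refine lt_of_lt_of_eq h1 ?_
  congr 1
  have e1 : ∀ i, ∑ M ∈ 𝓜, (c M i : ℝ) * (M.map fun u => mz (ar n u)).prod =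
      ∑ w ∈ Λ, (coM 𝓜 (fun M => c M i) w : ℝ) * mz (ar n w) := fun i =>
    expandM 𝓜 hM hlen (fun M => c M i) Λ hmem
  have e2 : ∑ M ∈ 𝓜, (∑ i, (c M i : ℝ) * θ i) * (M.map fun u => mz (ar n u)).prod =
      ∑ i, θ i * ∑ M ∈ 𝓜, (c M i : ℝ) * (M.map fun u => mz (ar n u)).prod := by
    simp only [mul_sum, sum_mul]
    rw [sum_comm]
    refine sum_congr rfl fun i _ => sum_congr rfl fun M _ => ?_
    ring
  rw [e2]
  simp only [e1]
  rw [sum_coe_sort Λ (fun w => (∑ i, (coM 𝓜 (fun M => c M i) w : ℝ) * θ i) * mz (ar n w))]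
  simp only [mul_sum, sum_mul]
  rw [sum_comm]
  refine sum_congr rfl fun i _ => sum_congr rfl fun w _ => ?_
  ring

/-- if all the coefficients vanish, the combination vanishes, and so do all its parts of fixed weight -/
theorem parts (𝓜 : Finset (List (List (ℕ × ℕ)))) (hM : ∀ M ∈ 𝓜, ∀ u ∈ M, HP u ∧ OK u)
    (c : List (List (ℕ × ℕ)) → ℤ) (h : ∀ w, coM 𝓜 c w = 0) {m : ℕ}
    (hm : ∀ M ∈ 𝓜, (M.map List.length).sum + 1 ≤ m) (p : ℕ) :
    ∑ M ∈ 𝓜 with wtM m M = p, (c M : ℝ) * (M.map fun u => mz (ar m u)).prod = 0 := by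
  classical
  set Λ : Finset (List (ℕ × ℕ)) := 𝓜.biUnion fun M => (stl M).toFinset with hΛ
  have hmem : ∀ M ∈ 𝓜, ∀ w ∈ stl M, w ∈ Λ := fun M hM w hw =>
    mem_biUnion.2 ⟨M, hM, List.mem_toFinset.2 hw⟩
  rw [expandM (𝓜.filter fun M => wtM m M = p) (fun M h => hM M (mem_filter.1 h).1)
    (fun M h => hm M (mem_filter.1 h).1) c Λ (fun M h => hmem M (mem_filter.1 h).1)]
  refine sum_eq_zero fun w hw => ?_
  have h1 : coM (𝓜.filter fun M => wtM m M = p) c w = 0 := by
    by_cases hwp : Pool.Agent.TH507.DS.wt m w = p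
    · rw [← h w, coM, coM, sum_filter]
      refine sum_congr rfl fun M hM' => ?_
      split_ifs with h
      · rfl
      · symm
        have h2 : (stl M).countP (· = w) = 0 := by
          rw [List.countP_eq_zero]
          intro v hv' hvw
          rw [decide_eq_true_eq] at hvw
          subst hvw
          exact h ((stl_wt m M v hv').symm.trans hwp)
        rw [h2, Nat.cast_zero, mul_zero]
    · rw [coM]
      refine sum_eq_zero fun M hM' => ?_
      have h2 : (stl M).countP (· = w) = 0 := by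
        rw [List.countP_eq_zero]
        intro v hv' hvw
        rw [decide_eq_true_eq] at hvw
        subst hvw
        exact hwp ((stl_wt m M v hv').trans (mem_filter.1 hM').2)
      rw [h2, Nat.cast_zero, mul_zero]
  rw [h1, Int.cast_zero, zero_mul]

end Pool.Agent.Q217.MZ
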