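import Pool.Agent.Q217.MZ.PrefixMain

/-!
# The depth filtration and relations of bounded shape (helper217)
-/

set_option autoImplicit false

namespace Pool.Agent.Q217.MZ

open Finset Filter Topology
open Pool.Agent.TH507.WD (mz hr hr_cons hr_nil)
open Pool.Agent.TH507.WG (HP OK ar ar_nil ar_cons st st_OK st_length OK_cons hr_mul stl)

/-- the shuffles of two lists of letters -/
def shf : List (ℕ × ℕ) → List (ℕ × ℕ) → List (List (ℕ × ℕ))
  | [], v => [v]
  | x :: u, [] => [x :: u]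
  | x :: u, y :: v => (shf u (y :: v)).map (x :: ·) ++ (shf (x :: u) v).map (y :: ·)
termination_by u v => u.length + v.length

lemma countP_map_cons (x : ℕ × ℕ) (L : List (List (ℕ × ℕ))) (o : List (ℕ × ℕ)) :
    (L.map (x :: ·)).countP (· = o) = if o.head? = some x then L.countP (· = o.tail) else 0 := by
  rw [List.countP_map]
  cases o with
  | nil =>
    rw [List.head?_nil, if_neg (by simp), List.countP_eq_zero]
    intro a _
    simp
  | cons z o =>
    rw [List.head?_cons, List.tail_cons]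
    by_cases h : z = x
    · subst h
      rw [if_pos rfl]
      refine List.countP_congr fun a _ => ?_
      simp
    · rw [if_neg (by simpa using h), List.countP_eq_zero]
      intro a _
      simp [Ne.symm h]

lemma countP_full (u v : List (ℕ × ℕ)) : ∀ o : List (ℕ × ℕ), o.length = u.length + v.length →
    (st u v).countP (· = o) = (shf u v).countP (· = o) := by
  induction u, v using st.induct with
  | case1 v => intro o _; rw [st, shf]
  | case2 x u => intro o _; rw [st, shf]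
  | case3 x u y v ih1 ih2 ih3 =>
    intro o ho
    rw [st, shf, List.countP_append, List.countP_append, List.countP_append]
    have h3 : ((st u v).map ((x + y) :: ·)).countP (· = o) = 0 := by
      rw [List.countP_eq_zero]
      intro a ha
      rw [List.mem_map] at ha
      obtain ⟨a', ha', rfl⟩ := ha
      have h4 := st_length u v a' ha'
      simp only [decide_eq_true_eq]
      intro h5
      rw [← h5] at ho
      simp only [List.length_cons] at ho
      omega
    rw [h3, add_zero, countP_map_cons, countP_map_cons, countP_map_cons, countP_map_cons]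
    simp only [List.length_cons] at ho ih1 ih2
    rw [ih1 o.tail (by rw [List.length_tail]; omega), ih2 o.tail (by rw [List.length_tail]; omega)]

/-- the coefficients from the decomposition -/
lemma coef_rc (Λ : Finset (List (ℕ × ℕ))) (c : List (ℕ × ℕ) → ℤ) {o : List (ℕ × ℕ)} (ho : o ∈ Λ) :
    c o = ∑ p ∈ prs Λ, rc Λ c p * ((st p.1 p.2).countP (· = o) : ℤ) := by
  classical
  have h := expandE Λ c (fun w => if w = o then (1 : ℤ) else 0)
  simp only [mul_ite, mul_one, mul_zero] at h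
  rw [sum_ite_eq' Λ o, if_pos ho] at h
  rw [h]
  refine sum_congr rfl fun p _ => ?_
  congr 1
  rw [stSum]
  induction st p.1 p.2 with
  | nil => simp
  | cons a L ih =>
    rw [List.map_cons, List.sum_cons, ih, List.countP_cons]
    by_cases h : a = o
    · simp [h]
      ring
    · simp [h]

/-- bounded heights, linear combinations -/
theorem lin_heights (Λ : Finset (List (ℕ × ℕ))) (hΛ : ∀ w ∈ Λ, AdmW w) :
    ∃ N : ℕ, 1 ≤ N ∧ ∀ H : ℕ, ∃ n0 : ℕ, ∀ n, n0 ≤ n → ∀ c : List (ℕ × ℕ) → ℤ, (∀ w ∈ Λ, |c w| ≤ H) →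
      |∑ w ∈ Λ, (c w : ℝ) * mz (ar n w)| ≤ ((N : ℝ) ^ n)⁻¹ → ∀ v, RC Λ (fun w => (c w : ℝ)) cv v = 0 := by
  classical
  obtain ⟨N, hN, h⟩ := prefix_u Λ hΛ
  refine ⟨N, hN, fun H => ?_⟩
  have hfin : Set.Finite {c : Λ → ℤ | ∀ e, |c e| ≤ H} :=
    (Set.Finite.pi' fun _ => Set.finite_Icc (-(H : ℤ)) H).subset fun c hc e => abs_le.1 (hc e)
  have hrcc : ∀ (x y : List (ℕ × ℕ) → ℝ), (∀ w ∈ Λ, x w = y w) → ∀ v, RC Λ x cv v = RC Λ y cv v := by
    intro x y hxy v
    rw [RC, RC]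
    refine sum_congr rfl fun p _ => ?_
    congr 1
    rw [rc, rc]
    exact sum_congr rfl fun w hw => by rw [hxy w hw]
  have hone : ∀ c : Λ → ℤ, ∃ n0 : ℕ,
      (∃ v, RC Λ (fun w => if hw : w ∈ Λ then (c ⟨w, hw⟩ : ℝ) else 0) cv v ≠ 0) → ∀ n, n0 ≤ n →
      ((N : ℝ) ^ n)⁻¹ < |∑ w ∈ Λ, (if hw : w ∈ Λ then (c ⟨w, hw⟩ : ℝ) else 0) * mz (ar n w)| := by
    intro c
    by_cases hc : ∃ v, RC Λ (fun w => if hw : w ∈ Λ then (c ⟨w, hw⟩ : ℝ) else 0) cv v ≠ 0
    · obtain ⟨n0, h0⟩ := h _ hc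
      exact ⟨n0, fun _ => h0⟩
    · exact ⟨0, fun hh => absurd hh hc⟩
  choose n0 hn0 using hone
  obtain ⟨n1, hn1⟩ := (hfin.image n0).bddAbove
  refine ⟨n1, fun n hn c hc hsmall v => ?_⟩
  by_contra hv
  have h1 := hn0 (fun w => c w.1) ⟨v, by
    rw [hrcc _ (fun w => (c w : ℝ)) (fun w hw => by rw [dif_pos hw]) v]
    exact hv⟩ n ((hn1 ⟨_, fun w => hc w.1 w.2, rfl⟩).trans hn)
  apply absurd hsmall (not_le.2 ?_)
  refine lt_of_lt_of_eq h1 ?_
  congr 1
  exact sum_congr rfl fun w hw => by rw [dif_pos hw]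

/-- the span of the values of depth less than `d` and weight `k` -/
noncomputable def LD (d k : ℕ) : Submodule ℚ ℝ :=
  Submodule.span ℚ {x | ∃ l : List ℕ, Pool.Agent.H447R2.MZ.Adm l ∧ l.sum = k ∧ l.length < d ∧ x = mz l}

lemma snd_sum (u : List (ℕ × ℕ)) : (u.map Prod.snd).sum = u.sum.2 := by
  induction u with
  | nil => rfl
  | cons x l ih => rw [List.map_cons, List.sum_cons, List.sum_cons, Prod.snd_add, ih]

/-- **the leading part of a relation of bounded shape and height** -/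
theorem depth_main (r : ℕ) (S : ℕ × ℕ) (Λ : Finset (List (ℕ × ℕ))) (hΛ : ∀ w ∈ Λ, AdmW w) (hr : ∀ w ∈ Λ, w.length ≤ r)
    (hS : ∀ w ∈ Λ, w.sum = S) :
    ∃ N : ℕ, 1 ≤ N ∧ ∀ H : ℕ, ∃ n0 : ℕ, ∀ n, n0 ≤ n → ∀ c : List (ℕ × ℕ) → ℤ, (∀ w ∈ Λ, |c w| ≤ H) →
      |∑ w ∈ Λ, (c w : ℝ) * mz (ar n w)| ≤ ((N : ℝ) ^ n)⁻¹ →
      ∃ (Q : Finset (List (ℕ × ℕ) × List (ℕ × ℕ))) (ρ : List (ℕ × ℕ) × List (ℕ × ℕ) → ℤ),
        (∀ p ∈ Q, (∀ x ∈ p.1, x.1 = 0) ∧ AdmW p.1 ∧ HP p.2 ∧ OK p.2 ∧ p.1.sum + p.2.sum = S ∧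
          p.1.length + p.2.length = r ∧ ∃ w ∈ Λ, w.length = r ∧ p.1 <+: cp w) ∧
        (∀ o ∈ Λ, o.length = r → c o = ∑ p ∈ Q, ρ p * ((shf p.1 p.2).countP (· = o) : ℤ)) ∧
        ∀ v, ∑ p ∈ Q with p.2 = v, (ρ p : ℝ) * cv p.1 ∈ LD (r - v.length) (S.2 - v.sum.2) := by
  classical
  obtain ⟨N, hN, h⟩ := lin_heights Λ hΛ
  refine ⟨N, hN, fun H => ?_⟩
  obtain ⟨n0, h⟩ := h H
  refine ⟨n0, fun n hn c hc hsmall => ?_⟩
  have hRC := h n hn c hc hsmall
  have hpr : ∀ p ∈ prs Λ, (∀ x ∈ p.1, x.1 = 0) ∧ AdmW p.1 ∧ HP p.2 ∧ OK p.2 ∧ p.1.sum + p.2.sum = S ∧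
      p.1.length + p.2.length ≤ r := by
    intro p hp
    obtain ⟨w, hw, hwp⟩ := mem_prs.1 hp
    have hP := E_pair (hΛ w hw) hwp
    exact ⟨hP.c, hP.a1, hP.h, hP.a2, hP.s.trans (hS w hw), hP.l.trans (hr w hw)⟩
  have hpre : ∀ p ∈ prs Λ, p.1.length + p.2.length = r → ∃ w ∈ Λ, w.length = r ∧ p.1 <+: cp w := by
    intro p hp hpl
    obtain ⟨w, hw, hwp⟩ := mem_prs.1 hp
    have hP := E_pair (hΛ w hw) hwp
    have h1 := hP.l
    have h2 := hr w hw
    exact ⟨w, hw, by omega, hP.q⟩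
  refine ⟨(prs Λ).filter fun p => p.1.length + p.2.length = r, rc Λ c, fun p hp => ?_, fun o ho hor => ?_, fun v => ?_⟩
  · obtain ⟨hp, hpr'⟩ := mem_filter.1 hp
    obtain ⟨h1, h2, h3, h4, h5, -⟩ := hpr p hp
    exact ⟨h1, h2, h3, h4, h5, hpr', hpre p hp hpr'⟩
  · rw [coef_rc Λ c ho, ← sum_filter_add_sum_filter_not (prs Λ) (fun p => p.1.length + p.2.length = r)]
    have h1 : ∑ p ∈ (prs Λ).filter (fun p => ¬ p.1.length + p.2.length = r),
        rc Λ c p * ((st p.1 p.2).countP (· = o) : ℤ) = 0 := by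
      refine sum_eq_zero fun p hp => ?_
      obtain ⟨hp, hpr'⟩ := mem_filter.1 hp
      have h2 := (hpr p hp).2.2.2.2.2
      have h3 : (st p.1 p.2).countP (· = o) = 0 := by
        rw [List.countP_eq_zero]
        intro a ha
        have h4 := st_length _ _ a ha
        simp only [decide_eq_true_eq]
        intro h5
        rw [h5] at h4
        omega
      rw [h3, Nat.cast_zero, mul_zero]
    rw [h1, add_zero]
    refine sum_congr rfl fun p hp => ?_
    rw [countP_full p.1 p.2 o (by rw [hor, (mem_filter.1 hp).2])]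
  · have h1 := hRC v
    rw [RC, ← sum_filter_add_sum_filter_not _ (fun p : List (ℕ × ℕ) × List (ℕ × ℕ) => p.1.length + p.2.length = r)] at h1
    have h2 : ∑ p ∈ ((prs Λ).filter fun p => p.1.length + p.2.length = r) with p.2 = v, ((rc Λ c p : ℤ) : ℝ) * cv p.1 =
        ∑ p ∈ ((prs Λ).filter fun p => p.2 = v) with p.1.length + p.2.length = r,
          rc Λ (fun w => (c w : ℝ)) p * cv p.1 := by
      rw [filter_filter, filter_filter]
      simp only [rc_cast]
      exact sum_congr (filter_congr fun p _ => by rw [and_comm]) fun _ _ => rfl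
    rw [h2, eq_neg_of_add_eq_zero_left h1]
    refine Submodule.neg_mem _ (Submodule.sum_mem _ fun p hp => ?_)
    obtain ⟨hp, hpl⟩ := mem_filter.1 hp
    obtain ⟨hp, hpv⟩ := mem_filter.1 hp
    obtain ⟨h3, h4, h5, h6, h7, h8⟩ := hpr p hp
    rw [rc_cast]
    have h9 : ((rc Λ c p : ℤ) : ℝ) * cv p.1 = ((rc Λ c p : ℤ) : ℚ) • cv p.1 := by
      rw [Rat.smul_def]
      push_cast
      rfl
    rw [h9]
    refine Submodule.smul_mem _ _ (Submodule.subset_span ⟨p.1.map Prod.snd, ?_, ?_, ?_, rfl⟩)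
    · rw [← ar_const (n := 2) p.1 h3]
      exact adm_arA le_rfl _ h4
    · rw [snd_sum, ← h7, ← hpv, Prod.snd_add]
      omega
    · rw [List.length_map, ← hpv]
      omega

/-- no value has negative depth or depth zero and positive weight -/
lemma LD_zero {d k : ℕ} (h : d = 0 ∨ d = 1 ∧ 1 ≤ k) : LD d k = ⊥ := by
  rw [LD, Submodule.span_eq_bot]
  rintro x ⟨l, _, hk, hl, rfl⟩
  rcases h with rfl | ⟨rfl, hk1⟩
  · exact absurd hl (Nat.not_lt_zero _)
  · rw [Nat.lt_one_iff, List.length_eq_zero_iff] at hl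
    rw [hl, List.sum_nil] at hk
    omega

/-- at most one constant letter in front of the words of full depth: no leading part -/
theorem depth_one (r : ℕ) (S : ℕ × ℕ) (Λ : Finset (List (ℕ × ℕ)))
    (h1 : ∀ w ∈ Λ, w.length = r → (cp w).length ≤ 1) (c : List (ℕ × ℕ) → ℤ)
    (Q : Finset (List (ℕ × ℕ) × List (ℕ × ℕ))) (ρ : List (ℕ × ℕ) × List (ℕ × ℕ) → ℤ)
    (hQ : ∀ p ∈ Q, (∀ x ∈ p.1, x.1 = 0) ∧ AdmW p.1 ∧ HP p.2 ∧ OK p.2 ∧ p.1.sum + p.2.sum = S ∧
      p.1.length + p.2.length = r ∧ ∃ w ∈ Λ, w.length = r ∧ p.1 <+: cp w)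
    (hc : ∀ o ∈ Λ, o.length = r → c o = ∑ p ∈ Q, ρ p * ((shf p.1 p.2).countP (· = o) : ℤ))
    (hL : ∀ v, ∑ p ∈ Q with p.2 = v, (ρ p : ℝ) * cv p.1 ∈ LD (r - v.length) (S.2 - v.sum.2)) :
    ∀ o ∈ Λ, o.length = r → c o = 0 := by
  classical
  have hlen : ∀ p ∈ Q, p.1.length ≤ 1 := by
    intro p hp
    obtain ⟨w, hw, hwr, hpw⟩ := (hQ p hp).2.2.2.2.2.2
    exact hpw.length_le.trans (h1 w hw hwr)
  have hform : ∀ p ∈ Q, p.1 = [] ∨ ∃ b : ℕ, 2 ≤ b ∧ p.1 = [(0, b)] := by
    intro p hp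
    obtain ⟨h2, h3, -⟩ := hQ p hp
    have h4 := hlen p hp
    rcases h5 : p.1 with _ | ⟨⟨a, b⟩, l⟩
    · exact Or.inl rfl
    · rw [h5] at h2 h3 h4
      have ha : a = 0 := h2 (a, b) List.mem_cons_self
      subst ha
      have hl : l = [] := List.length_eq_zero_iff.1 (by simp only [List.length_cons] at h4; omega)
      subst hl
      exact Or.inr ⟨b, h3.2 (0, b) [] rfl rfl, rfl⟩
  have hρ : ∀ p ∈ Q, ρ p = 0 := by
    intro p hp
    obtain ⟨-, -, -, -, h5, h6, -⟩ := hQ p hp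
    have h7 := hL p.2
    have h8 : (Q.filter fun p' => p'.2 = p.2) = {p} := by
      ext p'
      rw [mem_filter, mem_singleton]
      constructor
      · rintro ⟨hp', h9⟩
        refine Prod.ext ?_ h9
        obtain ⟨-, -, -, -, h5', h6', -⟩ := hQ p' hp'
        rw [h9] at h5' h6'
        have h10 : p'.1.length = p.1.length := by omega
        have h11 : p'.1.sum = p.1.sum := add_right_cancel (h5'.trans h5.symm)
        rcases hform p hp with h | ⟨b, _, h⟩
        · rw [h, List.length_nil] at h10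
          rw [h, List.length_eq_zero_iff.1 h10]
        · rcases hform p' hp' with h' | ⟨b', _, h'⟩
          · rw [h, h'] at h10
            simp at h10
          · rw [h, h'] at h11 ⊢
            simp only [List.sum_cons, List.sum_nil, add_zero] at h11
            rw [h11]
      · rintro rfl
        exact ⟨hp, rfl⟩
    rw [h8, sum_singleton] at h7
    have h9 : LD (r - p.2.length) (S.2 - p.2.sum.2) = ⊥ := by
      refine LD_zero ?_
      rcases hform p hp with h | ⟨b, hb, h⟩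
      · left
        rw [h, List.length_nil] at h6
        omega
      · right
        rw [h] at h5 h6
        have h10 := congrArg Prod.snd h5
        simp only [List.sum_cons, List.sum_nil, add_zero, Prod.snd_add] at h10
        simp only [List.length_cons, List.length_nil] at h6
        omega
    rw [h9, Submodule.mem_bot] at h7
    have h10 : cv p.1 ≠ 0 := by
      rcases hform p hp with h | ⟨b, hb, h⟩
      · rw [h, cv, List.map_nil, mz]
        exact one_ne_zero
      · rw [h, cv]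
        have hA : Pool.Agent.H447R2.MZ.Adm [b] := by
          refine ⟨fun a ha => ?_, fun a t h => ?_⟩
          · rw [List.mem_singleton] at ha
            omega
          · rw [← (List.cons.inj h).1]
            exact hb
        have h1 := (Pool.Agent.H447R2.MZ.val_single b (by omega)).tsum_eq
        show mz [b] ≠ 0
        rw [mz_val _ hA, ← h1]
        exact (Pool.Agent.H447R2.MZ.zeta_pos b (by omega)).ne'
    rcases mul_eq_zero.1 h7 with h11 | h11
    · exact_mod_cast h11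
    · exact absurd h11 h10
  intro o ho hor
  rw [hc o ho hor]
  exact sum_eq_zero fun p hp => by rw [hρ p hp, zero_mul]

end Pool.Agent.Q217.MZ
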