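import Pool.Agent.Q217.MZ.Affine
import Pool.Agent.H447R2.MZ.Dich

/-!
# Powers of `π ^ 2` and multiple zeta values with affine arguments: homogeneity of small relations (helper217)
-/

set_option autoImplicit false

namespace Pool.Agent.Q217.MZ

open Finset Filter Topology
open Pool.Agent.TH507.WD (mz hr hr_nil hr_cons)
open Pool.Agent.TH507.WG (HP OK ar tendsto_ar ar_nil ar_cons)
open Pool.Agent.TH507.DS (coM wtM wt wt_cons wt_nil)
open Pool.Agent.Y760.PZ (LM LM_pow)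
open Pool.Agent.TH456.TM (measT_pi measT_pow)

lemma LM_pi_sq (D : ℕ) : LM fun i : Fin (D + 1) => (Real.pi ^ 2) ^ (i : ℕ) := by
  refine LM_pow ?_ D
  have := measT_pow measT_pi 2 (by norm_num)
  push_cast
  exact this

/-- small combinations with coefficients in the span of numbers with a measure of linear independence have
vanishing coefficients -/
theorem small_zero {ι : Type} [Fintype ι] (θ : ι → ℝ) (hθ : LM θ) (𝓜 : Finset (List (List (ℕ × ℕ))))
    (hM : ∀ M ∈ 𝓜, ∀ u ∈ M, HP u ∧ OK u) :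
    ∃ B C : ℝ, 1 < B ∧ 1 < C ∧ ∃ n0 : ℕ, ∀ n : ℕ, n0 ≤ n → ∀ c : List (List (ℕ × ℕ)) → ι → ℤ,
      (∀ M ∈ 𝓜, ∀ i, |(c M i : ℝ)| ≤ C ^ n) →
      |∑ M ∈ 𝓜, (∑ i, (c M i : ℝ) * θ i) * (M.map fun u => mz (ar n u)).prod| ≤ (B ^ n)⁻¹ →
      (∀ w i, coM 𝓜 (fun M => c M i) w = 0) ∧ ∀ m : ℕ, n0 ≤ m → ∀ i, ∀ q : ℕ,
        ∑ M ∈ 𝓜 with wtM m M = q, (c M i : ℝ) * (M.map fun u => mz (ar m u)).prod = 0 := by
  obtain ⟨B, C, hB, hC, n0, hlen, h⟩ := affine θ hθ 𝓜 hM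
  refine ⟨B, C, hB, hC, n0, fun n hn c hc hv => ?_⟩
  have h0 : ∀ w i, coM 𝓜 (fun M => c M i) w = 0 := by
    by_contra hcon
    push Not at hcon
    exact absurd hv (not_le.2 (h n hn c hc hcon))
  exact ⟨h0, fun m hm i q => parts 𝓜 hM (fun M => c M i) (fun w => h0 w i) (hlen m hm) q⟩

lemma hr_H (l : List ℕ) : ∀ N, hr l (N + 1) = Pool.Agent.H447R2.MZ.H l N := by
  induction l with
  | nil => intro N; rw [hr_nil, Pool.Agent.H447R2.MZ.H_nil]
  | cons a s ih =>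
    intro N
    rw [hr_cons, Pool.Agent.H447R2.MZ.H_cons, sum_Ico_eq_sum_range, Nat.add_sub_cancel]
    refine sum_congr rfl fun k _ => ?_
    rw [add_comm 1 k, ih, div_eq_mul_inv, mul_comm]

lemma adm_ar {n : ℕ} (hn : 2 ≤ n) (w : List (ℕ × ℕ)) (hw : HP w) (hO : OK w) :
    Pool.Agent.H447R2.MZ.Adm (ar n w) := by
  refine ⟨fun a ha => ?_, fun a t h => ?_⟩
  · rw [ar, List.mem_map] at ha
    obtain ⟨x, hx, rfl⟩ := ha
    rcases Nat.eq_zero_or_pos x.1 with h0 | h0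
    · have := hO x hx h0
      omega
    · have : 1 * n ≤ x.1 * n := Nat.mul_le_mul_right _ h0
      omega
  · cases w with
    | nil => rw [ar_nil] at h; exact absurd h (by simp)
    | cons x l =>
      rw [ar_cons] at h
      have h1 := (List.cons.inj h).1
      have h2 : 1 * n ≤ x.1 * n := Nat.mul_le_mul_right _ hw
      omega

lemma mz_mem {n : ℕ} (w : List (ℕ × ℕ)) (hw : HP w) (hO : OK w) (hn : w.length + 1 ≤ n) (hn2 : 2 ≤ n) :
    mz (ar n w) ∈ Pool.Agent.H447R2.MZ.Zs (wt n w) := by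
  have hA := adm_ar hn2 w hw hO
  have h1 := tendsto_ar (n := n) w hw hn
  have h2 := Pool.Agent.H447R2.MZ.tendsto_H (ar n w) hA
  have h3 : Tendsto (fun N => hr (ar n w) (N + 1)) atTop (𝓝 (mz (ar n w))) :=
    (tendsto_add_atTop_iff_nat 1).2 h1
  simp only [hr_H] at h3
  rw [tendsto_nhds_unique h3 h2]
  exact Pool.Agent.H447R2.MZ.val_mem _ hA

lemma prod_mem {n : ℕ} (hn2 : 2 ≤ n) (M : List (List (ℕ × ℕ))) (hM : ∀ u ∈ M, HP u ∧ OK u)
    (hn : (M.map List.length).sum + 1 ≤ n) :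
    (M.map fun u => mz (ar n u)).prod ∈ Pool.Agent.H447R2.MZ.Zs (wtM n M) := by
  induction M with
  | nil =>
    rw [List.map_nil, List.prod_nil]
    exact Pool.Agent.H447R2.MZ.one_mem
  | cons u M ih =>
    rw [List.map_cons, List.sum_cons] at hn
    rw [List.map_cons, List.prod_cons]
    have h1 : wtM n (u :: M) = wt n u + wtM n M := by
      rw [wtM, wtM, List.map_cons, List.sum_cons]
    rw [h1]
    have hu := hM u List.mem_cons_self
    exact Pool.Agent.H447R2.MZ.mul_mem _ _ _ _ (mz_mem u hu.1 hu.2 (by omega) hn2)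
      (ih (fun v hv => hM v (List.mem_cons_of_mem _ hv)) (by omega))

lemma pi_mul_mem {n j : ℕ} (hn2 : 2 ≤ n) (M : List (List (ℕ × ℕ))) (hM : ∀ u ∈ M, HP u ∧ OK u)
    (hn : (M.map List.length).sum + 1 ≤ n) (a : ℤ) :
    (a : ℝ) * Real.pi ^ (2 * j) * (M.map fun u => mz (ar n u)).prod ∈
      Pool.Agent.H447R2.MZ.Zs (wtM n M + 2 * j) := by
  rw [mul_assoc, add_comm]
  have h1 := Pool.Agent.H447R2.MZ.mul_mem _ _ _ _ (Pool.Agent.H447R2.MZ.pi_pow_mem j) (prod_mem hn2 M hM hn)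
  have h2 := Submodule.smul_mem _ (a : ℚ) h1
  rw [Rat.smul_def] at h2
  push_cast at h2
  exact h2

end Pool.Agent.Q217.MZ
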