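import Pool.Agent.Q217.MZ.Real

/-!
# Real coefficients with a base which does not depend on the coefficients, and bounded heights (helper217)
-/

set_option autoImplicit false

namespace Pool.Agent.Q217.MZ

open Finset Filter Topology
open Pool.Agent.TH507.WD (mz)
open Pool.Agent.TH507.WG (HP OK ar cf cf_zero cf_bd cf1_ind dser_eq_mz stl stl_ok T_nil)
open Pool.Agent.TH507.DS (coM expandM wtM stl_wt wt)
open Pool.Agent.TH507.ZS (dser PB)

lemma real_ind_fin {J : Type} [Fintype J] (G : J → ℕ → ℚ) {K : ℕ}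
    (hind : ∀ c : J → ℚ, (∀ k, 1 ≤ k → k ≤ K → ∑ j, c j * G j k = 0) → c = 0) (x : J → ℝ)
    (hx : ∀ k, 1 ≤ k → k ≤ K → ∑ j, x j * (G j k : ℝ) = 0) : x = 0 := by
  funext j
  rw [Pi.zero_apply, ← Module.forall_dual_apply_eq_zero_iff ℚ]
  intro φ
  have h1 := hind (fun j => φ (x j)) (by
    intro k hk hkK
    have h2 := congrArg φ (hx k hk hkK)
    rw [map_zero, map_sum] at h2
    rw [← h2]
    refine sum_congr rfl fun j _ => ?_
    have h3 : x j * (G j k : ℝ) = (G j k) • (x j) := by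
      rw [Rat.smul_def, mul_comm]
    rw [h3, map_smul, smul_eq_mul, mul_comm])
  exact congrFun h1 j

/-- real coefficients: the base `N` does not depend on the coefficients -/
theorem core_u {J : Type} [Fintype J] (G : J → ArithmeticFunction ℚ) (hG : ∀ j, PB (G j))
    (hind : ∀ c : J → ℚ, (∀ k, 1 ≤ k → ∑ j, c j * G j k = 0) → c = 0) :
    ∃ N : ℕ, 1 ≤ N ∧ ∀ x : J → ℝ, x ≠ 0 → ∃ n0 : ℕ, ∀ n, n0 ≤ n →
      ((N : ℝ) ^ n)⁻¹ < |∑ j, x j * dser (G j) n| := by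
  classical
  obtain ⟨K, hK1, hK⟩ := Pool.Agent.Y760.PZ.rank G hind
  choose B hB using hG
  set A : ℕ := ∑ j, B j with hAd
  have hA : ∀ j, ∀ k, 1 ≤ k → |(G j k : ℝ)| ≤ A * (k : ℝ) ^ A := by
    intro j k hk
    have hk1 : (1 : ℝ) ≤ k := by exact_mod_cast hk
    have hBA : B j ≤ A := single_le_sum (f := B) (fun _ _ => Nat.zero_le _) (mem_univ j)
    refine (hB j k hk).trans ?_
    have h1 : ((B j : ℕ) : ℝ) ≤ A := by exact_mod_cast hBA
    have h2 : (k : ℝ) ^ B j ≤ (k : ℝ) ^ A := pow_le_pow_right₀ hk1 hBA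
    gcongr
  refine ⟨K + 1, by omega, fun x hx => ?_⟩
  have hex : ∃ k, 1 ≤ k ∧ k ≤ K ∧ ∑ j, x j * (G j k : ℝ) ≠ 0 := by
    by_contra hcon
    push Not at hcon
    exact hx (real_ind_fin (fun j => G j) (K := K) (fun c hc => hK c fun k hk => by
      rw [mem_Icc] at hk
      exact hc k hk.1 hk.2) x fun k hk hkK => hcon k hk hkK)
  have hex' : ∃ k, 1 ≤ k ∧ ∑ j, x j * (G j k : ℝ) ≠ 0 := by
    obtain ⟨k, a, _, b⟩ := hex
    exact ⟨k, a, b⟩
  set N := Nat.find hex' with hN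
  obtain ⟨hN1, hN0⟩ := Nat.find_spec hex'
  have hNK : N ≤ K := by
    obtain ⟨k, a, b, c⟩ := hex
    exact (Nat.find_min' hex' ⟨a, c⟩).trans b
  set X : ℝ := ∑ j, |x j| with hX
  set A' : ℕ := A + ⌈X * A⌉₊ with hA'
  have hX0 : 0 ≤ X := sum_nonneg fun _ _ => abs_nonneg _
  have hgr : ∀ k, 1 ≤ k → |∑ j, x j * (G j k : ℝ)| ≤ A' * (k : ℝ) ^ A' := by
    intro k hk
    have hk1 : (1 : ℝ) ≤ k := by exact_mod_cast hk
    have h1 : |∑ j, x j * (G j k : ℝ)| ≤ X * (A * (k : ℝ) ^ A) := by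
      rw [hX, sum_mul]
      refine (abs_sum_le_sum_abs _ _).trans (sum_le_sum fun j _ => ?_)
      rw [abs_mul]
      exact mul_le_mul_of_nonneg_left (hA j k hk) (abs_nonneg _)
    have h2 : X * A ≤ A' := by
      rw [hA']
      push_cast
      have := Nat.le_ceil (X * A)
      have hA0 : (0 : ℝ) ≤ A := Nat.cast_nonneg _
      linarith
    calc |∑ j, x j * (G j k : ℝ)| ≤ (X * A) * (k : ℝ) ^ A := by rw [mul_assoc]; exact h1
      _ ≤ A' * (k : ℝ) ^ A' := by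
        have h3 : (k : ℝ) ^ A ≤ (k : ℝ) ^ A' := pow_le_pow_right₀ hk1 (by omega)
        gcongr
  obtain ⟨n0, hn0⟩ := rser_asym (a := fun k => ∑ j, x j * (G j k : ℝ)) hgr hN1 (by
    intro k hk1 hk2
    by_contra hne
    exact Nat.find_min hex' hk2 ⟨hk1, hne⟩) hN0
  set c : ℝ := |∑ j, x j * (G j N : ℝ)| / 2 with hc
  have hc0 : 0 < c := half_pos (abs_pos.2 hN0)
  have hr : (1 : ℝ) < ((K + 1 : ℕ) : ℝ) / N := by
    rw [one_lt_div (by exact_mod_cast hN1)]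
    exact_mod_cast (by omega : N < K + 1)
  obtain ⟨n1, hn1⟩ := eventually_atTop.1
    ((tendsto_pow_atTop_atTop_of_one_lt hr).eventually (eventually_gt_atTop (1 / c)))
  refine ⟨n0 + n1 + A + 2, fun n hn => ?_⟩
  rw [rser_lin (fun j => G j) hA x (by omega)]
  refine lt_trans ?_ (hn0 n (by omega))
  have h1 := hn1 n (by omega)
  have hNp : (0 : ℝ) < (N : ℝ) ^ n := pow_pos (by exact_mod_cast hN1) n
  have hKp : (0 : ℝ) < ((K + 1 : ℕ) : ℝ) ^ n := by positivity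
  rw [div_pow, div_lt_div_iff₀ hc0 hNp] at h1
  rw [inv_eq_one_div, ← div_eq_mul_inv, div_lt_div_iff₀ hKp hNp]
  linarith

/-- **real coefficients**, uniform base -/
theorem real_unif (𝓜 : Finset (List (List (ℕ × ℕ)))) (hM : ∀ M ∈ 𝓜, ∀ u ∈ M, HP u ∧ OK u) :
    ∃ N : ℕ, 1 ≤ N ∧ ∀ x : List (List (ℕ × ℕ)) → ℝ, (∃ w, coR 𝓜 x w ≠ 0) → ∃ n0 : ℕ, ∀ n, n0 ≤ n →
      ((N : ℝ) ^ n)⁻¹ < |∑ M ∈ 𝓜, x M * (M.map fun u => mz (ar n u)).prod| := by
  classical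
  set Λ : Finset (List (ℕ × ℕ)) := 𝓜.biUnion fun M => (stl M).toFinset with hΛ
  have hmem : ∀ M ∈ 𝓜, ∀ w ∈ stl M, w ∈ Λ := fun M hM w hw =>
    mem_biUnion.2 ⟨M, hM, List.mem_toFinset.2 hw⟩
  have hLa : ∀ w ∈ Λ, HP w ∧ OK w := by
    intro w hw
    obtain ⟨M, hM', hw⟩ := mem_biUnion.1 hw
    have h1 := stl_ok M (hM M hM') w (List.mem_toFinset.1 hw)
    exact ⟨h1.1, h1.2.1⟩
  set A : ℕ := ∑ w ∈ Λ, (2 ^ w.length + w.length) with hA
  have hAw : ∀ w ∈ Λ, 2 ^ w.length + w.length ≤ A := fun w hw =>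
    single_le_sum (f := fun w : List (ℕ × ℕ) => 2 ^ w.length + w.length)
      (fun _ _ => Nat.zero_le _) hw
  obtain ⟨N, hN, h⟩ := core_u (J := Λ) (fun w => cfb w.1)
    (fun w => ⟨A, fun k hk => cf_bd w.1 ((Nat.le_add_right _ _).trans (hAw w.1 w.2))
      ((Nat.le_add_left _ _).trans (hAw w.1 w.2)) k hk⟩)
    (ind_words Λ (fun w hw => (hLa w hw).1) (fun w hw => (hLa w hw).2))
  refine ⟨N, hN, fun x hx => ?_⟩
  obtain ⟨w0, hw0⟩ := hx
  have hw0Λ : w0 ∈ Λ := by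
    by_contra hcon
    apply hw0
    rw [coR]
    refine sum_eq_zero fun M hM' => ?_
    have h2 : (stl M).countP (· = w0) = 0 := by
      rw [List.countP_eq_zero]
      intro v hv hvw
      rw [decide_eq_true_eq] at hvw
      subst hvw
      exact hcon (hmem M hM' v hv)
    rw [h2, Nat.cast_zero, mul_zero]
  obtain ⟨n0, h⟩ := h (fun w => coR 𝓜 x w.1) (by
      intro hcon
      exact hw0 (congrFun hcon ⟨w0, hw0Λ⟩))
  refine ⟨n0 + A + 2 + ∑ M ∈ 𝓜, ((M.map List.length).sum + 1), fun n hn => ?_⟩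
  have hlen : ∀ M ∈ 𝓜, (M.map List.length).sum + 1 ≤ n := fun M hM' => by
    have := single_le_sum (f := fun M : List (List (ℕ × ℕ)) => (M.map List.length).sum + 1)
      (fun _ _ => Nat.zero_le _) hM'
    omega
  have h3 : ∀ w : Λ, dser (cfb w.1) n = mz (ar n w.1) := fun w =>
    dser_eq_mz w.1 (hLa w.1 w.2).1 (A := A) ((Nat.le_add_right _ _).trans (hAw w.1 w.2))
      ((Nat.le_add_left _ _).trans (hAw w.1 w.2)) (by omega)
  have h4 := h n (by omega)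
  simp only [h3] at h4
  rw [expandR 𝓜 hM hlen x Λ hmem, ← sum_coe_sort Λ (fun w => coR 𝓜 x w * mz (ar n w))]
  exact h4

/-- **bounded heights**: coefficients in the span of numbers which are linearly independent over `ℚ` -/
theorem heights {ι : Type} [Fintype ι] (θ : ι → ℝ) (hθ : LinearIndependent ℚ θ)
    (𝓜 : Finset (List (List (ℕ × ℕ)))) (hM : ∀ M ∈ 𝓜, ∀ u ∈ M, HP u ∧ OK u) :
    ∃ N : ℕ, 1 ≤ N ∧ ∀ H : ℕ, ∃ n0 : ℕ, ∀ n, n0 ≤ n → ∀ c : List (List (ℕ × ℕ)) → ι → ℤ,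
      (∀ M ∈ 𝓜, ∀ i, |c M i| ≤ H) → (∃ w i, coM 𝓜 (fun M => c M i) w ≠ 0) →
      ((N : ℝ) ^ n)⁻¹ < |∑ M ∈ 𝓜, (∑ i, (c M i : ℝ) * θ i) * (M.map fun u => mz (ar n u)).prod| := by
  classical
  obtain ⟨N, hN, h⟩ := real_unif 𝓜 hM
  refine ⟨N, hN, fun H => ?_⟩
  -- the finitely many families of height at most `H`
  have hfin : Set.Finite {c : 𝓜 → ι → ℤ | ∀ M i, |c M i| ≤ H} := by
    have h1 : {c : 𝓜 → ι → ℤ | ∀ M i, |c M i| ≤ H} ⊆
        Set.pi Set.univ fun _ : 𝓜 => Set.pi Set.univ fun _ : ι => Set.Icc (-(H : ℤ)) H := by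
      intro c hc M _ i _
      rw [Set.mem_Icc]
      exact abs_le.1 (hc M i)
    exact (Set.Finite.pi' fun _ => Set.Finite.pi' fun _ => Set.finite_Icc _ _).subset (by
      intro c hc
      exact fun M i => abs_le.1 (hc M i))
  -- the bound for one family
  have hone : ∀ c : 𝓜 → ι → ℤ, ∃ n0 : ℕ, (∃ w i, ∑ M : 𝓜, c M i * ((stl M.1).countP (· = w) : ℤ) ≠ 0) →
      ∀ n, n0 ≤ n → ((N : ℝ) ^ n)⁻¹ <
        |∑ M : 𝓜, (∑ i, (c M i : ℝ) * θ i) * (M.1.map fun u => mz (ar n u)).prod| := by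
    intro c
    by_cases hw : ∃ w i, ∑ M : 𝓜, c M i * ((stl M.1).countP (· = w) : ℤ) ≠ 0
    · obtain ⟨n0, hn0⟩ := h (fun M => if hM' : M ∈ 𝓜 then ∑ i, (c ⟨M, hM'⟩ i : ℝ) * θ i else 0) (by
        obtain ⟨w, i, hwi⟩ := hw
        refine ⟨w, fun h0 => hwi ?_⟩
        rw [coR, ← sum_coe_sort 𝓜] at h0
        have h1 : ∑ i, ((∑ M : 𝓜, (c M i : ℚ) * ((stl M.1).countP (· = w) : ℚ))) • θ i = 0 := by
          rw [← h0]
          simp only [Rat.smul_def]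
          push_cast
          simp only [sum_mul]
          rw [sum_comm]
          refine sum_congr rfl fun M _ => ?_
          rw [dif_pos M.2, sum_mul]
          refine sum_congr rfl fun i _ => ?_
          ring
        have h2 := Fintype.linearIndependent_iff.1 hθ _ h1 i
        exact_mod_cast h2)
      refine ⟨n0, fun _ n hn => ?_⟩
      have h1 := hn0 n hn
      rw [← sum_coe_sort 𝓜] at h1
      refine lt_of_lt_of_eq h1 ?_
      congr 1
      refine sum_congr rfl fun M _ => ?_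
      rw [dif_pos M.2]
    · exact ⟨0, fun h => absurd h hw⟩
  choose n0 hn0 using hone
  obtain ⟨n1, hn1⟩ := (hfin.image n0).bddAbove
  refine ⟨n1, fun n hn c hc hw => ?_⟩
  have h1 := hn0 (fun M i => c M.1 i) (by
    obtain ⟨w, i, hwi⟩ := hw
    refine ⟨w, i, ?_⟩
    rw [coM, ← sum_coe_sort 𝓜] at hwi
    exact hwi) n ((hn1 ⟨_, fun M i => hc M.1 M.2 i, rfl⟩).trans hn)
  refine lt_of_lt_of_eq h1 ?_
  congr 1
  exact sum_coe_sort 𝓜 (fun M => (∑ i, (c M i : ℝ) * θ i) * (M.map fun u => mz (ar n u)).prod)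

end Pool.Agent.Q217.MZ
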