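import Pool.Agent.Q217.MZ.DirPi
import Pool.Agent.Q217.MZ.Unif

/-!
# Double zeta values of the same weight: all shapes, also with a constant first argument (helper217)
-/

set_option autoImplicit false

namespace Pool.Agent.Q217.MZ

open Finset Filter Topology
open Pool.Agent.TH507.WD (mz hr hr_cons hr_nil)
open Pool.Agent.TH507.WG (HP OK ar cf cf_zero cf_bd cf1_ind dser_eq_mz)
open Pool.Agent.TH507.ZS (dser PB)

/-- real combinations of growing words -/
theorem words_u (Λ : Finset (List (ℕ × ℕ))) (hHP : ∀ w ∈ Λ, HP w) (hOK : ∀ w ∈ Λ, OK w) :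
    ∃ N : ℕ, 1 ≤ N ∧ ∀ X : List (ℕ × ℕ) → ℝ, (∃ w ∈ Λ, X w ≠ 0) → ∃ n0 : ℕ, ∀ n, n0 ≤ n →
      ((N : ℝ) ^ n)⁻¹ < |∑ w ∈ Λ, X w * mz (ar n w)| := by
  classical
  set A : ℕ := ∑ w ∈ Λ, (2 ^ w.length + w.length) with hA
  have hAw : ∀ w ∈ Λ, 2 ^ w.length + w.length ≤ A := fun w hw =>
    single_le_sum (f := fun w : List (ℕ × ℕ) => 2 ^ w.length + w.length)
      (fun _ _ => Nat.zero_le _) hw
  obtain ⟨N, hN, h⟩ := core_u (J := Λ) (fun w => cfb w.1)
    (fun w => ⟨A, fun k hk => cf_bd w.1 ((Nat.le_add_right _ _).trans (hAw w.1 w.2))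
      ((Nat.le_add_left _ _).trans (hAw w.1 w.2)) k hk⟩) (ind_words Λ hHP hOK)
  refine ⟨N, hN, fun X hX => ?_⟩
  obtain ⟨w0, hw0, hX0⟩ := hX
  obtain ⟨n0, h⟩ := h (fun w => X w.1) (by
      intro hcon
      exact hX0 (congrFun hcon ⟨w0, hw0⟩))
  refine ⟨n0 + A + 2, fun n hn => ?_⟩
  have h3 : ∀ w : Λ, dser (cfb w.1) n = mz (ar n w.1) := fun w =>
    dser_eq_mz w.1 (hHP w.1 w.2) (A := A) ((Nat.le_add_right _ _).trans (hAw w.1 w.2))
      ((Nat.le_add_left _ _).trans (hAw w.1 w.2)) (by omega)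
  have h4 := h n (by omega)
  simp only [h3] at h4
  rw [← sum_coe_sort Λ (fun w => X w * mz (ar n w))]
  exact h4

/-- `mz` is the value of `Pool.Agent.H447R2.MZ` -/
lemma mz_val (l : List ℕ) (hl : Pool.Agent.H447R2.MZ.Adm l) : mz l = Pool.Agent.H447R2.MZ.val l := by
  have h2 := Pool.Agent.H447R2.MZ.tendsto_H l hl
  cases l with
  | nil =>
    have h3 : Pool.Agent.H447R2.MZ.H [] = fun _ => 1 := funext Pool.Agent.H447R2.MZ.H_nil
    rw [h3] at h2
    rw [mz]
    exact tendsto_nhds_unique tendsto_const_nhds h2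
  | cons s l =>
    have h3 : ∀ k : ℕ, 0 ≤ hr l (k + 1) / ((k + 1 : ℕ) : ℝ) ^ s := fun k => by
      rw [hr_H]
      exact div_nonneg (Pool.Agent.H447R2.MZ.H_nonneg _ _) (by positivity)
    rw [mz]
    refine ((hasSum_iff_tendsto_nat_of_nonneg h3 _).2 ?_).tsum_eq
    refine h2.congr fun N => ?_
    rw [Pool.Agent.H447R2.MZ.H_cons]
    refine sum_congr rfl fun k _ => ?_
    rw [hr_H, div_eq_mul_inv, mul_comm]

lemma H_mul (s t : ℕ) (N : ℕ) : Pool.Agent.H447R2.MZ.H [s] N * Pool.Agent.H447R2.MZ.H [t] N =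
    Pool.Agent.H447R2.MZ.H [s, t] N + Pool.Agent.H447R2.MZ.H [t, s] N + Pool.Agent.H447R2.MZ.H [s + t] N := by
  induction N with
  | zero => simp [Pool.Agent.H447R2.MZ.H_cons_zero]
  | succ N ih =>
    rw [Pool.Agent.H447R2.MZ.H_cons_succ s [] N, Pool.Agent.H447R2.MZ.H_cons_succ t [] N,
      Pool.Agent.H447R2.MZ.H_cons_succ s [t] N, Pool.Agent.H447R2.MZ.H_cons_succ t [s] N,
      Pool.Agent.H447R2.MZ.H_cons_succ (s + t) [] N, Pool.Agent.H447R2.MZ.H_nil, pow_add, mul_inv]
    linear_combination ih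

lemma adm_two {s t : ℕ} (hs : 2 ≤ s) (ht : 1 ≤ t) : Pool.Agent.H447R2.MZ.Adm [s, t] := by
  refine ⟨fun a ha => ?_, fun a l h => ?_⟩
  · simp only [List.mem_cons, List.not_mem_nil, or_false] at ha
    omega
  · simp only [List.cons.injEq] at h
    omega

lemma adm_one {s : ℕ} (hs : 2 ≤ s) : Pool.Agent.H447R2.MZ.Adm [s] := by
  refine ⟨fun a ha => ?_, fun a l h => ?_⟩
  · simp only [List.mem_cons, List.not_mem_nil, or_false] at ha
    omega
  · simp only [List.cons.injEq] at h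
    omega

/-- the stuffle product of two zeta values -/
lemma mz_stuffle {s t : ℕ} (hs : 2 ≤ s) (ht : 2 ≤ t) : mz [s, t] = mz [s] * mz [t] - mz [t, s] - mz [s + t] := by
  have a1 := mz_val _ (adm_one hs)
  have a2 := mz_val _ (adm_one ht)
  have a3 := mz_val _ (adm_two hs (show 1 ≤ t by omega))
  have a4 := mz_val _ (adm_two ht (show 1 ≤ s by omega))
  have a5 := mz_val _ (adm_one (show 2 ≤ s + t by omega))
  have b1 := Pool.Agent.H447R2.MZ.tendsto_H _ (adm_one hs)
  have b2 := Pool.Agent.H447R2.MZ.tendsto_H _ (adm_one ht)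
  have b3 := Pool.Agent.H447R2.MZ.tendsto_H _ (adm_two hs (show 1 ≤ t by omega))
  have b4 := Pool.Agent.H447R2.MZ.tendsto_H _ (adm_two ht (show 1 ≤ s by omega))
  have b5 := Pool.Agent.H447R2.MZ.tendsto_H _ (adm_one (show 2 ≤ s + t by omega))
  rw [← a1] at b1
  rw [← a2] at b2
  rw [← a3] at b3
  rw [← a4] at b4
  rw [← a5] at b5
  have c1 := b1.mul b2
  have c2 := (b3.add b4).add b5
  have c3 : Tendsto (fun N => Pool.Agent.H447R2.MZ.H [s] N * Pool.Agent.H447R2.MZ.H [t] N) atTop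
      (𝓝 (mz [s, t] + mz [t, s] + mz [s + t])) := by
    refine c2.congr fun N => ?_
    rw [H_mul]
  have c4 := tendsto_nhds_unique c1 c3
  linarith

/-- the shapes `(a, b)`: first argument `a n + b`, second argument `(K n + L) - (a n + b)` -/
def Shape (K L : ℕ) (p : ℕ × ℕ) : Prop := p.1 ≤ K ∧ p.2 ≤ L ∧ (p.1 = 0 → 2 ≤ p.2) ∧ (p.1 = K → p.2 < L)

/-- **all shapes of double zeta values of the same weight**, real coefficients -/
theorem shapes {K L : ℕ} (hK : 1 ≤ K) (S : Finset (ℕ × ℕ)) (hS : ∀ p ∈ S, Shape K L p) :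
    ∃ N : ℕ, 1 ≤ N ∧ ∀ (x : ℕ × ℕ → ℝ) (y : ℝ), ((∃ p ∈ S, x p ≠ 0) ∨ y ≠ 0) → ∃ n0 : ℕ, ∀ n, n0 ≤ n →
      ((N : ℝ) ^ n)⁻¹ < |∑ p ∈ S, x p * mz [p.1 * n + p.2, (K * n + L) - (p.1 * n + p.2)] + y * mz [K * n + L]| := by
  classical
  set S1 := S.filter fun p => 1 ≤ p.1 with hS1
  set S0 := S.filter fun p => p.1 = 0 with hS0
  have hS01 : ∀ f : ℕ × ℕ → ℝ, ∑ p ∈ S, f p = ∑ p ∈ S1, f p + ∑ p ∈ S0, f p := by
    intro f
    rw [hS1, hS0, ← sum_filter_add_sum_filter_not S (fun p => 1 ≤ p.1) f]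
    congr 1
    apply sum_congr _ fun _ _ => rfl
    ext p
    simp only [mem_filter]
    constructor
    · rintro ⟨a, b⟩; exact ⟨a, by omega⟩
    · rintro ⟨a, b⟩; exact ⟨a, by omega⟩
  -- the words
  set wS : ℕ × ℕ → List (ℕ × ℕ) := fun p => [p, (K - p.1, L - p.2)] with hwS
  set w1 : ℕ × ℕ → List (ℕ × ℕ) := fun p => [(K, L - p.2)] with hw1
  set w2 : ℕ × ℕ → List (ℕ × ℕ) := fun p => [(K, L - p.2), (0, p.2)] with hw2
  set w0 : List (ℕ × ℕ) := [(K, L)] with hw0
  set Λ : Finset (List (ℕ × ℕ)) := insert w0 (S1.image wS ∪ (S0.image w1 ∪ S0.image w2)) with hΛ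
  have hmem : ∀ w ∈ Λ, w = w0 ∨ (∃ p ∈ S1, w = wS p) ∨ (∃ p ∈ S0, w = w1 p) ∨ (∃ p ∈ S0, w = w2 p) := by
    intro w hw
    rw [hΛ, mem_insert, mem_union, mem_union, mem_image, mem_image, mem_image] at hw
    rcases hw with h | ⟨p, hp, h⟩ | ⟨p, hp, h⟩ | ⟨p, hp, h⟩
    · exact Or.inl h
    · exact Or.inr (Or.inl ⟨p, hp, h.symm⟩)
    · exact Or.inr (Or.inr (Or.inl ⟨p, hp, h.symm⟩))
    · exact Or.inr (Or.inr (Or.inr ⟨p, hp, h.symm⟩))
  have hm0 : w0 ∈ Λ := mem_insert_self _ _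
  have hmS : ∀ p ∈ S1, wS p ∈ Λ := fun p hp =>
    mem_insert_of_mem (mem_union_left _ (mem_image_of_mem _ hp))
  have hm1 : ∀ p ∈ S0, w1 p ∈ Λ := fun p hp =>
    mem_insert_of_mem (mem_union_right _ (mem_union_left _ (mem_image_of_mem _ hp)))
  have hm2 : ∀ p ∈ S0, w2 p ∈ Λ := fun p hp =>
    mem_insert_of_mem (mem_union_right _ (mem_union_right _ (mem_image_of_mem _ hp)))
  have hHP : ∀ w ∈ Λ, HP w := by
    intro w hw
    rcases hmem w hw with rfl | ⟨p, hp, rfl⟩ | ⟨p, hp, rfl⟩ | ⟨p, hp, rfl⟩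
    · exact hK
    · exact (mem_filter.1 hp).2
    · exact hK
    · exact hK
  have hOK : ∀ w ∈ Λ, OK w := by
    intro w hw
    rcases hmem w hw with rfl | ⟨p, hp, rfl⟩ | ⟨p, hp, rfl⟩ | ⟨p, hp, rfl⟩
    · intro q hq hq1
      simp only [hw0, List.mem_cons, List.not_mem_nil, or_false] at hq
      rw [hq] at hq1
      simp only at hq1
      omega
    · obtain ⟨hp1, hp2⟩ := mem_filter.1 hp
      obtain ⟨h1, h2, h3, h4⟩ := hS p hp1
      intro q hq hq1
      simp only [hwS, List.mem_cons, List.not_mem_nil, or_false] at hq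
      rcases hq with rfl | rfl
      · omega
      · simp only at hq1 ⊢
        have := h4 (by omega)
        omega
    · intro q hq hq1
      simp only [hw1, List.mem_cons, List.not_mem_nil, or_false] at hq
      rw [hq] at hq1
      simp only at hq1
      omega
    · obtain ⟨hp1, hp2⟩ := mem_filter.1 hp
      obtain ⟨h1, h2, h3, h4⟩ := hS p hp1
      intro q hq hq1
      simp only [hw2, List.mem_cons, List.not_mem_nil, or_false] at hq
      rcases hq with rfl | rfl
      · simp only at hq1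
        omega
      · simp only
        have := h3 hp2
        omega
  obtain ⟨N, hN, h⟩ := words_u Λ hHP hOK
  refine ⟨N, hN, fun x y hxy => ?_⟩
  set X : List (ℕ × ℕ) → ℝ := fun w => ∑ p ∈ S1, (if w = wS p then x p else 0) +
    ∑ p ∈ S0, ((if w = w1 p then x p * mz [p.2] else 0) - (if w = w2 p then x p else 0) -
      (if w = w0 then x p else 0)) + (if w = w0 then y else 0) with hX
  -- some coefficient is not zero
  have hne : ∃ w ∈ Λ, X w ≠ 0 := by
    by_cases h0 : ∃ p ∈ S0, x p ≠ 0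
    · obtain ⟨p, hp, hxp⟩ := h0
      obtain ⟨hp1, hp2⟩ := mem_filter.1 hp
      obtain ⟨h1, h2, h3, h4⟩ := hS p hp1
      have hp22 := h3 hp2
      refine ⟨w1 p, hm1 p hp, ?_⟩
      have e1 : ∑ q ∈ S1, (if w1 p = wS q then x q else 0) = 0 :=
        sum_eq_zero fun q _ => by rw [if_neg (by simp [hw1, hwS])]
      have hw10 : w1 p ≠ w0 := by
        intro hh
        simp only [hw1, hw0, List.cons.injEq, Prod.mk.injEq] at hh
        omega
      have e2 : ∑ q ∈ S0, ((if w1 p = w1 q then x q * mz [q.2] else 0) - (if w1 p = w2 q then x q else 0) -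
          (if w1 p = w0 then x q else 0)) = x p * mz [p.2] := by
        rw [sum_eq_single p]
        · rw [if_pos rfl, if_neg (by simp [hw1, hw2]), if_neg hw10]
          ring
        · intro q hq hqp
          obtain ⟨hq1, hq2⟩ := mem_filter.1 hq
          obtain ⟨g1, g2, g3, g4⟩ := hS q hq1
          rw [if_neg, if_neg (by simp [hw1, hw2]), if_neg hw10]
          · ring
          · intro hh
            simp only [hw1, List.cons.injEq, Prod.mk.injEq, and_true, true_and] at hh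
            exact hqp (Prod.ext (hq2.trans hp2.symm) (by omega))
        · intro hh
          exact absurd hp hh
      rw [hX]
      simp only
      rw [e1, e2, if_neg hw10, zero_add, add_zero]
      refine mul_ne_zero hxp ?_
      have hz := Pool.Agent.H447R2.MZ.zeta_pos p.2 hp22
      rw [mz_val _ (adm_one hp22)]
      rw [(Pool.Agent.H447R2.MZ.val_single p.2 hp22).tsum_eq] at hz
      exact hz.ne'
    · push Not at h0
      have e2 : ∀ w, ∑ q ∈ S0, ((if w = w1 q then x q * mz [q.2] else 0) - (if w = w2 q then x q else 0) -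
          (if w = w0 then x q else 0)) = 0 := fun w =>
        sum_eq_zero fun q hq => by rw [h0 q hq]; simp
      by_cases h1 : ∃ p ∈ S1, x p ≠ 0
      · obtain ⟨p, hp, hxp⟩ := h1
        refine ⟨wS p, hmS p hp, ?_⟩
        have e1 : ∑ q ∈ S1, (if wS p = wS q then x q else 0) = x p := by
          rw [sum_eq_single p]
          · rw [if_pos rfl]
          · intro q _ hqp
            rw [if_neg]
            intro hh
            simp only [hwS, List.cons.injEq] at hh
            exact hqp hh.1.symm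
          · intro hh
            exact absurd hp hh
        rw [hX]
        simp only
        rw [e1, e2, if_neg (by simp [hwS, hw0]), add_zero, add_zero]
        exact hxp
      · push Not at h1
        have hy : y ≠ 0 := by
          rcases hxy with ⟨p, hp, hxp⟩ | hy
          · exfalso
            rcases Nat.eq_zero_or_pos p.1 with h2 | h2
            · exact hxp (h0 p (mem_filter.2 ⟨hp, h2⟩))
            · exact hxp (h1 p (mem_filter.2 ⟨hp, h2⟩))
          · exact hy
        refine ⟨w0, hm0, ?_⟩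
        have e1 : ∑ q ∈ S1, (if w0 = wS q then x q else 0) = 0 :=
          sum_eq_zero fun q _ => by rw [if_neg (by simp [hw0, hwS])]
        have e3 : X w0 = ∑ q ∈ S1, (if w0 = wS q then x q else 0) +
            ∑ q ∈ S0, ((if w0 = w1 q then x q * mz [q.2] else 0) - (if w0 = w2 q then x q else 0) -
              (if w0 = w0 then x q else 0)) + (if w0 = w0 then y else 0) := rfl
        rw [e3, e1, e2, if_pos rfl, add_zero, zero_add]
        exact hy
  obtain ⟨n0, hn0⟩ := h X hne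
  refine ⟨n0 + 2, fun n hn => ?_⟩
  have h5 := hn0 n (by omega)
  refine lt_of_lt_of_eq h5 ?_
  congr 1
  -- the sum over the words
  have f1 : ∑ w ∈ Λ, (∑ p ∈ S1, (if w = wS p then x p else 0)) * mz (ar n w) =
      ∑ p ∈ S1, x p * mz (ar n (wS p)) := by
    simp only [sum_mul]
    rw [sum_comm]
    refine sum_congr rfl fun p hp => ?_
    simp only [ite_mul, zero_mul]
    rw [sum_ite_eq' Λ (wS p), if_pos (hmS p hp)]
  have f2 : ∑ w ∈ Λ, (∑ p ∈ S0, ((if w = w1 p then x p * mz [p.2] else 0) - (if w = w2 p then x p else 0) -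
      (if w = w0 then x p else 0))) * mz (ar n w) =
      ∑ p ∈ S0, x p * (mz [p.2] * mz (ar n (w1 p)) - mz (ar n (w2 p)) - mz (ar n w0)) := by
    simp only [sum_mul]
    rw [sum_comm]
    refine sum_congr rfl fun p hp => ?_
    simp only [sub_mul, ite_mul, zero_mul, sum_sub_distrib]
    rw [sum_ite_eq' Λ (w1 p), if_pos (hm1 p hp), sum_ite_eq' Λ (w2 p), if_pos (hm2 p hp),
      sum_ite_eq' Λ w0, if_pos hm0]
    ring
  have f3 : ∑ w ∈ Λ, (if w = w0 then y else 0) * mz (ar n w) = y * mz (ar n w0) := by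
    simp only [ite_mul, zero_mul]
    rw [sum_ite_eq' Λ w0, if_pos hm0]
  have f4 : ∑ w ∈ Λ, X w * mz (ar n w) = ∑ p ∈ S1, x p * mz (ar n (wS p)) +
      ∑ p ∈ S0, x p * (mz [p.2] * mz (ar n (w1 p)) - mz (ar n (w2 p)) - mz (ar n w0)) + y * mz (ar n w0) := by
    rw [← f1, ← f2, ← f3, ← sum_add_distrib, ← sum_add_distrib]
    refine sum_congr rfl fun w _ => ?_
    rw [hX]
    ring
  rw [f4, hS01]
  have hKn : n ≤ K * n := by nlinarith
  congr 1
  · congr 1
    · refine sum_congr rfl fun p hp => ?_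
      obtain ⟨hp1, hp2⟩ := mem_filter.1 hp
      obtain ⟨h1, h2, h3, h4⟩ := hS p hp1
      congr 2
      show [p.1 * n + p.2, (K - p.1) * n + (L - p.2)] = _
      have h6 : (K - p.1) * n + (L - p.2) = (K * n + L) - (p.1 * n + p.2) := by
        rw [Nat.sub_mul]
        have : p.1 * n ≤ K * n := Nat.mul_le_mul_right _ h1
        omega
      rw [h6]
    · refine sum_congr rfl fun p hp => ?_
      obtain ⟨hp1, hp2⟩ := mem_filter.1 hp
      obtain ⟨h1, h2, h3, h4⟩ := hS p hp1
      have hp22 := h3 hp2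
      congr 1
      show mz [p.2] * mz [K * n + (L - p.2)] - mz [K * n + (L - p.2), 0 * n + p.2] - mz [K * n + L] = _
      have h6 : 0 * n + p.2 = p.2 := by ring
      have h7 : p.1 * n + p.2 = p.2 := by rw [hp2, zero_mul, zero_add]
      have h8 : K * n + L - p.2 = K * n + (L - p.2) := by omega
      rw [h6, h7, h8, mz_stuffle hp22 (show 2 ≤ K * n + (L - p.2) by omega)]
      have h9 : p.2 + (K * n + (L - p.2)) = K * n + L := by omega
      rw [h9]

end Pool.Agent.Q217.MZ
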