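import Pool.Agent.Q217.MZ.Affine
import Pool.Agent.H312R3.M34.Cor
import Pool.Agent.H103R2.LM.M
import Pool.Agent.Y801.Z5S.Fin

/-!
# Families of real numbers with a measure of linear independence (helper217)

`1, ζ(2), ζ(3)`; `1, ζ(3), ζ(4)`; `1, ζ(5)`; powers of `π`.
-/

set_option autoImplicit false

namespace Pool.Agent.Q217.MZ

open Finset
open Pool.Agent.Y760.PZ (LM LM_pow)
open Pool.Agent.TH456.TM (measT_pi measT_pow)
open Pool.Agent.H337R2 (zr)

lemma LM_pi (D : ℕ) : LM fun i : Fin (D + 1) => Real.pi ^ (i : ℕ) := LM_pow measT_pi D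

/-- a family with two members, the first of which is `1` and the second has a finite irrationality
measure -/
lemma LM_two {x c : ℝ} {μ : ℕ} (hc : 0 < c) (h : ∀ (a : ℤ) (b : ℕ), 0 < b → c / (b : ℝ) ^ μ ≤ |x - (a : ℝ) / b|) :
    LM ![1, x] := by
  refine ⟨μ, min c 1, Nat.cast_nonneg _, by positivity, fun q hq H hH hb => ?_⟩
  have hH0 : 0 < H := by linarith
  rw [Real.rpow_natCast]
  have hsum : ∑ i, (q i : ℝ) * ![1, x] i = q 0 + q 1 * x := by
    rw [Fin.sum_univ_two]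
    simp
  rw [hsum]
  have hHμ : (1 : ℝ) ≤ H ^ μ := one_le_pow₀ hH
  by_cases h1 : q 1 = 0
  · have h0 : q 0 ≠ 0 := by
      intro h0
      apply hq
      funext i
      fin_cases i
      · exact h0
      · exact h1
    rw [h1]
    push_cast
    rw [zero_mul, add_zero]
    have h2 : (1 : ℝ) ≤ |(q 0 : ℝ)| := by
      have : (1 : ℤ) ≤ |q 0| := Int.one_le_abs h0
      exact_mod_cast this
    calc min c 1 ≤ 1 := min_le_right _ _
      _ = 1 * 1 := (one_mul 1).symm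
      _ ≤ H ^ μ * |(q 0 : ℝ)| := by gcongr
  · -- `|q 0 + q 1 x| = |q 1| |x - (- q 0 / q 1)|`
    set b : ℕ := (q 1).natAbs with hb'
    have hb0 : 0 < b := Int.natAbs_pos.2 h1
    have hbR : (b : ℝ) = |(q 1 : ℝ)| := by
      rw [hb', Nat.cast_natAbs, Int.cast_abs]
    have hb1 : (1 : ℝ) ≤ b := by exact_mod_cast hb0
    have hbp : (0 : ℝ) < b := by linarith
    have h3 := h (-(q 1).sign * q 0) b hb0
    have h4 : (q 1 : ℝ) = (q 1).sign * (b : ℝ) := by
      have h5 := Int.sign_mul_natAbs (q 1)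
      rw [← hb'] at h5
      exact_mod_cast h5.symm
    have hs : |((q 1).sign : ℝ)| = 1 := by
      rcases lt_or_gt_of_ne h1 with h6 | h6
      · rw [Int.sign_eq_neg_one_of_neg h6]; norm_num
      · rw [Int.sign_eq_one_of_pos h6]; norm_num
    have hs2 : ((q 1).sign : ℝ) * (q 1).sign = 1 := by
      rcases lt_or_gt_of_ne h1 with h6 | h6
      · rw [Int.sign_eq_neg_one_of_neg h6]; norm_num
      · rw [Int.sign_eq_one_of_pos h6]; norm_num
    have h5 : (q 0 : ℝ) + q 1 * x = (q 1).sign * b * (x - ((-(q 1).sign * q 0 : ℤ) : ℝ) / b) := by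
      push_cast
      rw [mul_sub, mul_comm (((q 1).sign : ℝ) * b) ((-((q 1).sign : ℝ) * q 0) / b)]
      have e1 : (-((q 1).sign : ℝ) * q 0) / b * (((q 1).sign : ℝ) * b) = -(q 0 : ℝ) := by
        rw [div_mul_eq_mul_div, div_eq_iff hbp.ne']
        have : -((q 1).sign : ℝ) * q 0 * ((q 1).sign * b) = -(((q 1).sign : ℝ) * (q 1).sign) * (q 0 * b) := by ring
        rw [this, hs2]
        ring
      rw [e1, ← h4]
      ring
    rw [h5, abs_mul, abs_mul, hs, one_mul, abs_of_pos hbp]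
    have h6 : c / H ^ μ ≤ |x - ((-(q 1).sign * q 0 : ℤ) : ℝ) / b| := by
      refine le_trans ?_ h3
      refine div_le_div_of_nonneg_left hc.le (pow_pos hbp μ) ?_
      refine pow_le_pow_left₀ hbp.le ?_ μ
      rw [hbR]
      exact hb 1
    have h7 : c ≤ H ^ μ * |x - ((-(q 1).sign * q 0 : ℤ) : ℝ) / b| := by
      rw [div_le_iff₀ (pow_pos hH0 μ)] at h6
      linarith
    calc min c 1 ≤ c := min_le_left _ _
      _ ≤ H ^ μ * |x - ((-(q 1).sign * q 0 : ℤ) : ℝ) / b| := h7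
      _ = H ^ μ * (1 * |x - ((-(q 1).sign * q 0 : ℤ) : ℝ) / b|) := by rw [one_mul]
      _ ≤ _ := by
        gcongr

lemma LM_zeta5 : LM ![1, zr 5] := by
  obtain ⟨c, hc, h⟩ := Pool.Agent.Y801.Z5S.measure83
  exact LM_two hc h

/-- `1, ζ(3), π ^ 4` -/
lemma LM_zeta34 : LM ![1, zr 3, Real.pi ^ 4] := by
  obtain ⟨c, hc, κ, h⟩ := Pool.Agent.ZF.Mea.pi_all
  refine ⟨κ, c, Nat.cast_nonneg _, hc, fun q hq H hH hb => ?_⟩
  have hH0 : 0 < H := by linarith
  rw [Real.rpow_natCast]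
  have hsum : ∑ i, (q i : ℝ) * ![1, zr 3, Real.pi ^ 4] i = q 0 + q 1 * zr 3 + q 2 * Real.pi ^ 4 := by
    rw [Fin.sum_univ_three]
    simp
  rw [hsum]
  have h1 := h (q 0) (q 1) (q 2) (by
    rintro ⟨h0, h1, h2⟩
    apply hq
    funext i
    fin_cases i
    · exact h0
    · exact h1
    · exact h2) H hH (hb 1) (hb 2)
  rw [div_le_iff₀ (pow_pos hH0 κ)] at h1
  linarith

/-- `1, ζ(2), ζ(3)` -/
lemma LM_zeta23 : LM ![1, zr 2, zr 3] := by
  obtain ⟨c, hc, κ, hκ, h⟩ := Pool.Agent.LM.measure_d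
  obtain ⟨κ2, c2, hκ2, hc2, h2⟩ := LM_pow (θ := Real.pi ^ 2) (by
    have := measT_pow measT_pi 2 (by norm_num)
    push_cast
    exact this) 1
  have hz2 : zr 2 = Real.pi ^ 2 / 6 := Pool.Agent.LZ.Z2_value
  refine ⟨max κ κ2, min c (c2 / 6 ^ (κ2 + 1)), le_max_of_le_left hκ.le, by positivity, fun q hq H hH hb => ?_⟩
  have hH0 : 0 < H := by linarith
  have hsum : ∑ i, (q i : ℝ) * ![1, zr 2, zr 3] i = q 0 + q 1 * zr 2 + q 2 * zr 3 := by
    rw [Fin.sum_univ_three]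
    simp
  rw [hsum]
  by_cases hd : q 2 = 0
  · rw [hd]
    push_cast
    rw [zero_mul, add_zero]
    have h3 := h2 ![6 * q 0, q 1] (by
      intro h0
      apply hq
      have e0 := congrFun h0 0
      have e1 := congrFun h0 1
      simp only [Matrix.cons_val_zero, Matrix.cons_val_one, Pi.zero_apply] at e0 e1
      funext i
      fin_cases i
      · show q 0 = 0
        omega
      · exact e1
      · exact hd) (6 * H) (by linarith) (by
      intro i
      fin_cases i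
      · show |((6 * q 0 : ℤ) : ℝ)| ≤ 6 * H
        push_cast
        rw [abs_mul, abs_of_pos (by norm_num : (0 : ℝ) < 6)]
        linarith [hb 0]
      · show |((q 1 : ℤ) : ℝ)| ≤ 6 * H
        linarith [hb 1])
    have e1 : ∑ i : Fin (1 + 1), ((![6 * q 0, q 1] i : ℤ) : ℝ) * (Real.pi ^ 2) ^ (i : ℕ) =
        6 * (q 0 + q 1 * zr 2) := by
      rw [Fin.sum_univ_two, hz2]
      simp
      ring
    rw [e1, abs_mul, abs_of_pos (by norm_num : (0 : ℝ) < 6), Real.mul_rpow (by norm_num) hH0.le] at h3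
    have h4 : c2 / 6 ^ (κ2 + 1) ≤ H ^ κ2 * |(q 0 : ℝ) + q 1 * zr 2| := by
      rw [div_le_iff₀ (by positivity), Real.rpow_add (by norm_num), Real.rpow_one]
      calc c2 ≤ 6 ^ κ2 * H ^ κ2 * (6 * |(q 0 : ℝ) + q 1 * zr 2|) := h3
        _ = _ := by ring
    calc min c (c2 / 6 ^ (κ2 + 1)) ≤ c2 / 6 ^ (κ2 + 1) := min_le_right _ _
      _ ≤ H ^ κ2 * |(q 0 : ℝ) + q 1 * zr 2| := h4
      _ ≤ _ := by
        gcongr
        exact le_max_right _ _
  · have h3 := h (q 0) (q 1) (q 2) H hH hd (hb 1) (hb 2)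
    rw [Real.rpow_neg hH0.le, ← div_eq_mul_inv, div_le_iff₀ (Real.rpow_pos_of_pos hH0 κ)] at h3
    calc min c (c2 / 6 ^ (κ2 + 1)) ≤ c := min_le_left _ _
      _ ≤ |(q 0 : ℝ) + q 1 * zr 2 + q 2 * zr 3| * H ^ κ := h3
      _ = H ^ κ * |(q 0 : ℝ) + q 1 * zr 2 + q 2 * zr 3| := mul_comm _ _
      _ ≤ _ := by
        gcongr
        exact le_max_left _ _

/-- scaling of the members of a family by nonzero rational numbers -/
lemma LM_scale {ι : Type} [Fintype ι] {θ η : ι → ℝ} (hθ : LM θ) (p q : ι → ℕ) (hp : ∀ i, 0 < p i)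
    (hq : ∀ i, 0 < q i) (h : ∀ i, η i = θ i * p i / q i) : LM η := by
  obtain ⟨κ, c, hκ, hc, hm⟩ := hθ
  set Q : ℕ := ∏ i, q i with hQ
  have hQ0 : 0 < Q := prod_pos fun i _ => hq i
  set P : ℕ := 1 + ∑ i, p i with hP
  have hQR : (1 : ℝ) ≤ Q := by exact_mod_cast hQ0
  have hPR : (1 : ℝ) ≤ P := by
    have : 1 ≤ P := by omega
    exact_mod_cast this
  refine ⟨κ, c / ((Q * P) ^ κ * Q), hκ, by positivity, fun v hv H hH hb => ?_⟩
  have hH0 : 0 < H := by linarith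
  have hdvd : ∀ i, q i ∣ Q := fun i => dvd_prod_of_mem _ (mem_univ i)
  have h1 := hm (fun i => v i * ((Q / q i * p i : ℕ) : ℤ)) (by
    intro h0
    apply hv
    funext i
    have h2 := congrFun h0 i
    simp only [Pi.zero_apply] at h2
    rcases mul_eq_zero.1 h2 with h3 | h3
    · exact h3
    · exfalso
      have h4 : 0 < Q / q i * p i := Nat.mul_pos (Nat.div_pos (Nat.le_of_dvd hQ0 (hdvd i)) (hq i)) (hp i)
      have h5 : Q / q i * p i = 0 := by exact_mod_cast h3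
      omega) (Q * P * H) (by nlinarith [mul_nonneg (sub_nonneg.2 hQR) (sub_nonneg.2 hPR)]) (by
    intro i
    have e0 : ((v i * ((Q / q i * p i : ℕ) : ℤ) : ℤ) : ℝ) = (v i : ℝ) * (((Q / q i : ℕ) : ℝ) * (p i : ℝ)) := by
      rw [Int.cast_mul, Int.cast_natCast, Nat.cast_mul]
    rw [e0]
    have h2 : ((Q / q i : ℕ) : ℝ) ≤ Q := by exact_mod_cast Nat.div_le_self _ _
    have h3 : (p i : ℝ) ≤ P := by
      have : p i ≤ P := by
        have := single_le_sum (f := p) (fun _ _ => Nat.zero_le _) (mem_univ i)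
        omega
      exact_mod_cast this
    have hnn : 0 ≤ ((Q / q i : ℕ) : ℝ) * (p i : ℝ) := by positivity
    rw [abs_mul, abs_of_nonneg hnn]
    calc |(v i : ℝ)| * (((Q / q i : ℕ) : ℝ) * p i) ≤ H * (Q * P) := by
          gcongr
          exact hb i
      _ = Q * P * H := by ring)
  have h2 : ∑ i, ((v i * ((Q / q i * p i : ℕ) : ℤ) : ℤ) : ℝ) * θ i = Q * ∑ i, (v i : ℝ) * η i := by
    rw [mul_sum]
    refine sum_congr rfl fun i _ => ?_
    have hqi : (0 : ℝ) < q i := by exact_mod_cast hq i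
    have e0 : ((v i * ((Q / q i * p i : ℕ) : ℤ) : ℤ) : ℝ) = (v i : ℝ) * (((Q / q i : ℕ) : ℝ) * (p i : ℝ)) := by
      rw [Int.cast_mul, Int.cast_natCast, Nat.cast_mul]
    rw [e0, h i, Nat.cast_div (hdvd i) hqi.ne']
    field_simp
  rw [h2, abs_mul, abs_of_pos (by linarith : (0 : ℝ) < Q), Real.mul_rpow (by positivity) hH0.le] at h1
  rw [div_le_iff₀ (by positivity)]
  calc c ≤ (Q * P) ^ κ * H ^ κ * (Q * |∑ i, (v i : ℝ) * η i|) := h1
    _ = _ := by ring

end Pool.Agent.Q217.MZ
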