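import Pool.Agent.Q217.MZ.Double
import Pool.Agent.Q217.MZ.Fam

/-!
# Double zeta values of the same weight, constant first arguments, exponential heights (helper217)
-/

set_option autoImplicit false

namespace Pool.Agent.Q217.MZ

open Finset Filter Topology
open Pool.Agent.TH507.WD (mz hr hr_cons hr_nil)
open Pool.Agent.TH507.WG (HP OK ar cf cf_zero cf_bd cf1_ind dser_eq_mz)
open Pool.Agent.TH507.ZS (dser PB)
open Pool.Agent.Y760.PZ (LM)

/-- combinations of growing words, coefficients in the span of `θ` -/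
theorem words_w {ι : Type} [Fintype ι] (θ : ι → ℝ) (hθ : LM θ) (Λ : Finset (List (ℕ × ℕ))) (hHP : ∀ w ∈ Λ, HP w)
    (hOK : ∀ w ∈ Λ, OK w) :
    ∃ B C : ℝ, 1 < B ∧ 1 < C ∧ ∃ n0 : ℕ, ∀ n : ℕ, n0 ≤ n → ∀ a : List (ℕ × ℕ) → ι → ℤ,
      (∃ w ∈ Λ, ∃ i, a w i ≠ 0) → (∀ w ∈ Λ, ∀ i, |(a w i : ℝ)| ≤ C ^ n) →
      (B ^ n)⁻¹ < |∑ w ∈ Λ, (∑ i, (a w i : ℝ) * θ i) * mz (ar n w)| := by
  classical
  set A : ℕ := ∑ w ∈ Λ, (2 ^ w.length + w.length) with hA
  have hAw : ∀ w ∈ Λ, 2 ^ w.length + w.length ≤ A := fun w hw =>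
    single_le_sum (f := fun w : List (ℕ × ℕ) => 2 ^ w.length + w.length)
      (fun _ _ => Nat.zero_le _) hw
  obtain ⟨B, C, hB, hC, n0, h⟩ := core_w (J := Λ) θ hθ (fun w => cfb w.1)
    (fun w => ⟨A, fun k hk => cf_bd w.1 ((Nat.le_add_right _ _).trans (hAw w.1 w.2))
      ((Nat.le_add_left _ _).trans (hAw w.1 w.2)) k hk⟩) (ind_words Λ hHP hOK)
  refine ⟨B, C, hB, hC, n0 + A + 2, fun n hn a ha hb => ?_⟩
  have h3 : ∀ w : Λ, dser (cfb w.1) n = mz (ar n w.1) := fun w =>
    dser_eq_mz w.1 (hHP w.1 w.2) (A := A) ((Nat.le_add_right _ _).trans (hAw w.1 w.2))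
      ((Nat.le_add_left _ _).trans (hAw w.1 w.2)) (by omega)
  have h4 := h n (by omega) (fun w i => a w.1 i) (by
    obtain ⟨w, hw, i, hi⟩ := ha
    intro hcon
    exact hi (congrFun (congrFun hcon ⟨w, hw⟩) i)) (fun w i => hb w.1 w.2 i)
  simp only [h3] at h4
  rw [← sum_coe_sort Λ (fun w => (∑ i, (a w i : ℝ) * θ i) * mz (ar n w))]
  exact h4

/-- **shapes**, coefficients up to `C ^ n`, if the zeta values at the constant first arguments have, with `1`, a measure
of linear independence -/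
theorem shapes_exp {K L : ℕ} (hK : 1 ≤ K) (S : Finset (ℕ × ℕ)) (hS : ∀ p ∈ S, Shape K L p) {ι : Type} [Fintype ι]
    (θ : ι → ℝ) (hθ : LM θ) (i0 : ι) (hi0 : θ i0 = 1) (ix : ℕ × ℕ → ι)
    (hix : ∀ p ∈ S, p.1 = 0 → ix p ≠ i0 ∧ θ (ix p) = mz [p.2]) :
    ∃ B C : ℝ, 1 < B ∧ 1 < C ∧ ∃ n0 : ℕ, ∀ n : ℕ, n0 ≤ n → ∀ (x : ℕ × ℕ → ℤ) (y : ℤ),
      ((∃ p ∈ S, x p ≠ 0) ∨ y ≠ 0) → (∀ p ∈ S, |(x p : ℝ)| ≤ C ^ n) → |(y : ℝ)| ≤ C ^ n →
      (B ^ n)⁻¹ < |∑ p ∈ S, (x p : ℝ) * mz [p.1 * n + p.2, (K * n + L) - (p.1 * n + p.2)] +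
        y * mz [K * n + L]| := by
  classical
  set S1 := S.filter fun p => 1 ≤ p.1 with hS1
  set S0 := S.filter fun p => p.1 = 0 with hS0
  have hS01 : ∀ f : ℕ × ℕ → ℝ, ∑ p ∈ S, f p = ∑ p ∈ S1, f p + ∑ p ∈ S0, f p := by
    intro f
    rw [hS1, hS0, ← sum_filter_add_sum_filter_not S (fun p => 1 ≤ p.1) f]
    congr 1
    apply sum_congr _ fun _ _ => rfl
    ext p
    simp only [mem_filter]
    constructor
    · rintro ⟨a, b⟩; exact ⟨a, by omega⟩
    · rintro ⟨a, b⟩; exact ⟨a, by omega⟩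
  -- the words
  set wS : ℕ × ℕ → List (ℕ × ℕ) := fun p => [p, (K - p.1, L - p.2)] with hwS
  set w1 : ℕ × ℕ → List (ℕ × ℕ) := fun p => [(K, L - p.2)] with hw1
  set w2 : ℕ × ℕ → List (ℕ × ℕ) := fun p => [(K, L - p.2), (0, p.2)] with hw2
  set w0 : List (ℕ × ℕ) := [(K, L)] with hw0
  set Λ : Finset (List (ℕ × ℕ)) := insert w0 (S1.image wS ∪ (S0.image w1 ∪ S0.image w2)) with hΛ
  have hmem : ∀ w ∈ Λ, w = w0 ∨ (∃ p ∈ S1, w = wS p) ∨ (∃ p ∈ S0, w = w1 p) ∨ (∃ p ∈ S0, w = w2 p) := by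
    intro w hw
    rw [hΛ, mem_insert, mem_union, mem_union, mem_image, mem_image, mem_image] at hw
    rcases hw with h | ⟨p, hp, h⟩ | ⟨p, hp, h⟩ | ⟨p, hp, h⟩
    · exact Or.inl h
    · exact Or.inr (Or.inl ⟨p, hp, h.symm⟩)
    · exact Or.inr (Or.inr (Or.inl ⟨p, hp, h.symm⟩))
    · exact Or.inr (Or.inr (Or.inr ⟨p, hp, h.symm⟩))
  have hm0 : w0 ∈ Λ := mem_insert_self _ _
  have hmS : ∀ p ∈ S1, wS p ∈ Λ := fun p hp =>
    mem_insert_of_mem (mem_union_left _ (mem_image_of_mem _ hp))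
  have hm1 : ∀ p ∈ S0, w1 p ∈ Λ := fun p hp =>
    mem_insert_of_mem (mem_union_right _ (mem_union_left _ (mem_image_of_mem _ hp)))
  have hm2 : ∀ p ∈ S0, w2 p ∈ Λ := fun p hp =>
    mem_insert_of_mem (mem_union_right _ (mem_union_right _ (mem_image_of_mem _ hp)))
  have hHP : ∀ w ∈ Λ, HP w := by
    intro w hw
    rcases hmem w hw with rfl | ⟨p, hp, rfl⟩ | ⟨p, hp, rfl⟩ | ⟨p, hp, rfl⟩
    · exact hK
    · exact (mem_filter.1 hp).2
    · exact hK
    · exact hK
  have hOK : ∀ w ∈ Λ, OK w := by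
    intro w hw
    rcases hmem w hw with rfl | ⟨p, hp, rfl⟩ | ⟨p, hp, rfl⟩ | ⟨p, hp, rfl⟩
    · intro q hq hq1
      simp only [hw0, List.mem_cons, List.not_mem_nil, or_false] at hq
      rw [hq] at hq1
      simp only at hq1
      omega
    · obtain ⟨hp1, hp2⟩ := mem_filter.1 hp
      obtain ⟨h1, h2, h3, h4⟩ := hS p hp1
      intro q hq hq1
      simp only [hwS, List.mem_cons, List.not_mem_nil, or_false] at hq
      rcases hq with rfl | rfl
      · omega
      · simp only at hq1 ⊢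
        have := h4 (by omega)
        omega
    · intro q hq hq1
      simp only [hw1, List.mem_cons, List.not_mem_nil, or_false] at hq
      rw [hq] at hq1
      simp only at hq1
      omega
    · obtain ⟨hp1, hp2⟩ := mem_filter.1 hp
      obtain ⟨h1, h2, h3, h4⟩ := hS p hp1
      intro q hq hq1
      simp only [hw2, List.mem_cons, List.not_mem_nil, or_false] at hq
      rcases hq with rfl | rfl
      · simp only at hq1
        omega
      · simp only
        have := h3 hp2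
        omega
  obtain ⟨B, C1, hB, hC1, n1, h⟩ := words_w θ hθ Λ hHP hOK
  -- the growth of the coefficients
  set D : ℝ := 1 + 3 * (S.card : ℝ) with hD
  have hD0 : 1 ≤ D := by
    rw [hD]
    have : (0 : ℝ) ≤ S.card := Nat.cast_nonneg _
    linarith
  obtain ⟨C, hC, hCC⟩ : ∃ C : ℝ, 1 < C ∧ C < C1 := exists_between hC1
  have hgrow : ∀ᶠ n : ℕ in atTop, D * C ^ n ≤ C1 ^ n := by
    have hC0 : 0 < C := by linarith
    have h1 : Tendsto (fun n : ℕ => (C1 / C) ^ n) atTop atTop :=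
      tendsto_pow_atTop_atTop_of_one_lt ((one_lt_div hC0).2 hCC)
    filter_upwards [h1.eventually (eventually_ge_atTop D)] with n hn
    rw [div_pow, le_div_iff₀ (pow_pos hC0 n)] at hn
    exact hn
  obtain ⟨n2, hn2⟩ := eventually_atTop.1 hgrow
  refine ⟨B, C, hB, hC, n1 + n2 + 2, fun n hn x y hxy hxb hyb => ?_⟩
  -- the coefficients of the words
  set a : List (ℕ × ℕ) → ι → ℤ := fun w i =>
    (if i = i0 then (∑ p ∈ S1, (if w = wS p then x p else 0) +
      ∑ p ∈ S0, (-(if w = w2 p then x p else 0) - (if w = w0 then x p else 0)) + (if w = w0 then y else 0)) else 0) +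
    ∑ p ∈ S0, (if i = ix p ∧ w = w1 p then x p else 0) with ha
  have hixn : ∀ p ∈ S0, ix p ≠ i0 := fun p hp => (hix p (mem_filter.1 hp).1 (mem_filter.1 hp).2).1
  have hixθ : ∀ p ∈ S0, θ (ix p) = mz [p.2] := fun p hp => (hix p (mem_filter.1 hp).1 (mem_filter.1 hp).2).2
  have ha0 : ∀ w, a w i0 = ∑ p ∈ S1, (if w = wS p then x p else 0) +
      ∑ p ∈ S0, (-(if w = w2 p then x p else 0) - (if w = w0 then x p else 0)) + (if w = w0 then y else 0) := by
    intro w
    have e1 : a w i0 = (if i0 = i0 then (∑ p ∈ S1, (if w = wS p then x p else 0) +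
      ∑ p ∈ S0, (-(if w = w2 p then x p else 0) - (if w = w0 then x p else 0)) + (if w = w0 then y else 0)) else 0) +
      ∑ p ∈ S0, (if i0 = ix p ∧ w = w1 p then x p else 0) := rfl
    have e2 : ∑ p ∈ S0, (if i0 = ix p ∧ w = w1 p then x p else 0) = 0 :=
      sum_eq_zero fun p hp => if_neg fun hh => hixn p hp hh.1.symm
    rw [e1, e2, if_pos rfl, add_zero]
  have ha1 : ∀ w i, i ≠ i0 → a w i = ∑ p ∈ S0, (if i = ix p ∧ w = w1 p then x p else 0) := by
    intro w i hi
    have e1 : a w i = (if i = i0 then (∑ p ∈ S1, (if w = wS p then x p else 0) +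
      ∑ p ∈ S0, (-(if w = w2 p then x p else 0) - (if w = w0 then x p else 0)) + (if w = w0 then y else 0)) else 0) +
      ∑ p ∈ S0, (if i = ix p ∧ w = w1 p then x p else 0) := rfl
    rw [e1, if_neg hi, zero_add]
  have hw12 : ∀ p q : ℕ × ℕ, p ∈ S0 → q ∈ S0 → w1 p = w1 q → p = q := by
    intro p q hp hq hh
    obtain ⟨hp1, hp2⟩ := mem_filter.1 hp
    obtain ⟨hq1, hq2⟩ := mem_filter.1 hq
    obtain ⟨h1, h2, h3, h4⟩ := hS p hp1
    obtain ⟨g1, g2, g3, g4⟩ := hS q hq1
    simp only [hw1, List.cons.injEq, Prod.mk.injEq, and_true, true_and] at hh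
    exact Prod.ext (hp2.trans hq2.symm) (by omega)
  -- some coefficient is not zero
  have hne : ∃ w ∈ Λ, ∃ i, a w i ≠ 0 := by
    by_cases h0 : ∃ p ∈ S0, x p ≠ 0
    · obtain ⟨p, hp, hxp⟩ := h0
      refine ⟨w1 p, hm1 p hp, ix p, ?_⟩
      rw [ha1 _ _ (hixn p hp), sum_eq_single p]
      · rw [if_pos ⟨rfl, rfl⟩]
        exact hxp
      · intro q hq hqp
        rw [if_neg]
        rintro ⟨-, hh⟩
        exact hqp (hw12 p q hp hq hh).symm
      · intro hh
        exact absurd hp hh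
    · push Not at h0
      have e2 : ∀ w, ∑ q ∈ S0, (-(if w = w2 q then x q else 0) - (if w = w0 then x q else 0)) = 0 := fun w =>
        sum_eq_zero fun q hq => by rw [h0 q hq]; simp
      by_cases h1 : ∃ p ∈ S1, x p ≠ 0
      · obtain ⟨p, hp, hxp⟩ := h1
        refine ⟨wS p, hmS p hp, i0, ?_⟩
        have e1 : ∑ q ∈ S1, (if wS p = wS q then x q else 0) = x p := by
          rw [sum_eq_single p]
          · rw [if_pos rfl]
          · intro q _ hqp
            rw [if_neg]
            intro hh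
            simp only [hwS, List.cons.injEq] at hh
            exact hqp hh.1.symm
          · intro hh
            exact absurd hp hh
        rw [ha0, e1, e2, if_neg (by simp [hwS, hw0]), add_zero, add_zero]
        exact hxp
      · push Not at h1
        have hy : y ≠ 0 := by
          rcases hxy with ⟨p, hp, hxp⟩ | hy
          · exfalso
            rcases Nat.eq_zero_or_pos p.1 with h2 | h2
            · exact hxp (h0 p (mem_filter.2 ⟨hp, h2⟩))
            · exact hxp (h1 p (mem_filter.2 ⟨hp, h2⟩))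
          · exact hy
        refine ⟨w0, hm0, i0, ?_⟩
        have e1 : ∑ q ∈ S1, (if w0 = wS q then x q else 0) = 0 :=
          sum_eq_zero fun q _ => by rw [if_neg (by simp [hw0, hwS])]
        rw [ha0, e1, e2, if_pos rfl, add_zero, zero_add]
        exact hy
  -- bounds
  have hCn : (0 : ℝ) ≤ C ^ n := by positivity
  have hcard0 : (S0.card : ℝ) ≤ S.card := by exact_mod_cast card_filter_le _ _
  have hcard1 : (S1.card : ℝ) ≤ S.card := by exact_mod_cast card_filter_le _ _
  have hb0 : ∀ p ∈ S0, |(x p : ℝ)| ≤ C ^ n := fun p hp => hxb p (mem_filter.1 hp).1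
  have hb1 : ∀ p ∈ S1, |(x p : ℝ)| ≤ C ^ n := fun p hp => hxb p (mem_filter.1 hp).1
  have hbs : ∀ (T : Finset (ℕ × ℕ)) (f : ℕ × ℕ → ℤ) (t : ℝ), (∀ p ∈ T, |(f p : ℝ)| ≤ t * C ^ n) →
      |((∑ p ∈ T, f p : ℤ) : ℝ)| ≤ T.card * (t * C ^ n) := by
    intro T f t hf
    push_cast
    refine (abs_sum_le_sum_abs _ _).trans ?_
    rw [← nsmul_eq_mul, ← sum_const]
    exact sum_le_sum hf
  have hbound : ∀ w ∈ Λ, ∀ i, |(a w i : ℝ)| ≤ C1 ^ n := by
    intro w _ i
    refine le_trans ?_ (hn2 n (by omega))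
    by_cases hi : i = i0
    · rw [hi, ha0]
      have g1 := hbs S1 (fun p => if w = wS p then x p else 0) 1 (fun p hp => by
        rw [one_mul]
        split_ifs
        · exact hb1 p hp
        · simpa using hCn)
      have g2 := hbs S0 (fun p => -(if w = w2 p then x p else 0) - (if w = w0 then x p else 0)) 2 (fun p hp => by
        push_cast
        refine (abs_sub _ _).trans ?_
        rw [abs_neg]
        have k1 : |((if w = w2 p then x p else 0 : ℤ) : ℝ)| ≤ C ^ n := by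
          split_ifs
          · exact hb0 p hp
          · simpa using hCn
        have k2 : |((if w = w0 then x p else 0 : ℤ) : ℝ)| ≤ C ^ n := by
          split_ifs
          · exact hb0 p hp
          · simpa using hCn
        push_cast at k1 k2
        linarith)
      have g3 : |((if w = w0 then y else 0 : ℤ) : ℝ)| ≤ C ^ n := by
        split_ifs
        · exact hyb
        · simpa using hCn
      have g4 : |((∑ p ∈ S1, (if w = wS p then x p else 0) +
          ∑ p ∈ S0, (-(if w = w2 p then x p else 0) - (if w = w0 then x p else 0)) +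
          (if w = w0 then y else 0) : ℤ) : ℝ)| ≤ S1.card * (1 * C ^ n) + S0.card * (2 * C ^ n) + C ^ n := by
        rw [Int.cast_add, Int.cast_add]
        refine (abs_add_le _ _).trans (add_le_add ((abs_add_le _ _).trans (add_le_add g1 g2)) g3)
      refine g4.trans ?_
      rw [hD]
      nlinarith [mul_le_mul_of_nonneg_right hcard0 hCn, mul_le_mul_of_nonneg_right hcard1 hCn]
    · rw [ha1 w i hi]
      have g1 := hbs S0 (fun p => if i = ix p ∧ w = w1 p then x p else 0) 1 (fun p hp => by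
        rw [one_mul]
        split_ifs
        · exact hb0 p hp
        · simpa using hCn)
      refine g1.trans ?_
      rw [hD]
      nlinarith [mul_le_mul_of_nonneg_right hcard0 hCn, mul_nonneg (Nat.cast_nonneg (α := ℝ) S.card) hCn]
  have h5 := h n (by omega) a hne hbound
  refine lt_of_lt_of_eq h5 ?_
  congr 1
  -- the coefficient of a word
  have hX : ∀ w, ∑ i, (a w i : ℝ) * θ i = ∑ p ∈ S1, (if w = wS p then (x p : ℝ) else 0) +
      ∑ p ∈ S0, ((if w = w1 p then x p * mz [p.2] else 0) - (if w = w2 p then (x p : ℝ) else 0) -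
        (if w = w0 then (x p : ℝ) else 0)) + (if w = w0 then (y : ℝ) else 0) := by
    intro w
    have e1 : ∀ i, (a w i : ℝ) * θ i =
        (if i = i0 then (∑ p ∈ S1, (if w = wS p then (x p : ℝ) else 0) +
          ∑ p ∈ S0, (-(if w = w2 p then (x p : ℝ) else 0) - (if w = w0 then (x p : ℝ) else 0)) +
          (if w = w0 then (y : ℝ) else 0)) else 0) +
        ∑ p ∈ S0, (if i = ix p then (if w = w1 p then x p * mz [p.2] else 0) else 0) := by
      intro i
      by_cases hi : i = i0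
      · rw [hi, ha0, hi0, mul_one, if_pos rfl]
        have e2 : ∑ p ∈ S0, (if i0 = ix p then (if w = w1 p then (x p : ℝ) * mz [p.2] else 0) else 0) = 0 :=
          sum_eq_zero fun p hp => if_neg fun hh => hixn p hp hh.symm
        rw [e2, add_zero]
        push_cast
        rfl
      · rw [ha1 w i hi, if_neg hi, zero_add]
        push_cast
        rw [sum_mul]
        refine sum_congr rfl fun p hp => ?_
        by_cases h1 : i = ix p
        · by_cases h2 : w = w1 p
          · rw [if_pos ⟨h1, h2⟩, if_pos h1, if_pos h2, h1, hixθ p hp]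
          · rw [if_neg (fun hh => h2 hh.2), if_pos h1, if_neg h2, zero_mul]
        · rw [if_neg (fun hh => h1 hh.1), if_neg h1, zero_mul]
    rw [sum_congr rfl fun i _ => e1 i, sum_add_distrib, sum_ite_eq' univ i0, if_pos (mem_univ _), sum_comm]
    have e3 : ∀ p ∈ S0, ∑ i, (if i = ix p then (if w = w1 p then (x p : ℝ) * mz [p.2] else 0) else 0) =
        if w = w1 p then (x p : ℝ) * mz [p.2] else 0 := fun p _ => by
      rw [sum_ite_eq' univ (ix p), if_pos (mem_univ _)]
    rw [sum_congr rfl e3]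
    simp only [sum_sub_distrib, sum_neg_distrib]
    ring
  simp only [hX]
  have f1 : ∑ w ∈ Λ, (∑ p ∈ S1, (if w = wS p then (x p : ℝ) else 0)) * mz (ar n w) =
      ∑ p ∈ S1, (x p : ℝ) * mz (ar n (wS p)) := by
    simp only [sum_mul]
    rw [sum_comm]
    refine sum_congr rfl fun p hp => ?_
    simp only [ite_mul, zero_mul]
    rw [sum_ite_eq' Λ (wS p), if_pos (hmS p hp)]
  have f2 : ∑ w ∈ Λ, (∑ p ∈ S0, ((if w = w1 p then (x p : ℝ) * mz [p.2] else 0) -
      (if w = w2 p then (x p : ℝ) else 0) - (if w = w0 then (x p : ℝ) else 0))) * mz (ar n w) =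
      ∑ p ∈ S0, (x p : ℝ) * (mz [p.2] * mz (ar n (w1 p)) - mz (ar n (w2 p)) - mz (ar n w0)) := by
    simp only [sum_mul]
    rw [sum_comm]
    refine sum_congr rfl fun p hp => ?_
    simp only [sub_mul, ite_mul, zero_mul, sum_sub_distrib]
    rw [sum_ite_eq' Λ (w1 p), if_pos (hm1 p hp), sum_ite_eq' Λ (w2 p), if_pos (hm2 p hp),
      sum_ite_eq' Λ w0, if_pos hm0]
    ring
  have f3 : ∑ w ∈ Λ, (if w = w0 then (y : ℝ) else 0) * mz (ar n w) = y * mz (ar n w0) := by
    simp only [ite_mul, zero_mul]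
    rw [sum_ite_eq' Λ w0, if_pos hm0]
  simp only [add_mul, sum_add_distrib]
  rw [f1, f2, f3, hS01]
  have hKn : n ≤ K * n := by nlinarith
  congr 1
  · congr 1
    · refine sum_congr rfl fun p hp => ?_
      obtain ⟨hp1, hp2⟩ := mem_filter.1 hp
      obtain ⟨h1, h2, h3, h4⟩ := hS p hp1
      congr 2
      show [p.1 * n + p.2, (K - p.1) * n + (L - p.2)] = _
      have h6 : (K - p.1) * n + (L - p.2) = (K * n + L) - (p.1 * n + p.2) := by
        rw [Nat.sub_mul]
        have : p.1 * n ≤ K * n := Nat.mul_le_mul_right _ h1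
        omega
      rw [h6]
    · refine sum_congr rfl fun p hp => ?_
      obtain ⟨hp1, hp2⟩ := mem_filter.1 hp
      obtain ⟨h1, h2, h3, h4⟩ := hS p hp1
      have hp22 := h3 hp2
      congr 1
      show mz [p.2] * mz [K * n + (L - p.2)] - mz [K * n + (L - p.2), 0 * n + p.2] - mz [K * n + L] = _
      have h6 : 0 * n + p.2 = p.2 := by ring
      have h7 : p.1 * n + p.2 = p.2 := by rw [hp2, zero_mul, zero_add]
      have h8 : K * n + L - p.2 = K * n + (L - p.2) := by omega
      rw [h6, h7, h8, mz_stuffle hp22 (show 2 ≤ K * n + (L - p.2) by omega)]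
      have h9 : p.2 + (K * n + (L - p.2)) = K * n + L := by omega
      rw [h9]

end Pool.Agent.Q217.MZ
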