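import Pool.Agent.Q217.MZ.PrefixFin

/-!
# Relations of bounded shape with constant letters: families of monomials; shuffle products (helper217)
-/

set_option autoImplicit false

namespace Pool.Agent.Q217.MZ

open Finset Filter Topology
open Pool.Agent.TH507.WD (mz hr hr_cons hr_nil)
open Pool.Agent.TH507.WG (HP OK ar ar_nil ar_cons st st_OK st_length OK_cons hr_mul stl)
open Pool.Agent.TH507.DS (stI stI_ar Zh Zh_single Zh_el sh word decA el Lb Zb Zb_mul Vd Vd_word mz_eq Zb_eq sh_Vd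
  coeff_word word_decA decA_pos)
open Pool.Agent.Y760.PZ (LM)
open Pool.Agent.H337R2 (zr)

section

variable {ℰ : Type} [Fintype ℰ] (M : ℰ → List (List (ℕ × ℕ)))

lemma gen_pair (hM : ∀ e, ∀ u ∈ M e, AdmW u) {p : List (ℕ × ℕ) × List (ℕ × ℕ)} (hp : p ∈ prs (wds M)) :
    ∃ e : ℰ, (∀ x ∈ p.1, x.1 = 0) ∧ AdmW p.1 ∧
      p.1.sum.2 ≤ ((M e).map fun u => (cp u).sum.2).sum ∧ p.1.sum + p.2.sum = ((M e).map List.sum).sum := by
  obtain ⟨v, hv, hvp⟩ := mem_prs.1 hp
  obtain ⟨e, he⟩ := mem_wds.1 hv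
  have hP := E_pair (stl_AdmW _ (hM e) v he) hvp
  exact ⟨e, hP.c, hP.a1, (prefix_sum hP.q).trans (stl_cpw _ v he), by rw [hP.s, stl_sum _ v he]⟩

lemma gen_F (hM : ∀ e, ∀ u ∈ M e, AdmW u) {A : Type} [CommRing A] {F : List (ℕ × ℕ) → A} (hF : StF F) (c : ℰ → ℤ) :
    ∑ e, (c e : A) * ((M e).map F).prod = ∑ v ∈ wds M, ((cw M c v : ℤ) : A) * F v := by
  have h2 : ∀ v ∈ wds M, ((cw M c v : ℤ) : A) * F v = cw M (fun e => (c e : A)) v * F v := fun v _ => by
    rw [cw_cast]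
  rw [sum_congr rfl h2]
  exact poly_lin M hM hF (fun e => (c e : A))

lemma gen_adm (hM : ∀ e, ∀ u ∈ M e, AdmW u) : ∀ v ∈ wds M, AdmW v := by
  intro v hv
  obtain ⟨e, he⟩ := mem_wds.1 hv
  exact stl_AdmW _ (hM e) v he

end

/-- exponential heights, constants of weight at most three -/
theorem gen_three {ℰ : Type} [Fintype ℰ] (M : ℰ → List (List (ℕ × ℕ))) (hM : ∀ e, ∀ u ∈ M e, AdmW u)
    (hW : ∀ e, ((M e).map fun u => (cp u).sum.2).sum ≤ 3) :
    ∃ B C : ℝ, 1 < B ∧ 1 < C ∧ ∃ n0 : ℕ, ∀ n, n0 ≤ n → ∀ c : ℰ → ℤ, (∀ e, |(c e : ℝ)| ≤ C ^ n) →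
      |∑ e, (c e : ℝ) * ((M e).map fun u => mz (ar n u)).prod| ≤ (B ^ n)⁻¹ →
      ∀ (A : Type) [CommRing A] (z : List ℕ → A), StI z → z [2, 1] = z [3] →
        ∀ n', 2 ≤ n' → ∑ e, (c e : A) * ((M e).map fun u => z (ar n' u)).prod = 0 := by
  classical
  have hpW : ∀ p ∈ prs (wds M), (∀ x ∈ p.1, x.1 = 0) ∧ AdmW p.1 ∧ p.1.sum.2 ≤ 3 := by
    intro p hp
    obtain ⟨e, h1, h2, h3, -⟩ := gen_pair M hM hp
    exact ⟨h1, h2, h3.trans (hW e)⟩
  obtain ⟨B, C, hB, hC, n0, h⟩ := poly_exp _ LM_zeta23 M hM 1 one_pos m3 fun p hp => by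
    obtain ⟨h1, h2, h3⟩ := hpW p hp
    rw [cv, m3_eval mz (by rw [mz]) mz_21 h1 h2 h3, mz_zr, mz_zr, Nat.cast_one, one_mul]
  refine ⟨B, C, hB, hC, n0 + 2, fun n hn c hc hsmall A _ z hz h21 n' hn' => ?_⟩
  have hRI : ∀ v i, RI (wds M) (cw M c) m3 v i = 0 := by
    by_contra hcon
    push Not at hcon
    exact absurd hsmall (not_le.2 (h n (by omega) c hc hcon))
  have hF := StF_of_StI hz hn'
  rw [gen_F M hM hF c, expandV hF _ (gen_adm M hM)]
  refine sum_eq_zero fun v _ => ?_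
  have h1 := RI_RC (wds M) (cw M c) m3 ![1, z [2], z [3]] (fun u => z (ar n' u)) (1 : A) (fun p hp => by
    obtain ⟨h1, h2, h3⟩ := hpW p hp
    rw [ar_const p.1 h1, one_mul]
    exact m3_eval z hz.1 h21 h1 h2 h3) v
  simp only [hRI, Int.cast_zero, zero_mul, sum_const_zero, one_mul] at h1
  rw [h1, zero_mul]

/-- bounded heights, isobaric relations, constants of weight at most four -/
theorem gen_four {ℰ : Type} [Fintype ℰ] (M : ℰ → List (List (ℕ × ℕ))) (hM : ∀ e, ∀ u ∈ M e, AdmW u)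
    (hW : ∀ e, ((M e).map fun u => (cp u).sum.2).sum ≤ 4) (S : ℕ × ℕ) (hS : ∀ e, ((M e).map List.sum).sum = S) :
    ∃ N : ℕ, 1 ≤ N ∧ ∀ H : ℕ, ∃ n0 : ℕ, ∀ n, n0 ≤ n → ∀ c : ℰ → ℤ, (∀ e, |c e| ≤ H) →
      |∑ e, (c e : ℝ) * ((M e).map fun u => mz (ar n u)).prod| ≤ ((N : ℝ) ^ n)⁻¹ →
      ∀ (A : Type) [CommRing A] (z : List ℕ → A), StI z → z [2, 1] = z [3] → 4 * z [3, 1] = z [4] →
        4 * z [2, 2] = 3 * z [4] → z [2, 1, 1] = z [4] →
        ∀ n', 2 ≤ n' → 4 * ∑ e, (c e : A) * ((M e).map fun u => z (ar n' u)).prod = 0 := by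
  classical
  have hpW : ∀ p ∈ prs (wds M), (∀ x ∈ p.1, x.1 = 0) ∧ AdmW p.1 ∧ p.1.sum.2 ≤ 4 ∧ p.1.sum + p.2.sum = S := by
    intro p hp
    obtain ⟨e, h1, h2, h3, h4⟩ := gen_pair M hM hp
    exact ⟨h1, h2, h3.trans (hW e), h4.trans (hS e)⟩
  obtain ⟨N, hN, h⟩ := poly_heights M hM
  refine ⟨N, hN, fun H => ?_⟩
  obtain ⟨n0, h⟩ := h H
  refine ⟨n0 + 2, fun n hn c' hc hsmall A _ z hz h21 h31 h22 h211 n' hn' => ?_⟩
  set c := cw M c' with hcdef
  have hRC : ∀ v, RC (wds M) (fun w' => ((c w' : ℤ) : ℝ)) cv v = 0 := by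
    by_contra hcon
    push Not at hcon
    exact absurd hsmall (not_le.2 (h n (by omega) c' hc hcon))
  have hF := StF_of_StI hz hn'
  set q : List (ℕ × ℕ) → ℤ := fun v => ∑ p ∈ prs (wds M) with p.2 = v, rc (wds M) c p * q4 p.1 with hq
  have hgen : ∀ (A : Type) [CommRing A] (z : List ℕ → A), z [] = 1 → z [2, 1] = z [3] → 4 * z [3, 1] = z [4] →
      4 * z [2, 2] = 3 * z [4] → z [2, 1, 1] = z [4] → ∀ v,
      4 * RC (wds M) (fun w' => ((c w' : ℤ) : A)) (fun u => z (u.map Prod.snd)) v =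
        (q v : A) * zb z (S.2 - v.sum.2) := by
    intro A _ z h0 h21 h31 h22 h211 v
    rw [RC, mul_sum, hq]
    push_cast
    rw [sum_mul]
    refine sum_congr rfl fun p hp => ?_
    obtain ⟨hp, hpv⟩ := mem_filter.1 hp
    obtain ⟨h1, h2, h3, h4⟩ := hpW p hp
    have h5 : p.1.sum.2 = S.2 - v.sum.2 := by
      rw [← h4, ← hpv, Prod.snd_add]
      omega
    have h6 := q4_eval z h0 h21 h31 h22 h211 h1 h2 h3
    rw [h5] at h6
    rw [rc_cast]
    linear_combination ((rc (wds M) c p : ℤ) : A) * h6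
  have hq0 : ∀ v, q v = 0 := by
    intro v
    by_cases hv : ∃ p ∈ prs (wds M), p.2 = v
    · have h1 := hgen ℝ mz (by rw [mz]) mz_21 mz_31 mz_22 mz_211 v
      have h2 : RC (wds M) (fun w' => ((c w' : ℤ) : ℝ)) (fun u => mz (u.map Prod.snd)) v = 0 := hRC v
      rw [h2, mul_zero] at h1
      obtain ⟨p, hp, hpv⟩ := hv
      obtain ⟨h3, h4, h5, h6⟩ := hpW p hp
      have h7 : S.2 - v.sum.2 ≠ 1 := by
        have h8 := sum_ne_one h3 h4
        rw [← h6, ← hpv, Prod.snd_add]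
        omega
      have h8 := zb_ne _ h7
      rcases mul_eq_zero.1 h1.symm with h9 | h9
      · exact_mod_cast h9
      · exact absurd h9 h8
    · push Not at hv
      simp only [hq]
      exact sum_eq_zero fun p hp => absurd (mem_filter.1 hp).2 (hv p (mem_filter.1 hp).1)
  rw [gen_F M hM hF c', expandV hF _ (gen_adm M hM), mul_sum]
  refine sum_eq_zero fun v _ => ?_
  rw [← mul_assoc]
  have h1 : RC (wds M) (fun w' => ((c w' : ℤ) : A)) (fun w' => z (ar n' w')) v =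
      RC (wds M) (fun w' => ((c w' : ℤ) : A)) (fun u => z (u.map Prod.snd)) v := by
    rw [RC, RC]
    refine sum_congr rfl fun p hp => ?_
    rw [ar_const p.1 (hpW p (mem_filter.1 hp).1).1]
  rw [h1, hgen A z hz.1 h21 h31 h22 h211 v, hq0 v, Int.cast_zero, zero_mul, zero_mul]

/-! ### shuffle products -/

lemma summable_adm {l : List ℕ} (hl : Pool.Agent.H447R2.MZ.Adm l) :
    Summable fun n => PowerSeries.coeff n (Lb (word l)) := by
  cases l with
  | nil =>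
    rw [Pool.Agent.TH507.DS.word_nil, Pool.Agent.TH507.DS.Lb_nil]
    refine summable_of_ne_finset_zero (s := {0}) fun n hn => ?_
    rw [PowerSeries.coeff_one, if_neg (by simpa using hn)]
  | cons s l =>
    have h1 := (Pool.Agent.ZF.W4a.hasSum_cons s l hl).summable
    have hs : 1 ≤ s := by
      have := hl.2 s l rfl
      omega
    have hl' : ∀ t ∈ l, 1 ≤ t := fun t ht => hl.1 t (List.mem_cons_of_mem _ ht)
    refine (summable_nat_add_iff 1).1 (h1.congr fun n => ?_)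
    rw [coeff_word s l hs hl', hr_H, div_eq_mul_inv, mul_comm]

/-- the shuffle product of admissible indices -/
lemma mz_shuffleA {k l : List ℕ} (hk : Pool.Agent.H447R2.MZ.Adm k) (hl : Pool.Agent.H447R2.MZ.Adm l) :
    mz k * mz l = ((sh (word k) (word l)).map fun w => mz (decA 0 w)).sum := by
  rw [mz_eq k hk.1, mz_eq l hl.1, Zb_mul (Vd_word k) (Vd_word l) (summable_adm hk) (summable_adm hl)]
  congr 1
  refine List.map_congr_left fun w hw => ?_
  rw [Zb_eq w (sh_Vd _ _ (Vd_word k) (Vd_word l) w hw)]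

/-- the element `∑ c_w w(n) + ∑ d_p (p_1(n) sh p_2(n))` -/
noncomputable def elA (L : Finset (List (ℕ × ℕ))) (P : Finset (List (ℕ × ℕ) × List (ℕ × ℕ))) (n : ℕ)
    (c : List (ℕ × ℕ) → ℤ) (d : List (ℕ × ℕ) × List (ℕ × ℕ) → ℤ) : Pool.Agent.TH507.DS.H :=
  ∑ w ∈ L, c w • Finsupp.single (word (ar n w)) 1 + ∑ p ∈ P, d p • el (sh (word (ar n p.1)) (word (ar n p.2)))

/-- the linear extension of a function on the words -/
noncomputable def ext {A : Type} [CommRing A] (φ : List Bool → A) : Pool.Agent.TH507.DS.H →ₗ[ℤ] A :=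
  Finsupp.linearCombination ℤ φ

lemma ext_el {A : Type} [CommRing A] (φ : List Bool → A) (L : List (List Bool)) : ext φ (el L) = (L.map φ).sum := by
  induction L with
  | nil => simp [el, ext]
  | cons w L ih =>
    have h1 : el (w :: L) = Finsupp.single w 1 + el L := by
      rw [el, el, List.map_cons, List.sum_cons]
    rw [h1, map_add, ih, List.map_cons, List.sum_cons, ext, Finsupp.linearCombination_single, one_smul]

/-- the monomials of the element -/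
def mel (L : Finset (List (ℕ × ℕ))) (P : Finset (List (ℕ × ℕ) × List (ℕ × ℕ))) :
    L ⊕ P → List (List (ℕ × ℕ))
  | Sum.inl w => [w.1]
  | Sum.inr p => [p.1.1, p.1.2]

lemma ext_elA {A : Type} [CommRing A] (φ : List Bool → A) (L : Finset (List (ℕ × ℕ)))
    (P : Finset (List (ℕ × ℕ) × List (ℕ × ℕ))) (hL : ∀ w ∈ L, AdmW w) (hP : ∀ p ∈ P, AdmW p.1 ∧ AdmW p.2)
    (hφ : ∀ k l, Pool.Agent.H447R2.MZ.Adm k → Pool.Agent.H447R2.MZ.Adm l →
      φ (word k) * φ (word l) = ((sh (word k) (word l)).map φ).sum) {n : ℕ} (hn : 2 ≤ n)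
    (c : List (ℕ × ℕ) → ℤ) (d : List (ℕ × ℕ) × List (ℕ × ℕ) → ℤ) :
    ext φ (elA L P n c d) = ∑ e : L ⊕ P, ((Sum.elim (fun w : L => c w.1) (fun p : P => d p.1) e : ℤ) : A) *
      ((mel L P e).map fun u => φ (word (ar n u))).prod := by
  rw [elA, map_add, map_sum, map_sum, Fintype.sum_sum_type, ← sum_coe_sort L, ← sum_coe_sort P]
  congr 1
  · refine sum_congr rfl fun w _ => ?_
    rw [map_zsmul, ext, Finsupp.linearCombination_single, one_smul, zsmul_eq_mul]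
    simp [mel]
  · refine sum_congr rfl fun p _ => ?_
    rw [map_zsmul, ext_el, ← hφ _ _ (adm_arA hn _ (hP p.1 p.2).1) (adm_arA hn _ (hP p.1 p.2).2), zsmul_eq_mul]
    simp [mel]

lemma Zh_ext : Zh = ext fun w => mz (decA 0 w) := rfl

lemma mz_wordA {l : List ℕ} (hl : Pool.Agent.H447R2.MZ.Adm l) : mz (decA 0 (word l)) = mz l := by
  rw [← Zb_eq _ (Vd_word _), mz_eq _ hl.1]

lemma Zh_elA (L : Finset (List (ℕ × ℕ))) (P : Finset (List (ℕ × ℕ) × List (ℕ × ℕ))) (hL : ∀ w ∈ L, AdmW w)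
    (hP : ∀ p ∈ P, AdmW p.1 ∧ AdmW p.2) {n : ℕ} (hn : 2 ≤ n)
    (c : List (ℕ × ℕ) → ℤ) (d : List (ℕ × ℕ) × List (ℕ × ℕ) → ℤ) :
    Zh (elA L P n c d) = ∑ e : L ⊕ P, ((Sum.elim (fun w : L => c w.1) (fun p : P => d p.1) e : ℤ) : ℝ) *
      ((mel L P e).map fun u => mz (ar n u)).prod := by
  rw [Zh_ext, ext_elA _ L P hL hP (fun k l hk hl => by
    rw [mz_wordA hk, mz_wordA hl, mz_shuffleA hk hl]) hn c d]
  refine sum_congr rfl fun e _ => ?_
  congr 2
  refine List.map_congr_left fun u hu => ?_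
  rw [mz_wordA]
  rcases e with w | p
  · simp only [mel, List.mem_singleton] at hu
    rw [hu]
    exact adm_arA hn _ (hL w.1 w.2)
  · simp only [mel, List.mem_cons, List.not_mem_nil, or_false] at hu
    rcases hu with rfl | rfl
    · exact adm_arA hn _ (hP p.1 p.2).1
    · exact adm_arA hn _ (hP p.1 p.2).2

/-- solutions of the double shuffle equations, including Hoffman's relation -/
structure Sol {A : Type} [CommRing A] (φ : List Bool → A) : Prop where
  one : φ [] = 1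
  st : ∀ k l, Pool.Agent.H447R2.MZ.Adm k → Pool.Agent.H447R2.MZ.Adm l →
    φ (word k) * φ (word l) = ((stI k l).map fun m => φ (word m)).sum
  sh : ∀ k l, Pool.Agent.H447R2.MZ.Adm k → Pool.Agent.H447R2.MZ.Adm l →
    φ (word k) * φ (word l) = ((sh (word k) (word l)).map φ).sum
  ho : ∀ l, Pool.Agent.H447R2.MZ.Adm l →
    ((Pool.Agent.TH507.DS.sh [true] (word l)).map φ).sum = ((stI [1] l).map fun m => φ (word m)).sum

lemma Sol.StI {A : Type} [CommRing A] {φ : List Bool → A} (h : Sol φ) : StI fun l => φ (word l) :=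
  ⟨h.one, h.st⟩

lemma Sol.h21 {A : Type} [CommRing A] {φ : List Bool → A} (h : Sol φ) : φ (word [2, 1]) = φ (word [3]) := by
  have h1 := h.ho [2] (admL le_rfl (by simp))
  simp [Pool.Agent.TH507.DS.sh, stI, word] at h1 ⊢
  linear_combination h1

lemma Sol.h31 {A : Type} [CommRing A] {φ : List Bool → A} (h : Sol φ) : 4 * φ (word [3, 1]) = φ (word [4]) := by
  have h1 := h.st [2] [2] (admL le_rfl (by simp)) (admL le_rfl (by simp))
  have h2 := h.sh [2] [2] (admL le_rfl (by simp)) (admL le_rfl (by simp))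
  rw [h1] at h2
  simp [Pool.Agent.TH507.DS.sh, stI, word] at h2 ⊢
  linear_combination -h2

lemma Sol.h22 {A : Type} [CommRing A] {φ : List Bool → A} (h : Sol φ) : 4 * φ (word [2, 2]) = 3 * φ (word [4]) := by
  have h1 := h.ho [3] (admL (by norm_num) (by simp))
  have h2 := h.h31
  simp [Pool.Agent.TH507.DS.sh, stI, word] at h1 h2 ⊢
  linear_combination 4 * h1 - h2

lemma Sol.h211 {A : Type} [CommRing A] {φ : List Bool → A} (h : Sol φ) : φ (word [2, 1, 1]) = φ (word [4]) := by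
  have h1 := h.ho [2, 1] (admL (by norm_num) (by simp))
  have h2 := h.ho [3] (admL (by norm_num) (by simp))
  simp [Pool.Agent.TH507.DS.sh, stI, word] at h1 h2 ⊢
  linear_combination h1 + h2

end Pool.Agent.Q217.MZ
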