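import Pool.Agent.Q217.MZ.KZ4
import Pool.Agent.Q217.MZ.PrefixGen
import Mathlib.Algebra.QuadraticAlgebra.Basic

/-!
# Euler's formula for the even values of solutions of the double shuffle equations (helper217)
-/

set_option autoImplicit false

namespace Pool.Agent.Q217.MZ

open Finset
open Pool.Agent.TH507.WD (mz)
open Pool.Agent.TH507.WG (ar)
open Pool.Agent.TH507.DS (stI sh word)

/-! ### depth two -/

/-- the word `x^p y` -/
def xw (p : ℕ) : List Bool := List.replicate p false ++ [true]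

lemma xw_zero : xw 0 = [true] := rfl
lemma xw_succ (p : ℕ) : xw (p + 1) = false :: xw p := rfl

/-- the value at the shuffle product of `x^p y` and `x^q y` -/
def Ssh {A : Type} [AddCommMonoid A] (φ : List Bool → A) (p q : ℕ) : A := ((sh (xw p) (xw q)).map φ).sum

/-- the value at `x^i y x^j y` -/
def Dd {A : Type} (φ : List Bool → A) (i j : ℕ) : A := φ (List.replicate i false ++ true :: xw j)

lemma Ssh_rec {A : Type} [AddCommMonoid A] (φ : List Bool → A) (p q : ℕ) :
    Ssh φ p q = (if p = 0 then φ (true :: xw q) else Ssh (fun w => φ (false :: w)) (p - 1) q) +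
      (if q = 0 then φ (true :: xw p) else Ssh (fun w => φ (false :: w)) p (q - 1)) := by
  rcases p with _ | p
  · rcases q with _ | q
    · rw [if_pos rfl, Ssh, xw_zero, sh, sh, sh]
      simp
    · rw [if_pos rfl, if_neg (Nat.succ_ne_zero q), Nat.add_sub_cancel, Ssh, xw_zero, xw_succ, sh, sh, Ssh, xw_zero]
      simp [Function.comp_def]
  · rcases q with _ | q
    · rw [if_neg (Nat.succ_ne_zero p), if_pos rfl, Nat.add_sub_cancel, Ssh, xw_zero, xw_succ, sh, sh, Ssh, xw_zero]
      simp [Function.comp_def]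
    · rw [if_neg (Nat.succ_ne_zero p), if_neg (Nat.succ_ne_zero q), Nat.add_sub_cancel, Nat.add_sub_cancel, Ssh,
        xw_succ, xw_succ, sh, Ssh, Ssh, xw_succ, xw_succ]
      simp [Function.comp_def]

lemma Ssh_symm {A : Type} [AddCommMonoid A] : ∀ (n p q : ℕ), p + q = n → ∀ φ : List Bool → A,
    Ssh φ p q = Ssh φ q p := by
  intro n
  induction n with
  | zero =>
    intro p q h φ
    obtain ⟨rfl, rfl⟩ : p = 0 ∧ q = 0 := by omega
    rfl
  | succ n ih =>
    intro p q h φ
    rw [Ssh_rec φ p q, Ssh_rec φ q p, add_comm]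
    congr 1
    · split_ifs with hq
      · rfl
      · exact ih _ _ (by omega) _
    · split_ifs with hp
      · rfl
      · exact ih _ _ (by omega) _

lemma Ssh_zero {A : Type} [AddCommMonoid A] (m : ℕ) : ∀ φ : List Bool → A,
    Ssh φ 0 m = ∑ i ∈ range (m + 1), Dd φ i (m - i) + Dd φ m 0 := by
  induction m with
  | zero =>
    intro φ
    rw [Ssh_rec, if_pos rfl]
    simp [Dd]
  | succ m ih =>
    intro φ
    rw [Ssh_rec, if_pos rfl, if_neg (Nat.succ_ne_zero m), Nat.add_sub_cancel, ih, sum_range_succ' _ (m + 1)]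
    have h1 : ∀ i ∈ range (m + 1), Dd (fun w => φ (false :: w)) i (m - i) = Dd φ (i + 1) (m + 1 - (i + 1)) := by
      intro i _
      rw [Nat.add_sub_add_right]
      rfl
    rw [sum_congr rfl h1]
    have h2 : Dd (fun w => φ (false :: w)) m 0 = Dd φ (m + 1) 0 := rfl
    have h3 : φ (true :: xw (m + 1)) = Dd φ 0 (m + 1 - 0) := rfl
    rw [h2, h3]
    abel

lemma Ssh_alt {A : Type} [CommRing A] (φ : List Bool → A) (n : ℕ) :
    ∑ p ∈ range (n + 1), (-1) ^ p * Ssh φ p (n - p) = (1 + (-1) ^ n) * φ (true :: xw n) := by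
  have h1 : ∀ p ∈ range (n + 1), (-1) ^ p * Ssh φ p (n - p) =
      (-1) ^ p * (if p = 0 then φ (true :: xw (n - p)) else Ssh (fun w => φ (false :: w)) (p - 1) (n - p)) +
      (-1) ^ p * (if n - p = 0 then φ (true :: xw p) else Ssh (fun w => φ (false :: w)) p (n - p - 1)) := by
    intro p _
    rw [Ssh_rec φ p (n - p), mul_add]
  rw [sum_congr rfl h1, sum_add_distrib]
  have hA : ∑ p ∈ range (n + 1), (-1) ^ p *
      (if p = 0 then φ (true :: xw (n - p)) else Ssh (fun w => φ (false :: w)) (p - 1) (n - p)) =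
      φ (true :: xw n) - ∑ p ∈ range n, (-1) ^ p * Ssh (fun w => φ (false :: w)) p (n - (p + 1)) := by
    rw [sum_range_succ', if_pos rfl, pow_zero, one_mul, Nat.sub_zero, add_comm, sub_eq_add_neg, ← sum_neg_distrib]
    congr 1
    refine sum_congr rfl fun p _ => ?_
    rw [if_neg (Nat.succ_ne_zero p), Nat.add_sub_cancel, pow_succ]
    ring
  have hB : ∑ p ∈ range (n + 1), (-1) ^ p *
      (if n - p = 0 then φ (true :: xw p) else Ssh (fun w => φ (false :: w)) p (n - p - 1)) =
      ∑ p ∈ range n, (-1) ^ p * Ssh (fun w => φ (false :: w)) p (n - (p + 1)) + (-1) ^ n * φ (true :: xw n) := by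
    rw [sum_range_succ, Nat.sub_self, if_pos rfl]
    congr 1
    refine sum_congr rfl fun p hp => ?_
    rw [if_neg (by have := mem_range.1 hp; omega), Nat.sub_sub]
  rw [hA, hB]
  ring

lemma stI_two {A : Type} [AddCommMonoid A] (φ : List Bool → A) (p q : ℕ) :
    ((stI [p + 1] [q + 1]).map fun m => φ (word m)).sum = Dd φ p q + Dd φ q p + φ (word [p + q + 2]) := by
  rw [stI, stI, stI, stI]
  have h : p + 1 + (q + 1) = p + q + 2 := by ring
  simp only [List.map_cons, List.map_nil, List.cons_append, List.nil_append, List.sum_cons, List.sum_nil, add_zero, h]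
  rw [← add_assoc]
  rfl

section

variable {A : Type} [CommRing A] {φ : List Bool → A}

lemma Sol.S2 (h : Sol φ) {p q : ℕ} (hpq : 1 ≤ p + q) :
    Ssh φ p q = Dd φ p q + Dd φ q p + φ (word [p + q + 2]) := by
  have hadm : ∀ p, 1 ≤ p → Pool.Agent.H447R2.MZ.Adm [p + 1] := fun p hp => admL (by omega) (by simp)
  have hho : ∀ q, 1 ≤ q → Ssh φ 0 q = Dd φ 0 q + Dd φ q 0 + φ (word [0 + q + 2]) := by
    intro q hq
    rw [← stI_two φ 0 q]
    exact h.ho [q + 1] (hadm q hq)
  rcases Nat.eq_zero_or_pos p with rfl | hp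
  · exact hho q (by omega)
  rcases Nat.eq_zero_or_pos q with rfl | hq
  · rw [Ssh_symm (p + 0) p 0 rfl, hho p hp, add_comm (Dd φ 0 p), Nat.zero_add, Nat.add_zero]
  rw [← stI_two φ p q, ← h.st _ _ (hadm p hp) (hadm q hq), h.sh _ _ (hadm p hp) (hadm q hq)]
  rfl

lemma neg_pow_reflect {t j : ℕ} (hj : j ≤ 2 * t) : (-1 : A) ^ (2 * t - j) = (-1) ^ j := by
  have h1 : (-1 : A) ^ (2 * t - j) * (-1) ^ j = 1 := by
    rw [← pow_add, Nat.sub_add_cancel hj, pow_mul, neg_one_sq, one_pow]
  have h2 : (-1 : A) ^ j * (-1) ^ j = 1 := by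
    rw [← mul_pow]
    simp
  linear_combination (-1 : A) ^ j * h1 - (-1 : A) ^ (2 * t - j) * h2

lemma alt_one (t : ℕ) : ∑ p ∈ range (2 * t + 1), (-1 : A) ^ p = 1 := by
  induction t with
  | zero => simp
  | succ t ih =>
    rw [show 2 * (t + 1) + 1 = 2 * t + 1 + 1 + 1 by ring, sum_range_succ, sum_range_succ, ih, pow_succ, pow_succ]
    ring

/-- the odd part of the depth two values -/
lemma Sol.odd_part (h : Sol φ) {t : ℕ} (ht : 1 ≤ t) :
    4 * ∑ i ∈ range t, Dd φ (2 * i + 1) (2 * t - (2 * i + 1)) = 3 * φ (word [2 * t + 2]) := by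
  have hE1 : ∑ i ∈ range (2 * t + 1), Dd φ i (2 * t - i) = Dd φ 0 (2 * t) + φ (word [2 * t + 2]) := by
    have h1 := Ssh_zero (2 * t) φ
    rw [h.S2 (by omega), Nat.zero_add] at h1
    linear_combination -h1
  have hE2 : 2 * ∑ p ∈ range (2 * t + 1), (-1) ^ p * Dd φ p (2 * t - p) + φ (word [2 * t + 2]) =
      2 * Dd φ 0 (2 * t) := by
    have h1 := Ssh_alt φ (2 * t)
    have h2 : ∀ p ∈ range (2 * t + 1), (-1) ^ p * Ssh φ p (2 * t - p) =
        (-1) ^ p * Dd φ p (2 * t - p) + (-1) ^ p * Dd φ (2 * t - p) p + (-1) ^ p * φ (word [2 * t + 2]) := by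
      intro p hp
      have hp' := mem_range.1 hp
      rw [h.S2 (by omega), show p + (2 * t - p) + 2 = 2 * t + 2 by omega]
      ring
    have h3 : ∑ p ∈ range (2 * t + 1), (-1) ^ p * Dd φ (2 * t - p) p =
        ∑ p ∈ range (2 * t + 1), (-1) ^ p * Dd φ p (2 * t - p) := by
      rw [← sum_range_reflect]
      refine sum_congr rfl fun p hp => ?_
      have hp' := mem_range.1 hp
      rw [show 2 * t + 1 - 1 - p = 2 * t - p by omega, neg_pow_reflect (by omega),
        show 2 * t - (2 * t - p) = p by omega]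
    rw [sum_congr rfl h2, sum_add_distrib, sum_add_distrib, h3, ← sum_mul, alt_one, pow_mul, neg_one_sq, one_pow] at h1
    have h4 : φ (true :: xw (2 * t)) = Dd φ 0 (2 * t) := rfl
    rw [h4] at h1
    linear_combination h1
  rw [sum_range_succ, sum_even_odd, Nat.sub_self] at hE1 hE2
  have h5 : ∑ j ∈ range t, (-1 : A) ^ (2 * j) * Dd φ (2 * j) (2 * t - 2 * j) =
      ∑ j ∈ range t, Dd φ (2 * j) (2 * t - 2 * j) := by
    refine sum_congr rfl fun j _ => ?_
    rw [pow_mul, neg_one_sq, one_pow, one_mul]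
  have h6 : ∑ j ∈ range t, (-1 : A) ^ (2 * j + 1) * Dd φ (2 * j + 1) (2 * t - (2 * j + 1)) =
      -∑ j ∈ range t, Dd φ (2 * j + 1) (2 * t - (2 * j + 1)) := by
    rw [← sum_neg_distrib]
    refine sum_congr rfl fun j _ => ?_
    rw [pow_succ, pow_mul, neg_one_sq, one_pow]
    ring
  rw [h5, h6, pow_mul, neg_one_sq, one_pow, one_mul] at hE2
  linear_combination 2 * hE1 - hE2

/-- Euler's recursion for the even values -/
lemma Sol.euler (h : Sol φ) {t : ℕ} (ht : 1 ≤ t) :
    2 * ∑ i ∈ range t, φ (word [2 * (i + 1)]) * φ (word [2 * (t - i)]) = (2 * t + 3) * φ (word [2 * (t + 1)]) := by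
  have hadm : ∀ p, 1 ≤ p → Pool.Agent.H447R2.MZ.Adm [p + 1] := fun p hp => admL (by omega) (by simp)
  have h1 : ∀ i ∈ range t, φ (word [2 * (i + 1)]) * φ (word [2 * (t - i)]) =
      Dd φ (2 * i + 1) (2 * t - (2 * i + 1)) + Dd φ (2 * t - (2 * i + 1)) (2 * i + 1) + φ (word [2 * t + 2]) := by
    intro i hi
    have hi' := mem_range.1 hi
    have h2 := h.st [2 * i + 1 + 1] [2 * t - (2 * i + 1) + 1] (hadm _ (by omega)) (hadm _ (by omega))
    rw [stI_two, show 2 * i + 1 + (2 * t - (2 * i + 1)) + 2 = 2 * t + 2 by omega] at h2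
    rw [show 2 * (i + 1) = 2 * i + 1 + 1 by ring, show 2 * (t - i) = 2 * t - (2 * i + 1) + 1 by omega]
    exact h2
  have h3 : ∑ i ∈ range t, Dd φ (2 * t - (2 * i + 1)) (2 * i + 1) =
      ∑ i ∈ range t, Dd φ (2 * i + 1) (2 * t - (2 * i + 1)) := by
    rw [← sum_range_reflect]
    refine sum_congr rfl fun i hi => ?_
    have hi' := mem_range.1 hi
    rw [show 2 * (t - 1 - i) + 1 = 2 * t - (2 * i + 1) by omega,
      show 2 * t - (2 * t - (2 * i + 1)) = 2 * i + 1 by omega]
  rw [sum_congr rfl h1, sum_add_distrib, sum_add_distrib, h3, sum_const, card_range, nsmul_eq_mul]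
  have h4 := h.odd_part ht
  rw [show 2 * (t + 1) = 2 * t + 2 by ring]
  linear_combination h4

end

/-! ### Bernoulli numbers -/

open PowerSeries in
lemma bern_sq : (bernoulliPowerSeries ℚ) * (bernoulliPowerSeries ℚ) =
    bernoulliPowerSeries ℚ - X * d⁄dX ℚ (bernoulliPowerSeries ℚ) - X * bernoulliPowerSeries ℚ := by
  have h := bernoulliPowerSeries_mul_exp_sub_one ℚ
  have hd := congrArg (d⁄dX ℚ) h
  rw [Derivation.leibniz, map_sub, derivative_exp, derivative_one, derivative_X, smul_eq_mul, smul_eq_mul, sub_zero] at hd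
  linear_combination (bernoulliPowerSeries ℚ) * hd -
    (d⁄dX ℚ (bernoulliPowerSeries ℚ) + bernoulliPowerSeries ℚ) * h

/-- `B_n / n!` -/
noncomputable def bt (n : ℕ) : ℚ := bernoulli n / n.factorial

lemma bt_odd {n : ℕ} (h : Odd n) (h1 : 1 < n) : bt n = 0 := by
  rw [bt, bernoulli_eq_zero_of_odd h h1, zero_div]

lemma bt_sum {t : ℕ} (ht : 1 ≤ t) : ∑ i ∈ range t, bt (2 * (i + 1)) * bt (2 * (t - i)) = -(2 * t + 3) * bt (2 * (t + 1)) := by
  have hc : ∀ n, PowerSeries.coeff n (bernoulliPowerSeries ℚ) = bt n := by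
    intro n
    rw [bernoulliPowerSeries, PowerSeries.coeff_mk, bt]
    rfl
  have h := congrArg (PowerSeries.coeff (2 * t + 1 + 1)) bern_sq
  rw [map_sub, map_sub, PowerSeries.coeff_succ_X_mul, PowerSeries.coeff_succ_X_mul, PowerSeries.coeff_derivative, hc, hc,
    PowerSeries.coeff_mul] at h
  simp only [hc] at h
  rw [Finset.Nat.sum_antidiagonal_eq_sum_range_succ (fun a b => bt a * bt b), show (2 * t + 1 + 1).succ = 2 * (t + 1) + 1 by omega,
    sum_range_succ, sum_even_odd] at h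
  have hodd : ∑ j ∈ range (t + 1), bt (2 * j + 1) * bt (2 * t + 1 + 1 - (2 * j + 1)) = 0 := by
    refine sum_eq_zero fun j hj => ?_
    rcases Nat.eq_zero_or_pos j with rfl | hj0
    · rw [bt_odd (n := 2 * t + 1 + 1 - (2 * 0 + 1)) ⟨t, by omega⟩ (by omega), mul_zero]
    · rw [bt_odd (n := 2 * j + 1) ⟨j, rfl⟩ (by omega), zero_mul]
  have heven : ∑ j ∈ range (t + 1), bt (2 * j) * bt (2 * t + 1 + 1 - 2 * j) =
      ∑ i ∈ range t, bt (2 * (i + 1)) * bt (2 * (t - i)) + bt 0 * bt (2 * (t + 1)) := by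
    rw [sum_range_succ']
    congr 1
    refine sum_congr rfl fun i hi => ?_
    have hi' := mem_range.1 hi
    rw [show 2 * t + 1 + 1 - 2 * (i + 1) = 2 * (t - i) by omega]
  rw [hodd, heven, show 2 * t + 1 + 1 - 2 * (t + 1) = 0 by omega, bt_odd (n := 2 * t + 1) ⟨t, rfl⟩ (by omega),
    show 2 * t + 1 + 1 = 2 * (t + 1) by ring] at h
  have h0 : bt 0 = 1 := by
    rw [bt]
    simp
  rw [h0] at h
  push_cast at h
  linear_combination h

lemma qz_bt (b : ℕ) : qz b = (-1) ^ (b + 1) * 2 ^ (2 * b - 1) * bt (2 * b) := by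
  rw [qz, bt, mul_div_assoc]

/-- Euler's recursion for the coefficients of the even zeta values -/
lemma qz_euler {t : ℕ} (ht : 1 ≤ t) : 2 * ∑ i ∈ range t, qz (i + 1) * qz (t - i) = (2 * t + 3) * qz (t + 1) := by
  have h1 : ∀ i ∈ range t, qz (i + 1) * qz (t - i) =
      (-1) ^ (t + 1) * 2 ^ (2 * t) * (bt (2 * (i + 1)) * bt (2 * (t - i))) := by
    intro i hi
    have hi' := mem_range.1 hi
    rw [qz_bt, qz_bt]
    have e1 : (-1 : ℚ) ^ (i + 1 + 1) * (-1) ^ (t - i + 1) = (-1) ^ (t + 1) := by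
      rw [← pow_add, show i + 1 + 1 + (t - i + 1) = t + 1 + 2 by omega, pow_add]
      norm_num
    have e2 : (2 : ℚ) ^ (2 * (i + 1) - 1) * 2 ^ (2 * (t - i) - 1) = 2 ^ (2 * t) := by
      rw [← pow_add]
      congr 1
      omega
    linear_combination (bt (2 * (i + 1)) * bt (2 * (t - i)) * (2 : ℚ) ^ (2 * (i + 1) - 1) * 2 ^ (2 * (t - i) - 1)) * e1 +
      (bt (2 * (i + 1)) * bt (2 * (t - i)) * (-1 : ℚ) ^ (t + 1)) * e2
  rw [sum_congr rfl h1, ← mul_sum, bt_sum ht, qz_bt, show 2 * (t + 1) - 1 = 2 * t + 1 by omega, pow_succ (2 : ℚ),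
    pow_succ (-1 : ℚ) (t + 1)]
  ring

/-! ### the even values of solutions -/

/-- Euler's formula for solutions of the double shuffle equations -/
theorem Sol.even {A : Type} [CommRing A] [Algebra ℚ A] {φ : List Bool → A} (h : Sol φ) : ∀ b : ℕ, 1 ≤ b →
    φ (word [2 * b]) = algebraMap ℚ A (qz b) * (algebraMap ℚ A 6 * φ (word [2])) ^ b := by
  intro b
  induction b using Nat.strong_induction_on with
  | _ b ih =>
    intro hb
    rcases Nat.lt_or_ge 1 b with hb1 | hb1
    · obtain ⟨t, rfl⟩ : ∃ t, b = t + 1 := ⟨b - 1, by omega⟩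
      have ht : 1 ≤ t := by omega
      have h1 := h.euler ht
      have h2 : ∀ i ∈ range t, φ (word [2 * (i + 1)]) * φ (word [2 * (t - i)]) =
          algebraMap ℚ A (qz (i + 1) * qz (t - i)) * (algebraMap ℚ A 6 * φ (word [2])) ^ (t + 1) := by
        intro i hi
        have hi' := mem_range.1 hi
        rw [ih (i + 1) (by omega) (by omega), ih (t - i) (by omega) (by omega), map_mul]
        have e : (algebraMap ℚ A 6 * φ (word [2])) ^ (t + 1) =
            (algebraMap ℚ A 6 * φ (word [2])) ^ (i + 1) * (algebraMap ℚ A 6 * φ (word [2])) ^ (t - i) := by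
          rw [← pow_add]
          congr 1
          omega
        rw [e]
        ring
      rw [sum_congr rfl h2, ← sum_mul, ← map_sum] at h1
      have h3 := congrArg (algebraMap ℚ A) (qz_euler ht)
      rw [map_mul, map_mul] at h3
      have e2 : algebraMap ℚ A 2 = 2 := map_ofNat _ 2
      have e3 : algebraMap ℚ A (2 * (t : ℚ) + 3) = 2 * (t : A) + 3 := by
        rw [map_add, map_mul, map_ofNat, map_natCast, map_ofNat]
      rw [e2, e3] at h3
      have h4 : (2 * (t : A) + 3) * φ (word [2 * (t + 1)]) =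
          (2 * (t : A) + 3) * (algebraMap ℚ A (qz (t + 1)) * (algebraMap ℚ A 6 * φ (word [2])) ^ (t + 1)) := by
        rw [← h1, ← mul_assoc, h3]
        ring
      have h5 : algebraMap ℚ A ((2 * (t : ℚ) + 3)⁻¹) * (2 * (t : A) + 3) = 1 := by
        rw [← e3, ← map_mul, inv_mul_cancel₀ (by positivity), map_one]
      have h6 := congrArg (fun s => algebraMap ℚ A ((2 * (t : ℚ) + 3)⁻¹) * s) h4
      rw [← mul_assoc, ← mul_assoc, h5, one_mul, one_mul] at h6
      exact h6
    · obtain rfl : b = 1 := by omega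
      have hq : qz 1 = 1 / 6 := by
        rw [qz]
        norm_num [bernoulli_two, Nat.factorial]
      rw [hq, pow_one, mul_one, ← mul_assoc, ← map_mul]
      norm_num

/-! ### the square root of `-4 Θ` -/

/-- `A` with a square root of `-4 Θ` -/
abbrev QA (A : Type) [CommRing A] (Θ : A) : Type := QuadraticAlgebra A (-4 * Θ) 0

lemma om_sq {A : Type} [CommRing A] (Θ : A) :
    (QuadraticAlgebra.omega : QA A Θ) ^ 2 = algebraMap A (QA A Θ) (-4 * Θ) := by
  rw [sq, QuadraticAlgebra.omega_mul_omega_eq_algebraMap, map_zero, zero_mul, add_zero]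

/-- solutions of the double shuffle equations have the even values of an associator -/
theorem Sol.assoc {A : Type} [CommRing A] [Algebra ℚ A] {φ : List Bool → A} (h : Sol φ) :
    AssocL (QuadraticAlgebra.omega : QA A (algebraMap ℚ A 6 * φ (word [2])))
      (fun l => algebraMap A (QA A (algebraMap ℚ A 6 * φ (word [2]))) (φ (word l))) where
  st := by
    refine ⟨?_, fun k l hk hl => ?_⟩
    · have h1 : φ (word []) = 1 := h.one
      simp only [h1, map_one]
    · simp only
      rw [← map_mul, h.st k l hk hl, map_list_sum, List.map_map]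
      rfl
  ev := by
    intro b hb
    have e4 : algebraMap ℚ A (-1 / 4) * (-4) = 1 := by
      have : (-4 : A) = algebraMap ℚ A (-4) := by rw [map_neg, map_ofNat]
      rw [this, ← map_mul]
      norm_num
    rw [h.even b hb, pow_mul, om_sq, ← map_pow, ← qz_mu b hb,
      IsScalarTower.algebraMap_apply ℚ A (QA A (algebraMap ℚ A 6 * φ (word [2]))), ← map_mul]
    congr 1
    rw [map_mul (algebraMap ℚ A), map_pow (algebraMap ℚ A), mul_pow (-4 : A), mul_assoc, ← mul_assoc _ ((-4 : A) ^ b),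
      ← mul_pow, e4, one_pow, one_mul]

/-- **relations with blocks of equal even constants in front follow from the double shuffle relations** -/
theorem ds_even {k : ℕ} (D : ℕ) (w : Fin k → List (ℕ × ℕ)) (hw : ∀ i, AdmW (w i)) (hE : ∀ i, EB (w i)) :
    ∃ B C : ℝ, 1 < B ∧ 1 < C ∧ ∃ n0 : ℕ, ∀ n, n0 ≤ n → ∀ f : MvPolynomial (Fin k) ℤ,
      f.totalDegree ≤ D → (∀ s, |((f.coeff s : ℤ) : ℝ)| ≤ C ^ n) →
      |MvPolynomial.aeval (fun i => mz (ar n (w i))) f| ≤ (B ^ n)⁻¹ → ∀ n', 2 ≤ n' →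
        MvPolynomial.aeval (fun i => mz (ar n' (w i))) f = 0 ∧
        ∀ (A : Type) [CommRing A] [Algebra ℚ A] (φ : List Bool → A), Sol φ →
          MvPolynomial.aeval (fun i => φ (word (ar n' (w i)))) f = 0 := by
  obtain ⟨B, C, hB, hC, n0, h⟩ := kz_poly D 1 w hw hE
  have hre : ∀ (n : ℕ) (f : MvPolynomial (Fin k) ℤ),
      MvPolynomial.aeval (fun i => ((mz (ar n (w i)) : ℝ) : ℂ)) f =
        ((MvPolynomial.aeval (fun i => mz (ar n (w i))) f : ℝ) : ℂ) :=
    fun n f => MvPolynomial.aeval_algebraMap_apply ℂ (fun i => mz (ar n (w i))) f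
  refine ⟨B, C, hB, hC, n0, fun n hn f hf hc hsmall n' hn' => ?_⟩
  have h0 := h n hn (fun _ => f) (fun _ => hf) (fun _ => hc) (by
    rw [sum_range_one, pow_zero, one_mul, hre, Complex.norm_real]
    exact hsmall)
  constructor
  · have h1 := h0 ℂ (2 * Real.pi * Complex.I) _ AssocL_real n' hn'
    rw [sum_range_one, pow_zero, one_mul, hre] at h1
    exact_mod_cast h1
  · intro A _ _ φ hφ
    have h1 := h0 _ _ _ hφ.assoc n' hn'
    rw [sum_range_one, pow_zero, one_mul] at h1
    have h2 := MvPolynomial.aeval_algebraMap_apply (QA A (algebraMap ℚ A 6 * φ (word [2])))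
      (fun i => φ (word (ar n' (w i)))) f
    refine QuadraticAlgebra.algebraMap_injective (a := -4 * (algebraMap ℚ A 6 * φ (word [2]))) (b := 0) ?_
    rw [map_zero, ← h1, ← h2]
    rfl

end Pool.Agent.Q217.MZ
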