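import Pool.Agent.Q217.MZ.PrefixFin

/-!
# Powers of `2 π i` and multiple zeta values at affine patterns with an even constant in front (helper217)
-/

set_option autoImplicit false

namespace Pool.Agent.Q217.MZ

open Finset Filter Topology
open Pool.Agent.TH507.WD (mz hr hr_cons hr_nil)
open Pool.Agent.TH507.WG (HP OK ar ar_nil ar_cons st st_OK st_HP st_length OK_cons hr_mul stl)
open Pool.Agent.TH507.DS (stI stI_ar)
open Pool.Agent.Y760.PZ (LM)

/-! ### patterns with at most one constant letter in front, which is even -/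

/-- at most one constant letter in front, which is even -/
def EV (w : List (ℕ × ℕ)) : Prop := cp w = [] ∨ ∃ b : ℕ, 1 ≤ b ∧ cp w = [(0, 2 * b)]

lemma HP_iff (w : List (ℕ × ℕ)) : HP w ↔ cp w = [] := by
  cases w with
  | nil => exact ⟨fun _ => rfl, fun _ => trivial⟩
  | cons x l =>
    by_cases h : x.1 = 0
    · rw [cp_zero l h]
      exact ⟨fun hh => absurd h (Nat.one_le_iff_ne_zero.1 hh), fun hh => absurd hh (by simp)⟩
    · rw [cp_pos l h]
      exact ⟨fun _ => rfl, fun _ => Nat.one_le_iff_ne_zero.2 h⟩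

lemma st_EV1 {u v : List (ℕ × ℕ)} (hu : EV u) (hv : HP v) : ∀ o ∈ st u v, EV o := by
  intro o ho
  rcases hu with hu | ⟨b, hb, hu⟩
  · exact Or.inl ((HP_iff o).1 (st_HP u v ((HP_iff u).2 hu) hv o ho))
  rcases u with _ | ⟨x, u⟩
  · exact absurd hu (by simp [cp])
  by_cases hx : x.1 = 0
  · rw [cp_zero u hx] at hu
    obtain ⟨h1, h2⟩ := List.cons.inj hu
    rcases v with _ | ⟨y, v⟩
    · rw [st, List.mem_singleton] at ho
      rw [ho]
      exact Or.inr ⟨b, hb, by rw [cp_zero u hx, hu]⟩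
    · have hy : 1 ≤ y.1 := hv
      rw [st, List.mem_append, List.mem_append, List.mem_map, List.mem_map, List.mem_map] at ho
      rcases ho with (⟨o', ho', rfl⟩ | ⟨o', ho', rfl⟩) | ⟨o', ho', rfl⟩
      · right
        refine ⟨b, hb, ?_⟩
        rw [cp_zero o' hx, (HP_iff o').1 (st_HP u (y :: v) ((HP_iff u).2 h2) hv o' ho'), h1]
      · exact Or.inl (cp_pos o' (by omega))
      · exact Or.inl (cp_pos o' (by rw [Prod.fst_add]; omega))
  · rw [cp_pos u hx] at hu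
    exact absurd hu (by simp)

lemma st_EV2 {u v : List (ℕ × ℕ)} (hu : HP u) (hv : EV v) : ∀ o ∈ st u v, EV o := by
  intro o ho
  rcases hv with hv | ⟨b, hb, hv⟩
  · exact Or.inl ((HP_iff o).1 (st_HP u v hu ((HP_iff v).2 hv) o ho))
  rcases v with _ | ⟨y, v⟩
  · exact absurd hv (by simp [cp])
  by_cases hy : y.1 = 0
  · rw [cp_zero v hy] at hv
    obtain ⟨h1, h2⟩ := List.cons.inj hv
    rcases u with _ | ⟨x, u⟩
    · rw [st, List.mem_singleton] at ho
      rw [ho]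
      exact Or.inr ⟨b, hb, by rw [cp_zero v hy, hv]⟩
    · have hx : 1 ≤ x.1 := hu
      rw [st, List.mem_append, List.mem_append, List.mem_map, List.mem_map, List.mem_map] at ho
      rcases ho with (⟨o', ho', rfl⟩ | ⟨o', ho', rfl⟩) | ⟨o', ho', rfl⟩
      · exact Or.inl (cp_pos o' (by omega))
      · right
        refine ⟨b, hb, ?_⟩
        rw [cp_zero o' hy, (HP_iff o').1 (st_HP (x :: u) v hu ((HP_iff v).2 h2) o' ho'), h1]
      · exact Or.inl (cp_pos o' (by rw [Prod.fst_add]; omega))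
  · rw [cp_pos v hy] at hv
    exact absurd hv (by simp)

lemma stl_HP' (M : List (List (ℕ × ℕ))) (hM : ∀ u ∈ M, HP u) : ∀ w ∈ stl M, HP w := by
  induction M with
  | nil =>
    intro w hw
    rw [stl, List.mem_singleton] at hw
    rw [hw]
    exact trivial
  | cons u M ih =>
    intro w hw
    rw [stl, List.mem_flatMap] at hw
    obtain ⟨v, hv, hw⟩ := hw
    exact st_HP u v (hM u List.mem_cons_self) (ih (fun u' hu' => hM u' (List.mem_cons_of_mem _ hu')) v hv) w hw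

lemma stl_EV (M : List (List (ℕ × ℕ))) (hM : ∀ u ∈ M, EV u) (h1 : (M.map fun u => (cp u).length).sum ≤ 1) :
    ∀ w ∈ stl M, EV w := by
  induction M with
  | nil =>
    intro w hw
    rw [stl, List.mem_singleton] at hw
    rw [hw]
    exact Or.inl rfl
  | cons u M ih =>
    intro w hw
    rw [stl, List.mem_flatMap] at hw
    obtain ⟨v, hv, hw⟩ := hw
    rw [List.map_cons, List.sum_cons] at h1
    rcases Nat.eq_zero_or_pos (cp u).length with h0 | h0
    · have hu : HP u := (HP_iff u).2 (List.length_eq_zero_iff.1 h0)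
      exact st_EV2 hu (ih (fun u' hu' => hM u' (List.mem_cons_of_mem _ hu')) (by omega) v hv) w hw
    · have hrest : ∀ u' ∈ M, HP u' := by
        intro u' hu'
        rw [HP_iff, ← List.length_eq_zero_iff]
        have h2 := List.single_le_sum (l := M.map fun u => (cp u).length) (fun _ _ => Nat.zero_le _) _
          (List.mem_map.2 ⟨u', hu', rfl⟩)
        omega
      exact st_EV1 (hM u List.mem_cons_self) (stl_HP' M hrest v hv) w hw

/-! ### even zeta values -/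

/-- `ζ(2 b) = qz b * (π ^ 2) ^ b` -/
noncomputable def qz (b : ℕ) : ℚ := (-1 : ℚ) ^ (b + 1) * 2 ^ (2 * b - 1) * bernoulli (2 * b) / (2 * b).factorial

lemma mz_even (b : ℕ) (hb : 1 ≤ b) : mz [2 * b] = (qz b : ℝ) * (Real.pi ^ 2) ^ b := by
  have h := hasSum_zeta_nat (k := b) (by omega)
  have h1 : mz [2 * b] =
      (-1 : ℝ) ^ (b + 1) * 2 ^ (2 * b - 1) * Real.pi ^ (2 * b) * bernoulli (2 * b) / (2 * b).factorial := by
    rw [mz_zr, Pool.Agent.H337R2.zr, ← h.tsum_eq]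
    rw [h.summable.tsum_eq_zero_add]
    rw [Nat.cast_zero, zero_pow (by omega), div_zero, zero_add]
    refine tsum_congr fun k => ?_
    push_cast
    rfl
  rw [h1, qz, ← pow_mul]
  push_cast
  ring

lemma qz_mu (b : ℕ) (hb : 1 ≤ b) : qz b * (-1 / 4) ^ b = -bernoulli (2 * b) / (2 * (2 * b).factorial) := by
  have h4 : (2 : ℚ) ^ (2 * b - 1) * 2 = 4 ^ b := by
    rw [← pow_succ, show 2 * b - 1 + 1 = 2 * b by omega, pow_mul]
    norm_num
  have hf : ((2 * b).factorial : ℚ) ≠ 0 := by exact_mod_cast (2 * b).factorial_ne_zero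
  have h5 : (-1 / 4 : ℚ) ^ b * 4 ^ b = (-1) ^ b := by
    rw [← mul_pow]
    norm_num
  have h6 : (-1 : ℚ) ^ (b + 1) * (-1) ^ b = -1 := by
    rw [pow_succ, mul_comm ((-1 : ℚ) ^ b) (-1), mul_assoc, ← mul_pow]
    norm_num
  rw [qz, div_mul_eq_mul_div, div_eq_div_iff hf (by positivity)]
  calc (-1 : ℚ) ^ (b + 1) * 2 ^ (2 * b - 1) * bernoulli (2 * b) * (-1 / 4) ^ b * (2 * (2 * b).factorial)
      = (-1 : ℚ) ^ (b + 1) * ((-1 / 4) ^ b * (2 ^ (2 * b - 1) * 2)) * bernoulli (2 * b) * (2 * b).factorial := by ring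
    _ = ((-1 : ℚ) ^ (b + 1) * (-1) ^ b) * bernoulli (2 * b) * (2 * b).factorial := by rw [h4, h5]
    _ = _ := by rw [h6]; ring

/-- a common denominator -/
noncomputable def dn (L : ℕ) : ℕ := ∏ b ∈ range (L + 1), (qz b).den

lemma dn_pos (L : ℕ) : 0 < dn L := prod_pos fun b _ => (qz b).den_pos

lemma dn_qz {L b : ℕ} (h : b ≤ L) : ∃ z : ℤ, (z : ℚ) = dn L * qz b := by
  have h1 : (qz b).den ∣ dn L := dvd_prod_of_mem (f := fun b => (qz b).den) (mem_range.2 (by omega))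
  obtain ⟨t, ht⟩ := h1
  refine ⟨t * (qz b).num, ?_⟩
  rw [ht]
  push_cast
  have h2 : (qz b) * (qz b).den = (qz b).num := Rat.mul_den_eq_num _
  linear_combination -(t : ℚ) * h2

/-! ### coefficients in a family of real numbers -/

theorem prefix_expC {ι κ : Type} [Fintype ι] [Fintype κ] (θ : ι → ℝ) (hθ : LM θ) (η : κ → ℝ)
    (Λ : Finset (List (ℕ × ℕ))) (hΛ : ∀ w ∈ Λ, AdmW w) (d : ℕ) (hd : 0 < d) (m : κ → List (ℕ × ℕ) → ι → ℤ)
    (hm : ∀ j, ∀ p ∈ prs Λ, (d : ℝ) * (η j * cv p.1) = ∑ i, (m j p.1 i : ℝ) * θ i) :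
    ∃ B C : ℝ, 1 < B ∧ 1 < C ∧ ∃ n0 : ℕ, ∀ n, n0 ≤ n → ∀ x : κ → List (ℕ × ℕ) → ℤ,
      (∀ j, ∀ w ∈ Λ, |(x j w : ℝ)| ≤ C ^ n) → (∃ v i, ∑ j, RI Λ (x j) (m j) v i ≠ 0) →
      (B ^ n)⁻¹ < |∑ j, η j * ∑ w ∈ Λ, (x j w : ℝ) * mz (ar n w)| := by
  classical
  obtain ⟨B, C1, hB, hC1, n1, h⟩ := words_w θ hθ (gps Λ) (fun w hw => (gps_HP hΛ hw).1)
    (fun w hw => (gps_HP hΛ hw).2)
  -- the growth of the coefficients
  set T : ℝ := 1 + ∑ i, ∑ j, ∑ p ∈ prs Λ, (∑ w ∈ Λ, |(E w p : ℝ)|) * |(m j p.1 i : ℝ)| with hT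
  have hTi : ∀ i, ∑ j, ∑ p ∈ prs Λ, (∑ w ∈ Λ, |(E w p : ℝ)|) * |(m j p.1 i : ℝ)| ≤ T := by
    intro i
    have h1 := single_le_sum (f := fun i => ∑ j, ∑ p ∈ prs Λ, (∑ w ∈ Λ, |(E w p : ℝ)|) * |(m j p.1 i : ℝ)|)
      (fun i _ => sum_nonneg fun j _ => sum_nonneg fun p _ =>
        mul_nonneg (sum_nonneg fun w _ => abs_nonneg _) (abs_nonneg _)) (mem_univ i)
    linarith
  obtain ⟨C, hC, hCC⟩ : ∃ C : ℝ, 1 < C ∧ C < C1 := exists_between hC1
  have hC0 : 0 < C := by linarith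
  have hgrow : ∀ᶠ n : ℕ in atTop, T * C ^ n ≤ C1 ^ n := by
    have h1 : Tendsto (fun n : ℕ => (C1 / C) ^ n) atTop atTop :=
      tendsto_pow_atTop_atTop_of_one_lt ((one_lt_div hC0).2 hCC)
    filter_upwards [h1.eventually (eventually_ge_atTop T)] with n hn
    rw [div_pow, le_div_iff₀ (pow_pos hC0 n)] at hn
    exact hn
  obtain ⟨n2, hn2⟩ := eventually_atTop.1 hgrow
  have hdR : (1 : ℝ) ≤ d := by exact_mod_cast hd
  refine ⟨B * d, C, by nlinarith, hC, n1 + n2 + 2, fun n hn x hx hv => ?_⟩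
  obtain ⟨v, i, hvi⟩ := hv
  have hrc : ∀ j p, |((rc Λ (x j) p : ℤ) : ℝ)| ≤ (∑ w ∈ Λ, |(E w p : ℝ)|) * C ^ n := by
    intro j p
    rw [rc]
    push_cast
    refine (abs_sum_le_sum_abs _ _).trans ?_
    rw [sum_mul]
    refine sum_le_sum fun w hw => ?_
    rw [abs_mul, mul_comm]
    exact mul_le_mul_of_nonneg_left (hx j w hw) (abs_nonneg _)
  have h1 := h n (by omega) (fun v i => ∑ j, RI Λ (x j) (m j) v i) (by
    refine ⟨v, ?_, i, hvi⟩
    by_contra hcon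
    apply hvi
    refine sum_eq_zero fun j _ => ?_
    rw [RI]
    refine sum_eq_zero fun p hp => ?_
    obtain ⟨hp, hpv⟩ := mem_filter.1 hp
    exact absurd (mem_image.2 ⟨p, hp, hpv⟩) hcon) (by
    intro v _ i
    refine le_trans ?_ (hn2 n (by omega))
    push_cast
    refine (abs_sum_le_sum_abs _ _).trans ?_
    have h2 : ∀ j ∈ (univ : Finset κ), |((RI Λ (x j) (m j) v i : ℤ) : ℝ)| ≤
        (∑ p ∈ prs Λ, (∑ w ∈ Λ, |(E w p : ℝ)|) * |(m j p.1 i : ℝ)|) * C ^ n := by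
      intro j _
      rw [RI]
      push_cast
      refine (abs_sum_le_sum_abs _ _).trans ?_
      refine (sum_le_sum_of_subset_of_nonneg (filter_subset _ _) fun _ _ _ => abs_nonneg _).trans ?_
      rw [sum_mul]
      refine sum_le_sum fun p _ => ?_
      rw [abs_mul]
      calc |((rc Λ (x j) p : ℤ) : ℝ)| * |(m j p.1 i : ℝ)| ≤
            ((∑ w ∈ Λ, |(E w p : ℝ)|) * C ^ n) * |(m j p.1 i : ℝ)| :=
            mul_le_mul_of_nonneg_right (hrc j p) (abs_nonneg _)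
        _ = _ := by ring
    refine (sum_le_sum h2).trans ?_
    rw [← sum_mul]
    exact mul_le_mul_of_nonneg_right (hTi i) (pow_pos hC0 n).le)
  have h3 : (d : ℝ) * ∑ j, η j * ∑ w ∈ Λ, (x j w : ℝ) * mz (ar n w) =
      ∑ v ∈ gps Λ, (∑ i, ((∑ j, RI Λ (x j) (m j) v i : ℤ) : ℝ) * θ i) * mz (ar n v) := by
    have h4 : ∀ j ∈ (univ : Finset κ), (d : ℝ) * (η j * ∑ w ∈ Λ, (x j w : ℝ) * mz (ar n w)) =
        ∑ v ∈ gps Λ, (∑ i, ((RI Λ (x j) (m j) v i : ℤ) : ℝ) * θ i) * mz (ar n v) := by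
      intro j _
      rw [expandV (StF_mz (show 2 ≤ n by omega)) Λ hΛ (fun w => (x j w : ℝ)), mul_sum, mul_sum]
      refine sum_congr rfl fun v _ => ?_
      rw [RC_mz Λ hΛ _ v]
      have h5 := RI_RC Λ (x j) (m j) θ (fun u => η j * cv u) d (fun p hp => hm j p hp) v
      have h6 : RC Λ (fun w => (x j w : ℝ)) (fun u => η j * cv u) v = η j * RC Λ (fun w => (x j w : ℝ)) cv v := by
        rw [RC, RC, mul_sum]
        exact sum_congr rfl fun p _ => by ring
      rw [h6] at h5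
      rw [← h5]
      ring
    rw [mul_sum, sum_congr rfl h4, sum_comm]
    refine sum_congr rfl fun v _ => ?_
    rw [← sum_mul]
    congr 1
    rw [sum_comm]
    refine sum_congr rfl fun i _ => ?_
    push_cast
    rw [sum_mul]
  rw [← h3, abs_mul, abs_of_pos (by linarith : (0 : ℝ) < d)] at h1
  have hd0 : (0 : ℝ) < d := by linarith
  have hB0 : 0 < B := by linarith
  have h4 : (B ^ n)⁻¹ / d < |∑ j, η j * ∑ w ∈ Λ, (x j w : ℝ) * mz (ar n w)| := by
    rw [div_lt_iff₀ hd0]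
    linarith
  refine lt_of_le_of_lt ?_ h4
  rw [div_eq_mul_inv, ← mul_inv, mul_pow]
  refine inv_anti₀ (by positivity) ?_
  have h5 : (d : ℝ) ^ 1 ≤ (d : ℝ) ^ n := pow_le_pow_right₀ hdR (by omega)
  rw [pow_one] at h5
  exact mul_le_mul_of_nonneg_left h5 (by positivity)

end Pool.Agent.Q217.MZ
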