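import Pool.Agent.Q217.MZ.KZ

/-!
# Powers of `2 π i` and multiple zeta values: polynomials (helper217)
-/

set_option autoImplicit false

namespace Pool.Agent.Q217.MZ

open Finset Filter Topology
open Pool.Agent.TH507.WD (mz hr hr_cons hr_nil)
open Pool.Agent.TH507.WG (HP OK ar ar_nil ar_cons st st_OK st_HP st_length OK_cons hr_mul stl)
open Pool.Agent.TH507.DS (stI stI_ar)
open Pool.Agent.Y760.PZ (LM)

/-- families with the stuffle product whose even zeta values are those of an associator with parameter `μ` -/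
structure AssocL {A : Type} [CommRing A] [Algebra ℚ A] (μ : A) (z : List ℕ → A) : Prop where
  st : StI z
  ev : ∀ b : ℕ, 1 ≤ b → z [2 * b] = algebraMap ℚ A (-bernoulli (2 * b) / (2 * (2 * b).factorial)) * μ ^ (2 * b)

/-- the coordinates of `(-4 π²)^j ζ(u)` -/
noncomputable def mE (J L : ℕ) (j : Fin J) (u : List (ℕ × ℕ)) (i : Fin (J + L + 1)) : ℤ :=
  if (i : ℕ) = (j : ℕ) + u.sum.2 / 2 then
    (-4) ^ (j : ℕ) * (if u = [] then (dn L : ℤ) else ((dn L : ℚ) * qz (u.sum.2 / 2)).num) else 0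

lemma mE_eval {A : Type} [CommRing A] [Algebra ℚ A] (J L : ℕ) (Θ : A) (z : List ℕ → A) (h0 : z [] = 1)
    (hz : ∀ b : ℕ, 1 ≤ b → b ≤ L → z [2 * b] = algebraMap ℚ A (qz b) * Θ ^ b) (j : Fin J) {u : List (ℕ × ℕ)}
    (hu : u = [] ∨ ∃ b : ℕ, 1 ≤ b ∧ b ≤ L ∧ u = [(0, 2 * b)]) :
    (dn L : A) * ((-4 * Θ) ^ (j : ℕ) * z (u.map Prod.snd)) = ∑ i, (mE J L j u i : A) * Θ ^ (i : ℕ) := by
  have hlt : (j : ℕ) + u.sum.2 / 2 < J + L + 1 := by
    have hj := j.2
    rcases hu with rfl | ⟨b, _, hb, rfl⟩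
    · simp
      omega
    · simp
      omega
  rw [sum_eq_single ⟨(j : ℕ) + u.sum.2 / 2, hlt⟩]
  · rw [mE, if_pos rfl]
    rcases hu with rfl | ⟨b, hb1, hbL, rfl⟩
    · have e0 : (-4 * Θ) ^ (j : ℕ) = (-4) ^ (j : ℕ) * Θ ^ (j : ℕ) := mul_pow _ _ _
      rw [e0]
      simp [h0]
      ring
    · have e1 : ([(0, 2 * b)] : List (ℕ × ℕ)).sum.2 / 2 = b := by simp
      obtain ⟨t, ht⟩ := dn_qz hbL
      have e2 : ((dn L : ℚ) * qz b).num = t := by
        rw [← ht]
        exact Rat.num_intCast t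
      rw [if_neg (by simp)]
      simp only [e1]
      rw [e2]
      have e3 : ((t : ℤ) : A) = (dn L : A) * algebraMap ℚ A (qz b) := by
        have := congrArg (algebraMap ℚ A) ht
        rw [map_mul, map_natCast, map_intCast] at this
        exact this
      rw [List.map_cons, List.map_nil, hz b hb1 hbL]
      push_cast
      rw [e3, mul_pow, pow_add]
      ring
  · intro i _ hi
    rw [mE, if_neg, Int.cast_zero, zero_mul]
    intro h
    exact hi (Fin.ext h)
  · intro h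
    exact absurd (mem_univ _) h

/-- one parity -/
theorem kz_real {k : ℕ} (D J L : ℕ) (w : Fin k → List (ℕ × ℕ)) (hw : ∀ i, AdmW (w i)) (hE : ∀ i, EV (w i))
    (hL : ∀ i, (cp (w i)).sum.2 ≤ 2 * L) :
    ∃ B C : ℝ, 1 < B ∧ 1 < C ∧ ∃ n0 : ℕ, ∀ n, n0 ≤ n → ∀ f : Fin J → MvPolynomial (Fin k) ℤ,
      (∀ j, (f j).totalDegree ≤ D) → (∀ j s, |(((f j).coeff s : ℤ) : ℝ)| ≤ C ^ n) →
      (∀ j, ∀ s ∈ (f j).support, ∑ i, s i * (cp (w i)).length ≤ 1) →
      |∑ j : Fin J, (-4 * Real.pi ^ 2) ^ (j : ℕ) * MvPolynomial.aeval (fun i => mz (ar n (w i))) (f j)| ≤ (B ^ n)⁻¹ →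
      ∀ (A : Type) [CommRing A] [Algebra ℚ A] (μ : A) (z : List ℕ → A), AssocL μ z → ∀ n', 2 ≤ n' →
        ∑ j : Fin J, (μ ^ 2) ^ (j : ℕ) * MvPolynomial.aeval (fun i => z (ar n' (w i))) (f j) = 0 := by
  classical
  set P : (Fin k → Fin (D + 1)) → Prop := fun e => ∑ i, (e i : ℕ) * (cp (w i)).length ≤ 1 with hPdef
  have hΛ : ∀ v ∈ wds (MP w P), AdmW v := by
    intro v hv
    obtain ⟨e, he⟩ := mem_wds.1 hv
    exact stl_AdmW _ (MP_adm w P hw e) v he
  have hpW : ∀ p ∈ prs (wds (MP w P)), p.1 = [] ∨ ∃ b : ℕ, 1 ≤ b ∧ b ≤ L ∧ p.1 = [(0, 2 * b)] := by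
    intro p hp
    obtain ⟨v, hv, hvp⟩ := mem_prs.1 hp
    obtain ⟨e, he⟩ := mem_wds.1 hv
    have hPr := E_pair (hΛ v hv) hvp
    have hEv : EV v := by
      refine stl_EV _ (fun u hu => ?_) ?_ v he
      · obtain ⟨i, rfl⟩ := mem_mono hu
        exact hE i
      · rw [MP, mono_sum]
        refine le_trans (sum_congr rfl fun i _ => by rw [smul_eq_mul]).le e.2
    have hcpL : (cp v).sum.2 ≤ 2 * L := by
      have h1 := stl_cpw _ v he
      rw [MP, mono_sum] at h1
      refine h1.trans ?_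
      -- at most one factor has a constant letter
      have h2 : ∑ i, (e.1 i : ℕ) • (cp (w i)).sum.2 ≤ ∑ i, ((e.1 i : ℕ) * (cp (w i)).length) * (2 * L) := by
        refine sum_le_sum fun i _ => ?_
        rw [smul_eq_mul, mul_assoc]
        refine Nat.mul_le_mul_left _ ?_
        rcases hE i with h | ⟨b, _, h⟩
        · rw [h]
          simp
        · have h3 := hL i
          rw [h] at h3 ⊢
          simp only [List.length_singleton, one_mul]
          exact h3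
      refine h2.trans ?_
      rw [← sum_mul]
      have h3 := Nat.mul_le_mul_right (2 * L) e.2
      rw [one_mul] at h3
      exact h3
    rcases hEv with h | ⟨b, hb, h⟩
    · left
      have h1 := hPr.q
      rw [h] at h1
      exact List.prefix_nil.1 h1
    · have h1 := hPr.q
      rw [h] at h1 hcpL
      have hbL : b ≤ L := by
        simp only [List.sum_cons, List.sum_nil, add_zero] at hcpL
        omega
      rcases List.prefix_cons_iff.1 h1 with h2 | ⟨t, h2, h3⟩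
      · exact Or.inl h2
      · right
        refine ⟨b, hb, hbL, ?_⟩
        rw [h2, List.prefix_nil.1 h3]
  obtain ⟨B, C1, hB, hC1, n1, h⟩ := prefix_expC (κ := Fin J) _ (LM_pi_sq (J + L)) (fun j => (-4 * Real.pi ^ 2) ^ (j : ℕ))
    (wds (MP w P)) hΛ (dn L) (dn_pos L) (mE J L) (fun j p hp => mE_eval J L (Real.pi ^ 2) mz (by rw [mz])
      (fun b hb _ => mz_even b hb) j (hpW p hp))
  set T : ℝ := 1 + ∑ e, ((stl (MP w P e)).length : ℝ) with hT
  obtain ⟨C, hC, hCC⟩ : ∃ C : ℝ, 1 < C ∧ C < C1 := exists_between hC1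
  have hC0 : 0 < C := by linarith
  have hgrow : ∀ᶠ n : ℕ in atTop, T * C ^ n ≤ C1 ^ n := by
    have h1 : Tendsto (fun n : ℕ => (C1 / C) ^ n) atTop atTop :=
      tendsto_pow_atTop_atTop_of_one_lt ((one_lt_div hC0).2 hCC)
    filter_upwards [h1.eventually (eventually_ge_atTop T)] with n hn
    rw [div_pow, le_div_iff₀ (pow_pos hC0 n)] at hn
    exact hn
  obtain ⟨n2, hn2⟩ := eventually_atTop.1 hgrow
  refine ⟨B, C, hB, hC, n1 + n2 + 2, fun n hn f hf hc hs hsmall A _ _ μ z hz n' hn' => ?_⟩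
  have hP : ∀ j, ∀ e : Fin k → Fin (D + 1), (f j).coeff (ex e) ≠ 0 → P e := fun j e he =>
    hs j (ex e) (MvPolynomial.mem_support_iff.2 he)
  set x : Fin J → List (ℕ × ℕ) → ℤ := fun j => cw (MP w P) (fun e => (f j).coeff (ex e.1)) with hx
  have hRI : ∀ v i, ∑ j, RI (wds (MP w P)) (x j) (mE J L j) v i = 0 := by
    by_contra hcon
    push Not at hcon
    have h1 := h n (by omega) x (by
      intro j v _
      refine le_trans ?_ (hn2 n (by omega))
      rw [hx]
      simp only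
      rw [cw]
      push_cast
      refine (abs_sum_le_sum_abs _ _).trans ?_
      have h2 : ∑ e, |(((f j).coeff (ex (Subtype.val e)) : ℤ) : ℝ) * ((stl (MP w P e)).countP (· = v) : ℝ)| ≤
          ∑ e, ((stl (MP w P e)).length : ℝ) * C ^ n := by
        refine sum_le_sum fun e _ => ?_
        rw [abs_mul, Nat.abs_cast, mul_comm]
        have h3 : ((stl (MP w P e)).countP (· = v) : ℝ) ≤ ((stl (MP w P e)).length : ℝ) := by
          exact_mod_cast List.countP_le_length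
        exact mul_le_mul h3 (hc j _) (abs_nonneg _) (Nat.cast_nonneg _)
      refine h2.trans ?_
      rw [← sum_mul]
      exact mul_le_mul_of_nonneg_right (by linarith) (pow_pos hC0 n).le) hcon
    apply absurd hsmall (not_le.2 ?_)
    refine lt_of_lt_of_eq h1 ?_
    congr 1
    refine sum_congr rfl fun j _ => ?_
    rw [aeval_F w P hw (StF_mz (show 2 ≤ n by omega)) (f j) (hf j) (hP j)]
  -- the family `z`
  set Θ : A := algebraMap ℚ A (-1 / 4) * μ ^ 2 with hΘ
  have h4Θ : (-4 * Θ) = μ ^ 2 := by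
    have h1 : algebraMap ℚ A (-1 / 4) * (-4) = 1 := by
      have h2 : (-4 : A) = algebraMap ℚ A (-4) := by
        rw [map_neg, map_ofNat]
      rw [h2, ← map_mul]
      norm_num
    rw [hΘ]
    linear_combination μ ^ 2 * h1
  have hzΘ : ∀ b : ℕ, 1 ≤ b → b ≤ L → z [2 * b] = algebraMap ℚ A (qz b) * Θ ^ b := by
    intro b hb _
    rw [hz.ev b hb, hΘ, mul_pow, ← mul_assoc, ← map_pow, ← map_mul, qz_mu b hb, ← pow_mul]
  have hF := StF_of_StI hz.st hn'
  have hmain : (dn L : A) * ∑ j : Fin J, (μ ^ 2) ^ (j : ℕ) * MvPolynomial.aeval (fun i => z (ar n' (w i))) (f j) = 0 := by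
    have h1 : ∀ j ∈ (univ : Finset (Fin J)), (dn L : A) * ((μ ^ 2) ^ (j : ℕ) *
        MvPolynomial.aeval (fun i => z (ar n' (w i))) (f j)) =
        ∑ v ∈ gps (wds (MP w P)), (∑ i, ((RI (wds (MP w P)) (x j) (mE J L j) v i : ℤ) : A) * Θ ^ (i : ℕ)) *
          z (ar n' v) := by
      intro j _
      rw [aeval_F w P hw hF (f j) (hf j) (hP j), expandV hF _ hΛ, mul_sum, mul_sum]
      refine sum_congr rfl fun v _ => ?_
      have h5 := RI_RC (wds (MP w P)) (x j) (mE J L j) (fun i => Θ ^ (i : ℕ))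
        (fun u => (μ ^ 2) ^ (j : ℕ) * z (u.map Prod.snd)) (dn L : A) (fun p hp => by
          rw [← h4Θ]
          exact mE_eval J L Θ z hz.st.1 hzΘ j (hpW p hp)) v
      have h6 : RC (wds (MP w P)) (fun w' => ((x j w' : ℤ) : A)) (fun u => (μ ^ 2) ^ (j : ℕ) * z (u.map Prod.snd)) v =
          (μ ^ 2) ^ (j : ℕ) * RC (wds (MP w P)) (fun w' => ((x j w' : ℤ) : A)) (fun w' => z (ar n' w')) v := by
        rw [RC, RC, mul_sum]
        refine sum_congr rfl fun p hp => ?_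
        have h7 : ∀ y ∈ p.1, y.1 = 0 := by
          obtain ⟨v', hv', hvp⟩ := mem_prs.1 (mem_filter.1 hp).1
          exact (E_pair (hΛ v' hv') hvp).c
        rw [ar_const p.1 h7]
        ring
      rw [h6] at h5
      rw [← h5]
      ring
    rw [mul_sum, sum_congr rfl h1, sum_comm]
    refine sum_eq_zero fun v _ => ?_
    rw [← sum_mul, sum_comm]
    have h2 : ∑ i, ∑ j, ((RI (wds (MP w P)) (x j) (mE J L j) v i : ℤ) : A) * Θ ^ (i : ℕ) = 0 := by
      refine sum_eq_zero fun i _ => ?_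
      rw [← sum_mul]
      have h3 := congrArg (fun t : ℤ => (t : A)) (hRI v i)
      simp only [Int.cast_sum, Int.cast_zero] at h3
      rw [h3, zero_mul]
    rw [h2, zero_mul]
  have hd : algebraMap ℚ A ((dn L : ℚ)⁻¹) * (dn L : A) = 1 := by
    rw [← map_natCast (algebraMap ℚ A), ← map_mul, inv_mul_cancel₀, map_one]
    exact_mod_cast (dn_pos L).ne'
  have h9 := congrArg (fun t => algebraMap ℚ A ((dn L : ℚ)⁻¹) * t) hmain
  simp only [mul_zero] at h9
  rwa [← mul_assoc, hd, one_mul] at h9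

lemma sum_even_odd {A : Type} [AddCommMonoid A] (J : ℕ) (g : ℕ → A) :
    ∑ j ∈ range (2 * J), g j = ∑ j ∈ range J, g (2 * j) + ∑ j ∈ range J, g (2 * j + 1) := by
  induction J with
  | zero => simp
  | succ J ih =>
    rw [show 2 * (J + 1) = 2 * J + 1 + 1 by ring, sum_range_succ, sum_range_succ, ih, sum_range_succ, sum_range_succ]
    abel

/-- **powers of `2 π i`** -/
theorem kz_main {k : ℕ} (D J : ℕ) (w : Fin k → List (ℕ × ℕ)) (hw : ∀ i, AdmW (w i)) (hE : ∀ i, EV (w i)) :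
    ∃ B C : ℝ, 1 < B ∧ 1 < C ∧ ∃ n0 : ℕ, ∀ n, n0 ≤ n → ∀ f : ℕ → MvPolynomial (Fin k) ℤ,
      (∀ j, (f j).totalDegree ≤ D) → (∀ j s, |(((f j).coeff s : ℤ) : ℝ)| ≤ C ^ n) →
      (∀ j, ∀ s ∈ (f j).support, ∑ i, s i * (cp (w i)).length ≤ 1) →
      ‖∑ j ∈ range (2 * J), (2 * Real.pi * Complex.I) ^ j *
        MvPolynomial.aeval (fun i => ((mz (ar n (w i)) : ℝ) : ℂ)) (f j)‖ ≤ (B ^ n)⁻¹ →
      ∀ (A : Type) [CommRing A] [Algebra ℚ A] (μ : A) (z : List ℕ → A), AssocL μ z → ∀ n', 2 ≤ n' →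
        ∑ j ∈ range (2 * J), μ ^ j * MvPolynomial.aeval (fun i => z (ar n' (w i))) (f j) = 0 := by
  classical
  obtain ⟨B, C, hB, hC, n0, h⟩ := kz_real D J (∑ i, (cp (w i)).sum.2) w hw hE (fun i => by
    have := single_le_sum (f := fun i => (cp (w i)).sum.2) (fun _ _ => Nat.zero_le _) (mem_univ i)
    omega)
  refine ⟨B, C, hB, hC, n0, fun n hn f hf hc hs hsmall A _ _ μ z hz n' hn' => ?_⟩
  set X : ℕ → ℝ := fun j => MvPolynomial.aeval (fun i => mz (ar n (w i))) (f j) with hX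
  have hXc : ∀ j, MvPolynomial.aeval (fun i => ((mz (ar n (w i)) : ℝ) : ℂ)) (f j) = ((X j : ℝ) : ℂ) := by
    intro j
    exact MvPolynomial.aeval_algebraMap_apply (A := ℝ) ℂ (fun i => mz (ar n (w i))) (f j)
  simp only [hXc] at hsmall
  set X0 : ℝ := ∑ j ∈ range J, (-4 * Real.pi ^ 2) ^ j * X (2 * j) with hX0
  set X1 : ℝ := ∑ j ∈ range J, (-4 * Real.pi ^ 2) ^ j * X (2 * j + 1) with hX1
  have hsq : (2 * Real.pi * Complex.I) ^ 2 = ((-4 * Real.pi ^ 2 : ℝ) : ℂ) := by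
    rw [mul_pow, Complex.I_sq]
    push_cast
    ring
  have htot : ∑ j ∈ range (2 * J), (2 * Real.pi * Complex.I) ^ j * ((X j : ℝ) : ℂ) =
      ((X0 : ℝ) : ℂ) + ((2 * Real.pi * X1 : ℝ) : ℂ) * Complex.I := by
    rw [sum_even_odd, hX0, hX1]
    congr 1
    · push_cast
      refine sum_congr rfl fun j _ => ?_
      rw [pow_mul, hsq]
      push_cast
      ring
    · push_cast
      rw [mul_sum, sum_mul]
      refine sum_congr rfl fun j _ => ?_
      rw [pow_succ, pow_mul, hsq]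
      push_cast
      ring
  rw [htot] at hsmall
  have hre : |X0| ≤ (B ^ n)⁻¹ := by
    refine le_trans ?_ hsmall
    have h1 := Complex.abs_re_le_norm (((X0 : ℝ) : ℂ) + ((2 * Real.pi * X1 : ℝ) : ℂ) * Complex.I)
    simpa using h1
  have him : |X1| ≤ (B ^ n)⁻¹ := by
    refine le_trans ?_ hsmall
    have h1 := Complex.abs_im_le_norm (((X0 : ℝ) : ℂ) + ((2 * Real.pi * X1 : ℝ) : ℂ) * Complex.I)
    have h2 : (((X0 : ℝ) : ℂ) + ((2 * Real.pi * X1 : ℝ) : ℂ) * Complex.I).im = 2 * Real.pi * X1 := by simp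
    rw [h2, abs_mul, abs_of_pos (by positivity : 0 < 2 * Real.pi)] at h1
    refine le_trans ?_ h1
    have h3 : (1 : ℝ) ≤ 2 * Real.pi := by
      have := Real.pi_gt_three
      linarith
    nlinarith [abs_nonneg X1]
  have e0 : X0 = ∑ j : Fin J, (-4 * Real.pi ^ 2) ^ (j : ℕ) *
      MvPolynomial.aeval (fun i => mz (ar n (w i))) (f (2 * (j : ℕ))) := by
    rw [hX0, sum_range]
  have e1 : X1 = ∑ j : Fin J, (-4 * Real.pi ^ 2) ^ (j : ℕ) *
      MvPolynomial.aeval (fun i => mz (ar n (w i))) (f (2 * (j : ℕ) + 1)) := by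
    rw [hX1, sum_range]
  rw [e0] at hre
  rw [e1] at him
  have g0 := h n hn (fun j : Fin J => f (2 * (j : ℕ))) (fun j => hf _) (fun j => hc _) (fun j => hs _) hre A μ z hz n' hn'
  have g1 := h n hn (fun j : Fin J => f (2 * (j : ℕ) + 1)) (fun j => hf _) (fun j => hc _) (fun j => hs _) him A μ z hz
    n' hn'
  rw [sum_even_odd]
  have s0 : ∑ j ∈ range J, μ ^ (2 * j) * MvPolynomial.aeval (fun i => z (ar n' (w i))) (f (2 * j)) = 0 := by
    rw [sum_range, ← g0]
    exact sum_congr rfl fun j _ => by rw [pow_mul]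
  have s1 : ∑ j ∈ range J, μ ^ (2 * j + 1) * MvPolynomial.aeval (fun i => z (ar n' (w i))) (f (2 * j + 1)) = 0 := by
    have h2 : ∑ j ∈ range J, μ ^ (2 * j + 1) * MvPolynomial.aeval (fun i => z (ar n' (w i))) (f (2 * j + 1)) =
        μ * ∑ j : Fin J, (μ ^ 2) ^ (j : ℕ) * MvPolynomial.aeval (fun i => z (ar n' (w i))) (f (2 * (j : ℕ) + 1)) := by
      rw [sum_range, mul_sum]
      refine sum_congr rfl fun j _ => ?_
      rw [pow_succ, pow_mul]
      ring
    rw [h2, g1, mul_zero]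
  rw [s0, s1, add_zero]

end Pool.Agent.Q217.MZ
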