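import Pool.Agent.Q217.MZ.KZ2

/-!
# Powers of `2 π i` and multiple zeta values: blocks of equal even letters in front (helper217)
-/

set_option autoImplicit false

namespace Pool.Agent.Q217.MZ

open Finset Filter Topology
open Pool.Agent.TH507.WD (mz hr hr_cons hr_nil)
open Pool.Agent.TH507.WG (HP OK ar ar_nil ar_cons st st_OK st_HP st_length OK_cons hr_mul stl)
open Pool.Agent.TH507.DS (stI stI_ar)
open Pool.Agent.Y760.PZ (LM)

/-! ### blocks of equal even letters -/

/-- the sum over the positions of the letter `a` among `t` letters `m` -/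
def blk (m : ℕ) {A : Type} [AddCommMonoid A] : (List ℕ → A) → ℕ → ℕ → A
  | z, a, 0 => z [a]
  | z, a, t + 1 => z (a :: List.replicate (t + 1) m) + blk m (fun l => z (m :: l)) a t

lemma stI_blk {A : Type} [AddCommMonoid A] (m : ℕ) (t : ℕ) : ∀ (z : List ℕ → A) (a : ℕ),
    ((stI [a] (List.replicate (t + 1) m)).map z).sum = blk m z a (t + 1) + blk m z (a + m) t := by
  induction t with
  | zero =>
    intro z a
    rw [List.replicate_succ, List.replicate_zero, stI, stI, stI, stI, blk, blk, blk]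
    simp [List.replicate, add_assoc]
  | succ t ih =>
    intro z a
    rw [List.replicate_succ, stI]
    simp only [List.map_append, List.map_map, List.sum_append]
    have h1 := ih (fun l => z (m :: l)) a
    have h2 : ((stI [a] (List.replicate (t + 1) m)).map (z ∘ (fun x => m :: x))).sum =
        blk m (fun l => z (m :: l)) a (t + 1) + blk m (fun l => z (m :: l)) (a + m) t := h1
    rw [h2, stI, stI]
    simp only [List.map_cons, List.map_nil, List.sum_cons, List.sum_nil, add_zero, Function.comp]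
    have e1 : blk m z a (t + 1 + 1) = z (a :: List.replicate (t + 1 + 1) m) + blk m (fun l => z (m :: l)) a (t + 1) := by
      rw [blk]
    have e2 : blk m z (a + m) (t + 1) = z ((a + m) :: List.replicate (t + 1) m) +
        blk m (fun l => z (m :: l)) (a + m) t := by
      rw [blk]
    rw [e1, e2, List.replicate_succ (n := t + 1)]
    abel

lemma blk_m {A : Type} [AddCommMonoid A] (m : ℕ) (t : ℕ) : ∀ z : List ℕ → A,
    blk m z m t = (t + 1) • z (List.replicate (t + 1) m) := by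
  induction t with
  | zero =>
    intro z
    rw [blk]
    simp [List.replicate]
  | succ t ih =>
    intro z
    rw [blk, ih, List.replicate_succ (n := t + 1)]
    exact (succ_nsmul' _ (t + 1)).symm

lemma adm_rep {m : ℕ} (hm : 2 ≤ m) (t : ℕ) : Pool.Agent.H447R2.MZ.Adm (List.replicate t m) := by
  refine ⟨fun a ha => ?_, fun a l h => ?_⟩
  · rw [List.eq_of_mem_replicate ha]
    omega
  · have : a ∈ List.replicate t m := by rw [h]; exact List.mem_cons_self
    rw [List.eq_of_mem_replicate this]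
    exact hm

/-- values of blocks of equal even letters -/
theorem block_val (b : ℕ) (hb : 1 ≤ b) (t : ℕ) :
    (∃ q : ℚ, ∀ (A : Type) [CommRing A] [Algebra ℚ A] (μ : A) (z : List ℕ → A), AssocL μ z →
      z (List.replicate t (2 * b)) = algebraMap ℚ A q * μ ^ (2 * b * t)) ∧
    ∀ i, 1 ≤ i → ∃ r : ℚ, ∀ (A : Type) [CommRing A] [Algebra ℚ A] (μ : A) (z : List ℕ → A), AssocL μ z →
      blk (2 * b) z (2 * b * i) t = algebraMap ℚ A r * μ ^ (2 * b * (i + t)) := by
  have hev : ∀ i, 1 ≤ i → ∀ (A : Type) [CommRing A] [Algebra ℚ A] (μ : A) (z : List ℕ → A), AssocL μ z →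
      z [2 * b * i] = algebraMap ℚ A (-bernoulli (2 * b * i) / (2 * (2 * b * i).factorial)) * μ ^ (2 * b * i) := by
    intro i hi A _ _ μ z hz
    have h := hz.ev (b * i) (Nat.one_le_iff_ne_zero.2 (Nat.mul_ne_zero (by omega) (by omega)))
    rwa [← mul_assoc] at h
  induction t with
  | zero =>
    refine ⟨⟨1, fun A _ _ μ z hz => ?_⟩, fun i hi => ⟨-bernoulli (2 * b * i) / (2 * (2 * b * i).factorial),
      fun A _ _ μ z hz => ?_⟩⟩
    · rw [List.replicate_zero, hz.st.1, mul_zero, pow_zero, map_one, one_mul]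
    · rw [blk, hev i hi A μ z hz, add_zero]
  | succ t ih =>
    obtain ⟨⟨q0, hq0⟩, hr⟩ := ih
    obtain ⟨r1, hr1⟩ := hr 1 le_rfl
    have hz1 : ∀ (A : Type) [CommRing A] [Algebra ℚ A] (μ : A) (z : List ℕ → A), AssocL μ z →
        z (List.replicate (t + 1) (2 * b)) = algebraMap ℚ A (((t + 1 : ℕ) : ℚ)⁻¹ * r1) * μ ^ (2 * b * (t + 1)) := by
      intro A _ _ μ z hz
      have h1 := hr1 A μ z hz
      rw [mul_one, blk_m] at h1
      have h2 : algebraMap ℚ A (((t + 1 : ℕ) : ℚ)⁻¹) * ((t + 1 : ℕ) : A) = 1 := by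
        rw [← map_natCast (algebraMap ℚ A), ← map_mul, inv_mul_cancel₀ (by positivity), map_one]
      rw [map_mul, mul_assoc, show t + 1 = 1 + t by ring]
      rw [← h1, nsmul_eq_mul, ← mul_assoc]
      rw [show 1 + t = t + 1 by ring, h2, one_mul]
    refine ⟨⟨_, hz1⟩, fun i hi => ?_⟩
    obtain ⟨r2, hr2⟩ := hr (i + 1) (by omega)
    refine ⟨(-bernoulli (2 * b * i) / (2 * (2 * b * i).factorial)) * (((t + 1 : ℕ) : ℚ)⁻¹ * r1) - r2,
      fun A _ _ μ z hz => ?_⟩
    have h3 := stI_blk (2 * b) t z (2 * b * i)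
    have hA : Pool.Agent.H447R2.MZ.Adm [2 * b * i] := adm_rep (m := 2 * b * i) (by nlinarith) 1
    have h4 := hz.st.2 [2 * b * i] (List.replicate (t + 1) (2 * b)) hA (adm_rep (by omega) _)
    rw [h3] at h4
    have h5 := hr2 A μ z hz
    have h6 : 2 * b * i + 2 * b = 2 * b * (i + 1) := by ring
    rw [h6, h5, hz1 A μ z hz, hev i hi A μ z hz] at h4
    rw [map_sub, map_mul, sub_mul]
    have e1 : 2 * b * (i + 1 + t) = 2 * b * (i + (t + 1)) := by ring
    rw [e1] at h4
    have e2 : μ ^ (2 * b * (i + (t + 1))) = μ ^ (2 * b * i) * μ ^ (2 * b * (t + 1)) := by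
      rw [← pow_add]
      congr 1
      ring
    rw [e2] at h4 ⊢
    have h7 : blk (2 * b) z (2 * b * i) (t + 1) =
        algebraMap ℚ A (-bernoulli (2 * b * i) / (2 * (2 * b * i).factorial)) * μ ^ (2 * b * i) *
          (algebraMap ℚ A (((t + 1 : ℕ) : ℚ)⁻¹ * r1) * μ ^ (2 * b * (t + 1))) -
        algebraMap ℚ A r2 * (μ ^ (2 * b * i) * μ ^ (2 * b * (t + 1))) := by
      rw [h4]
      ring
    rw [h7]
    ring

/-! ### representable functions of the families -/

/-- functions of `μ`, the values `z` and `n` which are combinations of the `μ ^ m z(v(n))` with growing `v` -/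
def Rep (F : ∀ (A : Type) [CommRing A] [Algebra ℚ A], A → (List ℕ → A) → ℕ → A) : Prop :=
  ∃ c : (ℕ × List (ℕ × ℕ)) →₀ ℚ, (∀ p, c p ≠ 0 → HP p.2 ∧ OK p.2) ∧
    ∀ (A : Type) [CommRing A] [Algebra ℚ A] (μ : A) (z : List ℕ → A), AssocL μ z → ∀ n, 2 ≤ n →
      F A μ z n = c.sum fun p q => algebraMap ℚ A q * (μ ^ p.1 * z (ar n p.2))

lemma rep_congr {F G : ∀ (A : Type) [CommRing A] [Algebra ℚ A], A → (List ℕ → A) → ℕ → A} (hG : Rep G)
    (h : ∀ (A : Type) [CommRing A] [Algebra ℚ A] (μ : A) (z : List ℕ → A), AssocL μ z → ∀ n, 2 ≤ n →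
      F A μ z n = G A μ z n) : Rep F := by
  obtain ⟨c, hc, h1⟩ := hG
  exact ⟨c, hc, fun A _ _ μ z hz n hn => by rw [h A μ z hz n hn, h1 A μ z hz n hn]⟩

lemma rep_zero : Rep fun _ _ _ _ _ _ => 0 :=
  ⟨0, fun p hp => absurd rfl hp, fun A _ _ μ z _ n _ => by rw [Finsupp.sum_zero_index]⟩

lemma rep_add {F G : ∀ (A : Type) [CommRing A] [Algebra ℚ A], A → (List ℕ → A) → ℕ → A} (hF : Rep F) (hG : Rep G) :
    Rep fun A _ _ μ z n => F A μ z n + G A μ z n := by
  classical
  obtain ⟨c, hc, h1⟩ := hF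
  obtain ⟨d, hd, h2⟩ := hG
  refine ⟨c + d, fun p hp => ?_, fun A _ _ μ z hz n hn => ?_⟩
  · by_cases h : c p = 0
    · refine hd p fun h' => hp ?_
      rw [Finsupp.add_apply, h, h', add_zero]
    · exact hc p h
  · beta_reduce
    rw [h1 A μ z hz n hn, h2 A μ z hz n hn, Finsupp.sum_add_index' (fun p => by rw [map_zero, zero_mul])
      (fun p q r => by rw [map_add, add_mul])]

lemma rep_smul {F : ∀ (A : Type) [CommRing A] [Algebra ℚ A], A → (List ℕ → A) → ℕ → A} (hF : Rep F) (a : ℚ) :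
    Rep fun A _ _ μ z n => algebraMap ℚ A a * F A μ z n := by
  classical
  obtain ⟨c, hc, h1⟩ := hF
  refine ⟨a • c, fun p hp => hc p fun h => hp (by rw [Finsupp.smul_apply, h, smul_zero]),
    fun A _ _ μ z hz n hn => ?_⟩
  beta_reduce
  rw [h1 A μ z hz n hn, Finsupp.sum_smul_index (fun p => by rw [map_zero, zero_mul]), Finsupp.mul_sum]
  refine Finsupp.sum_congr fun p _ => ?_
  rw [map_mul, mul_assoc]

lemma rep_single (m : ℕ) {v : List (ℕ × ℕ)} (h1 : HP v) (h2 : OK v) :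
    Rep fun A _ _ μ z n => μ ^ m * z (ar n v) := by
  classical
  refine ⟨Finsupp.single (m, v) 1, fun p hp => ?_, fun A _ _ μ z hz n hn => ?_⟩
  · rw [Finsupp.single_apply] at hp
    have h : (m, v) = p := by
      by_contra hcon
      rw [if_neg hcon] at hp
      exact hp rfl
    rw [← h]
    exact ⟨h1, h2⟩
  · rw [Finsupp.sum_single_index (by rw [map_zero, zero_mul]), map_one, one_mul]

lemma rep_list {κ : Type} (L : List κ) {G : κ → ∀ (A : Type) [CommRing A] [Algebra ℚ A], A → (List ℕ → A) → ℕ → A}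
    (hG : ∀ o ∈ L, Rep (G o)) : Rep fun A _ _ μ z n => (L.map fun o => G o A μ z n).sum := by
  induction L with
  | nil =>
    simp only [List.map_nil, List.sum_nil]
    exact rep_zero
  | cons o L ih =>
    simp only [List.map_cons, List.sum_cons]
    exact rep_add (hG o List.mem_cons_self) (ih fun o' ho' => hG o' (List.mem_cons_of_mem _ ho'))

lemma rep_sum {κ : Type} (s : Finset κ) {G : κ → ∀ (A : Type) [CommRing A] [Algebra ℚ A], A → (List ℕ → A) → ℕ → A}
    (hG : ∀ o ∈ s, Rep (G o)) : Rep fun A _ _ μ z n => ∑ o ∈ s, G o A μ z n := by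
  classical
  induction s using Finset.induction_on with
  | empty =>
    simp only [sum_empty]
    exact rep_zero
  | insert a s ha ih =>
    simp only [sum_insert ha]
    exact rep_add (hG a (mem_insert_self _ _)) (ih fun o' ho' => hG o' (mem_insert_of_mem ho'))

lemma rep_mul {F G : ∀ (A : Type) [CommRing A] [Algebra ℚ A], A → (List ℕ → A) → ℕ → A} (hF : Rep F) (hG : Rep G) :
    Rep fun A _ _ μ z n => F A μ z n * G A μ z n := by
  classical
  obtain ⟨c, hc, h1⟩ := hF
  obtain ⟨d, hd, h2⟩ := hG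
  have hR : Rep fun A _ _ μ z n => ∑ p ∈ c.support, ∑ q ∈ d.support, algebraMap ℚ A (c p * d q) *
      ((st p.2 q.2).map fun o => μ ^ (p.1 + q.1) * z (ar n o)).sum := by
    refine rep_sum _ fun p hp => rep_sum _ fun q hq => rep_smul (rep_list _ fun o ho => ?_) _
    obtain ⟨hp1, hp2⟩ := hc p (Finsupp.mem_support_iff.1 hp)
    obtain ⟨hq1, hq2⟩ := hd q (Finsupp.mem_support_iff.1 hq)
    exact rep_single _ (st_HP _ _ hp1 hq1 o ho) (st_OK _ _ hp2 hq2 o ho)
  refine rep_congr hR fun A _ _ μ z hz n hn => ?_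
  rw [h1 A μ z hz n hn, h2 A μ z hz n hn, Finsupp.sum, Finsupp.sum, sum_mul_sum]
  refine sum_congr rfl fun p hp => sum_congr rfl fun q hq => ?_
  obtain ⟨hp1, hp2⟩ := hc p (Finsupp.mem_support_iff.1 hp)
  obtain ⟨hq1, hq2⟩ := hd q (Finsupp.mem_support_iff.1 hq)
  have hF := StF_of_StI hz.st hn
  have h3 : z (ar n p.2) * z (ar n q.2) = ((st p.2 q.2).map fun w => z (ar n w)).sum :=
    hF.mul p.2 q.2 (AdmW_of_HP hp1 hp2) (AdmW_of_HP hq1 hq2)
  have h4 : ((st p.2 q.2).map fun o => μ ^ (p.1 + q.1) * z (ar n o)).sum =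
      μ ^ (p.1 + q.1) * ((st p.2 q.2).map fun w => z (ar n w)).sum := by
    rw [List.sum_map_mul_left]
  rw [h4, ← h3, map_mul, pow_add]
  ring

lemma rep_one : Rep fun _ _ _ _ _ _ => 1 := by
  refine rep_congr (rep_single 0 (v := []) trivial (fun x hx => absurd hx List.not_mem_nil))
    fun A _ _ μ z hz n hn => ?_
  rw [pow_zero, ar_nil, hz.st.1, mul_one]

lemma rep_mu (m : ℕ) : Rep fun _ _ _ μ _ _ => μ ^ m := by
  refine rep_congr (rep_single m (v := []) trivial (fun x hx => absurd hx List.not_mem_nil))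
    fun A _ _ μ z hz n hn => ?_
  rw [ar_nil, hz.st.1, mul_one]

lemma rep_pow {F : ∀ (A : Type) [CommRing A] [Algebra ℚ A], A → (List ℕ → A) → ℕ → A} (hF : Rep F) (m : ℕ) :
    Rep fun A _ _ μ z n => F A μ z n ^ m := by
  induction m with
  | zero =>
    simp only [pow_zero]
    exact rep_one
  | succ m ih =>
    simp only [pow_succ]
    exact rep_mul ih hF

lemma rep_prod {κ : Type} (s : Finset κ) {G : κ → ∀ (A : Type) [CommRing A] [Algebra ℚ A], A → (List ℕ → A) → ℕ → A}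
    (hG : ∀ o ∈ s, Rep (G o)) : Rep fun A _ _ μ z n => ∏ o ∈ s, G o A μ z n := by
  classical
  induction s using Finset.induction_on with
  | empty =>
    simp only [prod_empty]
    exact rep_one
  | insert a s ha ih =>
    simp only [prod_insert ha]
    exact rep_mul (hG a (mem_insert_self _ _)) (ih fun o' ho' => hG o' (mem_insert_of_mem ho'))

/-- the constant letters in front are equal and even -/
def EB (w : List (ℕ × ℕ)) : Prop := ∃ b s : ℕ, 1 ≤ b ∧ cp w = List.replicate s (0, 2 * b)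

lemma prefix_rep {κ : Type} {a : κ} : ∀ (s : ℕ) (l : List κ), l <+: List.replicate s a → ∃ t, l = List.replicate t a := by
  intro s l h
  refine ⟨l.length, List.eq_replicate_iff.2 ⟨rfl, fun b hb => ?_⟩⟩
  exact List.eq_of_mem_replicate (h.subset hb)

lemma rep_word {w : List (ℕ × ℕ)} (hw : AdmW w) (hE : EB w) : Rep fun _ _ _ _ z n => z (ar n w) := by
  classical
  obtain ⟨b, s, hb, hcp⟩ := hE
  have hR : Rep fun A _ _ μ z n => ∑ p ∈ (E w).support,
      algebraMap ℚ A ((E w p : ℚ) * (block_val b hb p.1.length).1.choose) *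
        (μ ^ (2 * b * p.1.length) * z (ar n p.2)) := by
    refine rep_sum _ fun p hp => rep_smul ?_ _
    have hP := E_pair hw (Finsupp.mem_support_iff.1 hp)
    exact rep_single _ hP.h hP.a2
  refine rep_congr hR fun A _ _ μ z hz n hn => ?_
  have h1 := E_spec (fun w => z (ar n w)) w
  rw [Finsupp.linearCombination_apply, Finsupp.sum] at h1
  rw [← h1]
  refine sum_congr rfl fun p hp => ?_
  have hP := E_pair hw (Finsupp.mem_support_iff.1 hp)
  have h2 : stSum (fun w => z (ar n w)) p = z (ar n p.1) * z (ar n p.2) :=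
    ((StF_of_StI hz.st hn).mul p.1 p.2 hP.a1 (AdmW_of_HP hP.h hP.a2)).symm
  have h3 := hP.q
  rw [hcp] at h3
  obtain ⟨t, ht⟩ := prefix_rep s p.1 h3
  have h4 : z (ar n p.1) = algebraMap ℚ A (block_val b hb p.1.length).1.choose * μ ^ (2 * b * p.1.length) := by
    have h5 := (block_val b hb p.1.length).1.choose_spec A μ z hz
    rw [← h5, ar_const p.1 hP.c]
    congr 1
    rw [ht]
    simp
  rw [h2, h4, zsmul_eq_mul, map_mul, map_intCast]
  ring

/-! ### the words level -/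

theorem kz_words (M : ℕ) (V : Finset (List (ℕ × ℕ))) (hV1 : ∀ v ∈ V, HP v) (hV2 : ∀ v ∈ V, OK v) :
    ∃ B C : ℝ, 1 < B ∧ 1 < C ∧ ∃ n0 : ℕ, ∀ n, n0 ≤ n → ∀ x : ℕ → List (ℕ × ℕ) → ℤ,
      (∀ m v, |(x m v : ℝ)| ≤ C ^ n) →
      ‖∑ m ∈ range (2 * M), ∑ v ∈ V, (x m v : ℂ) * ((2 * Real.pi * Complex.I) ^ m * ((mz (ar n v) : ℝ) : ℂ))‖ ≤
        (B ^ n)⁻¹ → ∀ m < 2 * M, ∀ v ∈ V, x m v = 0 := by
  classical
  obtain ⟨B, C1, hB, hC1, n1, h⟩ := words_w _ (LM_pi_sq M) V hV1 hV2
  obtain ⟨C, hC, hCC⟩ : ∃ C : ℝ, 1 < C ∧ C < C1 := exists_between hC1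
  have hC0 : 0 < C := by linarith
  have hgrow : ∀ᶠ n : ℕ in atTop, 4 ^ M * C ^ n ≤ C1 ^ n := by
    have h1 : Tendsto (fun n : ℕ => (C1 / C) ^ n) atTop atTop :=
      tendsto_pow_atTop_atTop_of_one_lt ((one_lt_div hC0).2 hCC)
    filter_upwards [h1.eventually (eventually_ge_atTop ((4 : ℝ) ^ M))] with n hn
    rw [div_pow, le_div_iff₀ (pow_pos hC0 n)] at hn
    exact hn
  obtain ⟨n2, hn2⟩ := eventually_atTop.1 hgrow
  refine ⟨B, C, hB, hC, n1 + n2, fun n hn x hx hsmall => ?_⟩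
  set Y : ℕ → ℝ := fun m => ∑ v ∈ V, (x m v : ℝ) * mz (ar n v) with hY
  have hYc : ∀ m, ∑ v ∈ V, (x m v : ℂ) * ((2 * Real.pi * Complex.I) ^ m * ((mz (ar n v) : ℝ) : ℂ)) =
      (2 * Real.pi * Complex.I) ^ m * ((Y m : ℝ) : ℂ) := by
    intro m
    rw [hY]
    push_cast
    rw [mul_sum]
    exact sum_congr rfl fun v _ => by ring
  rw [sum_congr rfl fun m _ => hYc m] at hsmall
  set X0 : ℝ := ∑ j ∈ range M, (-4 * Real.pi ^ 2) ^ j * Y (2 * j) with hX0
  set X1 : ℝ := ∑ j ∈ range M, (-4 * Real.pi ^ 2) ^ j * Y (2 * j + 1) with hX1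
  have hsq : (2 * Real.pi * Complex.I) ^ 2 = ((-4 * Real.pi ^ 2 : ℝ) : ℂ) := by
    rw [mul_pow, Complex.I_sq]
    push_cast
    ring
  have htot : ∑ j ∈ range (2 * M), (2 * Real.pi * Complex.I) ^ j * ((Y j : ℝ) : ℂ) =
      ((X0 : ℝ) : ℂ) + ((2 * Real.pi * X1 : ℝ) : ℂ) * Complex.I := by
    rw [sum_even_odd, hX0, hX1]
    congr 1
    · push_cast
      refine sum_congr rfl fun j _ => ?_
      rw [pow_mul, hsq]
      push_cast
      ring
    · push_cast
      rw [mul_sum, sum_mul]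
      refine sum_congr rfl fun j _ => ?_
      rw [pow_succ, pow_mul, hsq]
      push_cast
      ring
  rw [htot] at hsmall
  have hre : |X0| ≤ (B ^ n)⁻¹ := by
    refine le_trans ?_ hsmall
    have h1 := Complex.abs_re_le_norm (((X0 : ℝ) : ℂ) + ((2 * Real.pi * X1 : ℝ) : ℂ) * Complex.I)
    simpa using h1
  have him : |X1| ≤ (B ^ n)⁻¹ := by
    refine le_trans ?_ hsmall
    have h1 := Complex.abs_im_le_norm (((X0 : ℝ) : ℂ) + ((2 * Real.pi * X1 : ℝ) : ℂ) * Complex.I)
    have h2 : (((X0 : ℝ) : ℂ) + ((2 * Real.pi * X1 : ℝ) : ℂ) * Complex.I).im = 2 * Real.pi * X1 := by simp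
    rw [h2, abs_mul, abs_of_pos (by positivity : 0 < 2 * Real.pi)] at h1
    refine le_trans ?_ h1
    have h3 : (1 : ℝ) ≤ 2 * Real.pi := by
      have := Real.pi_gt_three
      linarith
    nlinarith [abs_nonneg X1]
  -- one parity
  have key : ∀ g : ℕ → ℕ, (∀ j < M, True) →
      |∑ j ∈ range M, (-4 * Real.pi ^ 2) ^ j * Y (g j)| ≤ (B ^ n)⁻¹ → ∀ j < M, ∀ v ∈ V, x (g j) v = 0 := by
    intro g _ hg j hj v hv
    by_contra hcon
    have h1 := h n (by omega) (fun v i => if (i : ℕ) < M then (-4) ^ (i : ℕ) * x (g i) v else 0)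
      ⟨v, hv, ⟨j, by omega⟩, by
        simp only
        rw [if_pos hj]
        exact mul_ne_zero (pow_ne_zero _ (by norm_num)) hcon⟩ (by
      intro v _ i
      refine le_trans ?_ (hn2 n (by omega))
      split_ifs with hi
      · push_cast
        rw [abs_mul, abs_pow, show |(-4 : ℝ)| = 4 by norm_num]
        refine mul_le_mul (pow_le_pow_right₀ (by norm_num) hi.le) (hx _ _) (abs_nonneg _) (by positivity)
      · rw [Int.cast_zero, abs_zero]
        positivity)
    apply absurd hg (not_le.2 ?_)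
    refine lt_of_lt_of_eq h1 ?_
    congr 1
    have h2 : ∀ v ∈ V, (∑ i : Fin (M + 1), (((if (i : ℕ) < M then (-4) ^ (i : ℕ) * x (g i) v else 0 : ℤ)) : ℝ) *
        (Real.pi ^ 2) ^ (i : ℕ)) * mz (ar n v) =
        ∑ j ∈ range M, (-4 * Real.pi ^ 2) ^ j * ((x (g j) v : ℝ) * mz (ar n v)) := by
      intro v _
      rw [Fin.sum_univ_eq_sum_range (fun i => (((if i < M then (-4) ^ i * x (g i) v else 0 : ℤ)) : ℝ) *
        (Real.pi ^ 2) ^ i) (M + 1), sum_range_succ, if_neg (lt_irrefl M), Int.cast_zero, zero_mul, add_zero, sum_mul]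
      refine sum_congr rfl fun i hi => ?_
      rw [if_pos (mem_range.1 hi), mul_pow]
      push_cast
      ring
    rw [sum_congr rfl h2, sum_comm]
    refine sum_congr rfl fun j _ => ?_
    rw [hY, mul_sum]
  intro m hm v hv
  rcases Nat.even_or_odd' m with ⟨j, rfl | rfl⟩
  · exact key (fun j => 2 * j) (fun _ _ => trivial) hre j (by omega) v hv
  · exact key (fun j => 2 * j + 1) (fun _ _ => trivial) him j (by omega) v hv

end Pool.Agent.Q217.MZ
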