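import Pool.Agent.Q217.MZ.KZ3

/-!
# Powers of `2 π i` and multiple zeta values: the main theorem for representable families (helper217)
-/

set_option autoImplicit false

namespace Pool.Agent.Q217.MZ

open Finset Filter Topology
open Pool.Agent.TH507.WD (mz hr hr_cons hr_nil)
open Pool.Agent.TH507.WG (HP OK ar ar_nil ar_cons st st_OK st_HP st_length OK_cons hr_mul stl)
open Pool.Agent.TH507.DS (stI stI_ar)
open Pool.Agent.Y760.PZ (LM)

/-- the real multiple zeta values have the stuffle product -/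
lemma StI_mz : StI mz := by
  refine ⟨by rw [Pool.Agent.TH507.WD.mz], fun k l hk hl => ?_⟩
  have e : ∀ k : List ℕ, k = ar 2 (k.map fun b => ((0 : ℕ), b)) := by
    intro k
    rw [ar, List.map_map]
    conv_lhs => rw [← List.map_id k]
    refine List.map_congr_left fun b _ => ?_
    simp
  have ha : ∀ k : List ℕ, Pool.Agent.H447R2.MZ.Adm k → AdmW (k.map fun b => ((0 : ℕ), b)) := by
    intro k hk
    refine ⟨fun x hx _ => ?_, fun x l h _ => ?_⟩
    · rw [List.mem_map] at hx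
      obtain ⟨b, hb, rfl⟩ := hx
      exact hk.1 b hb
    · cases k with
      | nil => exact absurd h (by simp)
      | cons b k =>
        rw [List.map_cons] at h
        rw [← (List.cons.inj h).1]
        exact hk.2 b k rfl
  have h1 := mz_mulA (n := 2) le_rfl _ _ (ha k hk) (ha l hl)
  rw [← e k, ← e l] at h1
  rw [← h1, stSum]
  conv_rhs => rw [e k, e l, stI_ar, List.map_map]
  rfl

lemma AssocL_real : AssocL (2 * Real.pi * Complex.I : ℂ) (fun l => ((mz l : ℝ) : ℂ)) where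
  st := by
    refine ⟨by simp only [StI_mz.1, Complex.ofReal_one], fun k l hk hl => ?_⟩
    rw [← Complex.ofReal_mul, StI_mz.2 k l hk hl]
    generalize stI k l = L
    induction L with
    | nil => simp
    | cons o L ih =>
      rw [List.map_cons, List.sum_cons, List.map_cons, List.sum_cons, Complex.ofReal_add, ih]
  ev := by
    intro b hb
    have hsq : (2 * Real.pi * Complex.I : ℂ) ^ 2 = (-4) * ((Real.pi : ℂ) ^ 2) := by
      rw [mul_pow, Complex.I_sq]
      ring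
    have h4 : ((-1 / 4 : ℚ) : ℂ) ^ b * (-4) ^ b = 1 := by
      rw [← mul_pow]
      norm_num
    rw [mz_even b hb, ← qz_mu b hb, pow_mul, hsq, mul_pow, eq_ratCast]
    push_cast
    push_cast at h4
    linear_combination -((qz b : ℂ) * ((Real.pi : ℂ) ^ 2) ^ b) * h4

/-- **the main theorem for representable families** -/
theorem kz_family {ℰ : Type} [Fintype ℰ]
    (F : ℰ → ∀ (A : Type) [CommRing A] [Algebra ℚ A], A → (List ℕ → A) → ℕ → A) (hF : ∀ e, Rep (F e)) :
    ∃ B C : ℝ, 1 < B ∧ 1 < C ∧ ∃ n0 : ℕ, ∀ n, n0 ≤ n → ∀ c : ℰ → ℤ, (∀ e, |(c e : ℝ)| ≤ C ^ n) →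
      ‖∑ e, (c e : ℂ) * F e ℂ (2 * Real.pi * Complex.I) (fun l => ((mz l : ℝ) : ℂ)) n‖ ≤ (B ^ n)⁻¹ →
      ∀ (A : Type) [CommRing A] [Algebra ℚ A] (μ : A) (z : List ℕ → A), AssocL μ z → ∀ n', 2 ≤ n' →
        ∑ e, (c e : A) * F e A μ z n' = 0 := by
  classical
  choose g hg1 hg2 using hF
  set V : Finset (List (ℕ × ℕ)) := univ.biUnion fun e => (g e).support.image Prod.snd with hV
  set M : ℕ := ∑ e, ∑ p ∈ (g e).support, (p.1 + 1) with hM
  set d : ℕ := ∏ e, ∏ p ∈ (g e).support, (g e p).den with hd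
  have hd0 : 0 < d := prod_pos fun e _ => prod_pos fun p _ => (g e p).den_pos
  have hMp : ∀ e p, g e p ≠ 0 → p.1 < 2 * M := by
    intro e p hp
    have h1 : p.1 + 1 ≤ ∑ p ∈ (g e).support, (p.1 + 1) :=
      single_le_sum (f := fun p : ℕ × List (ℕ × ℕ) => p.1 + 1) (fun _ _ => Nat.zero_le _) (Finsupp.mem_support_iff.2 hp)
    have h2 : ∑ p ∈ (g e).support, (p.1 + 1) ≤ M :=
      single_le_sum (f := fun e => ∑ p ∈ (g e).support, (p.1 + 1)) (fun _ _ => Nat.zero_le _) (mem_univ e)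
    omega
  have hVp : ∀ e p, g e p ≠ 0 → p.2 ∈ V := by
    intro e p hp
    exact mem_biUnion.2 ⟨e, mem_univ _, mem_image_of_mem _ (Finsupp.mem_support_iff.2 hp)⟩
  have hV' : ∀ v ∈ V, HP v ∧ OK v := by
    intro v hv
    obtain ⟨e, _, hv⟩ := mem_biUnion.1 hv
    obtain ⟨p, hp, rfl⟩ := mem_image.1 hv
    exact hg1 e p (Finsupp.mem_support_iff.1 hp)
  -- the integer coefficients
  have hden : ∀ e p, ∃ t : ℤ, (t : ℚ) = d * g e p := by
    intro e p
    by_cases hp : g e p = 0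
    · exact ⟨0, by rw [hp, mul_zero, Int.cast_zero]⟩
    have h1 : (g e p).den ∣ d :=
      (dvd_prod_of_mem (fun p => (g e p).den) (Finsupp.mem_support_iff.2 hp)).trans
        (dvd_prod_of_mem (fun e => ∏ p ∈ (g e).support, (g e p).den) (mem_univ e))
    obtain ⟨t, ht⟩ := h1
    refine ⟨t * (g e p).num, ?_⟩
    rw [ht]
    push_cast
    have h2 : (g e p) * (g e p).den = (g e p).num := Rat.mul_den_eq_num _
    linear_combination -(t : ℚ) * h2
  choose a ha using hden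
  have ha0 : ∀ e p, g e p = 0 → a e p = 0 := by
    intro e p hp
    have := ha e p
    rw [hp, mul_zero] at this
    exact_mod_cast this
  have hexp : ∀ (A : Type) [CommRing A] [Algebra ℚ A] (μ : A) (z : List ℕ → A), AssocL μ z → ∀ n, 2 ≤ n → ∀ e,
      (d : A) * F e A μ z n = ∑ m ∈ range (2 * M), ∑ v ∈ V, (a e (m, v) : A) * (μ ^ m * z (ar n v)) := by
    intro A _ _ μ z hz n hn e
    rw [hg2 e A μ z hz n hn, Finsupp.sum, mul_sum, ← sum_product']
    have hsub : (g e).support ⊆ range (2 * M) ×ˢ V := fun p hp =>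
      mem_product.2 ⟨mem_range.2 (hMp e p (Finsupp.mem_support_iff.1 hp)), hVp e p (Finsupp.mem_support_iff.1 hp)⟩
    rw [← sum_subset hsub (fun p _ hp => by
      rw [Finsupp.notMem_support_iff] at hp
      rw [show a e (p.1, p.2) = 0 from ha0 e p hp, Int.cast_zero, zero_mul])]
    refine sum_congr rfl fun p _ => ?_
    have h1 : ((a e (p.1, p.2) : ℤ) : A) = (d : A) * algebraMap ℚ A (g e p) := by
      have := congrArg (algebraMap ℚ A) (ha e p)
      rw [map_mul, map_natCast, map_intCast] at this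
      exact this
    rw [h1]
    ring
  have hlin : ∀ (A : Type) [CommRing A] [Algebra ℚ A] (μ : A) (z : List ℕ → A), AssocL μ z → ∀ n, 2 ≤ n → ∀ c : ℰ → ℤ,
      (d : A) * ∑ e, (c e : A) * F e A μ z n =
        ∑ m ∈ range (2 * M), ∑ v ∈ V, ((∑ e, c e * a e (m, v) : ℤ) : A) * (μ ^ m * z (ar n v)) := by
    intro A _ _ μ z hz n hn c
    rw [mul_sum]
    have h1 : ∀ e ∈ (univ : Finset ℰ), (d : A) * ((c e : A) * F e A μ z n) =
        ∑ m ∈ range (2 * M), ∑ v ∈ V, ((c e * a e (m, v) : ℤ) : A) * (μ ^ m * z (ar n v)) := by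
      intro e _
      rw [mul_left_comm, hexp A μ z hz n hn e, mul_sum]
      refine sum_congr rfl fun m _ => ?_
      rw [mul_sum]
      refine sum_congr rfl fun v _ => ?_
      push_cast
      ring
    rw [sum_congr rfl h1, sum_comm]
    refine sum_congr rfl fun m _ => ?_
    rw [sum_comm]
    refine sum_congr rfl fun v _ => ?_
    push_cast
    rw [sum_mul]
  -- the growth
  obtain ⟨B, C1, hB, hC1, n1, h⟩ := kz_words M V (fun v hv => (hV' v hv).1) (fun v hv => (hV' v hv).2)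
  set T : ℝ := 1 + ∑ e, ∑ p ∈ (g e).support, |(a e p : ℝ)| with hT
  have hTp : ∀ p : ℕ × List (ℕ × ℕ), ∑ e, |(a e p : ℝ)| ≤ T := by
    intro p
    have h1 : ∀ e ∈ (univ : Finset ℰ), |(a e p : ℝ)| ≤ ∑ p ∈ (g e).support, |(a e p : ℝ)| := by
      intro e _
      by_cases hp : g e p = 0
      · rw [ha0 e p hp, Int.cast_zero, abs_zero]
        exact sum_nonneg fun _ _ => abs_nonneg _
      · exact single_le_sum (f := fun p => |(a e p : ℝ)|) (fun _ _ => abs_nonneg _) (Finsupp.mem_support_iff.2 hp)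
    have h2 := sum_le_sum h1
    linarith
  obtain ⟨C, hC, hCC⟩ : ∃ C : ℝ, 1 < C ∧ C < C1 := exists_between hC1
  have hC0 : 0 < C := by linarith
  have hgrow : ∀ᶠ n : ℕ in atTop, T * C ^ n ≤ C1 ^ n := by
    have h1 : Tendsto (fun n : ℕ => (C1 / C) ^ n) atTop atTop :=
      tendsto_pow_atTop_atTop_of_one_lt ((one_lt_div hC0).2 hCC)
    filter_upwards [h1.eventually (eventually_ge_atTop T)] with n hn
    rw [div_pow, le_div_iff₀ (pow_pos hC0 n)] at hn
    exact hn
  obtain ⟨n2, hn2⟩ := eventually_atTop.1 hgrow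
  have hdR : (1 : ℝ) ≤ d := by exact_mod_cast hd0
  refine ⟨B * d, C, by nlinarith, hC, n1 + n2 + 2, fun n hn c hc hsmall A _ _ μ z hz n' hn' => ?_⟩
  have hx := h n (by omega) (fun m v => ∑ e, c e * a e (m, v)) (by
    intro m v
    refine le_trans ?_ (hn2 n (by omega))
    push_cast
    refine (abs_sum_le_sum_abs _ _).trans ?_
    refine le_trans ?_ (mul_le_mul_of_nonneg_right (hTp (m, v)) (pow_pos hC0 n).le)
    rw [sum_mul]
    refine sum_le_sum fun e _ => ?_
    rw [abs_mul, mul_comm]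
    exact mul_le_mul_of_nonneg_left (hc e) (abs_nonneg _)) (by
    rw [← hlin ℂ _ _ AssocL_real n (by omega) c, norm_mul, Complex.norm_natCast]
    refine (mul_le_mul_of_nonneg_left hsmall (by positivity)).trans ?_
    rw [mul_pow, mul_inv]
    have h5 : (d : ℝ) * ((d : ℝ) ^ n)⁻¹ ≤ 1 := by
      have h6 : (d : ℝ) ^ 1 ≤ (d : ℝ) ^ n := pow_le_pow_right₀ hdR (by omega)
      rw [pow_one] at h6
      rw [← div_eq_mul_inv]
      exact (div_le_one (by positivity)).2 h6
    have h7 : 0 ≤ (B ^ n)⁻¹ := by positivity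
    nlinarith [mul_le_mul_of_nonneg_left h5 h7])
  have hfin := hlin A μ z hz n' hn' c
  rw [sum_eq_zero fun m hm => sum_eq_zero fun v hv => by
    rw [hx m (mem_range.1 hm) v hv, Int.cast_zero, zero_mul]] at hfin
  have hd1 : algebraMap ℚ A ((d : ℚ)⁻¹) * (d : A) = 1 := by
    rw [← map_natCast (algebraMap ℚ A), ← map_mul, inv_mul_cancel₀, map_one]
    exact_mod_cast hd0.ne'
  have h9 := congrArg (fun t => algebraMap ℚ A ((d : ℚ)⁻¹) * t) hfin
  simp only [mul_zero] at h9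
  rwa [← mul_assoc, hd1, one_mul] at h9

/-- **polynomials in `2 π i` and multiple zeta values** -/
theorem kz_poly {k : ℕ} (D J : ℕ) (w : Fin k → List (ℕ × ℕ)) (hw : ∀ i, AdmW (w i)) (hE : ∀ i, EB (w i)) :
    ∃ B C : ℝ, 1 < B ∧ 1 < C ∧ ∃ n0 : ℕ, ∀ n, n0 ≤ n → ∀ f : ℕ → MvPolynomial (Fin k) ℤ,
      (∀ j, (f j).totalDegree ≤ D) → (∀ j s, |(((f j).coeff s : ℤ) : ℝ)| ≤ C ^ n) →
      ‖∑ j ∈ range J, (2 * Real.pi * Complex.I) ^ j *
        MvPolynomial.aeval (fun i => ((mz (ar n (w i)) : ℝ) : ℂ)) (f j)‖ ≤ (B ^ n)⁻¹ →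
      ∀ (A : Type) [CommRing A] [Algebra ℚ A] (μ : A) (z : List ℕ → A), AssocL μ z → ∀ n', 2 ≤ n' →
        ∑ j ∈ range J, μ ^ j * MvPolynomial.aeval (fun i => z (ar n' (w i))) (f j) = 0 := by
  classical
  obtain ⟨B, C, hB, hC, n0, h⟩ := kz_family (ℰ := Fin J × {_e : Fin k → Fin (D + 1) // True})
    (fun y A _ _ μ z n => μ ^ (y.1 : ℕ) * ∏ i, z (ar n (w i)) ^ (y.2.1 i : ℕ))
    (fun y => rep_mul (rep_mu _) (rep_prod univ fun i _ => rep_pow (rep_word (hw i) (hE i)) _))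
  have hev : ∀ (A : Type) [CommRing A] [Algebra ℚ A] (μ : A) (g : Fin k → A) (f : ℕ → MvPolynomial (Fin k) ℤ),
      (∀ j, (f j).totalDegree ≤ D) →
      ∑ y : Fin J × {_e : Fin k → Fin (D + 1) // True}, (((f (y.1 : ℕ)).coeff (ex y.2.1) : ℤ) : A) *
        (μ ^ (y.1 : ℕ) * ∏ i, g i ^ (y.2.1 i : ℕ)) = ∑ j ∈ range J, μ ^ j * MvPolynomial.aeval g (f j) := by
    intro A _ _ μ g f hf
    rw [Fintype.sum_prod_type, sum_range]
    refine sum_congr rfl fun j _ => ?_
    rw [aeval_sum (fun _ => True) (f (j : ℕ)) (hf _) (fun _ _ => trivial) g, mul_sum]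
    exact sum_congr rfl fun e _ => by ring
  refine ⟨B, C, hB, hC, n0, fun n hn f hf hc hsmall A _ _ μ z hz n' hn' => ?_⟩
  have h1 := h n hn (fun y => (f (y.1 : ℕ)).coeff (ex y.2.1)) (fun y => hc _ _) (by
    rw [hev ℂ (2 * Real.pi * Complex.I) (fun i => ((mz (ar n (w i)) : ℝ) : ℂ)) f hf]
    exact hsmall) A μ z hz n' hn'
  rw [← hev A μ (fun i => z (ar n' (w i))) f hf]
  exact h1

end Pool.Agent.Q217.MZ
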