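import Pool.Agent.Q217.MZ.KZ4

/-!
# Powers of `2 π i` and multiple zeta values: bounded heights, arbitrary constants in front (helper217)
-/

set_option autoImplicit false

namespace Pool.Agent.Q217.MZ

open Finset Filter Topology
open Pool.Agent.TH507.WD (mz hr hr_cons hr_nil)
open Pool.Agent.TH507.WG (HP OK ar ar_nil ar_cons st st_OK st_HP st_length OK_cons hr_mul stl)
open Pool.Agent.TH507.DS (stI stI_ar)

lemma rc_lin {κ : Type} [Fintype κ] {R : Type} [CommRing R] (Λ : Finset (List (ℕ × ℕ))) (η : κ → R)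
    (x : κ → List (ℕ × ℕ) → R) (p : List (ℕ × ℕ) × List (ℕ × ℕ)) :
    rc Λ (fun w => ∑ j, η j * x j w) p = ∑ j, η j * rc Λ (x j) p := by
  rw [rc]
  have h : ∀ w ∈ Λ, (∑ j, η j * x j w) * (E w p : R) = ∑ j, η j * (x j w * (E w p : R)) := by
    intro w _
    rw [sum_mul]
    exact sum_congr rfl fun j _ => by ring
  rw [sum_congr rfl h, sum_comm]
  refine sum_congr rfl fun j _ => ?_
  rw [rc, mul_sum]

lemma RC_lin {κ : Type} [Fintype κ] {R : Type} [CommRing R] (Λ : Finset (List (ℕ × ℕ))) (η : κ → R)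
    (x : κ → List (ℕ × ℕ) → R) (f : List (ℕ × ℕ) → R) (v : List (ℕ × ℕ)) :
    RC Λ (fun w => ∑ j, η j * x j w) f v = ∑ j, η j * RC Λ (x j) f v := by
  rw [RC]
  have h : ∀ p ∈ (prs Λ).filter (fun p => p.2 = v), rc Λ (fun w => ∑ j, η j * x j w) p * f p.1 =
      ∑ j, η j * (rc Λ (x j) p * f p.1) := by
    intro p _
    rw [rc_lin, sum_mul]
    exact sum_congr rfl fun j _ => by ring
  rw [sum_congr rfl h, sum_comm]
  refine sum_congr rfl fun j _ => ?_
  rw [RC, mul_sum]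

theorem poly_realfam {κ : Type} [Fintype κ] (η : κ → ℝ) {ℰ : Type} [Fintype ℰ] (M : ℰ → List (List (ℕ × ℕ)))
    (hM : ∀ e, ∀ u ∈ M e, AdmW u) :
    ∃ N : ℕ, 1 ≤ N ∧ ∀ H : ℕ, ∃ n0 : ℕ, ∀ n, n0 ≤ n → ∀ c : κ → ℰ → ℤ, (∀ j e, |c j e| ≤ H) →
      (∃ v, ∑ j, η j * RC (wds M) (fun w => ((cw M (c j) w : ℤ) : ℝ)) cv v ≠ 0) →
      ((N : ℝ) ^ n)⁻¹ < |∑ j, η j * ∑ e, (c j e : ℝ) * ((M e).map fun u => mz (ar n u)).prod| := by
  classical
  have hΛ : ∀ w ∈ wds M, AdmW w := by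
    intro w hw
    obtain ⟨e, he⟩ := mem_wds.1 hw
    exact stl_AdmW (M e) (hM e) w he
  obtain ⟨N, hN, h⟩ := prefix_u (wds M) hΛ
  refine ⟨N, hN, fun H => ?_⟩
  have hfin : Set.Finite {c : κ → ℰ → ℤ | ∀ j e, |c j e| ≤ H} :=
    (Set.Finite.pi' fun _ => Set.Finite.pi' fun _ => Set.finite_Icc (-(H : ℤ)) H).subset
      fun c hc j e => abs_le.1 (hc j e)
  have hone : ∀ c : κ → ℰ → ℤ, ∃ n0 : ℕ,
      (∃ v, ∑ j, η j * RC (wds M) (fun w => ((cw M (c j) w : ℤ) : ℝ)) cv v ≠ 0) → ∀ n, n0 ≤ n →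
      ((N : ℝ) ^ n)⁻¹ < |∑ j, η j * ∑ e, (c j e : ℝ) * ((M e).map fun u => mz (ar n u)).prod| := by
    intro c
    by_cases hc : ∃ v, ∑ j, η j * RC (wds M) (fun w => ((cw M (c j) w : ℤ) : ℝ)) cv v ≠ 0
    · obtain ⟨n0, h0⟩ := h (fun w => ∑ j, η j * ((cw M (c j) w : ℤ) : ℝ)) (by
        obtain ⟨v, hv⟩ := hc
        refine ⟨v, ?_⟩
        rw [RC_lin]
        exact hv)
      refine ⟨n0 + 2, fun _ n hn => ?_⟩
      refine lt_of_lt_of_eq (h0 n (by omega)) ?_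
      congr 1
      have h1 : ∀ j ∈ (univ : Finset κ), η j * ∑ e, (c j e : ℝ) * ((M e).map fun u => mz (ar n u)).prod =
          ∑ w ∈ wds M, η j * ((cw M (c j) w : ℤ) : ℝ) * mz (ar n w) := by
        intro j _
        rw [poly_lin M hM (StF_mz (show 2 ≤ n by omega)) (fun e => (c j e : ℝ)), mul_sum]
        exact sum_congr rfl fun w _ => by rw [cw_cast]; ring
      rw [sum_congr rfl h1, sum_comm]
      exact sum_congr rfl fun w _ => by rw [sum_mul]
    · exact ⟨0, fun hh => absurd hh hc⟩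
  choose n0 hn0 using hone
  obtain ⟨n1, hn1⟩ := (hfin.image n0).bddAbove
  exact ⟨n1, fun n hn c hc hv => hn0 c hv n ((hn1 ⟨c, hc, rfl⟩).trans hn)⟩

section

variable {k : ℕ} (D W : ℕ) (w : Fin k → List (ℕ × ℕ))

/-- the exponents of constant weight at most `W` -/
def PW (e : Fin k → Fin (D + 1)) : Prop := ∑ i, (e i : ℕ) * (cp (w i)).sum.2 ≤ W

noncomputable instance instPW : DecidablePred (PW D W w) := fun _ => Classical.propDecidable _

/-- the words which occur -/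
noncomputable def LW : Finset (List (ℕ × ℕ)) := wds (MP w (PW D W w))

/-- the coefficients of the words -/
noncomputable def xW (f : MvPolynomial (Fin k) ℤ) (v : List (ℕ × ℕ)) : ℤ :=
  cw (MP w (PW D W w)) (fun e => f.coeff (ex e.1)) v

variable {D W w}

lemma LW_adm (hw : ∀ i, AdmW (w i)) : ∀ v ∈ LW D W w, AdmW v := by
  intro v hv
  obtain ⟨e, he⟩ := mem_wds.1 hv
  exact stl_AdmW _ (MP_adm w (PW D W w) hw e) v he

lemma LW_pair (hw : ∀ i, AdmW (w i)) {p : List (ℕ × ℕ) × List (ℕ × ℕ)} (hp : p ∈ prs (LW D W w)) :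
    (∀ x ∈ p.1, x.1 = 0) ∧ AdmW p.1 ∧ p.1.sum.2 ≤ W := by
  obtain ⟨e, h1, h2, h3, -⟩ := MP_pair w (PW D W w) hw hp
  exact ⟨h1, h2, h3.trans e.2⟩

/-- the value of a polynomial of constant weight at most `W` -/
lemma LW_eval (hw : ∀ i, AdmW (w i)) {A : Type} [CommRing A] {z : List ℕ → A} (hz : StI z) {n' : ℕ} (hn' : 2 ≤ n')
    (f : MvPolynomial (Fin k) ℤ) (hf : f.totalDegree ≤ D)
    (hs : ∀ s ∈ f.support, ∑ i, s i * (cp (w i)).sum.2 ≤ W) :
    MvPolynomial.aeval (fun i => z (ar n' (w i))) f = ∑ v ∈ gps (LW D W w),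
      RC (LW D W w) (fun w' => ((xW D W w f w' : ℤ) : A)) (fun u => z (u.map Prod.snd)) v * z (ar n' v) := by
  have hF := StF_of_StI hz hn'
  rw [aeval_F w (PW D W w) hw hF f hf fun e he => hs (ex e) (MvPolynomial.mem_support_iff.2 he)]
  have h1 := expandV hF (LW D W w) (LW_adm hw) (fun w' => ((xW D W w f w' : ℤ) : A))
  refine h1.trans (sum_congr rfl fun v _ => ?_)
  congr 1
  rw [RC, RC]
  refine sum_congr rfl fun p hp => ?_
  rw [ar_const p.1 (LW_pair hw (mem_filter.1 hp).1).1]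

/-- the relations for the coefficients of the growing words -/
theorem kz_core (D W J : ℕ) (w : Fin k → List (ℕ × ℕ)) (hw : ∀ i, AdmW (w i)) :
    ∃ N : ℕ, 1 ≤ N ∧ ∀ H : ℕ, ∃ n0 : ℕ, ∀ n, n0 ≤ n → ∀ f : ℕ → MvPolynomial (Fin k) ℤ,
      (∀ j, (f j).totalDegree ≤ D) → (∀ j s, |(f j).coeff s| ≤ H) →
      (∀ j, ∀ s ∈ (f j).support, ∑ i, s i * (cp (w i)).sum.2 ≤ W) →
      ‖∑ j ∈ range (2 * J), (2 * Real.pi * Complex.I) ^ j *
        MvPolynomial.aeval (fun i => ((mz (ar n (w i)) : ℝ) : ℂ)) (f j)‖ ≤ ((N : ℝ) ^ n)⁻¹ →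
      ∀ v, ∑ j ∈ range (2 * J), (2 * Real.pi * Complex.I) ^ j *
        ((RC (LW D W w) (fun w' => ((xW D W w (f j) w' : ℤ) : ℝ)) cv v : ℝ) : ℂ) = 0 := by
  classical
  obtain ⟨N, hN, h⟩ := poly_realfam (fun j : Fin J => (-4 * Real.pi ^ 2) ^ (j : ℕ)) (MP w (PW D W w))
    (MP_adm w (PW D W w) hw)
  refine ⟨N, hN, fun H => ?_⟩
  obtain ⟨n0, h⟩ := h H
  refine ⟨n0 + 2, fun n hn f hf hc hs hsmall v => ?_⟩
  have hsq : (2 * Real.pi * Complex.I) ^ 2 = ((-4 * Real.pi ^ 2 : ℝ) : ℂ) := by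
    rw [mul_pow, Complex.I_sq]
    push_cast
    ring
  have htot : ∀ Y : ℕ → ℝ, ∑ j ∈ range (2 * J), (2 * Real.pi * Complex.I) ^ j * ((Y j : ℝ) : ℂ) =
      ((∑ j ∈ range J, (-4 * Real.pi ^ 2) ^ j * Y (2 * j) : ℝ) : ℂ) +
        ((2 * Real.pi * ∑ j ∈ range J, (-4 * Real.pi ^ 2) ^ j * Y (2 * j + 1) : ℝ) : ℂ) * Complex.I := by
    intro Y
    rw [sum_even_odd]
    congr 1
    · push_cast
      refine sum_congr rfl fun j _ => ?_
      rw [pow_mul, hsq]
      push_cast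
      ring
    · push_cast
      rw [mul_sum, sum_mul]
      refine sum_congr rfl fun j _ => ?_
      rw [pow_succ, pow_mul, hsq]
      push_cast
      ring
  -- real and imaginary part are small
  set X : ℕ → ℝ := fun j => MvPolynomial.aeval (fun i => mz (ar n (w i))) (f j) with hX
  have hXc : ∀ j, MvPolynomial.aeval (fun i => ((mz (ar n (w i)) : ℝ) : ℂ)) (f j) = ((X j : ℝ) : ℂ) := by
    intro j
    exact MvPolynomial.aeval_algebraMap_apply (A := ℝ) ℂ (fun i => mz (ar n (w i))) (f j)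
  simp only [hXc] at hsmall
  rw [htot X] at hsmall
  set X0 : ℝ := ∑ j ∈ range J, (-4 * Real.pi ^ 2) ^ j * X (2 * j) with hX0
  set X1 : ℝ := ∑ j ∈ range J, (-4 * Real.pi ^ 2) ^ j * X (2 * j + 1) with hX1
  have hre : |X0| ≤ ((N : ℝ) ^ n)⁻¹ := by
    refine le_trans ?_ hsmall
    have h1 := Complex.abs_re_le_norm (((X0 : ℝ) : ℂ) + ((2 * Real.pi * X1 : ℝ) : ℂ) * Complex.I)
    simpa using h1
  have him : |X1| ≤ ((N : ℝ) ^ n)⁻¹ := by
    refine le_trans ?_ hsmall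
    have h1 := Complex.abs_im_le_norm (((X0 : ℝ) : ℂ) + ((2 * Real.pi * X1 : ℝ) : ℂ) * Complex.I)
    have h2 : (((X0 : ℝ) : ℂ) + ((2 * Real.pi * X1 : ℝ) : ℂ) * Complex.I).im = 2 * Real.pi * X1 := by simp
    rw [h2, abs_mul, abs_of_pos (by positivity : 0 < 2 * Real.pi)] at h1
    refine le_trans ?_ h1
    have h3 : (1 : ℝ) ≤ 2 * Real.pi := by
      have := Real.pi_gt_three
      linarith
    nlinarith [abs_nonneg X1]
  -- one parity
  have key : ∀ g : ℕ → ℕ, |∑ j ∈ range J, (-4 * Real.pi ^ 2) ^ j * X (g j)| ≤ ((N : ℝ) ^ n)⁻¹ →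
      ∑ j ∈ range J, (-4 * Real.pi ^ 2) ^ j * RC (LW D W w) (fun w' => ((xW D W w (f (g j)) w' : ℤ) : ℝ)) cv v = 0 := by
    intro g hg
    by_contra hcon
    have h1 := h n (by omega) (fun j e => (f (g j)).coeff (ex e.1)) (fun j e => hc _ _) ⟨v, by
      rw [sum_range] at hcon
      exact hcon⟩
    apply absurd hg (not_le.2 ?_)
    refine lt_of_lt_of_eq h1 ?_
    congr 1
    rw [sum_range]
    refine sum_congr rfl fun j _ => ?_
    congr 1
    simp only [hX]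
    rw [aeval_sum (PW D W w) (f (g j)) (hf _) (fun e he => hs _ (ex e) (MvPolynomial.mem_support_iff.2 he))]
    refine sum_congr rfl fun e _ => ?_
    rw [MP, mono_prod]
  rw [htot, key (fun j => 2 * j) hre, key (fun j => 2 * j + 1) him]
  simp

/-- vanishing at a family -/
lemma kz_zero (hw : ∀ i, AdmW (w i)) {J : ℕ} {f : ℕ → MvPolynomial (Fin k) ℤ} (hf : ∀ j, (f j).totalDegree ≤ D)
    (hs : ∀ j, ∀ s ∈ (f j).support, ∑ i, s i * (cp (w i)).sum.2 ≤ W) {A : Type} [CommRing A] (μ : A) {z : List ℕ → A}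
    (hz : StI z) (hrel : ∀ v, ∑ j ∈ range J, μ ^ j *
      RC (LW D W w) (fun w' => ((xW D W w (f j) w' : ℤ) : A)) (fun u => z (u.map Prod.snd)) v = 0)
    {n' : ℕ} (hn' : 2 ≤ n') : ∑ j ∈ range J, μ ^ j * MvPolynomial.aeval (fun i => z (ar n' (w i))) (f j) = 0 := by
  have h1 : ∀ j ∈ range J, μ ^ j * MvPolynomial.aeval (fun i => z (ar n' (w i))) (f j) =
      ∑ v ∈ gps (LW D W w), μ ^ j *
        RC (LW D W w) (fun w' => ((xW D W w (f j) w' : ℤ) : A)) (fun u => z (u.map Prod.snd)) v * z (ar n' v) := by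
    intro j _
    rw [LW_eval hw hz hn' (f j) (hf j) (hs j), mul_sum]
    exact sum_congr rfl fun v _ => by rw [mul_assoc]
  rw [sum_congr rfl h1, sum_comm]
  refine sum_eq_zero fun v _ => ?_
  rw [← sum_mul, hrel v, zero_mul]

end

/-- the coefficient of a growing word as a combination of values at indices -/
lemma RC_list {A : Type} [CommRing A] (Λ : Finset (List (ℕ × ℕ))) (hΛ : ∀ w ∈ Λ, AdmW w) (x : List (ℕ × ℕ) → ℤ)
    (z : List ℕ → A) (v : List (ℕ × ℕ)) :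
    RC Λ (fun w => (x w : A)) (fun u => z (u.map Prod.snd)) v =
      ∑ l ∈ ((prs Λ).filter fun p => p.2 = v).image (fun p => p.1.map Prod.snd),
        ((rc Λ x (l.map (fun b => ((0 : ℕ), b)), v) : ℤ) : A) * z l := by
  classical
  have hc : ∀ p ∈ (prs Λ).filter (fun p => p.2 = v), p = ((p.1.map Prod.snd).map (fun b => ((0 : ℕ), b)), v) := by
    intro p hp
    obtain ⟨hp, hpv⟩ := mem_filter.1 hp
    obtain ⟨w, hw, hwp⟩ := mem_prs.1 hp
    have h1 := (E_pair (hΛ w hw) hwp).c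
    refine Prod.ext ?_ hpv
    rw [List.map_map]
    conv_lhs => rw [← List.map_id p.1]
    refine List.map_congr_left fun x hx => ?_
    simp only [id, Function.comp]
    exact Prod.ext (h1 x hx) rfl
  rw [sum_image fun p hp p' hp' hpp => ?_]
  · rw [RC]
    refine sum_congr rfl fun p hp => ?_
    rw [rc_cast, ← hc p hp]
  · rw [hc p hp, hc p' hp', hpp]

/-- **reduction to bounded weight** -/
theorem kz_reduction {k : ℕ} (D W J : ℕ) (w : Fin k → List (ℕ × ℕ)) (hw : ∀ i, AdmW (w i)) :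
    ∃ N : ℕ, 1 ≤ N ∧ ∀ H : ℕ, ∃ n0 : ℕ, ∀ n, n0 ≤ n → ∀ f : ℕ → MvPolynomial (Fin k) ℤ,
      (∀ j, (f j).totalDegree ≤ D) → (∀ j s, |(f j).coeff s| ≤ H) →
      (∀ j, ∀ s ∈ (f j).support, ∑ i, s i * (cp (w i)).sum.2 ≤ W) → (∀ j, J ≤ j → f j = 0) →
      ‖∑ j ∈ range J, (2 * Real.pi * Complex.I) ^ j *
        MvPolynomial.aeval (fun i => ((mz (ar n (w i)) : ℝ) : ℂ)) (f j)‖ ≤ ((N : ℝ) ^ n)⁻¹ →
      ∀ (A : Type) [CommRing A] (μ : A) (z : List ℕ → A), StI z →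
        (∀ (T : Finset (ℕ × List ℕ)) (a : ℕ × List ℕ → ℤ),
          (∀ p ∈ T, Pool.Agent.H447R2.MZ.Adm p.2 ∧ p.1 < J ∧ p.2.sum ≤ W) →
          ∑ p ∈ T, (a p : ℂ) * ((2 * Real.pi * Complex.I) ^ p.1 * ((mz p.2 : ℝ) : ℂ)) = 0 →
          ∑ p ∈ T, (a p : A) * (μ ^ p.1 * z p.2) = 0) →
        ∀ n', 2 ≤ n' → ∑ j ∈ range J, μ ^ j * MvPolynomial.aeval (fun i => z (ar n' (w i))) (f j) = 0 := by
  classical
  obtain ⟨N, hN, h⟩ := kz_core D W J w hw
  refine ⟨N, hN, fun H => ?_⟩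
  obtain ⟨n0, h⟩ := h H
  refine ⟨n0, fun n hn f hf hc hs h0 hsmall A _ μ z hz hrel n' hn' => ?_⟩
  have hpad : ∀ {B : Type} [CommRing B] (g : ℕ → B), (∀ j, J ≤ j → g j = 0) →
      ∑ j ∈ range (2 * J), g j = ∑ j ∈ range J, g j := by
    intro B _ g hg
    refine (sum_subset (range_subset_range.2 (by omega)) fun j _ hj => hg j ?_).symm
    rw [mem_range, not_lt] at hj
    exact hj
  have hv := h n hn f hf hc hs (by
    rw [hpad _ fun j hj => by rw [h0 j hj, map_zero, mul_zero]]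
    exact hsmall)
  refine kz_zero (W := W) (D := D) hw hf hs μ hz (fun v => ?_) hn'
  have hv := hv v
  have hx0 : ∀ j, J ≤ j → xW D W w (f j) = 0 := by
    intro j hj
    funext v
    rw [xW, h0 j hj, cw]
    simp
  rw [hpad _ fun j hj => by
    rw [hx0 j hj]
    have : RC (LW D W w) (fun w' => (((0 : List (ℕ × ℕ) → ℤ) w' : ℤ) : ℝ)) cv v = 0 := by
      rw [RC]
      refine sum_eq_zero fun p _ => ?_
      rw [rc]
      simp
    rw [this, Complex.ofReal_zero, mul_zero]] at hv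
  -- the relation
  set LS := ((prs (LW D W w)).filter fun p => p.2 = v).image (fun p => p.1.map Prod.snd) with hLS
  have h1 := hrel (range J ×ˢ LS) (fun p => rc (LW D W w) (xW D W w (f p.1)) (p.2.map (fun b => ((0 : ℕ), b)), v)) (by
    intro p hp
    obtain ⟨hp1, hp2⟩ := mem_product.1 hp
    rw [hLS, mem_image] at hp2
    obtain ⟨q, hq, hqp⟩ := hp2
    obtain ⟨a1, a2, a3⟩ := LW_pair hw (mem_filter.1 hq).1
    rw [← hqp, ← ar_const (n := 2) q.1 a1]
    refine ⟨adm_arA le_rfl _ a2, mem_range.1 hp1, ?_⟩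
    rw [ar_const q.1 a1]
    have h4 : (q.1.map Prod.snd).sum = q.1.sum.2 := by
      clear a1 a2 a3 hq hqp
      induction q.1 with
      | nil => rfl
      | cons x l ih => rw [List.map_cons, List.sum_cons, List.sum_cons, Prod.snd_add, ih]
    rw [h4]
    exact a3) (by
    rw [sum_product, ← hv]
    refine sum_congr rfl fun j _ => ?_
    have h2 := RC_list (LW D W w) (LW_adm hw) (xW D W w (f j)) mz v
    have h3 : RC (LW D W w) (fun w' => ((xW D W w (f j) w' : ℤ) : ℝ)) cv v =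
        RC (LW D W w) (fun w' => ((xW D W w (f j) w' : ℤ) : ℝ)) (fun u => mz (u.map Prod.snd)) v := rfl
    rw [h3, h2]
    push_cast
    rw [mul_sum]
    exact sum_congr rfl fun l _ => by ring)
  rw [sum_product] at h1
  rw [← h1]
  refine sum_congr rfl fun j _ => ?_
  rw [RC_list (LW D W w) (LW_adm hw) (xW D W w (f j)) z v, mul_sum]
  exact sum_congr rfl fun l _ => by ring

end Pool.Agent.Q217.MZ
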