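import Pool.Agent.Q217.MZ.KZ5

/-!
# Powers of `2 π i` and multiple zeta values: isobaric relations, constants of weight at most four (helper217)
-/

set_option autoImplicit false

namespace Pool.Agent.Q217.MZ

open Finset Filter Topology
open Pool.Agent.TH507.WD (mz hr hr_cons hr_nil)
open Pool.Agent.TH507.WG (HP OK ar ar_nil ar_cons st st_OK st_HP st_length OK_cons hr_mul stl)
open Pool.Agent.TH507.DS (stI stI_ar)

/-- the coordinate of a constant with respect to the power of `μ` -/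
def qk (u : List (ℕ × ℕ)) : ℤ :=
  if u = [] then 5760 else if u = [(0, 2)] then -240 else if u = [(0, 4)] then 4 else if u = [(0, 3), (0, 1)] then 1
  else if u = [(0, 2), (0, 2)] then 3 else if u = [(0, 2), (0, 1), (0, 1)] then 4 else 0

/-- the coordinate of a constant with respect to `ζ(3)` -/
def ek (u : List (ℕ × ℕ)) : ℤ := if u = [(0, 3)] ∨ u = [(0, 2), (0, 1)] then 5760 else 0

lemma qk_eval {A : Type} [CommRing A] (μ : A) (z : List ℕ → A) (h0 : z [] = 1) (h2 : 24 * z [2] = -μ ^ 2)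
    (h4 : 1440 * z [4] = μ ^ 4) (h21 : z [2, 1] = z [3]) (h31 : 4 * z [3, 1] = z [4]) (h22 : 4 * z [2, 2] = 3 * z [4])
    (h211 : z [2, 1, 1] = z [4]) {u : List (ℕ × ℕ)} (hc : ∀ x ∈ u, x.1 = 0) (ha : AdmW u) (hs : u.sum.2 ≤ 4)
    {j m : ℕ} (hm : j + u.sum.2 = m) :
    5760 * (μ ^ j * z (u.map Prod.snd)) = (qk u : A) * μ ^ m + (ek u : A) * (μ ^ (m - 3) * z [3]) := by
  subst hm
  rcases const_four hc ha hs with rfl | rfl | rfl | rfl | rfl | rfl | rfl | rfl
  · rw [show qk [] = 5760 by decide, show ek [] = 0 by decide]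
    simp only [Int.cast_ofNat, Int.cast_zero, zero_mul, add_zero, List.map_nil, h0, mul_one, List.sum_nil, Prod.snd_zero]
  · rw [show qk [(0, 2)] = -240 by decide, show ek [(0, 2)] = 0 by decide]
    simp only [Int.cast_neg, Int.cast_ofNat, Int.cast_zero, zero_mul, add_zero]
    show 5760 * (μ ^ j * z [2]) = -240 * μ ^ (j + 2)
    rw [pow_add]
    linear_combination (240 * μ ^ j) * h2
  · rw [show qk [(0, 3)] = 0 by decide, show ek [(0, 3)] = 5760 by decide]
    simp only [Int.cast_ofNat, Int.cast_zero, zero_mul, zero_add]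
    show 5760 * (μ ^ j * z [3]) = 5760 * (μ ^ (j + 3 - 3) * z [3])
    rw [Nat.add_sub_cancel]
  · rw [show qk [(0, 2), (0, 1)] = 0 by decide, show ek [(0, 2), (0, 1)] = 5760 by decide]
    simp only [Int.cast_ofNat, Int.cast_zero, zero_mul, zero_add]
    show 5760 * (μ ^ j * z [2, 1]) = 5760 * (μ ^ (j + 3 - 3) * z [3])
    rw [Nat.add_sub_cancel, h21]
  · rw [show qk [(0, 4)] = 4 by decide, show ek [(0, 4)] = 0 by decide]
    simp only [Int.cast_ofNat, Int.cast_zero, zero_mul, add_zero]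
    show 5760 * (μ ^ j * z [4]) = 4 * μ ^ (j + 4)
    rw [pow_add]
    linear_combination (4 * μ ^ j) * h4
  · rw [show qk [(0, 3), (0, 1)] = 1 by decide, show ek [(0, 3), (0, 1)] = 0 by decide]
    simp only [Int.cast_one, Int.cast_zero, zero_mul, add_zero]
    show 5760 * (μ ^ j * z [3, 1]) = 1 * μ ^ (j + 4)
    rw [pow_add]
    linear_combination (1440 * μ ^ j) * h31 + μ ^ j * h4
  · rw [show qk [(0, 2), (0, 2)] = 3 by decide, show ek [(0, 2), (0, 2)] = 0 by decide]
    simp only [Int.cast_ofNat, Int.cast_zero, zero_mul, add_zero]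
    show 5760 * (μ ^ j * z [2, 2]) = 3 * μ ^ (j + 4)
    rw [pow_add]
    linear_combination (1440 * μ ^ j) * h22 + 3 * μ ^ j * h4
  · rw [show qk [(0, 2), (0, 1), (0, 1)] = 4 by decide, show ek [(0, 2), (0, 1), (0, 1)] = 0 by decide]
    simp only [Int.cast_ofNat, Int.cast_zero, zero_mul, add_zero]
    show 5760 * (μ ^ j * z [2, 1, 1]) = 4 * μ ^ (j + 4)
    rw [pow_add]
    linear_combination (5760 * μ ^ j) * h211 + (4 * μ ^ j) * h4

lemma ek_sum {u : List (ℕ × ℕ)} (h : ek u ≠ 0) : u.sum.2 = 3 := by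
  rw [ek] at h
  by_cases hu : u = [(0, 3)] ∨ u = [(0, 2), (0, 1)]
  · rcases hu with rfl | rfl
    · rfl
    · rfl
  · rw [if_neg hu] at h
    exact absurd rfl h

section

variable {k : ℕ} {D W : ℕ} {w : Fin k → List (ℕ × ℕ)}

/-- the pairs which occur in an isobaric polynomial -/
lemma rc_sum (hw : ∀ i, AdmW (w i)) {f : MvPolynomial (Fin k) ℤ} {S : ℕ × ℕ}
    (hs : ∀ s ∈ f.support, ∑ i, s i • (w i).sum = S) {p : List (ℕ × ℕ) × List (ℕ × ℕ)}
    (hp : rc (LW D W w) (xW D W w f) p ≠ 0) : p.1.sum + p.2.sum = S := by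
  classical
  rw [rc] at hp
  obtain ⟨v, hv, hvp⟩ := exists_ne_zero_of_sum_ne_zero hp
  have hx : xW D W w f v ≠ 0 := left_ne_zero_of_mul hvp
  have hE : E v p ≠ 0 := by
    have := right_ne_zero_of_mul hvp
    exact_mod_cast this
  rw [(E_pair (LW_adm hw v hv) hE).s]
  rw [xW, cw] at hx
  obtain ⟨e, _, he⟩ := exists_ne_zero_of_sum_ne_zero hx
  have h1 : f.coeff (ex e.1) ≠ 0 := left_ne_zero_of_mul he
  have h2 : (stl (MP w (PW D W w) e)).countP (· = v) ≠ 0 := by
    have := right_ne_zero_of_mul he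
    exact_mod_cast this
  have h3 : v ∈ stl (MP w (PW D W w) e) := by
    by_contra hcon
    apply h2
    rw [List.countP_eq_zero]
    intro a ha
    simp only [decide_eq_true_eq]
    rintro rfl
    exact hcon ha
  rw [stl_sum _ v h3, MP, mono_sum]
  exact hs (ex e.1) (MvPolynomial.mem_support_iff.2 h1)

end

/-- **isobaric relations, constants of weight at most four** -/
theorem kz_four {k : ℕ} (S : ℕ × ℕ) (D J : ℕ) (w : Fin k → List (ℕ × ℕ)) (hw : ∀ i, AdmW (w i)) :
    ∃ N : ℕ, 1 ≤ N ∧ ∀ H : ℕ, ∃ n0 : ℕ, ∀ n, n0 ≤ n → ∀ f : ℕ → MvPolynomial (Fin k) ℤ,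
      (∀ j, (f j).totalDegree ≤ D) → (∀ j s, |(f j).coeff s| ≤ H) →
      (∀ j, ∀ s ∈ (f j).support, ∑ i, s i * (cp (w i)).sum.2 ≤ 4 ∧ ∑ i, s i • (w i).sum + (0, j) = S) →
      (∀ j, J ≤ j → f j = 0) →
      ‖∑ j ∈ range J, (2 * Real.pi * Complex.I) ^ j *
        MvPolynomial.aeval (fun i => ((mz (ar n (w i)) : ℝ) : ℂ)) (f j)‖ ≤ ((N : ℝ) ^ n)⁻¹ →
      ∀ (A : Type) [CommRing A] [Algebra ℚ A] (μ : A) (z : List ℕ → A), StI z → 24 * z [2] = -μ ^ 2 →
        1440 * z [4] = μ ^ 4 → z [2, 1] = z [3] → 4 * z [3, 1] = z [4] → 4 * z [2, 2] = 3 * z [4] →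
        z [2, 1, 1] = z [4] →
        ∀ n', 2 ≤ n' → ∑ j ∈ range J, μ ^ j * MvPolynomial.aeval (fun i => z (ar n' (w i))) (f j) = 0 := by
  classical
  obtain ⟨N, hN, h⟩ := kz_core D 4 J w hw
  refine ⟨N, hN, fun H => ?_⟩
  obtain ⟨n0, h⟩ := h H
  refine ⟨n0, fun n hn f hf hc hs h0 hsmall A _ _ μ z hz h2 h4 h21 h31 h22 h211 n' hn' => ?_⟩
  have hpad : ∀ {B : Type} [CommRing B] (g : ℕ → B), (∀ j, J ≤ j → g j = 0) →
      ∑ j ∈ range (2 * J), g j = ∑ j ∈ range J, g j := by
    intro B _ g hg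
    refine (sum_subset (range_subset_range.2 (by omega)) fun j _ hj => hg j ?_).symm
    rw [mem_range, not_lt] at hj
    exact hj
  have hv := h n hn f hf hc (fun j s hs' => (hs j s hs').1) (by
    rw [hpad _ fun j hj => by rw [h0 j hj, map_zero, mul_zero]]
    exact hsmall)
  refine kz_zero (W := 4) (D := D) hw hf (fun j s hs' => (hs j s hs').1) μ hz (fun v => ?_) hn'
  have hv := hv v
  have hx0 : ∀ j, J ≤ j → xW D 4 w (f j) = 0 := by
    intro j hj
    funext v
    rw [xW, h0 j hj, cw]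
    simp
  rw [hpad _ fun j hj => by
    rw [hx0 j hj]
    have : RC (LW D 4 w) (fun w' => (((0 : List (ℕ × ℕ) → ℤ) w' : ℤ) : ℝ)) cv v = 0 := by
      rw [RC]
      refine sum_eq_zero fun p _ => ?_
      rw [rc]
      simp
    rw [this, Complex.ofReal_zero, mul_zero]] at hv
  set m : ℕ := S.2 - v.sum.2 with hm
  set Q := (prs (LW D 4 w)).filter (fun p => p.2 = v) with hQ
  set a : ℤ := ∑ j ∈ range J, ∑ p ∈ Q, rc (LW D 4 w) (xW D 4 w (f j)) p * qk p.1 with ha
  set b : ℤ := ∑ j ∈ range J, ∑ p ∈ Q, rc (LW D 4 w) (xW D 4 w (f j)) p * ek p.1 with hb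
  have hjm : ∀ j, ∀ p ∈ Q, rc (LW D 4 w) (xW D 4 w (f j)) p ≠ 0 → j + p.1.sum.2 = m := by
    intro j p hp hne
    rw [hQ, mem_filter] at hp
    have hsup : (f j).support.Nonempty := by
      rw [nonempty_iff_ne_empty]
      intro hcon
      rw [MvPolynomial.support_eq_empty] at hcon
      apply hne
      rw [rc]
      refine sum_eq_zero fun v' _ => ?_
      rw [xW, hcon, cw]
      simp
    obtain ⟨s0, hs0⟩ := hsup
    have h5 := (hs j s0 hs0).2
    have h6 := rc_sum (S := ∑ i, s0 i • (w i).sum) hw (fun s hs' => by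
      have h7 := (hs j s hs').2
      rw [← h5] at h7
      exact add_right_cancel h7) hne
    rw [← h6, hp.2] at h5
    have h8 := congrArg Prod.snd h5
    simp only [Prod.snd_add] at h8
    omega
  have hgen : ∀ (B : Type) [CommRing B] (ν : B) (y : List ℕ → B), y [] = 1 → 24 * y [2] = -ν ^ 2 →
      1440 * y [4] = ν ^ 4 → y [2, 1] = y [3] → 4 * y [3, 1] = y [4] → 4 * y [2, 2] = 3 * y [4] →
      y [2, 1, 1] = y [4] →
      5760 * ∑ j ∈ range J, ν ^ j * RC (LW D 4 w) (fun w' => ((xW D 4 w (f j) w' : ℤ) : B))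
        (fun u => y (u.map Prod.snd)) v = (a : B) * ν ^ m + (b : B) * (ν ^ (m - 3) * y [3]) := by
    intro B _ ν y g0 g2 g4 g21 g31 g22 g211
    rw [mul_sum, ha, hb]
    push_cast
    rw [sum_mul, sum_mul, ← sum_add_distrib]
    refine sum_congr rfl fun j _ => ?_
    rw [RC, mul_sum, mul_sum, sum_mul, sum_mul, ← sum_add_distrib]
    refine sum_congr rfl fun p hp => ?_
    rw [rc_cast]
    by_cases hne : rc (LW D 4 w) (xW D 4 w (f j)) p = 0
    · rw [hne]
      simp
    · obtain ⟨a1, a2, a3⟩ := LW_pair hw (mem_filter.1 hp).1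
      have h5 := qk_eval ν y g0 g2 g4 g21 g31 g22 g211 a1 a2 a3 (hjm j p hp hne)
      linear_combination ((rc (LW D 4 w) (xW D 4 w (f j)) p : ℤ) : B) * h5
  -- the numbers `a` and `b` vanish
  have hpi : (Real.pi : ℂ) ≠ 0 := by exact_mod_cast Real.pi_ne_zero
  have hμ0 : (2 * Real.pi * Complex.I : ℂ) ≠ 0 := mul_ne_zero (mul_ne_zero two_ne_zero hpi) Complex.I_ne_zero
  have hreal : (a : ℂ) * (2 * Real.pi * Complex.I) ^ m +
      (b : ℂ) * ((2 * Real.pi * Complex.I) ^ (m - 3) * ((mz [3] : ℝ) : ℂ)) = 0 := by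
    have h5 := hgen ℂ (2 * Real.pi * Complex.I) (fun l => ((mz l : ℝ) : ℂ)) (by simp only [StI_mz.1, Complex.ofReal_one])
      (by
        rw [mz_two_val, mul_pow, Complex.I_sq]
        push_cast
        ring)
      (by
        rw [mz_four_val, mul_pow, show Complex.I ^ 4 = 1 by rw [show 4 = 2 * 2 by norm_num, pow_mul, Complex.I_sq]; norm_num]
        push_cast
        ring)
      (by rw [mz_21])
      (by
        rw [← mz_31]
        push_cast
        ring)
      (by
        have := congrArg (fun t : ℝ => (t : ℂ)) mz_22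
        push_cast at this
        exact this)
      (by rw [mz_211])
    rw [← h5]
    have h6 : ∑ j ∈ range J, (2 * Real.pi * Complex.I) ^ j *
        RC (LW D 4 w) (fun w' => ((xW D 4 w (f j) w' : ℤ) : ℂ)) (fun u => (fun l => ((mz l : ℝ) : ℂ)) (u.map Prod.snd)) v =
        0 := by
      rw [← hv]
      refine sum_congr rfl fun j _ => ?_
      congr 1
      rw [RC, RC]
      push_cast
      refine sum_congr rfl fun p _ => ?_
      rw [rc_cast, rc_cast, cv]
      push_cast
      rfl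
    rw [h6, mul_zero]
  have hz3 : mz [3] ≠ 0 := zb_ne 3 (by norm_num)
  have hab : a = 0 ∧ b = 0 := by
    rcases Nat.lt_or_ge m 3 with hm3 | hm3
    · have hb0 : b = 0 := by
        rw [hb]
        refine sum_eq_zero fun j _ => sum_eq_zero fun p hp => ?_
        by_contra hcon
        have h5 := hjm j p hp (left_ne_zero_of_mul hcon)
        have h6 := ek_sum (right_ne_zero_of_mul hcon)
        omega
      refine ⟨?_, hb0⟩
      rw [hb0, Int.cast_zero, zero_mul, add_zero] at hreal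
      rcases mul_eq_zero.1 hreal with h5 | h5
      · exact_mod_cast h5
      · exact absurd h5 (pow_ne_zero _ hμ0)
    · obtain ⟨m', hm'⟩ := Nat.exists_eq_add_of_le hm3
      rw [hm', show 3 + m' - 3 = m' by omega] at hreal
      have h5 : (2 * Real.pi * Complex.I) ^ m' * ((a : ℂ) * (2 * Real.pi * Complex.I) ^ 3 +
          (b : ℂ) * ((mz [3] : ℝ) : ℂ)) = 0 := by
        rw [← hreal]
        ring
      have h6 : (a : ℂ) * (2 * Real.pi * Complex.I) ^ 3 + (b : ℂ) * ((mz [3] : ℝ) : ℂ) = 0 :=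
        (mul_eq_zero.1 h5).resolve_left (pow_ne_zero _ hμ0)
      have h7 : (2 * Real.pi * Complex.I : ℂ) ^ 3 = ((-(8 * Real.pi ^ 3) : ℝ) : ℂ) * Complex.I := by
        have : Complex.I ^ 3 = -Complex.I := by
          rw [pow_succ, Complex.I_sq]
          ring
        rw [mul_pow, this]
        push_cast
        ring
      rw [h7] at h6
      have hre := congrArg Complex.re h6
      have him := congrArg Complex.im h6
      simp only [Complex.add_re, Complex.add_im, Complex.mul_re, Complex.mul_im, Complex.ofReal_re, Complex.ofReal_im,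
        Complex.I_re, Complex.I_im, Complex.intCast_re, Complex.intCast_im, Complex.zero_re, Complex.zero_im,
        mul_zero, mul_one, zero_mul, sub_zero, add_zero, zero_add, sub_self] at hre him
      constructor
      · rcases mul_eq_zero.1 him with h8 | h8
        · exact_mod_cast h8
        · exfalso
          have := Real.pi_pos
          have h9 : 0 < 8 * Real.pi ^ 3 := by positivity
          linarith
      · rcases mul_eq_zero.1 hre with h8 | h8
        · exact_mod_cast h8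
        · exact absurd h8 hz3
  have h5 := hgen A μ z hz.1 h2 h4 h21 h31 h22 h211
  rw [hab.1, hab.2, Int.cast_zero, zero_mul, zero_mul, add_zero] at h5
  have hd1 : algebraMap ℚ A (1 / 5760) * 5760 = 1 := by
    rw [← map_ofNat (algebraMap ℚ A) 5760, ← map_mul]
    norm_num
  have h9 := congrArg (fun t => algebraMap ℚ A (1 / 5760) * t) h5
  simp only [mul_zero] at h9
  rwa [← mul_assoc, hd1, one_mul] at h9

end Pool.Agent.Q217.MZ
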