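import Pool.Agent.Q217.MZ.DoubleExp
import Pool.Agent.H387R3.ZF.W4a

/-!
# Patterns with constant letters in front: decomposition into products (helper217)

Every admissible pattern is an integer combination of stuffle products of a constant pattern and a pattern whose first
letter grows.
-/

set_option autoImplicit false

namespace Pool.Agent.Q217.MZ

open Finset Filter Topology
open Pool.Agent.TH507.WD (mz hr hr_cons hr_nil)
open Pool.Agent.TH507.WG (HP OK ar ar_nil ar_cons st st_OK st_length OK_cons hr_mul)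

/-- the constant letters in front -/
def cp : List (ℕ × ℕ) → List (ℕ × ℕ)
  | [] => []
  | x :: l => if x.1 = 0 then x :: cp l else []

/-- the part from the first growing letter on -/
def gp : List (ℕ × ℕ) → List (ℕ × ℕ)
  | [] => []
  | x :: l => if x.1 = 0 then gp l else x :: l

lemma cp_zero {x : ℕ × ℕ} (l : List (ℕ × ℕ)) (h : x.1 = 0) : cp (x :: l) = x :: cp l := by rw [cp, if_pos h]
lemma cp_pos {x : ℕ × ℕ} (l : List (ℕ × ℕ)) (h : x.1 ≠ 0) : cp (x :: l) = [] := by rw [cp, if_neg h]
lemma gp_zero {x : ℕ × ℕ} (l : List (ℕ × ℕ)) (h : x.1 = 0) : gp (x :: l) = gp l := by rw [gp, if_pos h]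
lemma gp_pos {x : ℕ × ℕ} (l : List (ℕ × ℕ)) (h : x.1 ≠ 0) : gp (x :: l) = x :: l := by rw [gp, if_neg h]

lemma cp_append_gp (w : List (ℕ × ℕ)) : cp w ++ gp w = w := by
  induction w with
  | nil => rfl
  | cons x l ih =>
    by_cases h : x.1 = 0
    · rw [cp_zero l h, gp_zero l h, List.cons_append, ih]
    · rw [cp_pos l h, gp_pos l h, List.nil_append]

lemma cp_const (w : List (ℕ × ℕ)) : ∀ x ∈ cp w, x.1 = 0 := by
  induction w with
  | nil => intro x hx; exact absurd hx List.not_mem_nil
  | cons y l ih =>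
    intro x hx
    by_cases h : y.1 = 0
    · rw [cp_zero l h, List.mem_cons] at hx
      rcases hx with rfl | hx
      · exact h
      · exact ih x hx
    · rw [cp_pos l h] at hx
      exact absurd hx List.not_mem_nil

lemma gp_HP (w : List (ℕ × ℕ)) : HP (gp w) := by
  induction w with
  | nil => exact trivial
  | cons y l ih =>
    by_cases h : y.1 = 0
    · rw [gp_zero l h]
      exact ih
    · rw [gp_pos l h]
      exact Nat.one_le_iff_ne_zero.2 h

lemma cp_len (w : List (ℕ × ℕ)) : (cp w).length ≤ w.length := by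
  have h := congrArg List.length (cp_append_gp w)
  rw [List.length_append] at h
  omega

/-- the words in the stuffle product `u * v` other than `u ++ v` -/
def ot : List (ℕ × ℕ) → List (ℕ × ℕ) → List (List (ℕ × ℕ))
  | [], _ => []
  | _ :: _, [] => []
  | x :: u, y :: v => (ot u (y :: v)).map (x :: ·) ++ (st (x :: u) v).map (y :: ·) ++ (st u v).map ((x + y) :: ·)

lemma st_split {A : Type} [AddCommMonoid A] (u : List (ℕ × ℕ)) : ∀ (v : List (ℕ × ℕ)) (F : List (ℕ × ℕ) → A),
    ((st u v).map F).sum = F (u ++ v) + ((ot u v).map F).sum := by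
  induction u with
  | nil =>
    intro v F
    rw [st, ot]
    simp
  | cons x u ih =>
    intro v F
    cases v with
    | nil =>
      rw [st, ot]
      simp
    | cons y v =>
      rw [st, ot]
      simp only [List.map_append, List.sum_append, List.map_map]
      have h := ih (y :: v) (F ∘ (x :: ·))
      rw [h]
      simp only [Function.comp, List.cons_append]
      rw [add_assoc, add_assoc, add_assoc]

lemma ot_st (u : List (ℕ × ℕ)) : ∀ v, ∀ o ∈ ot u v, o ∈ st u v := by
  induction u with
  | nil => intro v o ho; rw [ot] at ho; exact absurd ho List.not_mem_nil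
  | cons x u ih =>
    intro v o ho
    cases v with
    | nil => rw [ot] at ho; exact absurd ho List.not_mem_nil
    | cons y v =>
      rw [ot, List.mem_append, List.mem_append, List.mem_map] at ho
      rw [st, List.mem_append, List.mem_append, List.mem_map]
      rcases ho with (⟨o', ho', h⟩ | h) | h
      · exact Or.inl (Or.inl ⟨o', ih _ o' ho', h⟩)
      · exact Or.inl (Or.inr h)
      · exact Or.inr h

lemma ot_cp (u : List (ℕ × ℕ)) : (∀ x ∈ u, x.1 = 0) → ∀ v, HP v → ∀ o ∈ ot u v, (cp o).length < u.length := by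
  induction u with
  | nil => intro _ v _ o ho; rw [ot] at ho; exact absurd ho List.not_mem_nil
  | cons x u ih =>
    intro hu v hv o ho
    cases v with
    | nil => rw [ot] at ho; exact absurd ho List.not_mem_nil
    | cons y v =>
      have hy : 1 ≤ y.1 := hv
      rw [ot, List.mem_append, List.mem_append, List.mem_map, List.mem_map, List.mem_map] at ho
      rcases ho with (⟨o', ho', rfl⟩ | ⟨o', ho', rfl⟩) | ⟨o', ho', rfl⟩
      · rw [cp_zero o' (hu x List.mem_cons_self)]
        have := ih (fun z hz => hu z (List.mem_cons_of_mem _ hz)) (y :: v) hv o' ho'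
        simp only [List.length_cons]
        omega
      · rw [cp_pos o' (by omega)]
        simp
      · rw [cp_pos o' (by rw [Prod.fst_add]; omega)]
        simp

/-- the decomposition, with fuel -/
noncomputable def D : ℕ → List (ℕ × ℕ) → ((List (ℕ × ℕ) × List (ℕ × ℕ)) →₀ ℤ)
  | 0, w => Finsupp.single (cp w, gp w) 1
  | j + 1, w => Finsupp.single (cp w, gp w) 1 - ((ot (cp w) (gp w)).map (D j)).sum

/-- the sum over the words in a stuffle product -/
def stSum {A : Type} [AddCommMonoid A] (F : List (ℕ × ℕ) → A) (p : List (ℕ × ℕ) × List (ℕ × ℕ)) : A :=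
  ((st p.1 p.2).map F).sum

lemma D_spec' {A : Type} [AddCommGroup A] (F : List (ℕ × ℕ) → A) : ∀ j w, (cp w).length ≤ j →
    Finsupp.linearCombination ℤ (stSum F) (D j w) = F w := by
  intro j
  induction j with
  | zero =>
    intro w hw
    have h0 : cp w = [] := List.length_eq_zero_iff.1 (by omega)
    rw [D, Finsupp.linearCombination_single, one_smul, stSum, st_split, cp_append_gp, h0, ot]
    simp
  | succ j ih =>
    intro w hw
    rw [D, map_sub, Finsupp.linearCombination_single, one_smul, stSum, st_split, cp_append_gp, map_list_sum,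
      List.map_map]
    have h : ∀ o ∈ ot (cp w) (gp w), (⇑(Finsupp.linearCombination ℤ (stSum F)) ∘ D j) o = F o := by
      intro o ho
      have := ot_cp (cp w) (cp_const w) (gp w) (gp_HP w) o ho
      exact ih o (by omega)
    rw [List.map_congr_left h, add_sub_cancel_right]

/-- admissible patterns: the letter `(0, 0)` is excluded, a constant first letter is at least two -/
def AdmW (w : List (ℕ × ℕ)) : Prop := OK w ∧ ∀ x l, w = x :: l → x.1 = 0 → 2 ≤ x.2

lemma AdmW_of_HP {w : List (ℕ × ℕ)} (h1 : HP w) (h2 : OK w) : AdmW w := by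
  refine ⟨h2, fun x l h hx => ?_⟩
  subst h
  have : 1 ≤ x.1 := h1
  omega

lemma AdmW_nil : AdmW [] := AdmW_of_HP trivial fun x hx => absurd hx List.not_mem_nil

lemma st_AdmW (u v : List (ℕ × ℕ)) (hu : AdmW u) (hv : AdmW v) : ∀ o ∈ st u v, AdmW o := by
  intro o ho
  refine ⟨st_OK u v hu.1 hv.1 o ho, fun x l h hx => ?_⟩
  subst h
  rcases u with _ | ⟨a, u⟩
  · rw [st, List.mem_singleton] at ho
    exact hv.2 x l ho.symm hx
  · rcases v with _ | ⟨b, v⟩
    · rw [st, List.mem_singleton] at ho
      exact hu.2 x l ho.symm hx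
    · rw [st, List.mem_append, List.mem_append, List.mem_map, List.mem_map, List.mem_map] at ho
      rcases ho with (⟨o', _, h⟩ | ⟨o', _, h⟩) | ⟨o', _, h⟩
      · have h1 := (List.cons.inj h).1
        rw [← h1] at hx ⊢
        exact hu.2 a u rfl hx
      · have h1 := (List.cons.inj h).1
        rw [← h1] at hx ⊢
        exact hv.2 b v rfl hx
      · have h1 := (List.cons.inj h).1
        rw [← h1] at hx ⊢
        rw [Prod.fst_add] at hx
        rw [Prod.snd_add]
        have := hu.2 a u rfl (by omega)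
        omega

lemma ot_pre (u : List (ℕ × ℕ)) : (∀ x ∈ u, x.1 = 0) → ∀ v, HP v → ∀ o ∈ ot u v, cp o <+: u := by
  induction u with
  | nil => intro _ v _ o ho; rw [ot] at ho; exact absurd ho List.not_mem_nil
  | cons x u ih =>
    intro hu v hv o ho
    cases v with
    | nil => rw [ot] at ho; exact absurd ho List.not_mem_nil
    | cons y v =>
      have hy : 1 ≤ y.1 := hv
      rw [ot, List.mem_append, List.mem_append, List.mem_map, List.mem_map, List.mem_map] at ho
      rcases ho with (⟨o', ho', rfl⟩ | ⟨o', ho', rfl⟩) | ⟨o', ho', rfl⟩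
      · rw [cp_zero o' (hu x List.mem_cons_self)]
        exact List.cons_prefix_cons.2 ⟨rfl, ih (fun z hz => hu z (List.mem_cons_of_mem _ hz)) (y :: v) hv o' ho'⟩
      · rw [cp_pos o' (by omega)]
        exact List.nil_prefix
      · rw [cp_pos o' (by rw [Prod.fst_add]; omega)]
        exact List.nil_prefix

lemma cpw_st (u v : List (ℕ × ℕ)) : ∀ o ∈ st u v, (cp o).sum.2 ≤ (cp u).sum.2 + (cp v).sum.2 := by
  induction u, v using st.induct with
  | case1 v =>
    intro w hw
    rw [st, List.mem_singleton] at hw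
    subst hw
    simp
  | case2 x u =>
    intro w hw
    rw [st, List.mem_singleton] at hw
    subst hw
    simp
  | case3 x u y v ih1 ih2 ih3 =>
    intro w hw
    rw [st, List.mem_append, List.mem_append, List.mem_map, List.mem_map, List.mem_map] at hw
    rcases hw with (⟨w', hw', rfl⟩ | ⟨w', hw', rfl⟩) | ⟨w', hw', rfl⟩
    · have := ih1 w' hw'
      by_cases hx : x.1 = 0
      · rw [cp_zero w' hx, cp_zero u hx]
        simp only [List.sum_cons, Prod.snd_add]
        omega
      · rw [cp_pos w' hx]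
        simp
    · have := ih2 w' hw'
      by_cases hy : y.1 = 0
      · rw [cp_zero w' hy, cp_zero v hy]
        simp only [List.sum_cons, Prod.snd_add]
        omega
      · rw [cp_pos w' hy]
        simp
    · have := ih3 w' hw'
      by_cases hxy : (x + y).1 = 0
      · rw [cp_zero w' hxy]
        rw [Prod.fst_add] at hxy
        rw [cp_zero u (show x.1 = 0 by omega), cp_zero v (show y.1 = 0 by omega)]
        simp only [List.sum_cons, Prod.snd_add]
        omega
      · rw [cp_pos w' hxy]
        simp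

lemma OK_cp {w : List (ℕ × ℕ)} (h : OK w) : OK (cp w) := fun x hx =>
  h x (by rw [← cp_append_gp w]; exact List.mem_append_left _ hx)

lemma OK_gp {w : List (ℕ × ℕ)} (h : OK w) : OK (gp w) := fun x hx =>
  h x (by rw [← cp_append_gp w]; exact List.mem_append_right _ hx)

lemma AdmW_cp {w : List (ℕ × ℕ)} (h : AdmW w) : AdmW (cp w) := by
  refine ⟨OK_cp h.1, fun x l hx hx0 => ?_⟩
  cases w with
  | nil => exact absurd hx (by simp [cp])
  | cons y w =>
    by_cases hy : y.1 = 0
    · rw [cp_zero w hy] at hx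
      have h1 := (List.cons.inj hx).1
      rw [← h1] at hx0 ⊢
      exact h.2 y w rfl hx0
    · rw [cp_pos w hy] at hx
      exact absurd hx (by simp)

lemma AdmW_gp {w : List (ℕ × ℕ)} (h : AdmW w) : AdmW (gp w) := AdmW_of_HP (gp_HP w) (OK_gp h.1)

lemma st_sum (u v : List (ℕ × ℕ)) : ∀ o ∈ st u v, o.sum = u.sum + v.sum := by
  induction u, v using st.induct with
  | case1 v =>
    intro w hw
    rw [st, List.mem_singleton] at hw
    subst hw
    simp
  | case2 x u =>
    intro w hw
    rw [st, List.mem_singleton] at hw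
    subst hw
    simp
  | case3 x u y v ih1 ih2 ih3 =>
    intro w hw
    rw [st, List.mem_append, List.mem_append, List.mem_map, List.mem_map, List.mem_map] at hw
    rcases hw with (⟨w', hw', rfl⟩ | ⟨w', hw', rfl⟩) | ⟨w', hw', rfl⟩
    · have := ih1 w' hw'
      simp only [List.sum_cons] at this ⊢
      rw [this]
      abel
    · have := ih2 w' hw'
      simp only [List.sum_cons] at this ⊢
      rw [this]
      abel
    · have := ih3 w' hw'
      simp only [List.sum_cons] at this ⊢
      rw [this]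
      abel

lemma cp_gp_sum (w : List (ℕ × ℕ)) : (cp w).sum + (gp w).sum = w.sum := by
  rw [← List.sum_append, cp_append_gp]

lemma cp_gp_len (w : List (ℕ × ℕ)) : (cp w).length + (gp w).length = w.length := by
  rw [← List.length_append, cp_append_gp]

/-- induction principle for the pairs in the decomposition -/
lemma D_ind (P : List (ℕ × ℕ) → List (ℕ × ℕ) × List (ℕ × ℕ) → Prop) (h1 : ∀ w, AdmW w → P w (cp w, gp w))
    (h2 : ∀ w, AdmW w → ∀ o ∈ ot (cp w) (gp w), ∀ p, P o p → P w p) :
    ∀ j w, AdmW w → ∀ p, D j w p ≠ 0 → P w p := by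
  classical
  intro j
  induction j with
  | zero =>
    intro w hw p hp
    rw [D, Finsupp.single_apply] at hp
    have : (cp w, gp w) = p := by
      by_contra hcon
      rw [if_neg hcon] at hp
      exact hp rfl
    rw [← this]
    exact h1 w hw
  | succ j ih =>
    intro w hw p hp
    by_cases hpw : (cp w, gp w) = p
    · rw [← hpw]
      exact h1 w hw
    · rw [D, Finsupp.sub_apply, Finsupp.single_apply, if_neg hpw, zero_sub, neg_ne_zero] at hp
      have hex : ∃ o ∈ ot (cp w) (gp w), D j o p ≠ 0 := by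
        by_contra hcon
        push Not at hcon
        apply hp
        have h3 : (((ot (cp w) (gp w)).map (D j)).sum) p = (((ot (cp w) (gp w)).map (D j)).map (fun f => f p)).sum := by
          exact map_list_sum (Finsupp.applyAddHom p) _
        rw [h3, List.map_map]
        have h4 : ∀ o ∈ ot (cp w) (gp w), ((fun f : (List (ℕ × ℕ) × List (ℕ × ℕ)) →₀ ℤ => f p) ∘ D j) o = 0 :=
          fun o ho => hcon o ho
        rw [List.map_congr_left h4]
        simp
      obtain ⟨o, ho, hop⟩ := hex
      have hoA : AdmW o := st_AdmW _ _ (AdmW_cp hw) (AdmW_gp hw) o (ot_st _ _ o ho)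
      exact h2 w hw o ho p (ih o hoA p hop)

/-- the pairs in the decomposition -/
structure Pair (w : List (ℕ × ℕ)) (p : List (ℕ × ℕ) × List (ℕ × ℕ)) : Prop where
  c : ∀ x ∈ p.1, x.1 = 0
  a1 : AdmW p.1
  h : HP p.2
  a2 : OK p.2
  s : p.1.sum + p.2.sum = w.sum
  l : p.1.length + p.2.length ≤ w.length
  q : p.1 <+: cp w

lemma D_pair (j : ℕ) (w : List (ℕ × ℕ)) (hw : AdmW w) (p : List (ℕ × ℕ) × List (ℕ × ℕ)) (hp : D j w p ≠ 0) :
    Pair w p := by
  refine D_ind Pair (fun w hw => ⟨cp_const w, AdmW_cp hw, gp_HP w, OK_gp hw.1, cp_gp_sum w, (cp_gp_len w).le,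
    List.prefix_rfl⟩)
    (fun w hw o ho p h => ?_) j w hw p hp
  have hst := ot_st _ _ o ho
  refine ⟨h.c, h.a1, h.h, h.a2, ?_, ?_, ?_⟩
  · rw [h.s, st_sum _ _ o hst, cp_gp_sum]
  · have h1 := st_length _ _ o hst
    have h2 := cp_gp_len w
    have h3 := h.l
    omega
  · exact h.q.trans (ot_pre _ (cp_const w) _ (gp_HP w) o ho)

lemma prefix_sum {u v : List (ℕ × ℕ)} (h : u <+: v) : u.sum.2 ≤ v.sum.2 := by
  obtain ⟨t, rfl⟩ := h
  rw [List.sum_append, Prod.snd_add]
  omega

/-- the decomposition -/
noncomputable def E (w : List (ℕ × ℕ)) : (List (ℕ × ℕ) × List (ℕ × ℕ)) →₀ ℤ := D w.length w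

lemma E_spec {A : Type} [AddCommGroup A] (F : List (ℕ × ℕ) → A) (w : List (ℕ × ℕ)) :
    Finsupp.linearCombination ℤ (stSum F) (E w) = F w := D_spec' F _ _ (cp_len w)

lemma E_pair {w : List (ℕ × ℕ)} (hw : AdmW w) {p : List (ℕ × ℕ) × List (ℕ × ℕ)} (hp : E w p ≠ 0) : Pair w p :=
  D_pair _ w hw p hp

/-! ### values -/

lemma adm_arA {n : ℕ} (hn : 2 ≤ n) (w : List (ℕ × ℕ)) (hw : AdmW w) : Pool.Agent.H447R2.MZ.Adm (ar n w) := by
  refine ⟨fun a ha => ?_, fun a t h => ?_⟩
  · rw [ar, List.mem_map] at ha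
    obtain ⟨x, hx, rfl⟩ := ha
    rcases Nat.eq_zero_or_pos x.1 with h0 | h0
    · have := hw.1 x hx h0
      omega
    · have : 1 * n ≤ x.1 * n := Nat.mul_le_mul_right _ h0
      omega
  · cases w with
    | nil => rw [ar_nil] at h; exact absurd h (by simp)
    | cons x l =>
      rw [ar_cons] at h
      have h1 := (List.cons.inj h).1
      rcases Nat.eq_zero_or_pos x.1 with h0 | h0
      · have := hw.2 x l rfl h0
        omega
      · have h2 : 1 * n ≤ x.1 * n := Nat.mul_le_mul_right _ h0
        omega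

lemma tendsto_arA {n : ℕ} (hn : 2 ≤ n) (w : List (ℕ × ℕ)) (hw : AdmW w) :
    Tendsto (fun N => hr (ar n w) (N + 1)) atTop (𝓝 (mz (ar n w))) := by
  have h1 := Pool.Agent.H447R2.MZ.tendsto_H _ (adm_arA hn w hw)
  rw [← mz_val _ (adm_arA hn w hw)] at h1
  refine h1.congr fun N => ?_
  rw [hr_H]

/-- the stuffle product of admissible patterns -/
lemma mz_mulA {n : ℕ} (hn : 2 ≤ n) (u v : List (ℕ × ℕ)) (hu : AdmW u) (hv : AdmW v) :
    stSum (fun w => mz (ar n w)) (u, v) = mz (ar n u) * mz (ar n v) := by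
  have h1 := (tendsto_arA hn u hu).mul (tendsto_arA hn v hv)
  have h2 : Tendsto (fun m => ((st u v).map fun w => hr (ar n w) (m + 1)).sum) atTop
      (𝓝 ((st u v).map fun w => mz (ar n w)).sum) := by
    have h3 : ∀ w ∈ st u v, AdmW w := st_AdmW u v hu hv
    revert h3
    generalize st u v = L
    intro h3
    induction L with
    | nil => simp
    | cons w L ih =>
      simp only [List.map_cons, List.sum_cons]
      exact (tendsto_arA hn w (h3 w List.mem_cons_self)).add (ih fun w' hw' => h3 w' (List.mem_cons_of_mem _ hw'))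
  refine (tendsto_nhds_unique h1 (h2.congr fun m => ?_)).symm
  rw [hr_mul]

/-- the value of a constant pattern -/
noncomputable def cv (u : List (ℕ × ℕ)) : ℝ := mz (u.map Prod.snd)

lemma ar_const {n : ℕ} (u : List (ℕ × ℕ)) (hu : ∀ x ∈ u, x.1 = 0) : ar n u = u.map Prod.snd := by
  rw [ar]
  refine List.map_congr_left fun x hx => ?_
  rw [hu x hx, zero_mul, zero_add]

lemma st_pair {n : ℕ} (hn : 2 ≤ n) {w : List (ℕ × ℕ)} {p : List (ℕ × ℕ) × List (ℕ × ℕ)} (h : Pair w p) :
    stSum (fun w => mz (ar n w)) p = cv p.1 * mz (ar n p.2) := by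
  have h1 := mz_mulA hn p.1 p.2 h.a1 (AdmW_of_HP h.h h.a2)
  rw [cv, ← ar_const (n := n) p.1 h.c]
  exact h1

/-- the total coefficient of a pair -/
noncomputable def rc {R : Type} [Ring R] (Λ : Finset (List (ℕ × ℕ))) (x : List (ℕ × ℕ) → R)
    (p : List (ℕ × ℕ) × List (ℕ × ℕ)) : R := ∑ w ∈ Λ, x w * (E w p : R)

/-- the pairs which occur -/
noncomputable def prs (Λ : Finset (List (ℕ × ℕ))) : Finset (List (ℕ × ℕ) × List (ℕ × ℕ)) :=
  open Classical in Λ.biUnion fun w => (E w).support

lemma mem_prs {Λ : Finset (List (ℕ × ℕ))} {p : List (ℕ × ℕ) × List (ℕ × ℕ)} :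
    p ∈ prs Λ ↔ ∃ w ∈ Λ, E w p ≠ 0 := by
  simp [prs]

/-- the expansion of a combination of patterns -/
lemma expandE {R : Type} [CommRing R] (Λ : Finset (List (ℕ × ℕ))) (x : List (ℕ × ℕ) → R) (F : List (ℕ × ℕ) → R) :
    ∑ w ∈ Λ, x w * F w = ∑ p ∈ prs Λ, rc Λ x p * stSum F p := by
  classical
  have h1 : ∀ w ∈ Λ, x w * F w = ∑ p ∈ prs Λ, x w * (E w p : R) * stSum F p := by
    intro w hw
    rw [← E_spec F w, Finsupp.linearCombination_apply, Finsupp.sum, mul_sum]
    have hsub : (E w).support ⊆ prs Λ := fun p hp => mem_prs.2 ⟨w, hw, Finsupp.mem_support_iff.1 hp⟩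
    rw [← sum_subset hsub (fun p _ hp => by
      rw [Finsupp.notMem_support_iff.1 hp, Int.cast_zero, mul_zero, zero_mul])]
    refine sum_congr rfl fun p _ => ?_
    rw [zsmul_eq_mul, mul_assoc]
  rw [sum_congr rfl h1, sum_comm]
  refine sum_congr rfl fun p _ => ?_
  rw [rc, sum_mul]

end Pool.Agent.Q217.MZ
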