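import Pool.Agent.Q217.MZ.PrefixPoly

/-!
# Polynomial relations between multiple zeta values at affine patterns with constant letters: theorems (helper217)
-/

set_option autoImplicit false

namespace Pool.Agent.Q217.MZ

open Finset Filter Topology
open Pool.Agent.TH507.WD (mz hr hr_cons hr_nil)
open Pool.Agent.TH507.WG (HP OK ar ar_nil ar_cons st st_OK st_length OK_cons hr_mul stl)
open Pool.Agent.TH507.DS (stI stI_ar)
open Pool.Agent.Y760.PZ (LM)
open Pool.Agent.H337R2 (zr)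

section

variable {k D : ℕ} (w : Fin k → List (ℕ × ℕ)) (P : (Fin k → Fin (D + 1)) → Prop)

/-- the monomials with the property `P` -/
def MP (e : {e : Fin k → Fin (D + 1) // P e}) : List (List (ℕ × ℕ)) := mono w e.1

lemma MP_adm (hw : ∀ i, AdmW (w i)) (e : {e : Fin k → Fin (D + 1) // P e}) : ∀ u ∈ MP w P e, AdmW u := by
  intro u hu
  obtain ⟨i, rfl⟩ := mem_mono hu
  exact hw i

variable [DecidablePred P]

lemma MP_pair (hw : ∀ i, AdmW (w i)) {p : List (ℕ × ℕ) × List (ℕ × ℕ)} (hp : p ∈ prs (wds (MP w P))) :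
    ∃ e : {e : Fin k → Fin (D + 1) // P e}, (∀ x ∈ p.1, x.1 = 0) ∧ AdmW p.1 ∧
      p.1.sum.2 ≤ ∑ i, (e.1 i : ℕ) * (cp (w i)).sum.2 ∧ p.1.sum + p.2.sum = ∑ i, (e.1 i : ℕ) • (w i).sum := by
  obtain ⟨v, hv, hvp⟩ := mem_prs.1 hp
  obtain ⟨e, he⟩ := mem_wds.1 hv
  have hP := E_pair (stl_AdmW _ (MP_adm w P hw e) v he) hvp
  refine ⟨e, hP.c, hP.a1, (prefix_sum hP.q).trans ((stl_cpw _ v he).trans ?_), ?_⟩
  · rw [MP, mono_sum]
    exact (sum_congr rfl fun i _ => by rw [smul_eq_mul]).le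
  · rw [hP.s, stl_sum _ v he, MP, mono_sum]

/-- the value of a polynomial at a family with the stuffle product -/
lemma aeval_F (hw : ∀ i, AdmW (w i)) {A : Type} [CommRing A] {F : List (ℕ × ℕ) → A} (hF : StF F)
    (f : MvPolynomial (Fin k) ℤ) (hf : f.totalDegree ≤ D) (hP : ∀ e : Fin k → Fin (D + 1), f.coeff (ex e) ≠ 0 → P e) :
    MvPolynomial.aeval (fun i => F (w i)) f =
      ∑ v ∈ wds (MP w P), ((cw (MP w P) (fun e => f.coeff (ex e.1)) v : ℤ) : A) * F v := by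
  rw [aeval_sum P f hf hP]
  have h1 := poly_lin (MP w P) (MP_adm w P hw) hF (fun e => ((f.coeff (ex e.1) : ℤ) : A))
  have h2 : ∀ v ∈ wds (MP w P), ((cw (MP w P) (fun e => f.coeff (ex e.1)) v : ℤ) : A) * F v =
      cw (MP w P) (fun e => ((f.coeff (ex e.1) : ℤ) : A)) v * F v := fun v _ => by rw [cw_cast]
  rw [sum_congr rfl h2, ← h1]
  refine sum_congr rfl fun e _ => ?_
  rw [MP, mono_prod]

end

/-- **exponential heights**, general form -/
theorem poly_general {ι : Type} [Fintype ι] (θ : ι → ℝ) (hθ : LM θ) (W : ℕ) (d : ℕ) (hd : 0 < d)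
    (m : List (ℕ × ℕ) → ι → ℤ)
    (hm : ∀ u : List (ℕ × ℕ), (∀ x ∈ u, x.1 = 0) → AdmW u → u.sum.2 ≤ W → (d : ℝ) * cv u = ∑ i, (m u i : ℝ) * θ i)
    {k : ℕ} (D : ℕ) (w : Fin k → List (ℕ × ℕ)) (hw : ∀ i, AdmW (w i)) :
    ∃ B C : ℝ, 1 < B ∧ 1 < C ∧ ∃ n0 : ℕ, ∀ n, n0 ≤ n → ∀ f : MvPolynomial (Fin k) ℤ, f.totalDegree ≤ D →
      (∀ s, |((f.coeff s : ℤ) : ℝ)| ≤ C ^ n) → (∀ s ∈ f.support, ∑ i, s i * (cp (w i)).sum.2 ≤ W) →
      |MvPolynomial.aeval (fun i => mz (ar n (w i))) f| ≤ (B ^ n)⁻¹ →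
      ∀ (A : Type) [CommRing A] (z : List ℕ → A), StI z →
        (∃ Z : ι → A, ∀ u : List (ℕ × ℕ), (∀ x ∈ u, x.1 = 0) → AdmW u → u.sum.2 ≤ W →
          (d : A) * z (u.map Prod.snd) = ∑ i, (m u i : A) * Z i) →
        ∀ n', 2 ≤ n' → (d : A) * MvPolynomial.aeval (fun i => z (ar n' (w i))) f = 0 := by
  classical
  set P : (Fin k → Fin (D + 1)) → Prop := fun e => ∑ i, (e i : ℕ) * (cp (w i)).sum.2 ≤ W with hPdef
  have hpW : ∀ p ∈ prs (wds (MP w P)), (∀ x ∈ p.1, x.1 = 0) ∧ AdmW p.1 ∧ p.1.sum.2 ≤ W := by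
    intro p hp
    obtain ⟨e, h1, h2, h3, -⟩ := MP_pair w P hw hp
    exact ⟨h1, h2, h3.trans e.2⟩
  obtain ⟨B, C, hB, hC, n0, h⟩ := poly_exp θ hθ (MP w P) (MP_adm w P hw) d hd m fun p hp => by
    obtain ⟨h1, h2, h3⟩ := hpW p hp
    exact hm p.1 h1 h2 h3
  refine ⟨B, C, hB, hC, n0 + 2, fun n hn f hf hc hs hsmall A _ z hz hZ n' hn' => ?_⟩
  have hP : ∀ e : Fin k → Fin (D + 1), f.coeff (ex e) ≠ 0 → P e := fun e he =>
    hs (ex e) (MvPolynomial.mem_support_iff.2 he)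
  have hRI : ∀ v i, RI (wds (MP w P)) (cw (MP w P) fun e => f.coeff (ex e.1)) m v i = 0 := by
    by_contra hcon
    push Not at hcon
    have h1 := h n (by omega) (fun e => f.coeff (ex e.1)) (fun e => hc _) hcon
    apply absurd hsmall (not_le.2 ?_)
    refine lt_of_lt_of_eq h1 ?_
    congr 1
    rw [aeval_sum P f hf hP]
    refine sum_congr rfl fun e _ => ?_
    rw [MP, mono_prod]
  obtain ⟨Z, hZ⟩ := hZ
  have hF := StF_of_StI hz hn'
  have hΛ : ∀ v ∈ wds (MP w P), AdmW v := by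
    intro v hv
    obtain ⟨e, he⟩ := mem_wds.1 hv
    exact stl_AdmW _ (MP_adm w P hw e) v he
  rw [aeval_F w P hw hF f hf hP, expandV hF _ hΛ, mul_sum]
  refine sum_eq_zero fun v _ => ?_
  rw [← mul_assoc, RI_RC (wds (MP w P)) _ m Z _ (d : A) (fun p hp => by
    obtain ⟨h1, h2, h3⟩ := hpW p hp
    rw [ar_const p.1 h1]
    exact hZ p.1 h1 h2 h3) v]
  simp only [hRI, Int.cast_zero, zero_mul, sum_const_zero]

/-- **exponential heights**, constants of weight at most three -/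
theorem poly_three {k : ℕ} (D : ℕ) (w : Fin k → List (ℕ × ℕ)) (hw : ∀ i, AdmW (w i)) :
    ∃ B C : ℝ, 1 < B ∧ 1 < C ∧ ∃ n0 : ℕ, ∀ n, n0 ≤ n → ∀ f : MvPolynomial (Fin k) ℤ, f.totalDegree ≤ D →
      (∀ s, |((f.coeff s : ℤ) : ℝ)| ≤ C ^ n) → (∀ s ∈ f.support, ∑ i, s i * (cp (w i)).sum.2 ≤ 3) →
      |MvPolynomial.aeval (fun i => mz (ar n (w i))) f| ≤ (B ^ n)⁻¹ →
      ∀ (A : Type) [CommRing A] (z : List ℕ → A), StI z → z [2, 1] = z [3] →
        ∀ n', 2 ≤ n' → MvPolynomial.aeval (fun i => z (ar n' (w i))) f = 0 := by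
  obtain ⟨B, C, hB, hC, n0, h⟩ := poly_general _ LM_zeta23 3 1 one_pos m3 (fun u h1 h2 h3 => by
    rw [cv, m3_eval mz (by rw [mz]) mz_21 h1 h2 h3, mz_zr, mz_zr, Nat.cast_one, one_mul]) D w hw
  refine ⟨B, C, hB, hC, n0, fun n hn f hf hc hs hsmall A _ z hz h21 n' hn' => ?_⟩
  have h1 := h n hn f hf hc hs hsmall A z hz ⟨![1, z [2], z [3]], fun u h1 h2 h3 => by
    rw [m3_eval z hz.1 h21 h1 h2 h3, Nat.cast_one, one_mul]⟩ n' hn'
  rwa [Nat.cast_one, one_mul] at h1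

/-- **bounded heights, reduction to bounded weight** -/
theorem poly_reduction (W : ℕ) {k : ℕ} (D : ℕ) (w : Fin k → List (ℕ × ℕ)) (hw : ∀ i, AdmW (w i)) :
    ∃ N : ℕ, 1 ≤ N ∧ ∀ H : ℕ, ∃ n0 : ℕ, ∀ n, n0 ≤ n → ∀ f : MvPolynomial (Fin k) ℤ, f.totalDegree ≤ D →
      (∀ s, |f.coeff s| ≤ H) → (∀ s ∈ f.support, ∑ i, s i * (cp (w i)).sum.2 ≤ W) →
      |MvPolynomial.aeval (fun i => mz (ar n (w i))) f| ≤ ((N : ℝ) ^ n)⁻¹ →
      ∀ (A : Type) [CommRing A] (z : List ℕ → A), StI z →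
        (∀ (T : Finset (List ℕ)) (a : List ℕ → ℤ), (∀ l ∈ T, Pool.Agent.H447R2.MZ.Adm l ∧ l.sum ≤ W) →
          ∑ l ∈ T, (a l : ℝ) * mz l = 0 → ∑ l ∈ T, (a l : A) * z l = 0) →
        ∀ n', 2 ≤ n' → MvPolynomial.aeval (fun i => z (ar n' (w i))) f = 0 := by
  classical
  set P : (Fin k → Fin (D + 1)) → Prop := fun e => ∑ i, (e i : ℕ) * (cp (w i)).sum.2 ≤ W with hPdef
  have hpW : ∀ p ∈ prs (wds (MP w P)), (∀ x ∈ p.1, x.1 = 0) ∧ AdmW p.1 ∧ p.1.sum.2 ≤ W := by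
    intro p hp
    obtain ⟨e, h1, h2, h3, -⟩ := MP_pair w P hw hp
    exact ⟨h1, h2, h3.trans e.2⟩
  obtain ⟨N, hN, h⟩ := poly_heights (MP w P) (MP_adm w P hw)
  refine ⟨N, hN, fun H => ?_⟩
  obtain ⟨n0, h⟩ := h H
  refine ⟨n0 + 2, fun n hn f hf hc hs hsmall A _ z hz hrel n' hn' => ?_⟩
  have hP : ∀ e : Fin k → Fin (D + 1), f.coeff (ex e) ≠ 0 → P e := fun e he =>
    hs (ex e) (MvPolynomial.mem_support_iff.2 he)
  set c := cw (MP w P) (fun e => f.coeff (ex e.1)) with hcdef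
  have hRC : ∀ v, RC (wds (MP w P)) (fun w' => ((c w' : ℤ) : ℝ)) cv v = 0 := by
    by_contra hcon
    push Not at hcon
    have h1 := h n (by omega) (fun e => f.coeff (ex e.1)) (fun e => hc _) hcon
    apply absurd hsmall (not_le.2 ?_)
    refine lt_of_lt_of_eq h1 ?_
    congr 1
    rw [aeval_sum P f hf hP]
    refine sum_congr rfl fun e _ => ?_
    rw [MP, mono_prod]
  have hF := StF_of_StI hz hn'
  have hΛ : ∀ v ∈ wds (MP w P), AdmW v := by
    intro v hv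
    obtain ⟨e, he⟩ := mem_wds.1 hv
    exact stl_AdmW _ (MP_adm w P hw e) v he
  rw [aeval_F w P hw hF f hf hP]
  refine prefix_zero hF _ hΛ _ fun v => ?_
  -- the relation of bounded weight
  set Q := (prs (wds (MP w P))).filter (fun p => p.2 = v) with hQ
  have hinj : Set.InjOn (fun p : List (ℕ × ℕ) × List (ℕ × ℕ) => p.1.map Prod.snd) Q := by
    intro p hp p' hp' hpp
    rw [mem_coe, hQ, mem_filter] at hp hp'
    have h1 := (hpW p hp.1).1
    have h2 := (hpW p' hp'.1).1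
    refine Prod.ext ?_ (hp.2.trans hp'.2.symm)
    have h3 : ∀ u : List (ℕ × ℕ), (∀ x ∈ u, x.1 = 0) → u = (u.map Prod.snd).map fun b => (0, b) := by
      intro u hu
      rw [List.map_map]
      conv_lhs => rw [← List.map_id u]
      refine List.map_congr_left fun x hx => ?_
      simp only [id, Function.comp]
      exact Prod.ext (hu x hx) rfl
    rw [h3 p.1 h1, h3 p'.1 h2]
    simp only at hpp
    rw [hpp]
  set g : List ℕ → ℤ := fun l => rc (wds (MP w P)) c (l.map (fun b => ((0 : ℕ), b)), v) with hg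
  have hgp : ∀ p ∈ Q, g (p.1.map Prod.snd) = rc (wds (MP w P)) c p := by
    intro p hp
    rw [hQ, mem_filter] at hp
    have h1 := (hpW p hp.1).1
    simp only [hg]
    congr 1
    refine Prod.ext ?_ hp.2.symm
    rw [List.map_map]
    conv_rhs => rw [← List.map_id p.1]
    refine List.map_congr_left fun x hx => ?_
    simp only [id, Function.comp]
    exact Prod.ext (h1 x hx).symm rfl
  have h1 := hrel (Q.image fun p => p.1.map Prod.snd) g (by
    intro l hl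
    rw [mem_image] at hl
    obtain ⟨p, hp, rfl⟩ := hl
    rw [hQ, mem_filter] at hp
    obtain ⟨h1, h2, h3⟩ := hpW p hp.1
    rw [← ar_const (n := 2) p.1 h1]
    refine ⟨adm_arA le_rfl _ h2, ?_⟩
    rw [ar_const p.1 h1]
    have h4 : (p.1.map Prod.snd).sum = p.1.sum.2 := by
      clear h1 h2 h3 hp
      induction p.1 with
      | nil => rfl
      | cons x l ih => rw [List.map_cons, List.sum_cons, List.sum_cons, Prod.snd_add, ih]
    rw [h4]
    exact h3) (by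
    rw [sum_image hinj, ← hRC v, RC]
    refine sum_congr rfl fun p hp => ?_
    rw [hgp p hp, rc_cast, cv])
  rw [sum_image hinj] at h1
  rw [RC, ← h1]
  refine sum_congr rfl fun p hp => ?_
  rw [hgp p hp, rc_cast, ar_const p.1 (hpW p (mem_filter.1 hp).1).1]

/-- **bounded heights, isobaric relations, constants of weight at most four** -/
theorem poly_four (S : ℕ × ℕ) {k : ℕ} (D : ℕ) (w : Fin k → List (ℕ × ℕ)) (hw : ∀ i, AdmW (w i)) :
    ∃ N : ℕ, 1 ≤ N ∧ ∀ H : ℕ, ∃ n0 : ℕ, ∀ n, n0 ≤ n → ∀ f : MvPolynomial (Fin k) ℤ, f.totalDegree ≤ D →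
      (∀ s, |f.coeff s| ≤ H) →
      (∀ s ∈ f.support, ∑ i, s i * (cp (w i)).sum.2 ≤ 4 ∧ ∑ i, s i • (w i).sum = S) →
      |MvPolynomial.aeval (fun i => mz (ar n (w i))) f| ≤ ((N : ℝ) ^ n)⁻¹ →
      ∀ (A : Type) [CommRing A] (z : List ℕ → A), StI z → z [2, 1] = z [3] → 4 * z [3, 1] = z [4] →
        4 * z [2, 2] = 3 * z [4] → z [2, 1, 1] = z [4] →
        ∀ n', 2 ≤ n' → 4 * MvPolynomial.aeval (fun i => z (ar n' (w i))) f = 0 := by
  classical
  set P : (Fin k → Fin (D + 1)) → Prop := fun e => ∑ i, (e i : ℕ) * (cp (w i)).sum.2 ≤ 4 ∧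
    ∑ i, (e i : ℕ) • (w i).sum = S with hPdef
  have hpW : ∀ p ∈ prs (wds (MP w P)), (∀ x ∈ p.1, x.1 = 0) ∧ AdmW p.1 ∧ p.1.sum.2 ≤ 4 ∧
      p.1.sum + p.2.sum = S := by
    intro p hp
    obtain ⟨e, h1, h2, h3, h4⟩ := MP_pair w P hw hp
    exact ⟨h1, h2, h3.trans e.2.1, h4.trans e.2.2⟩
  obtain ⟨N, hN, h⟩ := poly_heights (MP w P) (MP_adm w P hw)
  refine ⟨N, hN, fun H => ?_⟩
  obtain ⟨n0, h⟩ := h H
  refine ⟨n0 + 2, fun n hn f hf hc hs hsmall A _ z hz h21 h31 h22 h211 n' hn' => ?_⟩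
  have hP : ∀ e : Fin k → Fin (D + 1), f.coeff (ex e) ≠ 0 → P e := fun e he =>
    hs (ex e) (MvPolynomial.mem_support_iff.2 he)
  set c := cw (MP w P) (fun e => f.coeff (ex e.1)) with hcdef
  have hRC : ∀ v, RC (wds (MP w P)) (fun w' => ((c w' : ℤ) : ℝ)) cv v = 0 := by
    by_contra hcon
    push Not at hcon
    have h1 := h n (by omega) (fun e => f.coeff (ex e.1)) (fun e => hc _) hcon
    apply absurd hsmall (not_le.2 ?_)
    refine lt_of_lt_of_eq h1 ?_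
    congr 1
    rw [aeval_sum P f hf hP]
    refine sum_congr rfl fun e _ => ?_
    rw [MP, mono_prod]
  have hF := StF_of_StI hz hn'
  have hΛ : ∀ v ∈ wds (MP w P), AdmW v := by
    intro v hv
    obtain ⟨e, he⟩ := mem_wds.1 hv
    exact stl_AdmW _ (MP_adm w P hw e) v he
  -- the integer coefficient of a growing word
  set q : List (ℕ × ℕ) → ℤ := fun v => ∑ p ∈ prs (wds (MP w P)) with p.2 = v, rc (wds (MP w P)) c p * q4 p.1 with hq
  have hgen : ∀ (A : Type) [CommRing A] (z : List ℕ → A), z [] = 1 → z [2, 1] = z [3] → 4 * z [3, 1] = z [4] →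
      4 * z [2, 2] = 3 * z [4] → z [2, 1, 1] = z [4] → ∀ v,
      4 * RC (wds (MP w P)) (fun w' => ((c w' : ℤ) : A)) (fun u => z (u.map Prod.snd)) v =
        (q v : A) * zb z (S.2 - v.sum.2) := by
    intro A _ z h0 h21 h31 h22 h211 v
    rw [RC, mul_sum, hq]
    push_cast
    rw [sum_mul]
    refine sum_congr rfl fun p hp => ?_
    obtain ⟨hp, hpv⟩ := mem_filter.1 hp
    obtain ⟨h1, h2, h3, h4⟩ := hpW p hp
    have h5 : p.1.sum.2 = S.2 - v.sum.2 := by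
      rw [← h4, ← hpv, Prod.snd_add]
      omega
    have h6 := q4_eval z h0 h21 h31 h22 h211 h1 h2 h3
    rw [h5] at h6
    rw [rc_cast]
    linear_combination ((rc (wds (MP w P)) c p : ℤ) : A) * h6
  have hq0 : ∀ v, q v = 0 := by
    intro v
    by_cases hv : ∃ p ∈ prs (wds (MP w P)), p.2 = v
    · have h1 := hgen ℝ mz (by rw [mz]) mz_21 mz_31 mz_22 mz_211 v
      have h2 : RC (wds (MP w P)) (fun w' => ((c w' : ℤ) : ℝ)) (fun u => mz (u.map Prod.snd)) v = 0 := hRC v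
      rw [h2, mul_zero] at h1
      obtain ⟨p, hp, hpv⟩ := hv
      obtain ⟨h3, h4, h5, h6⟩ := hpW p hp
      have h7 : S.2 - v.sum.2 ≠ 1 := by
        have h8 := sum_ne_one h3 h4
        rw [← h6, ← hpv, Prod.snd_add]
        omega
      have h8 := zb_ne _ h7
      rcases mul_eq_zero.1 h1.symm with h9 | h9
      · exact_mod_cast h9
      · exact absurd h9 h8
    · push Not at hv
      simp only [hq]
      exact sum_eq_zero fun p hp => absurd (mem_filter.1 hp).2 (hv p (mem_filter.1 hp).1)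
  rw [aeval_F w P hw hF f hf hP, expandV hF _ hΛ, mul_sum]
  refine sum_eq_zero fun v _ => ?_
  rw [← mul_assoc]
  have h1 : RC (wds (MP w P)) (fun w' => ((c w' : ℤ) : A)) (fun w' => z (ar n' w')) v =
      RC (wds (MP w P)) (fun w' => ((c w' : ℤ) : A)) (fun u => z (u.map Prod.snd)) v := by
    rw [RC, RC]
    refine sum_congr rfl fun p hp => ?_
    rw [ar_const p.1 (hpW p (mem_filter.1 hp).1).1]
  rw [h1, hgen A z hz.1 h21 h31 h22 h211 v, hq0 v, Int.cast_zero, zero_mul, zero_mul]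

end Pool.Agent.Q217.MZ
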