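import Pool.Agent.Q217.MZ.Prefix

/-!
# Relations between multiple zeta values at affine patterns with constant letters in front (helper217)
-/

set_option autoImplicit false

namespace Pool.Agent.Q217.MZ

open Finset Filter Topology
open Pool.Agent.TH507.WD (mz hr hr_cons hr_nil)
open Pool.Agent.TH507.WG (HP OK ar ar_nil ar_cons st st_OK st_length OK_cons hr_mul stl)
open Pool.Agent.Y760.PZ (LM)

/-- functions on patterns with the stuffle product -/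
structure StF {A : Type} [CommRing A] (F : List (ℕ × ℕ) → A) : Prop where
  one : F [] = 1
  mul : ∀ u v, AdmW u → AdmW v → F u * F v = stSum F (u, v)

lemma stl_AdmW (M : List (List (ℕ × ℕ))) (hM : ∀ u ∈ M, AdmW u) : ∀ w ∈ stl M, AdmW w := by
  induction M with
  | nil =>
    intro w hw
    rw [stl, List.mem_singleton] at hw
    rw [hw]
    exact AdmW_nil
  | cons u M ih =>
    intro w hw
    rw [stl, List.mem_flatMap] at hw
    obtain ⟨v, hv, hw⟩ := hw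
    exact st_AdmW u v (hM u List.mem_cons_self) (ih (fun u' hu' => hM u' (List.mem_cons_of_mem _ hu')) v hv) w hw

lemma StF.prod {A : Type} [CommRing A] {F : List (ℕ × ℕ) → A} (hF : StF F) (M : List (List (ℕ × ℕ)))
    (hM : ∀ u ∈ M, AdmW u) : (M.map F).prod = ((stl M).map F).sum := by
  induction M with
  | nil =>
    rw [stl]
    simp [hF.one]
  | cons u M ih =>
    have hM' := fun u' hu' => hM u' (List.mem_cons_of_mem _ hu')
    rw [List.map_cons, List.prod_cons, ih hM', stl]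
    have h3 := stl_AdmW M hM'
    have hu := hM u List.mem_cons_self
    clear ih
    revert h3
    generalize stl M = L
    intro h3
    induction L with
    | nil => simp
    | cons v L ih2 =>
      rw [List.map_cons, List.sum_cons, mul_add, hF.mul u v hu (h3 v List.mem_cons_self), List.flatMap_cons,
        List.map_append, List.sum_append, ih2 fun v' hv' => h3 v' (List.mem_cons_of_mem _ hv')]
      rfl

lemma StF_mz {n : ℕ} (hn : 2 ≤ n) : StF fun w => mz (ar n w) where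
  one := by rw [ar_nil, mz]
  mul := fun u v hu hv => (mz_mulA hn u v hu hv).symm

lemma stl_cpw (M : List (List (ℕ × ℕ))) : ∀ w ∈ stl M, (cp w).sum.2 ≤ (M.map fun u => (cp u).sum.2).sum := by
  induction M with
  | nil =>
    intro w hw
    rw [stl, List.mem_singleton] at hw
    rw [hw]
    simp [cp]
  | cons u M ih =>
    intro w hw
    rw [stl, List.mem_flatMap] at hw
    obtain ⟨v, hv, hw⟩ := hw
    have h1 := cpw_st u v w hw
    have h2 := ih v hv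
    rw [List.map_cons, List.sum_cons]
    omega

lemma stl_sum (M : List (List (ℕ × ℕ))) : ∀ w ∈ stl M, w.sum = (M.map List.sum).sum := by
  induction M with
  | nil =>
    intro w hw
    rw [stl, List.mem_singleton] at hw
    rw [hw]
    simp
  | cons u M ih =>
    intro w hw
    rw [stl, List.mem_flatMap] at hw
    obtain ⟨v, hv, hw⟩ := hw
    rw [st_sum u v w hw, ih v hv, List.map_cons, List.sum_cons]

/-- the coefficient of a word in a polynomial -/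
noncomputable def cw {ℰ : Type} [Fintype ℰ] {R : Type} [Ring R] (M : ℰ → List (List (ℕ × ℕ))) (c : ℰ → R)
    (w : List (ℕ × ℕ)) : R := ∑ e, c e * ((stl (M e)).countP (· = w) : R)

/-- the words which occur in a polynomial -/
def wds {ℰ : Type} [Fintype ℰ] (M : ℰ → List (List (ℕ × ℕ))) : Finset (List (ℕ × ℕ)) :=
  univ.biUnion fun e => (stl (M e)).toFinset

lemma mem_wds {ℰ : Type} [Fintype ℰ] {M : ℰ → List (List (ℕ × ℕ))} {w : List (ℕ × ℕ)} :
    w ∈ wds M ↔ ∃ e, w ∈ stl (M e) := by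
  simp [wds]

lemma sum_count {A : Type} [CommRing A] (F : List (ℕ × ℕ) → A) (L : List (List (ℕ × ℕ))) (s : Finset (List (ℕ × ℕ)))
    (hs : ∀ w ∈ L, w ∈ s) : (L.map F).sum = ∑ w ∈ s, (L.countP (· = w) : A) * F w := by
  classical
  induction L with
  | nil => simp
  | cons v L ih =>
    rw [List.map_cons, List.sum_cons, ih fun w hw => hs w (List.mem_cons_of_mem _ hw)]
    have h1 : ∀ w ∈ s, ((v :: L).countP (· = w) : A) * F w =
        (if w = v then F w else 0) + (L.countP (· = w) : A) * F w := by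
      intro w _
      rw [List.countP_cons]
      by_cases hvw : v = w
      · subst hvw
        simp
        ring
      · have hwv : ¬ w = v := fun h => hvw h.symm
        simp [hvw, hwv]
    rw [sum_congr rfl h1, sum_add_distrib, sum_ite_eq' s v, if_pos (hs v List.mem_cons_self)]

lemma poly_lin {ℰ : Type} [Fintype ℰ] (M : ℰ → List (List (ℕ × ℕ))) (hM : ∀ e, ∀ u ∈ M e, AdmW u) {A : Type}
    [CommRing A] {F : List (ℕ × ℕ) → A} (hF : StF F) (c : ℰ → A) :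
    ∑ e, c e * ((M e).map F).prod = ∑ w ∈ wds M, cw M c w * F w := by
  have h1 : ∀ e, c e * ((M e).map F).prod = ∑ w ∈ wds M, c e * ((stl (M e)).countP (· = w) : A) * F w := by
    intro e
    rw [hF.prod (M e) (hM e), sum_count F (stl (M e)) (wds M) (fun w hw => mem_wds.2 ⟨e, hw⟩), mul_sum]
    exact sum_congr rfl fun w _ => by rw [mul_assoc]
  rw [sum_congr rfl fun e _ => h1 e, sum_comm]
  refine sum_congr rfl fun w _ => ?_
  rw [cw, sum_mul]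

lemma cw_cast {ℰ : Type} [Fintype ℰ] {R : Type} [Ring R] (M : ℰ → List (List (ℕ × ℕ))) (c : ℰ → ℤ)
    (w : List (ℕ × ℕ)) : cw M (fun e => (c e : R)) w = ((cw M c w : ℤ) : R) := by
  rw [cw, cw]
  push_cast
  rfl

lemma rc_cast {R : Type} [Ring R] (Λ : Finset (List (ℕ × ℕ))) (x : List (ℕ × ℕ) → ℤ)
    (p : List (ℕ × ℕ) × List (ℕ × ℕ)) : rc Λ (fun w => (x w : R)) p = ((rc Λ x p : ℤ) : R) := by
  rw [rc, rc]
  push_cast
  rfl

/-! ### linear combinations -/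

/-- the growing parts which occur -/
noncomputable def gps (Λ : Finset (List (ℕ × ℕ))) : Finset (List (ℕ × ℕ)) := (prs Λ).image Prod.snd

/-- the coefficient of a growing word, for a family of values of the constant parts -/
noncomputable def RC {R : Type} [Ring R] (Λ : Finset (List (ℕ × ℕ))) (x : List (ℕ × ℕ) → R) (f : List (ℕ × ℕ) → R)
    (v : List (ℕ × ℕ)) : R := ∑ p ∈ prs Λ with p.2 = v, rc Λ x p * f p.1

lemma expandV {A : Type} [CommRing A] {F : List (ℕ × ℕ) → A} (hF : StF F) (Λ : Finset (List (ℕ × ℕ)))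
    (hΛ : ∀ w ∈ Λ, AdmW w) (x : List (ℕ × ℕ) → A) :
    ∑ w ∈ Λ, x w * F w = ∑ v ∈ gps Λ, RC Λ x F v * F v := by
  classical
  rw [expandE Λ x F, gps, ← sum_fiberwise_of_maps_to (g := Prod.snd) (t := (prs Λ).image Prod.snd)
    (fun p hp => mem_image_of_mem _ hp)]
  refine sum_congr rfl fun v _ => ?_
  rw [RC, sum_mul]
  refine sum_congr rfl fun p hp => ?_
  obtain ⟨hp, hpv⟩ := mem_filter.1 hp
  obtain ⟨w, hw, hwp⟩ := mem_prs.1 hp
  have hP := E_pair (hΛ w hw) hwp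
  have h1 := hF.mul p.1 p.2 hP.a1 (AdmW_of_HP hP.h hP.a2)
  have h2 : stSum F p = F p.1 * F p.2 := h1.symm
  rw [h2, hpv, mul_assoc]

lemma RC_mz {n : ℕ} (Λ : Finset (List (ℕ × ℕ))) (hΛ : ∀ w ∈ Λ, AdmW w) (x : List (ℕ × ℕ) → ℝ)
    (v : List (ℕ × ℕ)) : RC Λ x (fun w => mz (ar n w)) v = RC Λ x cv v := by
  rw [RC, RC]
  refine sum_congr rfl fun p hp => ?_
  obtain ⟨w, hw, hwp⟩ := mem_prs.1 (mem_filter.1 hp).1
  have hP := E_pair (hΛ w hw) hwp
  rw [cv, ← ar_const (n := n) p.1 hP.c]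

lemma gps_HP {Λ : Finset (List (ℕ × ℕ))} (hΛ : ∀ w ∈ Λ, AdmW w) {v : List (ℕ × ℕ)} (hv : v ∈ gps Λ) :
    HP v ∧ OK v := by
  rw [gps, mem_image] at hv
  obtain ⟨p, hp, rfl⟩ := hv
  obtain ⟨w, hw, hwp⟩ := mem_prs.1 hp
  have hP := E_pair (hΛ w hw) hwp
  exact ⟨hP.h, hP.a2⟩

lemma RC_zero {R : Type} [Ring R] {Λ : Finset (List (ℕ × ℕ))} (x : List (ℕ × ℕ) → R) (f : List (ℕ × ℕ) → R)
    {v : List (ℕ × ℕ)} (hv : v ∉ gps Λ) : RC Λ x f v = 0 := by
  rw [RC]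
  refine sum_eq_zero fun p hp => ?_
  obtain ⟨hp, hpv⟩ := mem_filter.1 hp
  exact absurd (mem_image.2 ⟨p, hp, hpv⟩) hv

/-- **real coefficients**: the sum is not small, or the coefficients of all growing words vanish -/
theorem prefix_u (Λ : Finset (List (ℕ × ℕ))) (hΛ : ∀ w ∈ Λ, AdmW w) :
    ∃ N : ℕ, 1 ≤ N ∧ ∀ x : List (ℕ × ℕ) → ℝ, (∃ v, RC Λ x cv v ≠ 0) → ∃ n0 : ℕ, ∀ n, n0 ≤ n →
      ((N : ℝ) ^ n)⁻¹ < |∑ w ∈ Λ, x w * mz (ar n w)| := by
  obtain ⟨N, hN, h⟩ := words_u (gps Λ) (fun w hw => (gps_HP hΛ hw).1) (fun w hw => (gps_HP hΛ hw).2)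
  refine ⟨N, hN, fun x hx => ?_⟩
  obtain ⟨v, hv⟩ := hx
  obtain ⟨n0, h⟩ := h (RC Λ x cv) ⟨v, by
    by_contra hcon
    exact hv (RC_zero x cv hcon), hv⟩
  refine ⟨n0 + 2, fun n hn => ?_⟩
  have h1 := h n (by omega)
  rw [expandV (StF_mz (show 2 ≤ n by omega)) Λ hΛ x]
  refine lt_of_lt_of_eq h1 ?_
  congr 1
  refine sum_congr rfl fun v _ => ?_
  rw [RC_mz Λ hΛ x v]

/-- if the coefficients of all growing words vanish, so does the sum -/
lemma prefix_zero {A : Type} [CommRing A] {F : List (ℕ × ℕ) → A} (hF : StF F) (Λ : Finset (List (ℕ × ℕ)))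
    (hΛ : ∀ w ∈ Λ, AdmW w) (x : List (ℕ × ℕ) → A) (h : ∀ v, RC Λ x F v = 0) : ∑ w ∈ Λ, x w * F w = 0 := by
  rw [expandV hF Λ hΛ x]
  exact sum_eq_zero fun v _ => by rw [h v, zero_mul]

/-! ### polynomials, bounded heights -/

theorem poly_heights {ℰ : Type} [Fintype ℰ] (M : ℰ → List (List (ℕ × ℕ))) (hM : ∀ e, ∀ u ∈ M e, AdmW u) :
    ∃ N : ℕ, 1 ≤ N ∧ ∀ H : ℕ, ∃ n0 : ℕ, ∀ n, n0 ≤ n → ∀ c : ℰ → ℤ, (∀ e, |c e| ≤ H) →
      (∃ v, RC (wds M) (fun w => ((cw M c w : ℤ) : ℝ)) cv v ≠ 0) →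
      ((N : ℝ) ^ n)⁻¹ < |∑ e, (c e : ℝ) * ((M e).map fun u => mz (ar n u)).prod| := by
  classical
  have hΛ : ∀ w ∈ wds M, AdmW w := by
    intro w hw
    obtain ⟨e, he⟩ := mem_wds.1 hw
    exact stl_AdmW (M e) (hM e) w he
  obtain ⟨N, hN, h⟩ := prefix_u (wds M) hΛ
  refine ⟨N, hN, fun H => ?_⟩
  have hfin : Set.Finite {c : ℰ → ℤ | ∀ e, |c e| ≤ H} :=
    (Set.Finite.pi' fun _ => Set.finite_Icc (-(H : ℤ)) H).subset fun c hc e => abs_le.1 (hc e)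
  have hone : ∀ c : ℰ → ℤ, ∃ n0 : ℕ, (∃ v, RC (wds M) (fun w => ((cw M c w : ℤ) : ℝ)) cv v ≠ 0) → ∀ n, n0 ≤ n →
      ((N : ℝ) ^ n)⁻¹ < |∑ e, (c e : ℝ) * ((M e).map fun u => mz (ar n u)).prod| := by
    intro c
    by_cases hc : ∃ v, RC (wds M) (fun w => ((cw M c w : ℤ) : ℝ)) cv v ≠ 0
    · obtain ⟨n0, h0⟩ := h _ hc
      refine ⟨n0 + 2, fun _ n hn => ?_⟩
      rw [poly_lin M hM (StF_mz (show 2 ≤ n by omega)) (fun e => (c e : ℝ))]
      refine lt_of_lt_of_eq (h0 n (by omega)) ?_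
      congr 1
      exact sum_congr rfl fun w _ => by rw [cw_cast]
    · exact ⟨0, fun hh => absurd hh hc⟩
  choose n0 hn0 using hone
  obtain ⟨n1, hn1⟩ := (hfin.image n0).bddAbove
  exact ⟨n1, fun n hn c hc hv => hn0 c hv n ((hn1 ⟨c, hc, rfl⟩).trans hn)⟩

/-! ### exponential heights -/

/-- the coordinates of the coefficient of a growing word -/
noncomputable def RI {ι : Type} (Λ : Finset (List (ℕ × ℕ))) (x : List (ℕ × ℕ) → ℤ) (m : List (ℕ × ℕ) → ι → ℤ)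
    (v : List (ℕ × ℕ)) (i : ι) : ℤ := ∑ p ∈ prs Λ with p.2 = v, rc Λ x p * m p.1 i

lemma RI_RC {ι : Type} [Fintype ι] {A : Type} [CommRing A] (Λ : Finset (List (ℕ × ℕ))) (x : List (ℕ × ℕ) → ℤ)
    (m : List (ℕ × ℕ) → ι → ℤ) (Z : ι → A) (f : List (ℕ × ℕ) → A) (d : A)
    (hf : ∀ p ∈ prs Λ, d * f p.1 = ∑ i, (m p.1 i : A) * Z i) (v : List (ℕ × ℕ)) :
    d * RC Λ (fun w => (x w : A)) f v = ∑ i, (RI Λ x m v i : A) * Z i := by
  rw [RC, mul_sum]
  have h1 : ∀ p ∈ (prs Λ).filter (fun p => p.2 = v), d * (rc Λ (fun w => (x w : A)) p * f p.1) =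
      ∑ i, ((rc Λ x p : ℤ) : A) * ((m p.1 i : A) * Z i) := by
    intro p hp
    rw [← mul_sum, ← hf p (mem_filter.1 hp).1, rc_cast]
    ring
  rw [sum_congr rfl h1, sum_comm]
  refine sum_congr rfl fun i _ => ?_
  rw [RI]
  push_cast
  rw [sum_mul]
  exact sum_congr rfl fun p _ => by ring

theorem prefix_exp {ι : Type} [Fintype ι] (θ : ι → ℝ) (hθ : LM θ) (Λ : Finset (List (ℕ × ℕ)))
    (hΛ : ∀ w ∈ Λ, AdmW w) (d : ℕ) (hd : 0 < d) (m : List (ℕ × ℕ) → ι → ℤ)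
    (hm : ∀ p ∈ prs Λ, (d : ℝ) * cv p.1 = ∑ i, (m p.1 i : ℝ) * θ i) :
    ∃ B C : ℝ, 1 < B ∧ 1 < C ∧ ∃ n0 : ℕ, ∀ n, n0 ≤ n → ∀ x : List (ℕ × ℕ) → ℤ,
      (∀ w ∈ Λ, |(x w : ℝ)| ≤ C ^ n) → (∃ v i, RI Λ x m v i ≠ 0) →
      (B ^ n)⁻¹ < |∑ w ∈ Λ, (x w : ℝ) * mz (ar n w)| := by
  classical
  obtain ⟨B, C1, hB, hC1, n1, h⟩ := words_w θ hθ (gps Λ) (fun w hw => (gps_HP hΛ hw).1)
    (fun w hw => (gps_HP hΛ hw).2)
  -- the growth of the coefficients
  set T : ℝ := 1 + ∑ i, ∑ p ∈ prs Λ, (∑ w ∈ Λ, |(E w p : ℝ)|) * |(m p.1 i : ℝ)| with hT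
  have hTi : ∀ i, ∑ p ∈ prs Λ, (∑ w ∈ Λ, |(E w p : ℝ)|) * |(m p.1 i : ℝ)| ≤ T := by
    intro i
    have h1 := single_le_sum (f := fun i => ∑ p ∈ prs Λ, (∑ w ∈ Λ, |(E w p : ℝ)|) * |(m p.1 i : ℝ)|)
      (fun i _ => sum_nonneg fun p _ => mul_nonneg (sum_nonneg fun w _ => abs_nonneg _) (abs_nonneg _)) (mem_univ i)
    linarith
  obtain ⟨C, hC, hCC⟩ : ∃ C : ℝ, 1 < C ∧ C < C1 := exists_between hC1
  have hC0 : 0 < C := by linarith
  have hgrow : ∀ᶠ n : ℕ in atTop, T * C ^ n ≤ C1 ^ n := by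
    have h1 : Tendsto (fun n : ℕ => (C1 / C) ^ n) atTop atTop :=
      tendsto_pow_atTop_atTop_of_one_lt ((one_lt_div hC0).2 hCC)
    filter_upwards [h1.eventually (eventually_ge_atTop T)] with n hn
    rw [div_pow, le_div_iff₀ (pow_pos hC0 n)] at hn
    exact hn
  obtain ⟨n2, hn2⟩ := eventually_atTop.1 hgrow
  have hdR : (1 : ℝ) ≤ d := by exact_mod_cast hd
  refine ⟨B * d, C, by nlinarith, hC, n1 + n2 + 2, fun n hn x hx hv => ?_⟩
  obtain ⟨v, i, hvi⟩ := hv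
  have hrc : ∀ p, |((rc Λ x p : ℤ) : ℝ)| ≤ (∑ w ∈ Λ, |(E w p : ℝ)|) * C ^ n := by
    intro p
    rw [rc]
    push_cast
    refine (abs_sum_le_sum_abs _ _).trans ?_
    rw [sum_mul]
    refine sum_le_sum fun w hw => ?_
    rw [abs_mul, mul_comm]
    exact mul_le_mul_of_nonneg_left (hx w hw) (abs_nonneg _)
  have h1 := h n (by omega) (fun v i => RI Λ x m v i) (by
    refine ⟨v, ?_, i, hvi⟩
    by_contra hcon
    apply hvi
    rw [RI]
    refine sum_eq_zero fun p hp => ?_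
    obtain ⟨hp, hpv⟩ := mem_filter.1 hp
    exact absurd (mem_image.2 ⟨p, hp, hpv⟩) hcon) (by
    intro v _ i
    refine le_trans ?_ (hn2 n (by omega))
    rw [RI]
    push_cast
    refine (abs_sum_le_sum_abs _ _).trans ?_
    have h2 : ∑ p ∈ (prs Λ).filter (fun p => p.2 = v), |((rc Λ x p : ℤ) : ℝ) * (m p.1 i : ℝ)| ≤
        ∑ p ∈ prs Λ, (∑ w ∈ Λ, |(E w p : ℝ)|) * |(m p.1 i : ℝ)| * C ^ n := by
      refine (sum_le_sum_of_subset_of_nonneg (filter_subset _ _) fun _ _ _ => abs_nonneg _).trans ?_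
      refine sum_le_sum fun p _ => ?_
      rw [abs_mul]
      calc |((rc Λ x p : ℤ) : ℝ)| * |(m p.1 i : ℝ)| ≤ ((∑ w ∈ Λ, |(E w p : ℝ)|) * C ^ n) * |(m p.1 i : ℝ)| :=
            mul_le_mul_of_nonneg_right (hrc p) (abs_nonneg _)
        _ = _ := by ring
    refine h2.trans ?_
    rw [← sum_mul]
    exact mul_le_mul_of_nonneg_right (hTi i) (pow_pos hC0 n).le)
  have h3 : (d : ℝ) * ∑ w ∈ Λ, (x w : ℝ) * mz (ar n w) =
      ∑ v ∈ gps Λ, (∑ i, (RI Λ x m v i : ℝ) * θ i) * mz (ar n v) := by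
    rw [expandV (StF_mz (show 2 ≤ n by omega)) Λ hΛ (fun w => (x w : ℝ)), mul_sum]
    refine sum_congr rfl fun v _ => ?_
    rw [RC_mz Λ hΛ _ v, ← RI_RC Λ x m θ cv d hm v]
    ring
  rw [← h3, abs_mul, abs_of_pos (by linarith : (0 : ℝ) < d)] at h1
  have hd0 : (0 : ℝ) < d := by linarith
  have hB0 : 0 < B := by linarith
  have h4 : (B ^ n)⁻¹ / d < |∑ w ∈ Λ, (x w : ℝ) * mz (ar n w)| := by
    rw [div_lt_iff₀ hd0]
    linarith
  refine lt_of_le_of_lt ?_ h4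
  rw [div_eq_mul_inv, ← mul_inv, mul_pow]
  refine inv_anti₀ (by positivity) ?_
  have h5 : (d : ℝ) ^ 1 ≤ (d : ℝ) ^ n := pow_le_pow_right₀ hdR (by omega)
  rw [pow_one] at h5
  exact mul_le_mul_of_nonneg_left h5 (by positivity)

theorem poly_exp {ι : Type} [Fintype ι] (θ : ι → ℝ) (hθ : LM θ) {ℰ : Type} [Fintype ℰ]
    (M : ℰ → List (List (ℕ × ℕ))) (hM : ∀ e, ∀ u ∈ M e, AdmW u) (d : ℕ) (hd : 0 < d) (m : List (ℕ × ℕ) → ι → ℤ)
    (hm : ∀ p ∈ prs (wds M), (d : ℝ) * cv p.1 = ∑ i, (m p.1 i : ℝ) * θ i) :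
    ∃ B C : ℝ, 1 < B ∧ 1 < C ∧ ∃ n0 : ℕ, ∀ n, n0 ≤ n → ∀ c : ℰ → ℤ, (∀ e, |(c e : ℝ)| ≤ C ^ n) →
      (∃ v i, RI (wds M) (cw M c) m v i ≠ 0) →
      (B ^ n)⁻¹ < |∑ e, (c e : ℝ) * ((M e).map fun u => mz (ar n u)).prod| := by
  classical
  have hΛ : ∀ w ∈ wds M, AdmW w := by
    intro w hw
    obtain ⟨e, he⟩ := mem_wds.1 hw
    exact stl_AdmW (M e) (hM e) w he
  obtain ⟨B, C1, hB, hC1, n1, h⟩ := prefix_exp θ hθ (wds M) hΛ d hd m hm
  set T : ℝ := 1 + ∑ e, ((stl (M e)).length : ℝ) with hT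
  obtain ⟨C, hC, hCC⟩ : ∃ C : ℝ, 1 < C ∧ C < C1 := exists_between hC1
  have hC0 : 0 < C := by linarith
  have hgrow : ∀ᶠ n : ℕ in atTop, T * C ^ n ≤ C1 ^ n := by
    have h1 : Tendsto (fun n : ℕ => (C1 / C) ^ n) atTop atTop :=
      tendsto_pow_atTop_atTop_of_one_lt ((one_lt_div hC0).2 hCC)
    filter_upwards [h1.eventually (eventually_ge_atTop T)] with n hn
    rw [div_pow, le_div_iff₀ (pow_pos hC0 n)] at hn
    exact hn
  obtain ⟨n2, hn2⟩ := eventually_atTop.1 hgrow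
  refine ⟨B, C, hB, hC, n1 + n2 + 2, fun n hn c hc hv => ?_⟩
  have h1 := h n (by omega) (cw M c) (by
    intro w _
    refine le_trans ?_ (hn2 n (by omega))
    rw [cw]
    push_cast
    refine (abs_sum_le_sum_abs _ _).trans ?_
    have h2 : ∑ e, |(c e : ℝ) * ((stl (M e)).countP (· = w) : ℝ)| ≤ ∑ e, ((stl (M e)).length : ℝ) * C ^ n := by
      refine sum_le_sum fun e _ => ?_
      rw [abs_mul, Nat.abs_cast, mul_comm]
      have h3 : ((stl (M e)).countP (· = w) : ℝ) ≤ ((stl (M e)).length : ℝ) := by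
        exact_mod_cast List.countP_le_length
      exact mul_le_mul h3 (hc e) (abs_nonneg _) (Nat.cast_nonneg _)
    refine h2.trans ?_
    rw [← sum_mul]
    exact mul_le_mul_of_nonneg_right (by linarith) (pow_pos hC0 n).le) hv
  rw [poly_lin M hM (StF_mz (show 2 ≤ n by omega)) (fun e => (c e : ℝ))]
  refine lt_of_lt_of_eq h1 ?_
  congr 1
  exact sum_congr rfl fun w _ => by rw [cw_cast]

end Pool.Agent.Q217.MZ
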