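import Pool.Agent.Q217.MZ.PrefixMain

/-!
# Polynomial relations between multiple zeta values at affine patterns with constant letters (helper217)
-/

set_option autoImplicit false

namespace Pool.Agent.Q217.MZ

open Finset Filter Topology
open Pool.Agent.TH507.WD (mz hr hr_cons hr_nil)
open Pool.Agent.TH507.WG (HP OK ar ar_nil ar_cons st st_OK st_length OK_cons hr_mul stl)
open Pool.Agent.TH507.DS (stI stI_ar)
open Pool.Agent.Y760.PZ (LM)
open Pool.Agent.H337R2 (zr)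

/-! ### families with the stuffle product -/

/-- `z` has the stuffle product for admissible indices -/
def StI {A : Type} [CommRing A] (z : List ℕ → A) : Prop :=
  z [] = 1 ∧ ∀ k l : List ℕ, Pool.Agent.H447R2.MZ.Adm k → Pool.Agent.H447R2.MZ.Adm l →
    z k * z l = ((stI k l).map z).sum

lemma StF_of_StI {A : Type} [CommRing A] {z : List ℕ → A} (hz : StI z) {n : ℕ} (hn : 2 ≤ n) :
    StF fun w => z (ar n w) where
  one := by rw [ar_nil]; exact hz.1
  mul := fun u v hu hv => by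
    rw [hz.2 _ _ (adm_arA hn u hu) (adm_arA hn v hv), stI_ar, List.map_map, stSum]
    rfl

/-! ### constant patterns -/

lemma const_three {u : List (ℕ × ℕ)} (hc : ∀ x ∈ u, x.1 = 0) (ha : AdmW u) (hs : u.sum.2 ≤ 3) :
    u = [] ∨ u = [(0, 2)] ∨ u = [(0, 3)] ∨ u = [(0, 2), (0, 1)] := by
  rcases u with _ | ⟨⟨a, b⟩, l⟩
  · exact Or.inl rfl
  have ha0 : a = 0 := hc (a, b) List.mem_cons_self
  subst ha0
  have hb : 2 ≤ b := ha.2 (0, b) l rfl rfl
  rcases l with _ | ⟨⟨a', b'⟩, l⟩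
  · simp only [List.sum_cons, List.sum_nil, Prod.snd_add, Prod.snd_zero] at hs
    rcases (show b = 2 ∨ b = 3 by omega) with rfl | rfl
    · simp
    · simp
  have ha1 : a' = 0 := hc (a', b') (by simp)
  subst ha1
  have hb1 : 1 ≤ b' := ha.1 (0, b') (by simp) rfl
  rcases l with _ | ⟨⟨a'', b''⟩, l⟩
  · simp only [List.sum_cons, List.sum_nil, Prod.snd_add, Prod.snd_zero] at hs
    obtain ⟨rfl, rfl⟩ : b = 2 ∧ b' = 1 := by omega
    simp
  have ha2 : a'' = 0 := hc (a'', b'') (by simp)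
  have hb2 : 1 ≤ b'' := ha.1 (a'', b'') (by simp) ha2
  simp only [List.sum_cons, Prod.snd_add] at hs
  omega

lemma const_four {u : List (ℕ × ℕ)} (hc : ∀ x ∈ u, x.1 = 0) (ha : AdmW u) (hs : u.sum.2 ≤ 4) :
    u = [] ∨ u = [(0, 2)] ∨ u = [(0, 3)] ∨ u = [(0, 2), (0, 1)] ∨ u = [(0, 4)] ∨ u = [(0, 3), (0, 1)] ∨
      u = [(0, 2), (0, 2)] ∨ u = [(0, 2), (0, 1), (0, 1)] := by
  rcases u with _ | ⟨⟨a, b⟩, l⟩
  · exact Or.inl rfl
  have ha0 : a = 0 := hc (a, b) List.mem_cons_self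
  subst ha0
  have hb : 2 ≤ b := ha.2 (0, b) l rfl rfl
  rcases l with _ | ⟨⟨a', b'⟩, l⟩
  · simp only [List.sum_cons, List.sum_nil, Prod.snd_add, Prod.snd_zero] at hs
    rcases (show b = 2 ∨ b = 3 ∨ b = 4 by omega) with rfl | rfl | rfl
    · simp
    · simp
    · simp
  have ha1 : a' = 0 := hc (a', b') (by simp)
  subst ha1
  have hb1 : 1 ≤ b' := ha.1 (0, b') (by simp) rfl
  rcases l with _ | ⟨⟨a'', b''⟩, l⟩
  · simp only [List.sum_cons, List.sum_nil, Prod.snd_add, Prod.snd_zero] at hs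
    rcases (show (b = 2 ∧ b' = 1) ∨ (b = 2 ∧ b' = 2) ∨ (b = 3 ∧ b' = 1) by omega) with ⟨rfl, rfl⟩ | ⟨rfl, rfl⟩ | ⟨rfl, rfl⟩
    · simp
    · simp
    · simp
  have ha2 : a'' = 0 := hc (a'', b'') (by simp)
  subst ha2
  have hb2 : 1 ≤ b'' := ha.1 (0, b'') (by simp) rfl
  rcases l with _ | ⟨⟨a3, b3⟩, l⟩
  · simp only [List.sum_cons, List.sum_nil, Prod.snd_add, Prod.snd_zero] at hs
    obtain ⟨rfl, rfl, rfl⟩ : b = 2 ∧ b' = 1 ∧ b'' = 1 := by omega
    simp
  have ha3 : a3 = 0 := hc (a3, b3) (by simp)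
  have hb3 : 1 ≤ b3 := ha.1 (a3, b3) (by simp) ha3
  simp only [List.sum_cons, Prod.snd_add] at hs
  omega

lemma admL {a : ℕ} {t : List ℕ} (ha : 2 ≤ a) (ht : ∀ c ∈ t, 1 ≤ c) : Pool.Agent.H447R2.MZ.Adm (a :: t) :=
  Pool.Agent.ZF.W4a.adm_cons a t ha ht

lemma mz_zr (s : ℕ) : mz [s] = zr s := by
  rw [mz, zr]
  refine tsum_congr fun k => ?_
  rw [hr_nil]
  push_cast
  rfl

lemma mz_21 : mz [2, 1] = mz [3] := by
  rw [mz_val _ (admL le_rfl (by simp)), mz_val _ (admL (by norm_num) (by simp)), Pool.Agent.ZF.W4a.val_21]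

lemma mz_211 : mz [2, 1, 1] = mz [4] := by
  rw [mz_val _ (admL le_rfl (by simp)), mz_val _ (admL (by norm_num) (by simp)), Pool.Agent.ZF.W4a.val_211]

lemma mz_31 : 4 * mz [3, 1] = mz [4] := by
  rw [mz_val _ (admL (by norm_num) (by simp)), mz_val _ (admL (by norm_num) (by simp))]
  have h1 := Pool.Agent.ZF.W4a.val_22
  have h2 := Pool.Agent.ZF.W4a.val_31
  linarith

lemma mz_two_val : mz [2] = Real.pi ^ 2 / 6 := by
  rw [mz_zr]
  exact Pool.Agent.LZ.Z2_value

lemma mz_four_val : mz [4] = Real.pi ^ 4 / 90 := by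
  rw [mz_zr]
  exact Pool.Agent.ZF.Mea.zr4_eq

lemma mz_22 : 4 * mz [2, 2] = 3 * mz [4] := by
  have h1 := Pool.Agent.ZF.W4a.val_22
  rw [← mz_val _ (admL le_rfl (by simp)), ← mz_val _ (admL le_rfl (by simp)),
    ← mz_val _ (admL (by norm_num) (by simp)), mz_two_val, mz_four_val] at h1
  rw [mz_four_val]
  linarith

/-- coordinates of the constants of weight at most three -/
def m3 (u : List (ℕ × ℕ)) : Fin 3 → ℤ :=
  if u = [] then ![1, 0, 0] else if u = [(0, 2)] then ![0, 1, 0] else ![0, 0, 1]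

lemma m3_eval {A : Type} [CommRing A] (z : List ℕ → A) (h0 : z [] = 1) (h21 : z [2, 1] = z [3])
    {u : List (ℕ × ℕ)} (hc : ∀ x ∈ u, x.1 = 0) (ha : AdmW u) (hs : u.sum.2 ≤ 3) :
    z (u.map Prod.snd) = ∑ i, (m3 u i : A) * ![1, z [2], z [3]] i := by
  rw [Fin.sum_univ_three]
  rcases const_three hc ha hs with rfl | rfl | rfl | rfl
  · simp [m3, h0]
  · simp [m3]
  · simp [m3]
  · simp [m3, h21]

/-- coordinates of the constants of weight at most four with respect to the zeta values of the same weight -/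
def q4 (u : List (ℕ × ℕ)) : ℤ :=
  if u = [(0, 3), (0, 1)] then 1 else if u = [(0, 2), (0, 2)] then 3 else 4

/-- the zeta value of weight `k`, in the family `z` -/
def zb {A : Type} [CommRing A] (z : List ℕ → A) (k : ℕ) : A := if k = 0 then 1 else z [k]

lemma q4_eval {A : Type} [CommRing A] (z : List ℕ → A) (h0 : z [] = 1) (h21 : z [2, 1] = z [3])
    (h31 : 4 * z [3, 1] = z [4]) (h22 : 4 * z [2, 2] = 3 * z [4]) (h211 : z [2, 1, 1] = z [4])
    {u : List (ℕ × ℕ)} (hc : ∀ x ∈ u, x.1 = 0) (ha : AdmW u) (hs : u.sum.2 ≤ 4) :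
    4 * z (u.map Prod.snd) = (q4 u : A) * zb z u.sum.2 := by
  rcases const_four hc ha hs with rfl | rfl | rfl | rfl | rfl | rfl | rfl | rfl
  · simp [q4, zb, h0]
  · simp [q4, zb]
  · simp [q4, zb]
  · simp [q4, zb, h21]
  · simp [q4, zb]
  · simp [q4, zb, h31]
  · simp [q4, zb, h22]
  · simp [q4, zb, h211]

lemma zb_ne (k : ℕ) (hk : k ≠ 1) : zb mz k ≠ 0 := by
  rw [zb]
  split_ifs with h
  · exact one_ne_zero
  · have hA := admL (a := k) (t := []) (by omega) (by simp)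
    have h1 := (Pool.Agent.H447R2.MZ.val_single k (by omega)).tsum_eq
    rw [mz_val _ hA, ← h1]
    exact (Pool.Agent.H447R2.MZ.zeta_pos k (by omega)).ne'

lemma sum_ne_one {u : List (ℕ × ℕ)} (hc : ∀ x ∈ u, x.1 = 0) (ha : AdmW u) : u.sum.2 ≠ 1 := by
  rcases u with _ | ⟨⟨a, b⟩, l⟩
  · simp
  have ha0 : a = 0 := hc (a, b) List.mem_cons_self
  have hb : 2 ≤ b := ha.2 (a, b) l rfl ha0
  rw [List.sum_cons, Prod.snd_add]
  simp only
  omega

/-! ### polynomials -/

/-- the list of the factors of a monomial -/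
def mono {k D : ℕ} (w : Fin k → List (ℕ × ℕ)) (e : Fin k → Fin (D + 1)) : List (List (ℕ × ℕ)) :=
  (List.ofFn fun i => List.replicate (e i : ℕ) (w i)).flatten

lemma mono_prod {k D : ℕ} (w : Fin k → List (ℕ × ℕ)) (e : Fin k → Fin (D + 1)) {A : Type} [CommMonoid A]
    (F : List (ℕ × ℕ) → A) : ((mono w e).map F).prod = ∏ i, F (w i) ^ (e i : ℕ) := by
  rw [mono, List.map_flatten, List.prod_flatten, List.map_map, List.map_ofFn, List.prod_ofFn]
  refine prod_congr rfl fun i _ => ?_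
  simp

lemma mono_sum {k D : ℕ} (w : Fin k → List (ℕ × ℕ)) (e : Fin k → Fin (D + 1)) {A : Type} [AddCommMonoid A]
    (F : List (ℕ × ℕ) → A) : ((mono w e).map F).sum = ∑ i, (e i : ℕ) • F (w i) := by
  rw [mono, List.map_flatten, List.sum_flatten, List.map_map, List.map_ofFn, List.sum_ofFn]
  refine sum_congr rfl fun i _ => ?_
  simp

lemma mem_mono {k D : ℕ} {w : Fin k → List (ℕ × ℕ)} {e : Fin k → Fin (D + 1)} {u : List (ℕ × ℕ)}
    (h : u ∈ mono w e) : ∃ i, u = w i := by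
  rw [mono, List.mem_flatten] at h
  obtain ⟨L, hL, hu⟩ := h
  rw [List.mem_ofFn] at hL
  obtain ⟨i, rfl⟩ := hL
  exact ⟨i, List.eq_of_mem_replicate hu⟩

/-- the exponents of a monomial of degree at most `D` -/
noncomputable def ex {k D : ℕ} (e : Fin k → Fin (D + 1)) : Fin k →₀ ℕ := Finsupp.equivFunOnFinite.symm fun i => (e i : ℕ)

lemma ex_apply {k D : ℕ} (e : Fin k → Fin (D + 1)) (i : Fin k) : ex e i = (e i : ℕ) := rfl

lemma ex_inj {k D : ℕ} : Function.Injective (ex : (Fin k → Fin (D + 1)) → _) := by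
  intro e e' h
  funext i
  exact Fin.ext (by rw [← ex_apply, ← ex_apply, h])

lemma aeval_sum {k D : ℕ} (P : (Fin k → Fin (D + 1)) → Prop) [DecidablePred P] (f : MvPolynomial (Fin k) ℤ)
    (hf : f.totalDegree ≤ D) (hP : ∀ e : Fin k → Fin (D + 1), f.coeff (ex e) ≠ 0 → P e) {A : Type} [CommRing A]
    (g : Fin k → A) :
    MvPolynomial.aeval g f = ∑ e : {e // P e}, ((f.coeff (ex e.1) : ℤ) : A) * ∏ i, g i ^ (e.1 i : ℕ) := by
  classical
  rw [MvPolynomial.aeval_eq_eval₂Hom, MvPolynomial.coe_eval₂Hom, MvPolynomial.eval₂_eq']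
  have h1 : ∀ s ∈ f.support, ∃ e : {e // P e}, ex e.1 = s := by
    intro s hs
    have h2 : ∀ i, s i < D + 1 := by
      intro i
      have h3 := MvPolynomial.le_totalDegree hs
      have h4 : s i ≤ s.sum fun _ e => e := by
        by_cases hi : i ∈ s.support
        · exact single_le_sum (f := fun i => s i) (fun _ _ => Nat.zero_le _) hi
        · rw [Finsupp.notMem_support_iff.1 hi]
          exact Nat.zero_le _
      omega
    have h5 : ex (fun i => (⟨s i, h2 i⟩ : Fin (D + 1))) = s := by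
      ext i
      rw [ex_apply]
    exact ⟨⟨_, hP _ (by rw [h5]; exact MvPolynomial.mem_support_iff.1 hs)⟩, h5⟩
  have h6 : ∑ s ∈ f.support, (algebraMap ℤ A) (f.coeff s) * ∏ i, g i ^ s i =
      ∑ s ∈ (univ : Finset {e // P e}).image (fun e => ex e.1), (algebraMap ℤ A) (f.coeff s) * ∏ i, g i ^ s i := by
    refine sum_subset (fun s hs => ?_) fun s _ hs => ?_
    · obtain ⟨e, he⟩ := h1 s hs
      exact mem_image.2 ⟨e, mem_univ _, he⟩
    · rw [MvPolynomial.notMem_support_iff.1 hs, map_zero, zero_mul]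
  rw [h6, sum_image fun e _ e' _ h => Subtype.ext (ex_inj h)]
  refine sum_congr rfl fun e _ => ?_
  rw [algebraMap_int_eq, eq_intCast]
  rfl

end Pool.Agent.Q217.MZ
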