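import Pool.Agent.Q217.MZ.Affine

/-!
# Multiple zeta values with affine arguments, arbitrary real coefficients (helper217)
-/

set_option autoImplicit false

namespace Pool.Agent.Q217.MZ

open Finset Filter Topology
open Pool.Agent.TH507.WD (mz)
open Pool.Agent.TH507.WG (HP OK ar cf cf_zero cf_bd cf1_ind dser_eq_mz stl stl_ok T_nil)
open Pool.Agent.TH507.DS (coM expandM wtM stl_wt wt)
open Pool.Agent.TH507.ZS (dser PB)

/-- real Dirichlet series -/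
noncomputable def rser (a : ℕ → ℝ) (n : ℕ) : ℝ := ∑' k : ℕ, a (k + 1) / ((k + 1 : ℕ) : ℝ) ^ n

lemma sq_summable (m : ℕ) : Summable fun k : ℕ => 1 / ((k + m + 1 : ℕ) : ℝ) ^ 2 := by
  have h := (Real.summable_one_div_nat_pow (p := 2)).2 (by norm_num)
  exact (summable_nat_add_iff (f := fun k : ℕ => 1 / ((k : ℕ) : ℝ) ^ 2) (m + 1)).2 h |>.congr fun k => by
    rw [show k + (m + 1) = k + m + 1 by ring]

lemma rser_term {a : ℕ → ℝ} {A n m : ℕ} (hA : ∀ k, 1 ≤ k → |a k| ≤ A * (k : ℝ) ^ A) (hn : A + 2 ≤ n) (k : ℕ) :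
    |a (k + m + 1) / ((k + m + 1 : ℕ) : ℝ) ^ n| ≤
      A * (((m + 1 : ℕ) : ℝ) ^ (n - A - 2))⁻¹ * (1 / ((k + m + 1 : ℕ) : ℝ) ^ 2) := by
  have hk : (0 : ℝ) < ((k + m + 1 : ℕ) : ℝ) := by positivity
  have hmk : (((m + 1 : ℕ) : ℝ)) ≤ ((k + m + 1 : ℕ) : ℝ) := by
    exact_mod_cast (by omega : m + 1 ≤ k + m + 1)
  have hm : (0 : ℝ) < ((m + 1 : ℕ) : ℝ) := by positivity
  rw [abs_div, abs_of_pos (pow_pos hk n)]
  have h1 := hA (k + m + 1) (by omega)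
  calc |a (k + m + 1)| / ((k + m + 1 : ℕ) : ℝ) ^ n ≤
      (A * ((k + m + 1 : ℕ) : ℝ) ^ A) / ((k + m + 1 : ℕ) : ℝ) ^ n := by gcongr
    _ = A * (((k + m + 1 : ℕ) : ℝ) ^ (n - A - 2))⁻¹ * (1 / ((k + m + 1 : ℕ) : ℝ) ^ 2) := by
      have e : ((k + m + 1 : ℕ) : ℝ) ^ n = ((k + m + 1 : ℕ) : ℝ) ^ A * (((k + m + 1 : ℕ) : ℝ) ^ (n - A - 2) *
          ((k + m + 1 : ℕ) : ℝ) ^ 2) := by
        rw [← pow_add, ← pow_add]
        congr 1
        omega
      rw [e]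
      field_simp
    _ ≤ _ := by
      gcongr

lemma rser_summable {a : ℕ → ℝ} {A n : ℕ} (hA : ∀ k, 1 ≤ k → |a k| ≤ A * (k : ℝ) ^ A) (hn : A + 2 ≤ n) :
    Summable fun k : ℕ => a (k + 1) / ((k + 1 : ℕ) : ℝ) ^ n := by
  refine Summable.of_abs (Summable.of_nonneg_of_le (fun _ => abs_nonneg _) (fun k => ?_)
    ((sq_summable 0).mul_left (A * (((0 + 1 : ℕ) : ℝ) ^ (n - A - 2))⁻¹)))
  exact rser_term (m := 0) hA hn k

/-- the first nonvanishing coefficient determines the size -/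
theorem rser_asym {a : ℕ → ℝ} {A m : ℕ} (hA : ∀ k, 1 ≤ k → |a k| ≤ A * (k : ℝ) ^ A) (hm1 : 1 ≤ m)
    (h0 : ∀ k, 1 ≤ k → k < m → a k = 0) (hm : a m ≠ 0) :
    ∃ n0 : ℕ, ∀ n, n0 ≤ n → |a m| / 2 * ((m : ℝ) ^ n)⁻¹ < |rser a n| := by
  obtain ⟨m, rfl⟩ : ∃ m', m = m' + 1 := ⟨m - 1, by omega⟩
  set S : ℝ := ∑' k : ℕ, 1 / ((k + (m + 1) + 1 : ℕ) : ℝ) ^ 2 with hS
  have hS0 : 0 ≤ S := tsum_nonneg fun _ => by positivity
  have hpos : 0 < |a (m + 1)| := abs_pos.2 hm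
  -- the growth
  have hr : (1 : ℝ) < ((m + 2 : ℕ) : ℝ) / ((m + 1 : ℕ) : ℝ) := by
    rw [one_lt_div (by positivity)]
    exact_mod_cast (by omega : m + 1 < m + 2)
  have htend := tendsto_pow_atTop_atTop_of_one_lt hr
  obtain ⟨n1, hn1⟩ := eventually_atTop.1
    (htend.eventually (eventually_gt_atTop (2 * (A * ((m + 2 : ℕ) : ℝ) ^ (A + 2) * S) / |a (m + 1)|)))
  refine ⟨n1 + A + 2, fun n hn => ?_⟩
  have h1 := hn1 n (by omega)
  have hsum := rser_summable hA (show A + 2 ≤ n by omega)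
  have hsplit := hsum.sum_add_tsum_nat_add (m + 1)
  have hfin : ∑ k ∈ range (m + 1), a (k + 1) / ((k + 1 : ℕ) : ℝ) ^ n = a (m + 1) / ((m + 1 : ℕ) : ℝ) ^ n := by
    rw [sum_range_succ, sum_eq_zero, zero_add]
    intro k hk
    rw [mem_range] at hk
    rw [h0 (k + 1) (by omega) (by omega), zero_div]
  have htail : |∑' k : ℕ, a (k + (m + 1) + 1) / ((k + (m + 1) + 1 : ℕ) : ℝ) ^ n| ≤
      A * (((m + 2 : ℕ) : ℝ) ^ (n - A - 2))⁻¹ * S := by
    have hb : ∀ k : ℕ, |a (k + (m + 1) + 1) / ((k + (m + 1) + 1 : ℕ) : ℝ) ^ n| ≤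
        A * (((m + 2 : ℕ) : ℝ) ^ (n - A - 2))⁻¹ * (1 / ((k + (m + 1) + 1 : ℕ) : ℝ) ^ 2) := fun k =>
      rser_term (m := m + 1) hA (by omega) k
    have hs2 : Summable fun k : ℕ => A * (((m + 2 : ℕ) : ℝ) ^ (n - A - 2))⁻¹ *
        (1 / ((k + (m + 1) + 1 : ℕ) : ℝ) ^ 2) := (sq_summable (m + 1)).mul_left _
    have h3 := tsum_of_norm_bounded hs2.hasSum (fun k => by rw [Real.norm_eq_abs]; exact hb k)
    rw [Real.norm_eq_abs, tsum_mul_left] at h3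
    exact h3
  have hkey : A * (((m + 2 : ℕ) : ℝ) ^ (n - A - 2))⁻¹ * S < |a (m + 1)| / 2 * (((m + 1 : ℕ) : ℝ) ^ n)⁻¹ := by
    have e1 : (((m + 2 : ℕ) : ℝ) ^ (n - A - 2))⁻¹ = ((m + 2 : ℕ) : ℝ) ^ (A + 2) * (((m + 2 : ℕ) : ℝ) ^ n)⁻¹ := by
      have e2 : ((m + 2 : ℕ) : ℝ) ^ n = ((m + 2 : ℕ) : ℝ) ^ (A + 2) * ((m + 2 : ℕ) : ℝ) ^ (n - A - 2) := by
        rw [← pow_add]
        congr 1
        omega
      rw [e2]
      field_simp
    rw [e1]
    rw [div_pow, div_lt_iff₀ hpos, div_mul_eq_mul_div, lt_div_iff₀ (by positivity)] at h1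
    have hp1 : (0 : ℝ) < ((m + 1 : ℕ) : ℝ) ^ n := by positivity
    have hp2 : (0 : ℝ) < ((m + 2 : ℕ) : ℝ) ^ n := by positivity
    rw [← div_eq_mul_inv (|a (m + 1)| / 2), lt_div_iff₀ hp1]
    have e3 : A * (((m + 2 : ℕ) : ℝ) ^ (A + 2) * (((m + 2 : ℕ) : ℝ) ^ n)⁻¹) * S * ((m + 1 : ℕ) : ℝ) ^ n =
        (A * ((m + 2 : ℕ) : ℝ) ^ (A + 2) * S * ((m + 1 : ℕ) : ℝ) ^ n) / ((m + 2 : ℕ) : ℝ) ^ n := by
      field_simp
    rw [e3, div_lt_iff₀ hp2]
    linarith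
  have htot : rser a n = a (m + 1) / ((m + 1 : ℕ) : ℝ) ^ n +
      ∑' k : ℕ, a (k + (m + 1) + 1) / ((k + (m + 1) + 1 : ℕ) : ℝ) ^ n := by
    rw [rser, ← hsplit, hfin]
  rw [htot]
  have h4 : |a (m + 1) / ((m + 1 : ℕ) : ℝ) ^ n| = |a (m + 1)| * (((m + 1 : ℕ) : ℝ) ^ n)⁻¹ := by
    rw [abs_div, abs_of_pos (by positivity : (0 : ℝ) < ((m + 1 : ℕ) : ℝ) ^ n), div_eq_mul_inv]
  have h5 := abs_add_le (a (m + 1) / ((m + 1 : ℕ) : ℝ) ^ n +
    ∑' k : ℕ, a (k + (m + 1) + 1) / ((k + (m + 1) + 1 : ℕ) : ℝ) ^ n)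
    (-∑' k : ℕ, a (k + (m + 1) + 1) / ((k + (m + 1) + 1 : ℕ) : ℝ) ^ n)
  rw [add_neg_cancel_right, abs_neg, h4] at h5
  linarith

/-- independence over the real numbers follows from independence over the rational numbers -/
lemma real_ind {J : Type} [Fintype J] (G : J → ℕ → ℚ)
    (hind : ∀ c : J → ℚ, (∀ k, 1 ≤ k → ∑ j, c j * G j k = 0) → c = 0) (x : J → ℝ)
    (hx : ∀ k, 1 ≤ k → ∑ j, x j * (G j k : ℝ) = 0) : x = 0 := by
  funext j
  rw [Pi.zero_apply, ← Module.forall_dual_apply_eq_zero_iff ℚ]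
  intro φ
  have h1 := hind (fun j => φ (x j)) (by
    intro k hk
    have h2 := congrArg φ (hx k hk)
    rw [map_zero, map_sum] at h2
    rw [← h2]
    refine sum_congr rfl fun j _ => ?_
    have h3 : x j * (G j k : ℝ) = (G j k) • (x j) := by
      rw [Rat.smul_def, mul_comm]
    rw [h3, map_smul, smul_eq_mul, mul_comm])
  exact congrFun h1 j

lemma rser_lin {J : Type} [Fintype J] (G : J → ℕ → ℚ) {A : ℕ}
    (hA : ∀ j, ∀ k, 1 ≤ k → |(G j k : ℝ)| ≤ A * (k : ℝ) ^ A) (x : J → ℝ) {n : ℕ} (hn : A + 2 ≤ n) :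
    ∑ j, x j * dser (G j) n = rser (fun k => ∑ j, x j * (G j k : ℝ)) n := by
  have hs : ∀ j ∈ (univ : Finset J), Summable fun k : ℕ => x j * ((G j (k + 1) : ℝ) / ((k + 1 : ℕ) : ℝ) ^ n) :=
    fun j _ => (rser_summable (a := fun k => (G j k : ℝ)) (hA j) hn).mul_left _
  rw [rser]
  have e : ∀ k : ℕ, (∑ j, x j * (G j (k + 1) : ℝ)) / ((k + 1 : ℕ) : ℝ) ^ n =
      ∑ j, x j * ((G j (k + 1) : ℝ) / ((k + 1 : ℕ) : ℝ) ^ n) := by
    intro k
    rw [sum_div]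
    exact sum_congr rfl fun j _ => by rw [mul_div_assoc]
  simp only [e]
  rw [Summable.tsum_finsetSum hs]
  exact sum_congr rfl fun j _ => by rw [dser, tsum_mul_left]

/-- real coefficients: the value is of exact exponential order, or all coefficients vanish -/
theorem core_r {J : Type} [Fintype J] (G : J → ℕ → ℚ)
    (hG : ∀ j, ∃ A : ℕ, ∀ k, 1 ≤ k → |(G j k : ℝ)| ≤ A * (k : ℝ) ^ A)
    (hind : ∀ c : J → ℚ, (∀ k, 1 ≤ k → ∑ j, c j * G j k = 0) → c = 0) (x : J → ℝ) (hx : x ≠ 0) :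
    ∃ (c : ℝ) (N : ℕ), 0 < c ∧ 1 ≤ N ∧ ∃ n0 : ℕ, ∀ n, n0 ≤ n → c * ((N : ℝ) ^ n)⁻¹ < |∑ j, x j * dser (G j) n| := by
  classical
  choose B hB using hG
  set A : ℕ := ∑ j, B j with hAd
  have hA : ∀ j, ∀ k, 1 ≤ k → |(G j k : ℝ)| ≤ A * (k : ℝ) ^ A := by
    intro j k hk
    have hk1 : (1 : ℝ) ≤ k := by exact_mod_cast hk
    have hBA : B j ≤ A := single_le_sum (f := B) (fun _ _ => Nat.zero_le _) (mem_univ j)
    refine (hB j k hk).trans ?_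
    have h1 : ((B j : ℕ) : ℝ) ≤ A := by exact_mod_cast hBA
    have h2 : (k : ℝ) ^ B j ≤ (k : ℝ) ^ A := pow_le_pow_right₀ hk1 hBA
    gcongr
  have hex : ∃ k, 1 ≤ k ∧ ∑ j, x j * (G j k : ℝ) ≠ 0 := by
    by_contra hcon
    push Not at hcon
    exact hx (real_ind G hind x fun k hk => hcon k hk)
  set N := Nat.find hex with hN
  obtain ⟨hN1, hN0⟩ := Nat.find_spec hex
  -- polynomial growth of the combination
  set X : ℝ := ∑ j, |x j| with hX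
  have hX0 : 0 ≤ X := sum_nonneg fun _ _ => abs_nonneg _
  set A' : ℕ := A + ⌈X * A⌉₊ with hA'
  have hgr : ∀ k, 1 ≤ k → |∑ j, x j * (G j k : ℝ)| ≤ A' * (k : ℝ) ^ A' := by
    intro k hk
    have hk1 : (1 : ℝ) ≤ k := by exact_mod_cast hk
    have h1 : |∑ j, x j * (G j k : ℝ)| ≤ X * (A * (k : ℝ) ^ A) := by
      rw [hX, sum_mul]
      refine (abs_sum_le_sum_abs _ _).trans (sum_le_sum fun j _ => ?_)
      rw [abs_mul]
      exact mul_le_mul_of_nonneg_left (hA j k hk) (abs_nonneg _)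
    have h2 : X * A ≤ A' := by
      rw [hA']
      push_cast
      have := Nat.le_ceil (X * A)
      have hA0 : (0 : ℝ) ≤ A := Nat.cast_nonneg _
      linarith
    calc |∑ j, x j * (G j k : ℝ)| ≤ (X * A) * (k : ℝ) ^ A := by rw [mul_assoc]; exact h1
      _ ≤ A' * (k : ℝ) ^ A' := by
        have h3 : (k : ℝ) ^ A ≤ (k : ℝ) ^ A' := pow_le_pow_right₀ hk1 (by omega)
        gcongr
  obtain ⟨n0, hn0⟩ := rser_asym (a := fun k => ∑ j, x j * (G j k : ℝ)) hgr hN1 (by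
    intro k hk1 hk2
    by_contra hne
    exact Nat.find_min hex hk2 ⟨hk1, hne⟩) hN0
  refine ⟨_, N, half_pos (abs_pos.2 hN0), hN1, n0 + A + 2, fun n hn => ?_⟩
  rw [rser_lin G hA x (by omega)]
  exact hn0 n (by omega)

/-- the coefficient of a word in the stuffle expansion, real coefficients -/
noncomputable def coR (𝓜 : Finset (List (List (ℕ × ℕ)))) (x : List (List (ℕ × ℕ)) → ℝ)
    (w : List (ℕ × ℕ)) : ℝ := ∑ M ∈ 𝓜, x M * ((stl M).countP (· = w) : ℝ)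

/-- the expansion of a product -/
lemma expand_one {n : ℕ} (M : List (List (ℕ × ℕ))) (hM : ∀ u ∈ M, HP u ∧ OK u)
    (hn : (M.map List.length).sum + 1 ≤ n) (s : Finset (List (ℕ × ℕ))) (hs : ∀ w ∈ stl M, w ∈ s) :
    (M.map fun u => mz (ar n u)).prod = ∑ w ∈ s, ((stl M).countP (· = w) : ℝ) * mz (ar n w) := by
  have h1 := expandM (n := n) {M} (fun M' h => by rw [mem_singleton] at h; rw [h]; exact hM)
    (fun M' h => by rw [mem_singleton] at h; rw [h]; exact hn) (fun _ => 1) s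
    (fun M' h => by rw [mem_singleton] at h; rw [h]; exact hs)
  simp only [sum_singleton, Int.cast_one, one_mul, coM] at h1
  rw [h1]
  refine sum_congr rfl fun w _ => ?_
  push_cast
  rfl

lemma expandR {n : ℕ} (𝓜 : Finset (List (List (ℕ × ℕ)))) (hM : ∀ M ∈ 𝓜, ∀ u ∈ M, HP u ∧ OK u)
    (hn : ∀ M ∈ 𝓜, (M.map List.length).sum + 1 ≤ n) (x : List (List (ℕ × ℕ)) → ℝ)
    (s : Finset (List (ℕ × ℕ))) (hs : ∀ M ∈ 𝓜, ∀ w ∈ stl M, w ∈ s) :
    ∑ M ∈ 𝓜, x M * (M.map fun u => mz (ar n u)).prod = ∑ w ∈ s, coR 𝓜 x w * mz (ar n w) := by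
  have h1 : ∀ M ∈ 𝓜, x M * (M.map fun u => mz (ar n u)).prod =
      ∑ w ∈ s, x M * (((stl M).countP (· = w) : ℝ) * mz (ar n w)) := by
    intro M hM'
    rw [expand_one M (hM M hM') (hn M hM') s (hs M hM'), mul_sum]
  rw [sum_congr rfl h1, sum_comm]
  refine sum_congr rfl fun w _ => ?_
  rw [coR, sum_mul]
  exact sum_congr rfl fun M _ => by ring

/-- **real coefficients** -/
theorem real_affine (𝓜 : Finset (List (List (ℕ × ℕ)))) (hM : ∀ M ∈ 𝓜, ∀ u ∈ M, HP u ∧ OK u)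
    (x : List (List (ℕ × ℕ)) → ℝ) (hx : ∃ w, coR 𝓜 x w ≠ 0) :
    ∃ (c : ℝ) (N : ℕ), 0 < c ∧ 1 ≤ N ∧ ∃ n0 : ℕ, ∀ n, n0 ≤ n →
      c * ((N : ℝ) ^ n)⁻¹ < |∑ M ∈ 𝓜, x M * (M.map fun u => mz (ar n u)).prod| := by
  classical
  set Λ : Finset (List (ℕ × ℕ)) := 𝓜.biUnion fun M => (stl M).toFinset with hΛ
  have hmem : ∀ M ∈ 𝓜, ∀ w ∈ stl M, w ∈ Λ := fun M hM w hw =>
    mem_biUnion.2 ⟨M, hM, List.mem_toFinset.2 hw⟩
  have hLa : ∀ w ∈ Λ, HP w ∧ OK w := by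
    intro w hw
    obtain ⟨M, hM', hw⟩ := mem_biUnion.1 hw
    have h1 := stl_ok M (hM M hM') w (List.mem_toFinset.1 hw)
    exact ⟨h1.1, h1.2.1⟩
  set A : ℕ := ∑ w ∈ Λ, (2 ^ w.length + w.length) with hA
  have hAw : ∀ w ∈ Λ, 2 ^ w.length + w.length ≤ A := fun w hw =>
    single_le_sum (f := fun w : List (ℕ × ℕ) => 2 ^ w.length + w.length)
      (fun _ _ => Nat.zero_le _) hw
  obtain ⟨w0, hw0⟩ := hx
  have hw0Λ : w0 ∈ Λ := by
    by_contra hcon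
    apply hw0
    rw [coR]
    refine sum_eq_zero fun M hM' => ?_
    have h2 : (stl M).countP (· = w0) = 0 := by
      rw [List.countP_eq_zero]
      intro v hv hvw
      rw [decide_eq_true_eq] at hvw
      subst hvw
      exact hcon (hmem M hM' v hv)
    rw [h2, Nat.cast_zero, mul_zero]
  obtain ⟨c, N, hc, hN, n0, h⟩ := core_r (J := Λ) (fun w => cfb w.1)
    (fun w => ⟨A, fun k hk => cf_bd w.1 ((Nat.le_add_right _ _).trans (hAw w.1 w.2))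
      ((Nat.le_add_left _ _).trans (hAw w.1 w.2)) k hk⟩)
    (ind_words Λ (fun w hw => (hLa w hw).1) (fun w hw => (hLa w hw).2)) (fun w => coR 𝓜 x w.1) (by
      intro hcon
      exact hw0 (congrFun hcon ⟨w0, hw0Λ⟩))
  refine ⟨c, N, hc, hN, n0 + A + 2 + ∑ M ∈ 𝓜, ((M.map List.length).sum + 1), fun n hn => ?_⟩
  have hlen : ∀ M ∈ 𝓜, (M.map List.length).sum + 1 ≤ n := fun M hM' => by
    have := single_le_sum (f := fun M : List (List (ℕ × ℕ)) => (M.map List.length).sum + 1)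
      (fun _ _ => Nat.zero_le _) hM'
    omega
  have h3 : ∀ w : Λ, dser (cfb w.1) n = mz (ar n w.1) := fun w =>
    dser_eq_mz w.1 (hLa w.1 w.2).1 (A := A) ((Nat.le_add_right _ _).trans (hAw w.1 w.2))
      ((Nat.le_add_left _ _).trans (hAw w.1 w.2)) (by omega)
  have h4 := h n (by omega)
  simp only [h3] at h4
  rw [expandR 𝓜 hM hlen x Λ hmem, ← sum_coe_sort Λ (fun w => coR 𝓜 x w * mz (ar n w))]
  exact h4

/-- if all the coefficients vanish, all the parts of fixed weight vanish -/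
theorem partsR (𝓜 : Finset (List (List (ℕ × ℕ)))) (hM : ∀ M ∈ 𝓜, ∀ u ∈ M, HP u ∧ OK u)
    (x : List (List (ℕ × ℕ)) → ℝ) (h : ∀ w, coR 𝓜 x w = 0) {m : ℕ}
    (hm : ∀ M ∈ 𝓜, (M.map List.length).sum + 1 ≤ m) (p : ℕ) :
    ∑ M ∈ 𝓜 with wtM m M = p, x M * (M.map fun u => mz (ar m u)).prod = 0 := by
  classical
  set Λ : Finset (List (ℕ × ℕ)) := 𝓜.biUnion fun M => (stl M).toFinset with hΛ
  have hmem : ∀ M ∈ 𝓜, ∀ w ∈ stl M, w ∈ Λ := fun M hM w hw =>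
    mem_biUnion.2 ⟨M, hM, List.mem_toFinset.2 hw⟩
  rw [expandR (𝓜.filter fun M => wtM m M = p) (fun M h => hM M (mem_filter.1 h).1)
    (fun M h => hm M (mem_filter.1 h).1) x Λ (fun M h => hmem M (mem_filter.1 h).1)]
  refine sum_eq_zero fun w hw => ?_
  have h1 : coR (𝓜.filter fun M => wtM m M = p) x w = 0 := by
    by_cases hwp : Pool.Agent.TH507.DS.wt m w = p
    · rw [← h w, coR, coR, sum_filter]
      refine sum_congr rfl fun M hM' => ?_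
      split_ifs with h
      · rfl
      · symm
        have h2 : (stl M).countP (· = w) = 0 := by
          rw [List.countP_eq_zero]
          intro v hv' hvw
          rw [decide_eq_true_eq] at hvw
          subst hvw
          exact h ((stl_wt m M v hv').symm.trans hwp)
        rw [h2, Nat.cast_zero, mul_zero]
    · rw [coR]
      refine sum_eq_zero fun M hM' => ?_
      have h2 : (stl M).countP (· = w) = 0 := by
        rw [List.countP_eq_zero]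
        intro v hv' hvw
        rw [decide_eq_true_eq] at hvw
        subst hvw
        exact hwp ((stl_wt m M v hv').trans (mem_filter.1 hM').2)
      rw [h2, Nat.cast_zero, mul_zero]
  rw [h1, zero_mul]

end Pool.Agent.Q217.MZ
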