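import Pool.Agent.Q217.MZ.Words
import Pool.Agent.TH456.TM.Inst

/-!
# Powers of `2 π i` and multiple zeta values with growing arguments (helper217)
-/

set_option autoImplicit false

namespace Pool.Agent.Q217.MZ

open Finset Filter Topology Pool.Agent.TH507.WD
open Pool.Agent.Y760.PZ (LM LM_pow)
open Pool.Agent.TH456.TM (measT_pi)

/-- `2 π i` -/
noncomputable def tpi : ℂ := 2 * Real.pi * Complex.I

/-- the sign of the power `i ^ j` -/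
def sg (j : ℕ) : ℤ := (-1) ^ (j / 2)

lemma I_even (j : ℕ) (h : j % 2 = 0) : Complex.I ^ j = ((sg j : ℤ) : ℂ) := by
  obtain ⟨m, rfl⟩ : ∃ m, j = 2 * m := ⟨j / 2, by omega⟩
  rw [pow_mul, Complex.I_sq, sg, show 2 * m / 2 = m by omega]
  push_cast
  rfl

lemma I_odd (j : ℕ) (h : j % 2 = 1) : Complex.I ^ j = ((sg j : ℤ) : ℂ) * Complex.I := by
  obtain ⟨m, rfl⟩ : ∃ m, j = 2 * m + 1 := ⟨j / 2, by omega⟩
  rw [pow_succ, pow_mul, Complex.I_sq, sg, show (2 * m + 1) / 2 = m by omega]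
  push_cast
  rfl

lemma sg_ne (j : ℕ) : sg j ≠ 0 := pow_ne_zero _ (by norm_num)

lemma sg_abs (j : ℕ) : |(sg j : ℝ)| = 1 := by
  rw [sg]
  push_cast
  rw [abs_pow, abs_neg, abs_one, one_pow]

/-- the coefficients of the real part (`e = 0`) and of the imaginary part (`e = 1`) -/
def part (D e : ℕ) (c : List (List (ℕ+ × ℕ)) → ℤ → ℤ) (M : List (List (ℕ+ × ℕ))) (j : Fin (2 * D + 1)) : ℤ :=
  if (j : ℕ) % 2 = e then sg j * 2 ^ (j : ℕ) * c M ((j : ℕ) - (D : ℤ)) else 0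

/-- the value of the combination -/
noncomputable def val2 (𝓜 : Finset (List (List (ℕ+ × ℕ)))) (D : ℕ)
    (c : List (List (ℕ+ × ℕ)) → ℤ → ℤ) (n : ℕ) : ℂ :=
  ∑ M ∈ 𝓜, ∑ k ∈ Icc (-(D : ℤ)) D, (c M k : ℂ) * tpi ^ k * (((M.map fun u => mz (ar n u)).prod : ℝ) : ℂ)

lemma tpi_ne : tpi ≠ 0 := by
  unfold tpi
  simp [Real.pi_ne_zero, Complex.I_ne_zero]

lemma tpi_norm : ‖tpi‖ = 2 * Real.pi := by
  unfold tpi
  simp [abs_of_pos Real.pi_pos]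

/-- the real and the imaginary part of `(2 π i) ^ D * value` -/
noncomputable def pt (𝓜 : Finset (List (List (ℕ+ × ℕ)))) (D e : ℕ)
    (c : List (List (ℕ+ × ℕ)) → ℤ → ℤ) (n : ℕ) : ℝ :=
  ∑ M ∈ 𝓜, (∑ j : Fin (2 * D + 1), (part D e c M j : ℝ) * Real.pi ^ (j : ℕ)) *
    (M.map fun u => mz (ar n u)).prod

lemma sum_shift (D : ℕ) (f : ℤ → ℂ) :
    ∑ k ∈ Icc (-(D : ℤ)) D, f k = ∑ j : Fin (2 * D + 1), f ((j : ℕ) - (D : ℤ)) := by
  rw [Fin.sum_univ_eq_sum_range (fun j : ℕ => f ((j : ℤ) - D)) (2 * D + 1)]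
  refine (sum_bij' (fun (j : ℕ) _ => (j : ℤ) - D) (fun (k : ℤ) _ => (k + D).toNat)
    ?_ ?_ ?_ ?_ ?_).symm
  · intro j hj
    rw [mem_range] at hj
    rw [mem_Icc]
    omega
  · intro k hk
    rw [mem_Icc] at hk
    rw [mem_range]
    omega
  · intro j hj
    show ((j : ℤ) - D + D).toNat = j
    omega
  · intro k hk
    rw [mem_Icc] at hk
    show (((k + D).toNat : ℕ) : ℤ) - D = k
    omega
  · intro j hj
    rfl

lemma val2_eq (𝓜 : Finset (List (List (ℕ+ × ℕ)))) (D : ℕ)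
    (c : List (List (ℕ+ × ℕ)) → ℤ → ℤ) (n : ℕ) :
    tpi ^ D * val2 𝓜 D c n = (pt 𝓜 D 0 c n : ℂ) + (pt 𝓜 D 1 c n : ℂ) * Complex.I := by
  unfold val2 pt
  push_cast
  rw [mul_sum, sum_mul, ← sum_add_distrib]
  refine sum_congr rfl fun M _ => ?_
  rw [sum_shift D fun k => (c M k : ℂ) * tpi ^ k * (((M.map fun u => mz (ar n u)).prod : ℝ) : ℂ)]
  simp only [mul_sum, sum_mul]
  rw [← sum_add_distrib]
  refine sum_congr rfl fun j _ => ?_
  have h1 : tpi ^ D * tpi ^ ((j : ℕ) - (D : ℤ)) = tpi ^ (j : ℕ) := by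
    rw [← zpow_natCast tpi D, ← zpow_add₀ tpi_ne, ← zpow_natCast tpi j]
    congr 1
    ring
  have h2 : tpi ^ (j : ℕ) = 2 ^ (j : ℕ) * (Real.pi : ℂ) ^ (j : ℕ) * Complex.I ^ (j : ℕ) := by
    unfold tpi
    rw [mul_pow, mul_pow]
  unfold part
  rcases Nat.mod_two_eq_zero_or_one (j : ℕ) with h | h
  · rw [if_pos h, if_neg (by omega)]
    calc tpi ^ D * (((c M ((j : ℕ) - (D : ℤ)) : ℤ) : ℂ) * tpi ^ ((j : ℕ) - (D : ℤ)) *
        (((M.map fun u => mz (ar n u)).prod : ℝ) : ℂ)) =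
        ((c M ((j : ℕ) - (D : ℤ)) : ℤ) : ℂ) * (tpi ^ D * tpi ^ ((j : ℕ) - (D : ℤ))) *
        (((M.map fun u => mz (ar n u)).prod : ℝ) : ℂ) := by ring
      _ = _ := by
        rw [h1, h2, I_even _ h]
        push_cast
        ring
  · rw [if_neg (by omega), if_pos h]
    calc tpi ^ D * (((c M ((j : ℕ) - (D : ℤ)) : ℤ) : ℂ) * tpi ^ ((j : ℕ) - (D : ℤ)) *
        (((M.map fun u => mz (ar n u)).prod : ℝ) : ℂ)) =
        ((c M ((j : ℕ) - (D : ℤ)) : ℤ) : ℂ) * (tpi ^ D * tpi ^ ((j : ℕ) - (D : ℤ))) *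
        (((M.map fun u => mz (ar n u)).prod : ℝ) : ℂ) := by ring
      _ = _ := by
        rw [h1, h2, I_odd _ h]
        push_cast
        ring

/-- **the lower bound** -/
theorem tate_main (𝓜 : Finset (List (List (ℕ+ × ℕ)))) (D : ℕ) :
    ∃ B C : ℝ, 1 < B ∧ 1 < C ∧ ∃ n0 : ℕ, ∀ n : ℕ, n0 ≤ n → ∀ c : List (List (ℕ+ × ℕ)) → ℤ → ℤ,
      (∀ M ∈ 𝓜, ∀ k, |(c M k : ℝ)| ≤ C ^ n) →
      (∃ w, ∃ k ∈ Icc (-(D : ℤ)) D, co 𝓜 (fun M => c M k) w ≠ 0) →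
      (B ^ n)⁻¹ < ‖val2 𝓜 D c n‖ := by
  obtain ⟨B1, C1, hB1, hC1, n1, hmain⟩ := words (fun j : Fin (2 * D + 1) => Real.pi ^ (j : ℕ))
    (LM_pow measT_pi (2 * D)) 𝓜
  obtain ⟨C, hC, hCC⟩ : ∃ C : ℝ, 1 < C ∧ C < C1 := exists_between hC1
  have hC0 : 0 < C := by linarith
  have hgrow : ∀ᶠ n : ℕ in atTop, (2 : ℝ) ^ (2 * D) * C ^ n ≤ C1 ^ n := by
    have h1 : Tendsto (fun n : ℕ => (C1 / C) ^ n) atTop atTop :=
      tendsto_pow_atTop_atTop_of_one_lt ((one_lt_div hC0).2 hCC)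
    filter_upwards [h1.eventually (eventually_ge_atTop ((2 : ℝ) ^ (2 * D)))] with n hn
    rw [div_pow, le_div_iff₀ (pow_pos hC0 n)] at hn
    exact hn
  obtain ⟨n2, hn2⟩ := eventually_atTop.1 hgrow
  set E : ℝ := (2 * Real.pi) ^ D with hE
  have hE1 : 1 ≤ E := one_le_pow₀ (by linarith [Real.pi_gt_three])
  have hE0 : 0 < E := by linarith
  refine ⟨B1 * E, C, by nlinarith, hC, n1 + n2 + 1, fun n hn c hc hw => ?_⟩
  obtain ⟨w, k, hk, hwk⟩ := hw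
  rw [mem_Icc] at hk
  obtain ⟨j, hj⟩ : ∃ j : ℕ, (j : ℤ) = k + D := ⟨(k + D).toNat, by omega⟩
  have hjD : j < 2 * D + 1 := by omega
  have hkj : k = (j : ℤ) - D := by omega
  -- the part with a nonzero coefficient
  have h1 := hmain n (by omega) (fun M => part D (j % 2) c M) (by
    intro M hM i
    have hi := i.2
    have h2 : (2 : ℝ) ^ (i : ℕ) ≤ 2 ^ (2 * D) := pow_le_pow_right₀ (by norm_num) (by omega)
    have hpos : (0 : ℝ) < C ^ n := pow_pos hC0 n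
    unfold part
    split_ifs with h
    · push_cast
      rw [abs_mul, abs_mul, sg_abs, one_mul, abs_of_pos (by positivity : (0 : ℝ) < 2 ^ (i : ℕ))]
      exact (mul_le_mul h2 (hc M hM _) (abs_nonneg _) (by positivity)).trans (hn2 n (by omega))
    · simp only [Int.cast_zero, abs_zero]
      exact (by positivity : (0 : ℝ) ≤ C1 ^ n)) ⟨w, ⟨j, hjD⟩, by
    have h3 : co 𝓜 (fun M => part D (j % 2) c M ⟨j, hjD⟩) w =
        sg j * 2 ^ j * co 𝓜 (fun M => c M k) w := by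
      rw [co, co, mul_sum]
      refine sum_congr rfl fun M _ => ?_
      unfold part
      rw [if_pos rfl, hkj]
      ring
    rw [h3]
    exact mul_ne_zero (mul_ne_zero (sg_ne j) (pow_ne_zero _ (by norm_num))) hwk⟩
  have h2 : |pt 𝓜 D (j % 2) c n| ≤ ‖tpi ^ D * val2 𝓜 D c n‖ := by
    rw [val2_eq]
    have hre : ((pt 𝓜 D 0 c n : ℂ) + (pt 𝓜 D 1 c n : ℂ) * Complex.I).re = pt 𝓜 D 0 c n := by simp
    have him : ((pt 𝓜 D 0 c n : ℂ) + (pt 𝓜 D 1 c n : ℂ) * Complex.I).im = pt 𝓜 D 1 c n := by simp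
    rcases Nat.mod_two_eq_zero_or_one j with h | h
    · rw [h]
      conv_lhs => rw [← hre]
      exact Complex.abs_re_le_norm _
    · rw [h]
      conv_lhs => rw [← him]
      exact Complex.abs_im_le_norm _
  rw [norm_mul, norm_pow, tpi_norm] at h2
  have h3 : (B1 ^ n)⁻¹ < E * ‖val2 𝓜 D c n‖ := lt_of_lt_of_le h1 h2
  have hB0 : 0 < B1 ^ n := pow_pos (by linarith) n
  rw [mul_pow, mul_inv]
  have h4 : (E ^ n)⁻¹ ≤ E⁻¹ := by
    rw [inv_le_inv₀ (pow_pos hE0 n) hE0]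
    exact le_self_pow₀ hE1 (by omega)
  have h5 : (B1 ^ n)⁻¹ * E⁻¹ < ‖val2 𝓜 D c n‖ := by
    rw [← div_eq_mul_inv, div_lt_iff₀ hE0]
    linarith
  refine lt_of_le_of_lt ?_ h5
  exact mul_le_mul_of_nonneg_left h4 (by positivity)

/-- the value is zero if all the coefficients vanish -/
theorem tate_zero {n : ℕ} (hn : 2 ≤ n) (𝓜 : Finset (List (List (ℕ+ × ℕ)))) (D : ℕ)
    (c : List (List (ℕ+ × ℕ)) → ℤ → ℤ)
    (h : ∀ w, ∀ k ∈ Icc (-(D : ℤ)) D, co 𝓜 (fun M => c M k) w = 0) : val2 𝓜 D c n = 0 := by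
  unfold val2
  rw [sum_comm]
  refine sum_eq_zero fun k hk => ?_
  have h1 := st_zero hn 𝓜 (fun M => c M k) fun w => h w k hk
  have h2 : ∑ M ∈ 𝓜, (c M k : ℂ) * tpi ^ k * (((M.map fun u => mz (ar n u)).prod : ℝ) : ℂ) =
      tpi ^ k * ((∑ M ∈ 𝓜, (c M k : ℝ) * (M.map fun u => mz (ar n u)).prod : ℝ) : ℂ) := by
    push_cast
    rw [mul_sum]
    refine sum_congr rfl fun M _ => ?_
    ring
  rw [h2, h1]
  simp

end Pool.Agent.Q217.MZ
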