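import Pool.Agent.TH507.WD.E
import Pool.Agent.Y760.PZ.Vec

/-!
# Multiple zeta values with growing arguments, coefficients in the span of numbers with a measure of
linear independence (helper217)

The words functions of `Pool.Agent.TH507.WD` (helper507) in the estimate `Pool.Agent.Y760.PZ.core_v` (helper760).
-/

set_option autoImplicit false

namespace Pool.Agent.Q217.MZ

open Finset Filter Topology Pool.Agent.TH507.WD
open Pool.Agent.TH507.ZS (dser)
open Pool.Agent.Y760.PZ (LM IntW core_v rank)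

/-- the sum of the second entries -/
def bsum (w : List (ℕ+ × ℕ)) : ℕ := (w.map fun x => x.2).sum

lemma T_int (w : List (ℕ+ × ℕ)) : ∀ m K : ℕ, ∃ z : ℤ, (z : ℚ) = T 1 w m K * (K : ℚ) ^ bsum w := by
  induction w with
  | nil =>
    intro m K
    rw [T_nil]
    refine ⟨if K = 1 then 1 else 0, ?_⟩
    split_ifs with h
    · simp [bsum]
    · simp
  | cons x l ih =>
    intro m K
    rw [T_cons, sum_mul]
    have h1 : ∀ j ∈ Ico 1 m, ∃ z : ℤ, (z : ℚ) = (if j ^ (x.1 : ℕ) ∣ K then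
        T 1 l j (K / j ^ (x.1 : ℕ)) / (j : ℚ) ^ x.2 else 0) * (K : ℚ) ^ bsum (x :: l) := by
      intro j hj
      rw [mem_Ico] at hj
      split_ifs with hd
      · obtain ⟨R, hR⟩ := hd
        obtain ⟨z, hz⟩ := ih j R
        have hj0 : (j : ℚ) ≠ 0 := by
          have : j ≠ 0 := by omega
          exact_mod_cast this
        have hb : bsum (x :: l) = bsum l + x.2 := by
          rw [bsum, bsum, List.map_cons, List.sum_cons, add_comm]
        have hjK : j ∣ K := by
          rw [hR]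
          exact dvd_mul_of_dvd_left (dvd_pow_self _ x.1.ne_zero) _
        obtain ⟨S, hS⟩ := hjK
        refine ⟨z * ((j : ℤ) ^ (x.1 : ℕ)) ^ bsum l * (S : ℤ) ^ x.2, ?_⟩
        have hdiv : K / j ^ (x.1 : ℕ) = R := by
          rw [hR]
          exact Nat.mul_div_cancel_left _ (pow_pos (by omega) _)
        rw [hdiv, hb, pow_add]
        have e1 : (K : ℚ) ^ bsum l = ((j : ℚ) ^ (x.1 : ℕ)) ^ bsum l * (R : ℚ) ^ bsum l := by
          rw [hR]
          push_cast
          rw [mul_pow]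
        have e2 : (K : ℚ) ^ x.2 = (j : ℚ) ^ x.2 * (S : ℚ) ^ x.2 := by
          rw [hS]
          push_cast
          rw [mul_pow]
        rw [e1, e2]
        push_cast
        rw [hz]
        field_simp
      · exact ⟨0, by simp⟩
    choose! z hz using h1
    refine ⟨∑ j ∈ Ico 1 m, z j, ?_⟩
    push_cast
    exact sum_congr rfl fun j hj => hz j hj

/-- the arithmetic function of a word -/
def cfa (w : List (ℕ+ × ℕ)) : ArithmeticFunction ℚ := ⟨cf 1 w, cf_zero w⟩

lemma cfa_apply (w : List (ℕ+ × ℕ)) (k : ℕ) : cfa w k = cf 1 w k := rfl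

lemma cfa_int (w : List (ℕ+ × ℕ)) {W : ℕ} (hW : bsum w ≤ W) : IntW W (cfa w) := by
  intro k
  obtain ⟨z, hz⟩ := T_int w (k + 1) k
  refine ⟨z * (k : ℤ) ^ (W - bsum w), ?_⟩
  push_cast
  rw [hz, cfa_apply, cf, mul_assoc, ← pow_add]
  congr 2
  omega

/-- **the main estimate**: a combination of products of multiple zeta values at growing arguments, with coefficients in
the lattice spanned by numbers with a measure of linear independence -/
theorem words {ι : Type} [Fintype ι] (θ : ι → ℝ) (hθ : LM θ) (𝓜 : Finset (List (List (ℕ+ × ℕ)))) :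
    ∃ B C : ℝ, 1 < B ∧ 1 < C ∧ ∃ n0 : ℕ, ∀ n : ℕ, n0 ≤ n → ∀ c : List (List (ℕ+ × ℕ)) → ι → ℤ,
      (∀ M ∈ 𝓜, ∀ i, |(c M i : ℝ)| ≤ C ^ n) → (∃ w i, co 𝓜 (fun M => c M i) w ≠ 0) →
      (B ^ n)⁻¹ < |∑ M ∈ 𝓜, (∑ i, (c M i : ℝ) * θ i) * (M.map fun u => mz (ar n u)).prod| := by
  classical
  set Λ : Finset (List (ℕ+ × ℕ)) := insert [] (𝓜.biUnion fun M => (stl M).toFinset) with hΛ
  have hmem : ∀ M ∈ 𝓜, ∀ w ∈ stl M, w ∈ Λ := fun M hM w hw => by
    rw [hΛ]
    exact mem_insert_of_mem (mem_biUnion.2 ⟨M, hM, List.mem_toFinset.2 hw⟩)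
  set G : Λ → ArithmeticFunction ℚ := fun w => cfa w.1 with hG
  set A : ℕ := ∑ w ∈ Λ, (2 ^ w.length + w.length) with hA
  have hAw : ∀ w ∈ Λ, 2 ^ w.length + w.length ≤ A := fun w hw =>
    single_le_sum (f := fun w : List (ℕ+ × ℕ) => 2 ^ w.length + w.length)
      (fun _ _ => Nat.zero_le _) hw
  set W : ℕ := ∑ w ∈ Λ, bsum w with hW
  have hWw : ∀ w ∈ Λ, bsum w ≤ W := fun w hw =>
    single_le_sum (f := fun w : List (ℕ+ × ℕ) => bsum w) (fun _ _ => Nat.zero_le _) hw
  -- independence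
  have hind : ∀ c : Λ → ℚ, (∀ k, 1 ≤ k → ∑ j, c j * G j k = 0) → c = 0 := by
    intro y hy
    have h1 := cf1_ind (Λ.erase []) (by simp) (fun w => if hw : w ∈ Λ then y ⟨w, hw⟩ else 0) 1 2 le_rfl (by
      intro K hK _
      have h2 := hy K (by omega)
      refine Eq.trans ?_ h2
      have h3 : ∑ j : Λ, y j * G j K = ∑ w ∈ Λ, (if hw : w ∈ Λ then y ⟨w, hw⟩ else 0) * cf 1 w K := by
        rw [← sum_coe_sort Λ]
        refine sum_congr rfl fun w _ => ?_
        rw [dif_pos w.2]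
        rfl
      rw [h3, ← add_sum_erase Λ _ (mem_insert_self _ _)]
      have h4 : cf 1 ([] : List (ℕ+ × ℕ)) K = 0 := by
        rw [cf, T_nil, if_neg (by omega)]
      rw [h4, mul_zero, zero_add])
    have h5 : ∀ w : Λ, w.1 ≠ [] → y w = 0 := by
      intro w hw
      have h6 := h1 w.1 (mem_erase.2 ⟨hw, w.2⟩)
      rw [dif_pos w.2] at h6
      exact h6
    funext w
    by_cases hw : w.1 = []
    · have h6 := hy 1 le_rfl
      rw [sum_eq_single w] at h6
      · have h7 : G w 1 = 1 := by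
          show cf 1 w.1 1 = 1
          rw [hw, cf, T_nil, if_pos rfl]
        rw [h7, mul_one] at h6
        exact h6
      · intro v _ hv
        rw [h5 v (fun h => hv (Subtype.ext (h.trans hw.symm))), zero_mul]
      · intro h
        exact absurd (mem_univ _) h
    · exact h5 w hw
  obtain ⟨K, hK1, hK⟩ := rank G hind
  obtain ⟨ε, B, C1, hε, hB, hC1, n1, hmain⟩ := core_v Λ ι θ hθ K A hK1
  -- the growth of the coefficients
  set D : ℝ := 1 + ∑ M ∈ 𝓜, ((stl M).length : ℝ) with hD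
  have hD0 : 1 ≤ D := by
    rw [hD]
    have : 0 ≤ ∑ M ∈ 𝓜, ((stl M).length : ℝ) := sum_nonneg fun _ _ => Nat.cast_nonneg _
    linarith
  obtain ⟨C, hC, hCC⟩ : ∃ C : ℝ, 1 < C ∧ C < C1 := exists_between hC1
  have hgrow : ∀ᶠ n : ℕ in atTop, D * C ^ n ≤ C1 ^ n := by
    have hC0 : 0 < C := by linarith
    have h1 : Tendsto (fun n : ℕ => (C1 / C) ^ n) atTop atTop :=
      tendsto_pow_atTop_atTop_of_one_lt ((one_lt_div hC0).2 hCC)
    filter_upwards [h1.eventually (eventually_ge_atTop D)] with n hn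
    rw [div_pow, le_div_iff₀ (pow_pos hC0 n)] at hn
    exact hn
  have hWn : ∀ᶠ n : ℕ in atTop, (W : ℝ) ≤ ε * n := by
    have h1 : Tendsto (fun n : ℕ => ε * (n : ℝ)) atTop atTop :=
      tendsto_natCast_atTop_atTop.const_mul_atTop hε
    exact h1.eventually (eventually_ge_atTop _)
  obtain ⟨n2, hn2⟩ := eventually_atTop.1 (hgrow.and hWn)
  refine ⟨B, C, hB, hC, n1 + n2 + A + 2, fun n hn c hc hw => ?_⟩
  obtain ⟨hg1, hg2⟩ := hn2 n (by omega)
  have hbound : ∀ w i, |(co 𝓜 (fun M => c M i) w : ℝ)| ≤ C1 ^ n := by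
    intro w i
    rw [co]
    push_cast
    calc |∑ M ∈ 𝓜, (c M i : ℝ) * ((stl M).countP (· = w) : ℝ)| ≤
        ∑ M ∈ 𝓜, |(c M i : ℝ) * ((stl M).countP (· = w) : ℝ)| := abs_sum_le_sum_abs _ _
      _ ≤ ∑ M ∈ 𝓜, C ^ n * ((stl M).length : ℝ) := by
        refine sum_le_sum fun M hM => ?_
        rw [abs_mul, Nat.abs_cast]
        refine mul_le_mul (hc M hM i) ?_ (Nat.cast_nonneg _) (by positivity)
        exact_mod_cast List.countP_le_length
      _ ≤ D * C ^ n := by
        rw [← mul_sum, hD, mul_comm]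
        refine mul_le_mul_of_nonneg_right (by linarith) (by positivity)
      _ ≤ C1 ^ n := hg1
  have h1 := hmain n (by omega) W hg2 G
    (fun w k hk => cf_bd w.1 ((Nat.le_add_right _ _).trans (hAw w.1 w.2))
      ((Nat.le_add_left _ _).trans (hAw w.1 w.2)) k hk)
    (fun w => cfa_int w.1 (hWw w.1 w.2)) hK (fun w i => co 𝓜 (fun M => c M i) w.1) (by
      obtain ⟨w, i, hwi⟩ := hw
      intro h0
      apply hwi
      by_cases hwΛ : w ∈ Λ
      · exact congrFun (congrFun h0 ⟨w, hwΛ⟩) i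
      · rw [co]
        refine sum_eq_zero fun M hM => ?_
        have h2 : (stl M).countP (· = w) = 0 := by
          rw [List.countP_eq_zero]
          intro v hv hvw
          rw [decide_eq_true_eq] at hvw
          subst hvw
          exact hwΛ (hmem M hM v hv)
        rw [h2, Nat.cast_zero, mul_zero]) (fun w i => hbound w.1 i)
  have h3 : ∀ w : Λ, dser (G w) n = mz (ar n w.1) := fun w =>
    dser_eq_mz w.1 (A := A) ((Nat.le_add_right _ _).trans (hAw w.1 w.2))
      ((Nat.le_add_left _ _).trans (hAw w.1 w.2)) (by omega)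
  simp only [h3] at h1
  refine lt_of_lt_of_eq h1 ?_
  congr 1
  -- the expansion
  have e1 : ∀ i, ∑ M ∈ 𝓜, (c M i : ℝ) * (M.map fun u => mz (ar n u)).prod =
      ∑ w ∈ Λ, (co 𝓜 (fun M => c M i) w : ℝ) * mz (ar n w) := fun i =>
    expand (by omega) 𝓜 (fun M => c M i) Λ hmem
  have e2 : ∑ M ∈ 𝓜, (∑ i, (c M i : ℝ) * θ i) * (M.map fun u => mz (ar n u)).prod =
      ∑ i, θ i * ∑ M ∈ 𝓜, (c M i : ℝ) * (M.map fun u => mz (ar n u)).prod := by
    simp only [mul_sum, sum_mul]
    rw [sum_comm]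
    refine sum_congr rfl fun i _ => sum_congr rfl fun M _ => ?_
    ring
  rw [e2]
  simp only [e1]
  rw [sum_coe_sort Λ (fun w => (∑ i, (co 𝓜 (fun M => c M i) w : ℝ) * θ i) * mz (ar n w))]
  simp only [mul_sum, sum_mul]
  rw [sum_comm]
  refine sum_congr rfl fun i _ => sum_congr rfl fun w _ => ?_
  ring

end Pool.Agent.Q217.MZ
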